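import Mathlib

set_option autoImplicit false

/-!
# Counting number fields with the S_n-orbit determinant method. Definitions

Shared definitions of all the modules `Pool.Agent.SNO.*`.
-/

namespace Pool.Agent.SNO

open MvPolynomial

/-- weighted degree of an exponent vector -/
def wd {σ : Type} [Fintype σ] (w : σ → ℕ) (a : σ →₀ ℕ) : ℕ := ∑ j, w j * a j

/-- weight of the power sum with exponent vector `a`; at least one -/
def vw {σ : Type} [Fintype σ] (w : σ → ℕ) (a : σ →₀ ℕ) : ℕ := max 1 (wd w a)

/-- weight of a monomial in variables of weights `wt` -/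
def mw {E : Type} (wt : E → ℕ) (m : E →₀ ℕ) : ℕ := m.sum fun a e => e * wt a

/-- all monomials of `f` have weight at most `d` -/
def WL {E k : Type} [CommRing k] (wt : E → ℕ) (d : ℕ) (f : MvPolynomial E k) : Prop :=
  ∀ m ∈ f.support, mw wt m ≤ d

/-- the coordinates of the point `z + ∑ tᵢ eᵢ` with indeterminates `tᵢ` -/
noncomputable def pt {σ I A : Type} [Fintype I] [CommRing A] (z : σ → A) (e : I → σ → A) (j : σ) :
    MvPolynomial I A := C (z j) + ∑ i, X i * C (e i j)

/-- apply an additive map to all coefficients -/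
noncomputable def ptr {I A k : Type} [CommRing A] [CommRing k] (τ : A →+ k)
    (F : MvPolynomial I A) : MvPolynomial I k := ∑ α ∈ F.support, monomial α (τ (coeff α F))

/-- `ptr` as an additive map -/
noncomputable def ptrH {I A k : Type} [CommRing A] [CommRing k] (τ : A →+ k) :
    MvPolynomial I A →+ MvPolynomial I k where
  toFun := ptr τ
  map_zero' := by simp [ptr]
  map_add' F G := by
    classical
    ext α
    simp only [ptr, coeff_sum, coeff_add, coeff_monomial]
    rw [Finset.sum_ite_eq' _ α, Finset.sum_ite_eq' _ α, Finset.sum_ite_eq' _ α]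
    simp only [mem_support_iff, ne_eq, coeff_add, ite_not]
    split_ifs with h1 h2 h3 h3 h2 h3 h3 <;> simp_all [← map_add]

/-- the power sum with exponent vector `a` of the point `z + ∑ tᵢ eᵢ` -/
noncomputable def ps {σ I A k : Type} [Fintype σ] [Fintype I] [CommRing A] [CommRing k] (τ : A →+ k)
    (z : σ → A) (e : I → σ → A) (a : σ →₀ ℕ) : MvPolynomial I k := ptr τ (∏ j, pt z e j ^ a j)

/-- expansion in `t` of a polynomial in the power sums at the point `z + ∑ tᵢ eᵢ` -/
noncomputable def ex {σ I A k : Type} [Fintype σ] [Fintype I] [CommRing A] [CommRing k] (τ : A →+ k)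
    (z : σ → A) (e : I → σ → A) : MvPolynomial (σ →₀ ℕ) k →ₐ[k] MvPolynomial I k :=
  aeval (ps τ z e)

/-- the values of the power sums at the point `z` -/
def pv {σ A k : Type} [Fintype σ] [CommRing A] [CommRing k] (τ : A →+ k) (z : σ → A)
    (a : σ →₀ ℕ) : k := τ (∏ j, z j ^ a j)

/-- the polynomials of weight at most `d` in the power sums realise all jets of `v`-weight `< b`
at the point `z` in the directions `e` -/
def JGood {σ I A k : Type} [Fintype σ] [Fintype I] [CommRing A] [CommRing k] (τ : A →+ k)
    (w : σ → ℕ) (v : I → ℕ) (d b : ℕ) (z : σ → A) (e : I → σ → A) : Prop :=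
  ∀ c : (I →₀ ℕ) → k, ∃ f : MvPolynomial (σ →₀ ℕ) k, WL (vw w) d f ∧
    ∀ α : I →₀ ℕ, wd v α < b → coeff α (ex τ z e f) = c α

/-- the exponent vectors of `v`-weight less than `b` -/
noncomputable def JS {I : Type} [Fintype I] (v : I → ℕ) (b : ℕ) : Finset (I →₀ ℕ) :=
  haveI := Classical.dec {α : I →₀ ℕ | wd v α < b}.Finite
  if h : {α : I →₀ ℕ | wd v α < b}.Finite then h.toFinset else ∅

/-- version of `JGood` with a unit minor: there are monomials of weight at most `d` in the power
sums whose matrix of jet coefficients has a unit as determinant -/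
def MGood {σ I A k : Type} [Fintype σ] [Fintype I] [CommRing A] [CommRing k] (τ : A →+ k)
    (w : σ → ℕ) (v : I → ℕ) (d b : ℕ) (z : σ → A) (e : I → σ → A) : Prop :=
  ∃ m : JS v b → ((σ →₀ ℕ) →₀ ℕ), (∀ α, mw (vw w) (m α) ≤ d) ∧
    IsUnit (Matrix.det (Matrix.of fun α β : JS v b =>
      coeff (β : I →₀ ℕ) (ex τ z e (monomial (m α) 1))))

/-- the sum of the coordinates -/
def sm (n : ℕ) (Ω : Type) [CommRing Ω] : (Fin n → Ω) →+ Ω where
  toFun u := ∑ i, u i
  map_zero' := by simp
  map_add' u u' := by simp [Finset.sum_add_distrib]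

/-- the trace as an additive map -/
noncomputable def tra (k A : Type) [CommRing k] [CommRing A] [Algebra k A] : A →+ k :=
  (Algebra.trace k A).toAddMonoidHom

/-- the label of the index `i`: the binary digits of `i`, digit number `j` -/
def lab {n : ℕ} (i : Fin n) (j : ℕ) : ℕ := (i : ℕ) / 2 ^ j % 2

/-- the weights of the jets: `wx * (i / 2 ^ ρ + 1)` for the variable `none` and twice the weight
for the labels -/
def vv (n ρ : ℕ) (w : Option (Fin ρ) → ℕ) : Option (Fin ρ) × Fin n → ℕ
  | (none, i) => w none * ((i : ℕ) / 2 ^ ρ + 1)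
  | (some j, _) => 2 * w (some j)

end Pool.Agent.SNO
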