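import Mathlib
import Pool.Agent.SNO.Defs

set_option autoImplicit false

/-!
# Basic lemmas
-/

namespace Pool.Agent.SNO

open MvPolynomial

section weights

variable {E k : Type} [CommRing k]

lemma mw_zero (wt : E → ℕ) : mw wt 0 = 0 := by simp [mw]

lemma mw_add (wt : E → ℕ) (m m' : E →₀ ℕ) : mw wt (m + m') = mw wt m + mw wt m' := by
  classical
  unfold mw
  exact Finsupp.sum_add_index' (by simp) (by intro a b c; ring)

lemma mw_single (wt : E → ℕ) (a : E) (n : ℕ) : mw wt (Finsupp.single a n) = n * wt a := by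
  unfold mw; simp

lemma WL.mono {wt : E → ℕ} {d d' : ℕ} (h : d ≤ d') {f : MvPolynomial E k} (hf : WL wt d f) :
    WL wt d' f := fun m hm => (hf m hm).trans h

lemma WL.zero (wt : E → ℕ) (d : ℕ) : WL wt d (0 : MvPolynomial E k) := by
  intro m hm; simp at hm

lemma WL.add {wt : E → ℕ} {d : ℕ} {f g : MvPolynomial E k} (hf : WL wt d f) (hg : WL wt d g) :
    WL wt d (f + g) := by
  classical
  intro m hm
  rcases Finset.mem_union.1 (support_add hm) with h | h
  · exact hf m h
  · exact hg m h

lemma WL.neg {wt : E → ℕ} {d : ℕ} {f : MvPolynomial E k} (hf : WL wt d f) : WL wt d (-f) := by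
  intro m hm
  rw [support_neg] at hm
  exact hf m hm

lemma WL.sub {wt : E → ℕ} {d : ℕ} {f g : MvPolynomial E k} (hf : WL wt d f) (hg : WL wt d g) :
    WL wt d (f - g) := by
  rw [sub_eq_add_neg]; exact hf.add hg.neg

lemma WL.mul {wt : E → ℕ} {d d' : ℕ} {f g : MvPolynomial E k} (hf : WL wt d f)
    (hg : WL wt d' g) : WL wt (d + d') (f * g) := by
  classical
  intro m hm
  obtain ⟨a, ha, b, hb, rfl⟩ := Finset.mem_add.1 (support_mul f g hm)
  rw [mw_add]
  exact add_le_add (hf a ha) (hg b hb)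

lemma WL.C (wt : E → ℕ) (c : k) : WL wt 0 (MvPolynomial.C c : MvPolynomial E k) := by
  classical
  intro m hm
  rw [mem_support_iff, coeff_C] at hm
  have : (0 : E →₀ ℕ) = m := by
    by_contra h
    exact hm (if_neg h)
  rw [← this, mw_zero]

lemma WL.smul {wt : E → ℕ} {d : ℕ} (c : k) {f : MvPolynomial E k} (hf : WL wt d f) :
    WL wt d (c • f) := by
  rw [smul_eq_C_mul]
  have := (WL.C wt c).mul hf
  rwa [zero_add] at this

lemma WL.monomial {wt : E → ℕ} {d : ℕ} {m : E →₀ ℕ} (h : mw wt m ≤ d) (c : k) :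
    WL wt d (MvPolynomial.monomial m c) := by
  classical
  intro m' hm'
  rw [mem_support_iff, coeff_monomial] at hm'
  have : m = m' := by
    by_contra h'
    exact hm' (if_neg h')
  rw [← this]; exact h

lemma WL.X (wt : E → ℕ) (a : E) : WL wt (wt a) (MvPolynomial.X a : MvPolynomial E k) := by
  rw [MvPolynomial.X]
  exact WL.monomial (by rw [mw_single, one_mul]) 1

lemma WL.sum {ι : Type*} {wt : E → ℕ} {d : ℕ} (s : Finset ι) (f : ι → MvPolynomial E k)
    (h : ∀ i ∈ s, WL wt d (f i)) : WL wt d (∑ i ∈ s, f i) := by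
  classical
  induction s using Finset.induction_on with
  | empty => simpa using WL.zero wt d
  | insert a s ha ih =>
    rw [Finset.sum_insert ha]
    exact (h a (Finset.mem_insert_self a s)).add
      (ih fun i hi => h i (Finset.mem_insert_of_mem hi))

lemma WL.prod {ι : Type*} {wt : E → ℕ} (s : Finset ι) (d : ι → ℕ) (f : ι → MvPolynomial E k)
    (h : ∀ i ∈ s, WL wt (d i) (f i)) : WL wt (∑ i ∈ s, d i) (∏ i ∈ s, f i) := by
  classical
  induction s using Finset.induction_on with
  | empty => simpa using WL.C wt (1 : k)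
  | insert a s ha ih =>
    rw [Finset.prod_insert ha, Finset.sum_insert ha]
    exact (h a (Finset.mem_insert_self a s)).mul
      (ih fun i hi => h i (Finset.mem_insert_of_mem hi))

lemma WL.map {k' : Type} [CommRing k'] {wt : E → ℕ} {d : ℕ} (φ : k →+* k')
    {f : MvPolynomial E k} (hf : WL wt d f) : WL wt d (MvPolynomial.map φ f) := by
  intro m hm
  exact hf m (support_map_subset φ f hm)

/-- the exponent vectors of bounded weight form a finite set -/
lemma finite_wd_lt {I : Type} [Fintype I] (v : I → ℕ) (hv : ∀ i, 1 ≤ v i) (b : ℕ) :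
    {α : I →₀ ℕ | wd v α < b}.Finite := by
  classical
  let s : Finset (I → ℕ) := Fintype.piFinset fun _ => Finset.range b
  refine Set.Finite.subset (s := (fun f : I → ℕ => Finsupp.equivFunOnFinite.symm f) '' (s : Set _))
    (s.finite_toSet.image _) ?_
  intro α hα
  refine ⟨fun i => α i, ?_, ?_⟩
  · simp only [s, Finset.mem_coe, Fintype.mem_piFinset, Finset.mem_range]
    intro i
    have h1 : v i * α i ≤ wd v α := by
      unfold wd
      exact Finset.single_le_sum (f := fun i => v i * α i) (fun _ _ => Nat.zero_le _)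
        (Finset.mem_univ i)
    have h2 : α i ≤ v i * α i := Nat.le_mul_of_pos_left _ (hv i)
    exact lt_of_le_of_lt (h2.trans h1) hα
  · ext i; rfl

/-- the monomials of bounded weight form a finite set -/
lemma finite_mw_le (wt : E → ℕ) (hwt : ∀ a, 1 ≤ wt a) (hfin : ∀ t, {a | wt a ≤ t}.Finite)
    (d : ℕ) : {m : E →₀ ℕ | mw wt m ≤ d}.Finite := by
  classical
  set s : Finset E := (hfin d).toFinset with hs
  have key : ∀ m : E →₀ ℕ, mw wt m ≤ d → m.support ⊆ s ∧ ∀ a, m a ≤ d := by
    intro m hm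
    have h1 : ∀ a ∈ m.support, m a * wt a ≤ d := by
      intro a ha
      refine le_trans ?_ hm
      unfold mw Finsupp.sum
      exact Finset.single_le_sum (f := fun a => m a * wt a) (fun _ _ => Nat.zero_le _) ha
    constructor
    · intro a ha
      have h2 := h1 a ha
      have h3 : 1 ≤ m a := Nat.one_le_iff_ne_zero.2 (Finsupp.mem_support_iff.1 ha)
      rw [hs, Set.Finite.mem_toFinset]
      exact (Nat.le_mul_of_pos_left _ h3).trans h2
    · intro a
      by_cases ha : a ∈ m.support
      · exact (Nat.le_mul_of_pos_right _ (hwt a)).trans (h1 a ha)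
      · rw [Finsupp.notMem_support_iff.1 ha]; exact Nat.zero_le _
  refine Set.Finite.subset (s.finsupp fun _ => Finset.range (d + 1)).finite_toSet ?_
  intro m hm
  obtain ⟨h1, h2⟩ := key m hm
  simp only [Finset.mem_coe, Finset.mem_finsupp_iff]
  exact ⟨h1, fun a _ => Finset.mem_range.2 (Nat.lt_succ_of_le (h2 a))⟩

lemma mem_JS {I : Type} [Fintype I] (v : I → ℕ) (hv : ∀ i, 1 ≤ v i) (b : ℕ) (α : I →₀ ℕ) :
    α ∈ JS v b ↔ wd v α < b := by
  unfold JS
  rw [dif_pos (finite_wd_lt v hv b), Set.Finite.mem_toFinset]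
  rfl

end weights

section coefficientwise

variable {I A k : Type} [CommRing A] [CommRing k]

@[simp] lemma coeff_ptr (τ : A →+ k) (F : MvPolynomial I A) (α : I →₀ ℕ) :
    coeff α (ptr τ F) = τ (coeff α F) := by
  classical
  unfold ptr
  rw [coeff_sum]
  simp only [coeff_monomial]
  rw [Finset.sum_ite_eq' F.support α]
  split_ifs with h
  · rfl
  · rw [notMem_support_iff.1 h, map_zero]

lemma ptr_add (τ : A →+ k) (F G : MvPolynomial I A) : ptr τ (F + G) = ptr τ F + ptr τ G := by
  ext α; simp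

lemma ptr_zero (τ : A →+ k) : ptr τ (0 : MvPolynomial I A) = 0 := by
  ext α; simp

lemma ptr_sum {ι : Type*} (τ : A →+ k) (s : Finset ι) (F : ι → MvPolynomial I A) :
    ptr τ (∑ i ∈ s, F i) = ∑ i ∈ s, ptr τ (F i) := by
  ext α; simp [coeff_sum]

lemma ptr_monomial (τ : A →+ k) (α : I →₀ ℕ) (a : A) :
    ptr τ (monomial α a) = monomial α (τ a) := by
  classical
  ext β
  rw [coeff_ptr, coeff_monomial, coeff_monomial]
  split_ifs <;> simp

lemma map_ptr {A' k' : Type} [CommRing A'] [CommRing k'] (τ : A →+ k) (τ' : A' →+ k')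
    (φ : k →+* k') (Φ : A →+* A') (h : ∀ a, φ (τ a) = τ' (Φ a)) (F : MvPolynomial I A) :
    map φ (ptr τ F) = ptr τ' (map Φ F) := by
  ext α
  simp [coeff_map, h]

/-- evaluation of `ptr` for a linear functional -/
lemma eval_ptr [Algebra k A] (τ : A →+ k) (hτ : ∀ (c : k) (a : A), τ (c • a) = c * τ a)
    (F : MvPolynomial I A) (t : I → k) :
    eval t (ptr τ F) = τ (eval (fun i => algebraMap k A (t i)) F) := by
  classical
  induction F using MvPolynomial.induction_on' with
  | add F G hF hG => rw [ptr_add, map_add, map_add, map_add, hF, hG]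
  | monomial α a =>
    rw [ptr_monomial, eval_monomial, eval_monomial]
    have h1 : (α.prod fun i e => algebraMap k A (t i) ^ e) =
        algebraMap k A (α.prod fun i e => t i ^ e) := by
      rw [Finsupp.prod, Finsupp.prod, map_prod]
      simp
    rw [h1, mul_comm a, ← Algebra.smul_def, hτ, mul_comm]

end coefficientwise

section base

variable {σ I A k A' k' : Type} [Fintype I] [CommRing A] [CommRing k] [CommRing A'] [CommRing k']

lemma map_pt (Φ : A →+* A') (z : σ → A) (e : I → σ → A) (j : σ) :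
    map Φ (pt z e j) = pt (fun j => Φ (z j)) (fun i j => Φ (e i j)) j := by
  simp [pt]

lemma map_ps [Fintype σ] (τ : A →+ k) (τ' : A' →+ k') (φ : k →+* k') (Φ : A →+* A')
    (h : ∀ a, φ (τ a) = τ' (Φ a)) (z : σ → A) (e : I → σ → A) (a : σ →₀ ℕ) :
    map φ (ps τ z e a) = ps τ' (fun j => Φ (z j)) (fun i j => Φ (e i j)) a := by
  unfold ps
  rw [map_ptr τ τ' φ Φ h, map_prod]
  simp only [map_pow, map_pt]

/-- base change for the expansion of polynomials in the power sums -/
lemma map_ex [Fintype σ] (τ : A →+ k) (τ' : A' →+ k') (φ : k →+* k') (Φ : A →+* A')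
    (h : ∀ a, φ (τ a) = τ' (Φ a)) (z : σ → A) (e : I → σ → A) (f : MvPolynomial (σ →₀ ℕ) k) :
    map φ (ex τ z e f) = ex τ' (fun j => Φ (z j)) (fun i j => Φ (e i j)) (map φ f) := by
  induction f using MvPolynomial.induction_on with
  | C a => simp [ex, algebraMap_eq]
  | add p q hp hq => simp only [map_add, hp, hq]
  | mul_X p a hp =>
    simp only [map_mul, hp]
    congr 1
    simp [ex, map_ps τ τ' φ Φ h]

lemma coeff_ex_map [Fintype σ] (τ : A →+ k) (τ' : A' →+ k') (φ : k →+* k') (Φ : A →+* A')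
    (h : ∀ a, φ (τ a) = τ' (Φ a)) (z : σ → A) (e : I → σ → A) (f : MvPolynomial (σ →₀ ℕ) k)
    (α : I →₀ ℕ) :
    coeff α (ex τ' (fun j => Φ (z j)) (fun i j => Φ (e i j)) (map φ f)) =
      φ (coeff α (ex τ z e f)) := by
  rw [← map_ex τ τ' φ Φ h, coeff_map]

/-- the value of the power sums at `z + ∑ tᵢ eᵢ` -/
lemma eval_ps [Fintype σ] [Algebra k A] (τ : A →+ k)
    (hτ : ∀ (c : k) (a : A), τ (c • a) = c * τ a) (z : σ → A) (e : I → σ → A) (t : I → k)
    (a : σ →₀ ℕ) :
    eval t (ps τ z e a) = pv τ (fun j => z j + ∑ i, t i • e i j) a := by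
  unfold ps pv
  rw [eval_ptr τ hτ, map_prod]
  congr 1
  refine Finset.prod_congr rfl fun j _ => ?_
  rw [map_pow]
  congr 1
  simp [pt, Algebra.smul_def]

/-- the value of a polynomial in the power sums at `z + ∑ tᵢ eᵢ` -/
lemma eval_ex [Fintype σ] [Algebra k A] (τ : A →+ k)
    (hτ : ∀ (c : k) (a : A), τ (c • a) = c * τ a) (z : σ → A) (e : I → σ → A) (t : I → k)
    (f : MvPolynomial (σ →₀ ℕ) k) :
    eval t (ex τ z e f) = eval (pv τ fun j => z j + ∑ i, t i • e i j) f := by
  induction f using MvPolynomial.induction_on with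
  | C a => simp [ex, algebraMap_eq]
  | add p q hp hq => simp only [map_add, hp, hq]
  | mul_X p a hp =>
    simp only [map_mul, hp]
    congr 1
    simp [ex, eval_ps τ hτ]

omit [Fintype I] in
@[simp] lemma ptrH_apply (τ : A →+ k) (F : MvPolynomial I A) : ptrH τ F = ptr τ F := rfl

/-- specialisation of parameters: the jets of a family depending on parameters are obtained by
evaluating polynomials in the parameters -/
lemma eval_param {P : Type} [Fintype σ] [Algebra k A] (τ : A →+ k)
    (hτ : ∀ (c : k) (a : A), τ (c • a) = c * τ a) (z : σ → MvPolynomial P A)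
    (e : I → σ → MvPolynomial P A) (c : P → k) (m : (σ →₀ ℕ) →₀ ℕ) (α : I →₀ ℕ) :
    coeff α (ex τ (fun j => eval (fun i => algebraMap k A (c i)) (z j))
      (fun i j => eval (fun i => algebraMap k A (c i)) (e i j)) (monomial m 1)) =
      eval c (coeff α (ex (ptrH τ) z e (monomial m 1))) := by
  rw [← coeff_ex_map (ptrH τ) τ (eval c) (eval fun i => algebraMap k A (c i))
    (fun F => eval_ptr τ hτ F c) z e (monomial m 1) α]
  simp

lemma tra_smul (k A : Type) [CommRing k] [CommRing A] [Algebra k A] (c : k) (a : A) :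
    tra k A (c • a) = c * tra k A a := by
  simp [tra]

lemma sm_smul (n : ℕ) (Ω : Type) [CommRing Ω] (c : Ω) (a : Fin n → Ω) :
    sm n Ω (c • a) = c * sm n Ω a := by
  simp [sm, Finset.mul_sum]

/-- power sums over a finite product of copies of the base ring -/
lemma ps_sm [Fintype σ] (n : ℕ) (Ω : Type) [CommRing Ω] (z : σ → Fin n → Ω)
    (e : I → σ → Fin n → Ω) (a : σ →₀ ℕ) :
    ps (sm n Ω) z e a = ∑ i, ∏ j, pt (fun j => z j i) (fun ι j => e ι j i) j ^ a j := by
  unfold ps
  have h1 : ∀ F : MvPolynomial I (Fin n → Ω),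
      ptr (sm n Ω) F = ∑ i, map (Pi.evalRingHom (fun _ : Fin n => Ω) i) F := by
    intro F
    ext α
    rw [coeff_ptr, coeff_sum]
    simp [sm, coeff_map]
  rw [h1]
  refine Finset.sum_congr rfl fun i _ => ?_
  rw [map_prod]
  refine Finset.prod_congr rfl fun j _ => ?_
  rw [map_pow, map_pt]
  rfl

end base

end Pool.Agent.SNO
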