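import Mathlib
import Pool.Agent.SNO.Defs
import Pool.Agent.SNO.Basic

set_option autoImplicit false

/-!
# Module DSC

From the embeddings to the field.
-/

namespace Pool.Agent.SNO

open NumberField Module MvPolynomial

theorem descend {σ I : Type} [Fintype σ] [Fintype I] (w : σ → ℕ) (v : I → ℕ) (d b : ℕ)
    (L : Type) [Field L] [NumberField L] (n : ℕ) (en : Fin n ≃ (L →+* ℂ)) (z : σ → L)
    (e : I → σ → L)
    (h : MGood (sm n ℂ) w v d b (fun j i => en i (z j)) (fun ι j i => en i (e ι j))) :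
    MGood (tra ℚ L) w v d b z e := by
  let Φ : L →+* (Fin n → ℂ) := RingHom.pi fun i => en i
  have htr : ∀ u : L, algebraMap ℚ ℂ (tra ℚ L u) = sm n ℂ (Φ u) := by
    intro u
    have h1 : algebraMap ℚ ℂ (Algebra.trace ℚ L u) = ∑ σ : L →ₐ[ℚ] ℂ, σ u :=
      trace_eq_sum_embeddings ℂ
    have h2 : ∑ σ : L →ₐ[ℚ] ℂ, σ u = ∑ i : Fin n, en i u := by
      rw [← Equiv.sum_comp (en.trans (RingHom.equivRatAlgHom L ℂ)) (fun σ : L →ₐ[ℚ] ℂ => σ u)]
      rfl
    exact h1.trans h2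
  obtain ⟨m, hm, hdet⟩ := h
  refine ⟨m, hm, ?_⟩
  have hmat : (Matrix.of fun α β : JS v b => coeff (β : I →₀ ℕ)
      (ex (sm n ℂ) (fun j i => en i (z j)) (fun ι j i => en i (e ι j)) (monomial (m α) 1))) =
      (algebraMap ℚ ℂ).mapMatrix (Matrix.of fun α β : JS v b => coeff (β : I →₀ ℕ)
        (ex (tra ℚ L) z e (monomial (m α) 1))) := by
    ext α β
    have := coeff_ex_map (tra ℚ L) (sm n ℂ) (algebraMap ℚ ℂ) Φ htr z e (monomial (m α) 1)
      (β : I →₀ ℕ)
    rw [map_monomial, map_one] at this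
    exact this
  have h1 := RingHom.map_det (algebraMap ℚ ℂ) (Matrix.of fun α β : JS v b =>
      coeff (β : I →₀ ℕ) (ex (tra ℚ L) z e (monomial (m α) 1)))
  rw [hmat, ← h1] at hdet
  rw [isUnit_iff_ne_zero] at hdet ⊢
  intro h0
  exact hdet (by rw [h0, map_zero])

end Pool.Agent.SNO
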