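import Mathlib
import Pool.Agent.SNO.Defs
import Pool.Agent.SNO.Basic

set_option autoImplicit false

/-!
# Module MIN

Jets and minors.
`MGood.jgood`: the matrix `Mt α β = coeff β (ex (monomial (m α) 1))` over `JS v b` has a unit
determinant; put `t = c ᵥ* Mt⁻¹` and `f = ∑ α, t α • monomial (m α) 1`; `WL` by `WL.monomial`; the
coefficients with `wd v β < b` are those with `β ∈ JS v b` (`mem_JS`).
`JGood.mgood`: over a field, the span `V` of the vectors `(coeff β (ex (monomial m 1)))_{β ∈ JS v b}`,
`mw (vw w) m ≤ d`, is everything (an `f` with `WL d f` is a linear combination of monomials of weight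
`≤ d`, `ex` is linear). A spanning family of `k^J` (`J = JS v b`) contains a basis indexed by `J`:
`exists_linearIndependent`/`Helper58.NF.exists_indep` or `Module.Basis.ofSpan` and reindexing by
cardinality `finrank (J → k) = card J`; the matrix of a basis has nonzero determinant
(`Matrix.isUnit_det_iff...`, `LinearIndependent` rows: `Matrix.linearIndependent_rows_iff_isUnit`).
-/

namespace Pool.Agent.SNO

open NumberField Module MvPolynomial

theorem MGood.jgood {σ I A k : Type} [Fintype σ] [Fintype I] [CommRing A] [CommRing k] {τ : A →+ k}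
    {w : σ → ℕ} {v : I → ℕ} (hv : ∀ i, 1 ≤ v i) {d b : ℕ} {z : σ → A} {e : I → σ → A}
    (h : MGood τ w v d b z e) : JGood τ w v d b z e := by
  obtain ⟨m, hm, hu⟩ := h
  intro c
  set M : Matrix (JS v b) (JS v b) k := Matrix.of fun α β : JS v b =>
      coeff (β : I →₀ ℕ) (ex τ z e (monomial (m α) 1)) with hM
  have h1 : M⁻¹ * M = 1 := Matrix.nonsing_inv_mul M hu
  let cc : JS v b → k := fun β => c β
  let t : JS v b → k := Matrix.vecMul cc M⁻¹
  have ht : Matrix.vecMul t M = cc := by
    simp only [t]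
    rw [Matrix.vecMul_vecMul, h1, Matrix.vecMul_one]
  refine ⟨∑ α, t α • monomial (m α) 1, ?_, ?_⟩
  · exact WL.sum _ _ fun α _ => (WL.monomial (hm α) 1).smul _
  · intro α hα
    have h2 := congrFun ht ⟨α, (mem_JS v hv b α).2 hα⟩
    rw [map_sum, coeff_sum]
    simp only [map_smul, coeff_smul, smul_eq_mul]
    simpa [Matrix.vecMul, dotProduct, hM, cc] using h2

theorem JGood.mgood {σ I A k : Type} [Fintype σ] [Fintype I] [CommRing A] [Field k] {τ : A →+ k}
    {w : σ → ℕ} {v : I → ℕ} (hv : ∀ i, 1 ≤ v i) {d b : ℕ} {z : σ → A} {e : I → σ → A}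
    (h : JGood τ w v d b z e) : MGood τ w v d b z e := by
  let F : {m : (σ →₀ ℕ) →₀ ℕ // mw (vw w) m ≤ d} → (JS v b → k) := fun m β =>
    coeff (β : I →₀ ℕ) (ex τ z e (monomial m.1 1))
  have hspan : Submodule.span k (Set.range F) = ⊤ := by
    rw [eq_top_iff]
    intro c _
    obtain ⟨f, hf, hc⟩ := h fun α => if hα : α ∈ JS v b then c ⟨α, hα⟩ else 0
    have h1 : c = ∑ m ∈ f.support.attach, coeff m.1 f • F ⟨m.1, hf m.1 m.2⟩ := by
      funext β
      have h2 := hc β ((mem_JS v hv b β).1 β.2)
      rw [dif_pos β.2] at h2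
      rw [← h2]
      conv_lhs => rw [f.as_sum]
      rw [map_sum, coeff_sum, Finset.sum_apply]
      rw [← Finset.sum_attach]
      refine Finset.sum_congr rfl fun m _ => ?_
      rw [Pi.smul_apply, smul_eq_mul]
      have h3 : monomial m.1 (coeff m.1 f) = coeff m.1 f • (monomial m.1 (1 : k)) := by
        rw [smul_monomial, smul_eq_mul, mul_one]
      rw [h3, map_smul, coeff_smul, smul_eq_mul]
    rw [h1]
    exact Submodule.sum_mem _ fun m _ => Submodule.smul_mem _ _ (Submodule.subset_span ⟨_, rfl⟩)
  obtain ⟨B, hB, hBs, hBi⟩ := exists_linearIndependent k (Set.range F)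
  rw [hspan] at hBs
  let bas : Basis B k (JS v b → k) := Basis.mk hBi (by rw [Subtype.range_coe, hBs])
  let eq : JS v b ≃ B := (Pi.basisFun k (JS v b)).indexEquiv bas
  have hex : ∀ α : JS v b, ∃ m, F m = (eq α : JS v b → k) := fun α => hB (eq α).2
  choose m hm using hex
  refine ⟨fun α => (m α).1, fun α => (m α).2, ?_⟩
  have hli : LinearIndependent k (fun α : JS v b => F (m α)) := by
    have h1 : (fun α : JS v b => F (m α)) = (fun x : B => (x : JS v b → k)) ∘ eq := by
      funext α
      exact hm α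
    rw [h1]
    exact hBi.comp eq eq.injective
  have h2 : IsUnit (Matrix.of fun α β : JS v b =>
      coeff (β : I →₀ ℕ) (ex τ z e (monomial (m α).1 1))) := by
    rw [← Matrix.linearIndependent_rows_iff_isUnit]
    exact hli
  exact (Matrix.isUnit_iff_isUnit_det _).1 h2

end Pool.Agent.SNO
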