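import Mathlib
import Pool.Agent.SNO.Defs
import Pool.Agent.SNO.Basic

set_option autoImplicit false

/-!
# Module PAR

Degrees of the jet coefficients in the parameters.
Proof. Call a polynomial `G : MvPolynomial I (MvPolynomial P R)` bounded by `D` if all coefficients
have `totalDegree ≤ D`. Sums keep the bound, products add it (`coeff_mul`, `totalDegree_mul`,
`totalDegree_finset_sum`), powers multiply it, `C 1` is bounded by 0. `pt z e j` is bounded by 1 (its
coefficients are `z j`, `e i j`, sums of at most one of them each), so `∏_j pt z e j ^ a j` is bounded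
by `∑ a j ≤ wd w a ≤ vw w a` (`w j ≥ 1`). `ptr (ptrH τ)` keeps the bound: the coefficient becomes
`ptr τ (..)`, whose support is contained in the old one (`coeff_ptr`). `ex _ z e (monomial m 1) =
m.prod (fun a k => ps _ z e a ^ k)` (`aeval_monomial`), bounded by `∑ k * vw w a = mw (vw w) m`.
-/

namespace Pool.Agent.SNO

open NumberField Module MvPolynomial

/-- all coefficients have total degree at most `D` -/
private def Bd {I P R : Type} [CommRing R] (D : ℕ) (G : MvPolynomial I (MvPolynomial P R)) : Prop :=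
  ∀ α, (coeff α G).totalDegree ≤ D

private lemma Bd.mono {I P R : Type} [CommRing R] {D D' : ℕ} (h : D ≤ D')
    {G : MvPolynomial I (MvPolynomial P R)} (hG : Bd D G) : Bd D' G := fun α => (hG α).trans h

private lemma Bd.C {I P R : Type} [CommRing R] {D : ℕ} {c : MvPolynomial P R}
    (hc : c.totalDegree ≤ D) : Bd D (MvPolynomial.C c : MvPolynomial I (MvPolynomial P R)) := by
  classical
  intro α
  rw [coeff_C]
  split_ifs
  · exact hc
  · simp

private lemma Bd.X {I P R : Type} [CommRing R] (i : I) :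
    Bd 0 (MvPolynomial.X i : MvPolynomial I (MvPolynomial P R)) := by
  classical
  intro α
  rw [coeff_X]
  split_ifs
  · simp
  · simp

private lemma Bd.add {I P R : Type} [CommRing R] {D : ℕ}
    {G H : MvPolynomial I (MvPolynomial P R)} (hG : Bd D G) (hH : Bd D H) : Bd D (G + H) := by
  intro α
  rw [coeff_add]
  exact (totalDegree_add _ _).trans (max_le (hG α) (hH α))

private lemma Bd.mul {I P R : Type} [CommRing R] {D D' : ℕ}
    {G H : MvPolynomial I (MvPolynomial P R)} (hG : Bd D G) (hH : Bd D' H) :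
    Bd (D + D') (G * H) := by
  classical
  intro α
  rw [coeff_mul]
  refine totalDegree_finsetSum_le fun x _ => ?_
  exact (totalDegree_mul _ _).trans (add_le_add (hG _) (hH _))

private lemma Bd.sum {ι I P R : Type} [CommRing R] {D : ℕ} (s : Finset ι)
    (G : ι → MvPolynomial I (MvPolynomial P R)) (h : ∀ i ∈ s, Bd D (G i)) :
    Bd D (∑ i ∈ s, G i) := by
  intro α
  rw [coeff_sum]
  exact totalDegree_finsetSum_le fun i hi => h i hi α

private lemma Bd.pow {I P R : Type} [CommRing R] {D : ℕ}
    {G : MvPolynomial I (MvPolynomial P R)} (hG : Bd D G) (k : ℕ) : Bd (k * D) (G ^ k) := by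
  induction k with
  | zero =>
    rw [pow_zero, Nat.zero_mul, ← map_one MvPolynomial.C]
    exact Bd.C (by simp)
  | succ k ih =>
    rw [pow_succ, Nat.succ_mul]
    exact ih.mul hG

private lemma Bd.prod {ι I P R : Type} [CommRing R] (s : Finset ι) (D : ι → ℕ)
    (G : ι → MvPolynomial I (MvPolynomial P R)) (h : ∀ i ∈ s, Bd (D i) (G i)) :
    Bd (∑ i ∈ s, D i) (∏ i ∈ s, G i) := by
  classical
  induction s using Finset.induction_on with
  | empty =>
    rw [Finset.sum_empty, Finset.prod_empty, ← map_one MvPolynomial.C]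
    exact Bd.C (by simp)
  | insert a s ha ih =>
    rw [Finset.sum_insert ha, Finset.prod_insert ha]
    exact (h a (Finset.mem_insert_self a s)).mul
      (ih fun i hi => h i (Finset.mem_insert_of_mem hi))

private lemma Bd.ptr {I P A k : Type} [CommRing A] [CommRing k] (τ : A →+ k) {D : ℕ}
    {G : MvPolynomial I (MvPolynomial P A)} (hG : Bd D G) : Bd D (ptr (ptrH τ) G) := by
  intro α
  rw [coeff_ptr, ptrH_apply]
  refine le_trans ?_ (hG α)
  unfold totalDegree
  refine Finset.sup_mono ?_
  intro β hβ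
  rw [MvPolynomial.mem_support_iff] at hβ ⊢
  intro h0
  apply hβ
  rw [coeff_ptr, h0, map_zero]

private lemma Bd.pt {σ I P A : Type} [Fintype I] [CommRing A] (z : σ → MvPolynomial P A)
    (e : I → σ → MvPolynomial P A) (hz : ∀ j, (z j).totalDegree ≤ 1)
    (he : ∀ i j, (e i j).totalDegree ≤ 1) (j : σ) : Bd 1 (pt z e j) := by
  unfold Pool.Agent.SNO.pt
  refine (Bd.C (hz j)).add (Bd.sum _ _ fun i _ => ?_)
  have := (Bd.X (P := P) (R := A) i).mul (Bd.C (I := I) (he i j))
  rwa [zero_add] at this

theorem jet_degree {σ I P A k : Type} [Fintype σ] [Fintype I] [CommRing A] [CommRing k]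
    (τ : A →+ k) (w : σ → ℕ) (hw : ∀ j, 1 ≤ w j) (z : σ → MvPolynomial P A)
    (e : I → σ → MvPolynomial P A) (hz : ∀ j, (z j).totalDegree ≤ 1)
    (he : ∀ i j, (e i j).totalDegree ≤ 1) (m : (σ →₀ ℕ) →₀ ℕ) (α : I →₀ ℕ) :
    (coeff α (ex (ptrH τ) z e (monomial m 1))).totalDegree ≤ mw (vw w) m := by
  have hps : ∀ a : σ →₀ ℕ, Bd (vw w a) (ps (ptrH τ) z e a) := by
    intro a
    unfold ps
    apply Bd.ptr
    have h1 : Bd (∑ j, a j * 1) (∏ j, pt z e j ^ a j) :=
      Bd.prod _ _ _ fun j _ => (Bd.pt z e hz he j).pow (a j)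
    refine h1.mono ?_
    unfold vw wd
    refine le_trans ?_ (le_max_right _ _)
    refine Finset.sum_le_sum fun j _ => ?_
    rw [mul_one]
    exact Nat.le_mul_of_pos_left _ (hw j)
  have hm : Bd (mw (vw w) m) (ex (ptrH τ) z e (monomial m 1)) := by
    unfold ex
    rw [aeval_monomial, map_one, one_mul]
    unfold mw Finsupp.prod Finsupp.sum
    exact Bd.prod _ _ _ fun a _ => (hps a).pow (m a)
  exact hm α

end Pool.Agent.SNO
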