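import Mathlib
import Pool.Agent.SNO.Defs
import Pool.Agent.SNO.Basic
import Pool.Agent.SNO.PAR
import Pool.Agent.Helper58.NF.Gen

set_option autoImplicit false

/-!
# Module OPN

Openness of goodness in parameters.
Proof. `D = ∑_{b ≤ B} card (JS v b) * (b - 1 + c₀)`. Given the monomials `m_b α` from the hypothesis
at `c₁` (for `1 ≤ b ≤ B`), let
`F_b = det (coeff β (ex (ptrH τ) z e (monomial (m_b α) 1)))_{α, β ∈ JS v b} ∈ MvPolynomial P k` and
`F = ∏_{b ∈ Icc 1 B} F_b`. `eval c F_b` is the determinant at the parameter `c` (`eval_param`,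
`RingHom.map_det`), so it is a unit at `c₁`; if `eval c F` is a unit, all factors are units
(`isUnit_of_dvd_unit`/`IsUnit` of a product), giving `MGood` at `c` with the same monomials. Degree:
`Pool.Agent.Helper58.NF.totalDegree_det_le` (see the file Gen.lean for its exact name and form), with
`jet_degree` for the entries, `totalDegree_finset_prod`.
-/

namespace Pool.Agent.SNO

open NumberField Module MvPolynomial

theorem open_good {σ I P : Type} [Fintype σ] [Fintype I] (w : σ → ℕ) (hw : ∀ j, 1 ≤ w j)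
    (v : I → ℕ) (c₀ B : ℕ) :
    ∃ D : ℕ, ∀ (k A : Type) [CommRing k] [CommRing A] [Algebra k A] (τ : A →+ k),
      (∀ (c : k) (a : A), τ (c • a) = c * τ a) → ∀ (z : σ → MvPolynomial P A)
      (e : I → σ → MvPolynomial P A), (∀ j, (z j).totalDegree ≤ 1) →
      (∀ i j, (e i j).totalDegree ≤ 1) → ∀ c₁ : P → k,
      (∀ b, 1 ≤ b → b ≤ B → MGood τ w v (b - 1 + c₀) b
        (fun j => eval (fun i => algebraMap k A (c₁ i)) (z j))
        (fun i j => eval (fun i => algebraMap k A (c₁ i)) (e i j))) →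
      ∃ F : MvPolynomial P k, F.totalDegree ≤ D ∧ IsUnit (eval c₁ F) ∧
        ∀ c : P → k, IsUnit (eval c F) → ∀ b, 1 ≤ b → b ≤ B → MGood τ w v (b - 1 + c₀) b
          (fun j => eval (fun i => algebraMap k A (c i)) (z j))
          (fun i j => eval (fun i => algebraMap k A (c i)) (e i j)) := by
  refine ⟨∑ b ∈ Finset.Icc 1 B, (b - 1 + c₀) * Fintype.card (JS v b), ?_⟩
  intro k A _ _ _ τ hτ z e hz he c₁ h
  have h' : ∀ b : ℕ, ∃ m : JS v b → ((σ →₀ ℕ) →₀ ℕ), 1 ≤ b → b ≤ B →
      (∀ α, mw (vw w) (m α) ≤ b - 1 + c₀) ∧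
      IsUnit (Matrix.det (Matrix.of fun α β : JS v b =>
        coeff (β : I →₀ ℕ) (ex τ (fun j => eval (fun i => algebraMap k A (c₁ i)) (z j))
        (fun i j => eval (fun i => algebraMap k A (c₁ i)) (e i j)) (monomial (m α) 1)))) := by
    intro b
    by_cases hb : 1 ≤ b ∧ b ≤ B
    · obtain ⟨m, hm⟩ := h b hb.1 hb.2
      refine ⟨m, fun _ _ => ⟨hm.1, ?_⟩⟩
      exact hm.2
    · exact ⟨fun _ => 0, fun h1 h2 => absurd ⟨h1, h2⟩ hb⟩
  choose m hm using h'
  set Fb : ℕ → MvPolynomial P k := fun b => Matrix.det (Matrix.of fun α β : JS v b =>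
    coeff (β : I →₀ ℕ) (ex (ptrH τ) z e (monomial (m b α) 1))) with hFb
  have heval : ∀ (b : ℕ) (c : P → k), eval c (Fb b) =
      Matrix.det (Matrix.of fun α β : JS v b =>
        coeff (β : I →₀ ℕ) (ex τ (fun j => eval (fun i => algebraMap k A (c i)) (z j))
        (fun i j => eval (fun i => algebraMap k A (c i)) (e i j)) (monomial (m b α) 1))) := by
    intro b c
    rw [hFb]
    simp only
    rw [RingHom.map_det]
    congr 1
    ext α β
    rw [RingHom.mapMatrix_apply, Matrix.map_apply, Matrix.of_apply, Matrix.of_apply,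
      eval_param τ hτ z e c (m b α) β]
  refine ⟨∏ b ∈ Finset.Icc 1 B, Fb b, ?_, ?_, ?_⟩
  · refine (totalDegree_finsetProd _ _).trans (Finset.sum_le_sum fun b hb => ?_)
    rw [Finset.mem_Icc] at hb
    refine Pool.Agent.Helper58.NF.totalDegree_det_le _ _ fun α β => ?_
    rw [Matrix.of_apply]
    exact (jet_degree τ w hw z e hz he _ _).trans ((hm b hb.1 hb.2).1 α)
  · rw [map_prod]
    refine (IsUnit.prod_iff (M := k)).2 ?_
    intro b hb
    rw [Finset.mem_Icc] at hb
    rw [heval]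
    exact (hm b hb.1 hb.2).2
  · intro c hc b hb1 hbB
    refine ⟨m b, (hm b hb1 hbB).1, ?_⟩
    have h1 : IsUnit (eval c (Fb b)) := by
      rw [map_prod] at hc
      exact isUnit_of_dvd_unit (Finset.dvd_prod_of_mem (fun b => eval c (Fb b))
        (Finset.mem_Icc.2 ⟨hb1, hbB⟩)) hc
    rw [heval] at h1
    exact h1

end Pool.Agent.SNO
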