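import Mathlib
import Pool.Agent.SNO.Defs
import Pool.Agent.SNO.Basic

set_option autoImplicit false

/-!
# Module ORD

An enumeration of the embeddings for which equal values of `x` are consecutive.
Proof. Let `F = ℚ(x)`, `d = [F : ℚ]`. For `y ∈ ℂ` the number of embeddings `φ : L → ℂ` with `φ x = y`
is `0` or `n / d = [L : F]` (extensions of an embedding of `F`; `φ` restricted to `F` is determined by
`φ x`; `AlgHom.card_of_splits`/`Field.finSepDegree`, `AlgHom.card` for `L` over `F` with `ℂ` as an
`F`-algebra), so it is at most `2^ρ` because `n ≤ d 2^ρ`. Sort the embeddings by the value `φ x` with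
respect to any linear order on `ℂ` (or on the finite set of values): an equivalence
`en : Fin n ≃ (L →+* ℂ)` such that `i ↦ en i x` is monotone for this order (e.g. `Tuple.sort`, or
`Finset.orderIsoOfFin` for a linear order on the sigma type; choose any injection of the values into
ℕ as the key and sort with `Tuple.sort`). If `i < i'`, `i ≡ i' mod 2^ρ` and `en i x = en i' x`, then
all `i''` between have the same value (monotone), that is at least `2^ρ + 1` embeddings, a
contradiction.
-/

namespace Pool.Agent.SNO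

open NumberField Module MvPolynomial

private theorem card_fiber (L : Type) [Field L] [NumberField L] (ρ : ℕ)
    (x : L) (h : finrank ℚ L ≤ finrank ℚ (IntermediateField.adjoin ℚ {x}) * 2 ^ ρ)
    (s : Finset (L →+* ℂ)) (y : ℂ) (hs : ∀ φ ∈ s, φ x = y) : s.card ≤ 2 ^ ρ := by
  classical
  rcases s.eq_empty_or_nonempty with rfl | ⟨φ0, h0⟩
  · simp
  set E := IntermediateField.adjoin ℚ {x} with hE
  have hmul : finrank ℚ E * finrank E L = finrank ℚ L := Module.finrank_mul_finrank ℚ E L
  have hd : 0 < finrank ℚ E := Module.finrank_pos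
  have hle : finrank E L ≤ 2 ^ ρ := by
    rw [← hmul] at h
    exact Nat.le_of_mul_le_mul_left h hd
  letI : Algebra E ℂ := (φ0.comp (algebraMap E L)).toAlgebra
  haveI : IsScalarTower ℚ E L := inferInstance
  haveI : FiniteDimensional E L := FiniteDimensional.right ℚ E L
  haveI : Algebra.IsSeparable E L := inferInstance
  have hcard : Fintype.card (L →ₐ[E] ℂ) = finrank E L := AlgHom.card E L ℂ
  have hagree : ∀ φ ∈ s, ∀ a : E, φ (algebraMap E L a) = φ0 (algebraMap E L a) := by
    intro φ hφ a
    let A : L →ₐ[ℚ] ℂ := RingHom.toRatAlgHom φ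
    let B : L →ₐ[ℚ] ℂ := RingHom.toRatAlgHom φ0
    have hx : A x = B x := by
      show φ x = φ0 x
      rw [hs φ hφ, hs φ0 h0]
    have hle' : E ≤ IntermediateField.adjoin ℚ {x} := le_rfl
    have hmem : (a : L) ∈ AlgHom.equalizer A B := by
      have h1 : E.toSubalgebra = Algebra.adjoin ℚ {x} := by
        rw [hE]
        exact IntermediateField.adjoin_simple_toSubalgebra_of_isAlgebraic
          (Algebra.IsAlgebraic.isAlgebraic x)
      have h2 : (a : L) ∈ E.toSubalgebra := a.2
      rw [h1] at h2
      have h3 : Algebra.adjoin ℚ {x} ≤ AlgHom.equalizer A B := by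
        rw [Algebra.adjoin_le_iff]
        rintro z hz
        rw [Set.mem_singleton_iff] at hz
        rw [hz]
        exact hx
      exact h3 h2
    exact hmem
  let ψ : s → (L →ₐ[E] ℂ) := fun φ =>
    { (φ : L →+* ℂ) with commutes' := fun a => hagree φ φ.2 a }
  have hinj : Function.Injective ψ := by
    intro a b hab
    apply Subtype.ext
    apply RingHom.ext
    intro z
    exact DFunLike.congr_fun hab z
  have h4 := Fintype.card_le_of_injective ψ hinj
  rw [Fintype.card_coe, hcard] at h4
  exact h4.trans hle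

theorem order_embeddings (L : Type) [Field L] [NumberField L] (n ρ : ℕ) (hn : finrank ℚ L = n)
    (x : L) (h : n ≤ finrank ℚ (IntermediateField.adjoin ℚ {x}) * 2 ^ ρ) :
    ∃ en : Fin n ≃ (L →+* ℂ), ∀ i i' : Fin n, (i : ℕ) % 2 ^ ρ = (i' : ℕ) % 2 ^ ρ →
      en i x = en i' x → i = i' := by
  classical
  rw [← hn] at h
  let V : Finset ℂ := Finset.univ.image (fun φ : L →+* ℂ => φ x)
  have hV : ∀ φ : L →+* ℂ, φ x ∈ V := fun φ => Finset.mem_image_of_mem _ (Finset.mem_univ φ)
  let key : (L →+* ℂ) → Fin V.card := fun φ => V.equivFin ⟨φ x, hV φ⟩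
  have hkey : ∀ φ ψ : L →+* ℂ, key φ = key ψ → φ x = ψ x := by
    intro φ ψ hφ
    have := V.equivFin.injective hφ
    exact congrArg Subtype.val this
  have hkey' : ∀ φ ψ : L →+* ℂ, φ x = ψ x → key φ = key ψ := by
    intro φ ψ hφ
    show V.equivFin ⟨φ x, hV φ⟩ = V.equivFin ⟨ψ x, hV ψ⟩
    congr 1
    exact Subtype.ext hφ
  have hc : Fintype.card (L →+* ℂ) = n := by
    rw [NumberField.Embeddings.card L ℂ, hn]
  let e0 : Fin n ≃ (L →+* ℂ) := (Fintype.equivFinOfCardEq hc).symm
  let f : Fin n → Fin V.card := fun i => key (e0 i)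
  let en : Fin n ≃ (L →+* ℂ) := (Tuple.sort f).trans e0
  have hmono : Monotone (fun i => key (en i)) := Tuple.monotone_sort f
  have main : ∀ i i' : Fin n, i < i' → (i : ℕ) % 2 ^ ρ = (i' : ℕ) % 2 ^ ρ →
      en i x = en i' x → False := by
    intro i i' hlt hmod heq
    have hk := hkey' _ _ heq
    have hlt' : (i : ℕ) < i' := hlt
    have hge : (i : ℕ) + 2 ^ ρ ≤ i' := by
      have h1 : (i' - i : ℕ) % 2 ^ ρ = 0 :=
        Nat.sub_mod_eq_zero_of_mod_eq hmod.symm
      have h2 : 2 ^ ρ ∣ (i' - i : ℕ) := Nat.dvd_of_mod_eq_zero h1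
      have h3 := Nat.le_of_dvd (by omega) h2
      omega
    have hb := card_fiber L ρ x h ((Finset.Icc i i').map en.toEmbedding) (en i x) (by
      intro φ hφ
      rw [Finset.mem_map] at hφ
      obtain ⟨j, hj, rfl⟩ := hφ
      rw [Finset.mem_Icc] at hj
      have h1 : key (en i) ≤ key (en j) := hmono hj.1
      have h2 : key (en j) ≤ key (en i') := hmono hj.2
      exact hkey _ _ (le_antisymm (h2.trans hk.ge) h1))
    rw [Finset.card_map, Fin.card_Icc] at hb
    omega
  refine ⟨en, fun i i' hmod heq => ?_⟩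
  rcases lt_trichotomy i i' with h1 | h1 | h1
  · exact (main i i' h1 hmod heq).elim
  · exact h1
  · exact (main i' i h1 hmod.symm heq.symm).elim

end Pool.Agent.SNO
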