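import Mathlib
import Pool.Agent.SNO.Defs
import Pool.Agent.SNO.Basic

set_option autoImplicit false

/-!
# The special configuration: definitions and the calculus of leading terms
-/

namespace Pool.Agent.SNO

open MvPolynomial

variable {n ρ : ℕ} {Ω : Type}

/-- degree in the directions of the variable `none` -/
def xd (β : (Option (Fin ρ) × Fin n) →₀ ℕ) : ℕ := ∑ i, β (none, i)

/-- degree in the directions of the labels -/
def yd (β : (Option (Fin ρ) × Fin n) →₀ ℕ) : ℕ := ∑ j, ∑ i, β (some j, i)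

lemma xd_add (β γ : (Option (Fin ρ) × Fin n) →₀ ℕ) : xd (β + γ) = xd β + xd γ := by
  simp [xd, Finset.sum_add_distrib]

lemma yd_add (β γ : (Option (Fin ρ) × Fin n) →₀ ℕ) : yd (β + γ) = yd β + yd γ := by
  simp [yd, Finset.sum_add_distrib]

@[simp] lemma xd_zero : xd (0 : (Option (Fin ρ) × Fin n) →₀ ℕ) = 0 := by simp [xd]

@[simp] lemma yd_zero : yd (0 : (Option (Fin ρ) × Fin n) →₀ ℕ) = 0 := by simp [yd]

/-- all monomials have `yd ≥ p` and `xd ≥ q` -/
def Hi [CommRing Ω] (p q : ℕ) (G : MvPolynomial (Option (Fin ρ) × Fin n) Ω) : Prop :=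
  ∀ β ∈ G.support, p ≤ yd β ∧ q ≤ xd β

/-- the monomial `α` occurs with coefficient one, and all other monomials have at least the
same `yd` and `xd` and a larger total degree -/
def Lead [CommRing Ω] (α : (Option (Fin ρ) × Fin n) →₀ ℕ)
    (G : MvPolynomial (Option (Fin ρ) × Fin n) Ω) : Prop :=
  coeff α G = 1 ∧ ∀ β ∈ G.support, β ≠ α → yd α ≤ yd β ∧ xd α ≤ xd β ∧ yd α + xd α < yd β + xd β

/-- the special point: `x` in the coordinate `none`, the binary digits in the labels -/
def zz [CommRing Ω] (x : Fin n → Ω) (j : Option (Fin ρ)) : Fin n → Ω :=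
  j.elim x fun j i => (lab i (j : ℕ) : Ω)

/-- the special directions built from vectors `u i` -/
def ee [CommRing Ω] (u : Fin n → Fin n → Ω) :
    Option (Fin ρ) × Fin n → Option (Fin ρ) → Fin n → Ω
  | (none, i), none => u i
  | (some j, i), some j' => fun l => if j = j' ∧ i = l then 2 * (lab l (j : ℕ) : Ω) - 1 else 0
  | (none, _), some _ => 0
  | (some _, _), none => 0

/-- the expansion of a polynomial in all the coordinates at the point permuted by `π` -/
noncomputable def th [CommRing Ω] (x : Fin n → Ω) (u : Fin n → Fin n → Ω)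
    (π : Equiv.Perm (Fin n)) :
    MvPolynomial (Option (Fin ρ) × Fin n) Ω →ₐ[Ω] MvPolynomial (Option (Fin ρ) × Fin n) Ω :=
  aeval fun q => pt (fun j => zz (ρ := ρ) x j (π q.2)) (fun ι j => ee u ι j (π q.2)) q.1

/-- the hypotheses on the values `x` and the dual vectors `u` -/
structure Dual [Field Ω] (ρ : ℕ) (x : Fin n → Ω) (u : Fin n → Fin n → Ω) : Prop where
  inj : ∀ i i' : Fin n, (i : ℕ) % 2 ^ ρ = (i' : ℕ) % 2 ^ ρ → x i = x i' → i = i'
  supp : ∀ i l : Fin n, (l : ℕ) % 2 ^ ρ ≠ (i : ℕ) % 2 ^ ρ → u i l = 0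
  dual : ∀ i i' : Fin n, (i' : ℕ) % 2 ^ ρ = (i : ℕ) % 2 ^ ρ →
    ∑ l : Fin n, (if (l : ℕ) % 2 ^ ρ = (i : ℕ) % 2 ^ ρ then x l ^ ((i' : ℕ) / 2 ^ ρ) * u i l else 0) =
      if i' = i then 1 else 0

lemma Hi.mono [CommRing Ω] {p q p' q' : ℕ} (hp : p' ≤ p) (hq : q' ≤ q)
    {G : MvPolynomial (Option (Fin ρ) × Fin n) Ω} (h : Hi p q G) : Hi p' q' G :=
  fun β hβ => ⟨hp.trans (h β hβ).1, hq.trans (h β hβ).2⟩

lemma Hi.triv [CommRing Ω] (G : MvPolynomial (Option (Fin ρ) × Fin n) Ω) : Hi 0 0 G :=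
  fun _ _ => ⟨Nat.zero_le _, Nat.zero_le _⟩

lemma Hi.mul [CommRing Ω] {p q p' q' : ℕ} {G G' : MvPolynomial (Option (Fin ρ) × Fin n) Ω}
    (h : Hi p q G) (h' : Hi p' q' G') : Hi (p + p') (q + q') (G * G') := by
  classical
  intro β hβ
  obtain ⟨a, ha, b, hb, rfl⟩ := Finset.mem_add.1 (support_mul G G' hβ)
  rw [yd_add, xd_add]
  exact ⟨add_le_add (h a ha).1 (h' b hb).1, add_le_add (h a ha).2 (h' b hb).2⟩

lemma Hi.add [CommRing Ω] {p q : ℕ} {G G' : MvPolynomial (Option (Fin ρ) × Fin n) Ω}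
    (h : Hi p q G) (h' : Hi p q G') : Hi p q (G + G') := by
  classical
  intro β hβ
  rcases Finset.mem_union.1 (support_add hβ) with h1 | h1
  · exact h β h1
  · exact h' β h1

lemma Hi.pow [CommRing Ω] {p q : ℕ} {G : MvPolynomial (Option (Fin ρ) × Fin n) Ω}
    (h : Hi p q G) (k : ℕ) : Hi (k * p) (k * q) (G ^ k) := by
  induction k with
  | zero => simpa using Hi.triv (1 : MvPolynomial (Option (Fin ρ) × Fin n) Ω)
  | succ k ih =>
    rw [pow_succ]
    exact (ih.mul h).mono (by rw [Nat.succ_mul]) (by rw [Nat.succ_mul])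

lemma Hi.prod [CommRing Ω] {ι : Type*} (s : Finset ι) (p q : ι → ℕ)
    (G : ι → MvPolynomial (Option (Fin ρ) × Fin n) Ω) (h : ∀ i ∈ s, Hi (p i) (q i) (G i)) :
    Hi (∑ i ∈ s, p i) (∑ i ∈ s, q i) (∏ i ∈ s, G i) := by
  classical
  induction s using Finset.induction_on with
  | empty => simpa using Hi.triv (1 : MvPolynomial (Option (Fin ρ) × Fin n) Ω)
  | insert a s ha ih =>
    rw [Finset.prod_insert ha, Finset.sum_insert ha, Finset.sum_insert ha]
    exact (h a (Finset.mem_insert_self a s)).mul (ih fun i hi => h i (Finset.mem_insert_of_mem hi))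

lemma Lead.hi [CommRing Ω] {α : (Option (Fin ρ) × Fin n) →₀ ℕ}
    {G : MvPolynomial (Option (Fin ρ) × Fin n) Ω} (h : Lead α G) : Hi (yd α) (xd α) G := by
  intro β hβ
  by_cases hb : β = α
  · rw [hb]
    exact ⟨le_rfl, le_rfl⟩
  · exact ⟨(h.2 β hβ hb).1, (h.2 β hβ hb).2.1⟩

lemma Lead.one [CommRing Ω] : Lead 0 (1 : MvPolynomial (Option (Fin ρ) × Fin n) Ω) := by
  classical
  refine ⟨by simp, ?_⟩
  intro β hβ hb
  rw [mem_support_iff, coeff_one] at hβ
  exact absurd (by
    by_contra h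
    exact hβ (if_neg h)) (Ne.symm hb)

lemma Lead.mul [CommRing Ω] {α α' : (Option (Fin ρ) × Fin n) →₀ ℕ}
    {G G' : MvPolynomial (Option (Fin ρ) × Fin n) Ω} (h : Lead α G) (h' : Lead α' G') :
    Lead (α + α') (G * G') := by
  classical
  have key : ∀ a ∈ G.support, ∀ b ∈ G'.support, (a, b) ≠ (α, α') →
      yd α + yd α' ≤ yd a + yd b ∧ xd α + xd α' ≤ xd a + xd b ∧
        yd α + yd α' + (xd α + xd α') < yd a + yd b + (xd a + xd b) := by
    intro a ha b hb hab
    have e1 := h.hi a ha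
    have e2 := h'.hi b hb
    by_cases h1 : a = α
    · have h2 : b ≠ α' := fun h2 => hab (by rw [h1, h2])
      have := h'.2 b hb h2
      refine ⟨by omega, by omega, by omega⟩
    · have := h.2 a ha h1
      refine ⟨by omega, by omega, by omega⟩
  constructor
  · rw [coeff_mul]
    rw [Finset.sum_eq_single (α, α')]
    · rw [h.1, h'.1, one_mul]
    · rintro ⟨a, b⟩ hab hne
      by_contra h0
      have ha : a ∈ G.support := by
        rw [mem_support_iff]; intro h1; simp only [h1, zero_mul, not_true_eq_false] at h0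
      have hb : b ∈ G'.support := by
        rw [mem_support_iff]; intro h1; simp only [h1, mul_zero, not_true_eq_false] at h0
      have := key a ha b hb hne
      have hab := Finset.HasAntidiagonal.mem_antidiagonal.1 hab
      simp only at hab
      have e1 : yd a + yd b = yd α + yd α' := by rw [← yd_add, hab, yd_add]
      have e2 : xd a + xd b = xd α + xd α' := by rw [← xd_add, hab, xd_add]
      omega
    · intro h0
      exfalso
      apply h0
      rw [Finset.HasAntidiagonal.mem_antidiagonal]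
  · intro β hβ hne
    obtain ⟨a, ha, b, hb, rfl⟩ := Finset.mem_add.1 (support_mul G G' hβ)
    have h1 : (a, b) ≠ (α, α') := by
      intro h1
      rw [Prod.mk.injEq] at h1
      exact hne (by rw [h1.1, h1.2])
    have := key a ha b hb h1
    rw [yd_add, xd_add, yd_add, xd_add]
    refine ⟨this.1, this.2.1, this.2.2⟩

lemma Lead.pow [CommRing Ω] {α : (Option (Fin ρ) × Fin n) →₀ ℕ}
    {G : MvPolynomial (Option (Fin ρ) × Fin n) Ω} (h : Lead α G) (k : ℕ) :
    Lead (k • α) (G ^ k) := by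
  induction k with
  | zero => simpa using Lead.one
  | succ k ih =>
    rw [pow_succ, succ_nsmul]
    exact ih.mul h

lemma Lead.prod [CommRing Ω] {ι : Type*} (s : Finset ι)
    (α : ι → ((Option (Fin ρ) × Fin n) →₀ ℕ))
    (G : ι → MvPolynomial (Option (Fin ρ) × Fin n) Ω) (h : ∀ i ∈ s, Lead (α i) (G i)) :
    Lead (∑ i ∈ s, α i) (∏ i ∈ s, G i) := by
  classical
  induction s using Finset.induction_on with
  | empty => simpa using Lead.one
  | insert a s ha ih =>
    rw [Finset.prod_insert ha, Finset.sum_insert ha]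
    exact (h a (Finset.mem_insert_self a s)).mul (ih fun i hi => h i (Finset.mem_insert_of_mem hi))

end Pool.Agent.SNO
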