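import Mathlib
import Pool.Agent.SNO.Defs
import Pool.Agent.SNO.Basic
import Pool.Agent.SNO.SCDefs

set_option autoImplicit false

/-!
# Module SCH

The factor `H` that is 1 at the special point and vanishes at all its other permutations.
Proof. `H = ∏_{π ≠ 1} f_π`. If `π` preserves the classes mod `2^ρ`: choose `l` with `π l ≠ l`; then
`x (π l) ≠ x l` (`Dual.inj`), `f_π = C ((x l - x (π l))⁻¹) * (X (none, l) - C (x (π l)))`. Otherwise
choose `l` with `π l` not congruent to `l` modulo `2^ρ`, then some binary digit `j < ρ` differs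
(`lab`; a number mod `2^ρ` is determined by its digits `(i / 2^j) % 2`, `j < ρ`), and
`f_π = C ((lab l j - lab (π l) j)⁻¹) * (X (some j, l) - C (lab (π l) j))`. Weight of `H` at most
`c₀ = n! * ∑_j w j` (or `∑` over all permutations). Under `th x u 1` the factor `f_π` has constant
coefficient 1 (use `constantCoeff`; a polynomial with constant coefficient one is `Lead 0`, because
`yd β + xd β > 0` for `β ≠ 0`). Under `th x u π` the factor `f_π` becomes
`c * ∑ X (none, i') C (u i' (π l))` (so `Hi 0 1`), resp. `c * ε * X (some j, π l)` (so `Hi 1 0`); all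
other factors are `Hi 0 0`, conclude with `Hi.mul`/`Hi.prod`.
-/

namespace Pool.Agent.SNO

open NumberField Module MvPolynomial

private lemma sch_pos {n ρ : ℕ} (β : (Option (Fin ρ) × Fin n) →₀ ℕ) (h : β ≠ 0) :
    0 < yd β + xd β := by
  by_contra h0
  push Not at h0
  apply h
  have h1 : yd β = 0 := by omega
  have h2 : xd β = 0 := by omega
  ext ⟨o, i⟩
  cases o with
  | none =>
    unfold xd at h2
    exact (Finset.sum_eq_zero_iff.1 h2) i (Finset.mem_univ i)
  | some j =>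
    unfold yd at h1
    exact (Finset.sum_eq_zero_iff.1 ((Finset.sum_eq_zero_iff.1 h1) j (Finset.mem_univ j))) i
      (Finset.mem_univ i)

private lemma sch_lead {n ρ : ℕ} {Ω : Type} [CommRing Ω]
    (G : MvPolynomial (Option (Fin ρ) × Fin n) Ω) (h : constantCoeff G = 1) : Lead 0 G := by
  refine ⟨by simpa [constantCoeff_eq] using h, ?_⟩
  intro β _ hb
  have := sch_pos β hb
  rw [yd_zero, xd_zero]
  refine ⟨Nat.zero_le _, Nat.zero_le _, by omega⟩

private lemma sch_digit (ρ a b : ℕ) (h : a % 2 ^ ρ ≠ b % 2 ^ ρ) :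
    ∃ j, j < ρ ∧ a / 2 ^ j % 2 ≠ b / 2 ^ j % 2 := by
  by_contra h0
  push Not at h0
  apply h
  apply Nat.eq_of_testBit_eq
  intro i
  rw [Nat.testBit_mod_two_pow, Nat.testBit_mod_two_pow]
  by_cases hi : i < ρ
  · have := h0 i hi
    simp only [hi, decide_true, Bool.true_and, Nat.testBit_eq_decide_div_mod_eq, this]
  · simp [hi]

private lemma hi_X_none {n ρ : ℕ} {Ω : Type} [CommRing Ω] (i : Fin n) :
    Hi 0 1 (X (none, i) : MvPolynomial (Option (Fin ρ) × Fin n) Ω) := by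
  classical
  intro β hβ
  have hb : β = Finsupp.single (none, i) 1 := by
    by_contra hne
    rw [MvPolynomial.mem_support_iff, coeff_X] at hβ
    exact hβ (if_neg (fun h => hne h.symm))
  subst hb
  refine ⟨Nat.zero_le _, ?_⟩
  unfold xd
  exact le_trans (by simp) (Finset.single_le_sum
    (f := fun i' => (Finsupp.single ((none : Option (Fin ρ)), i) 1) (none, i'))
    (fun _ _ => Nat.zero_le _) (Finset.mem_univ i))

private lemma hi_X_some {n ρ : ℕ} {Ω : Type} [CommRing Ω] (j : Fin ρ) (i : Fin n) :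
    Hi 1 0 (X (some j, i) : MvPolynomial (Option (Fin ρ) × Fin n) Ω) := by
  classical
  intro β hβ
  have hb : β = Finsupp.single (some j, i) 1 := by
    by_contra hne
    rw [MvPolynomial.mem_support_iff, coeff_X] at hβ
    exact hβ (if_neg (fun h => hne h.symm))
  subst hb
  refine ⟨?_, Nat.zero_le _⟩
  have h1 : (1 : ℕ) ≤ ∑ i', (Finsupp.single ((some j : Option (Fin ρ)), i) 1) (some j, i') :=
    le_trans (by simp) (Finset.single_le_sum
      (f := fun i' => (Finsupp.single ((some j : Option (Fin ρ)), i) 1) (some j, i'))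
      (fun _ _ => Nat.zero_le _) (Finset.mem_univ i))
  unfold yd
  exact le_trans h1 (Finset.single_le_sum
    (f := fun j' => ∑ i', (Finsupp.single ((some j : Option (Fin ρ)), i) 1) (some j', i'))
    (fun _ _ => Nat.zero_le _) (Finset.mem_univ j))

private lemma hi_zero {n ρ : ℕ} {Ω : Type} [CommRing Ω] (p q : ℕ) :
    Hi p q (0 : MvPolynomial (Option (Fin ρ) × Fin n) Ω) := by
  intro β hβ
  simp at hβ

private lemma hi_sum {n ρ : ℕ} {Ω : Type} [CommRing Ω] {ι : Type*} (s : Finset ι) (p q : ℕ)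
    (G : ι → MvPolynomial (Option (Fin ρ) × Fin n) Ω) (h : ∀ i ∈ s, Hi p q (G i)) :
    Hi p q (∑ i ∈ s, G i) := by
  classical
  induction s using Finset.induction_on with
  | empty => simpa using hi_zero p q
  | insert a s ha ih =>
    rw [Finset.sum_insert ha]
    exact (h a (Finset.mem_insert_self a s)).add (ih fun i hi => h i (Finset.mem_insert_of_mem hi))

private lemma sch_pt_hi_none {n ρ : ℕ} {Ω : Type} [CommRing Ω] (u : Fin n → Fin n → Ω)
    (l : Fin n) : Hi 0 1 (∑ ι : Option (Fin ρ) × Fin n, X ι * C (ee u ι none l) :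
      MvPolynomial (Option (Fin ρ) × Fin n) Ω) := by
  apply hi_sum
  rintro ⟨o, i⟩ _
  cases o with
  | none => simpa using (hi_X_none (ρ := ρ) (Ω := Ω) i).mul (Hi.triv (C (ee u (none, i) none l)))
  | some j => simpa [ee] using hi_zero 0 1

private lemma sch_pt_hi_some {n ρ : ℕ} {Ω : Type} [CommRing Ω] (u : Fin n → Fin n → Ω)
    (j : Fin ρ) (l : Fin n) : Hi 1 0 (∑ ι : Option (Fin ρ) × Fin n, X ι * C (ee u ι (some j) l) :
      MvPolynomial (Option (Fin ρ) × Fin n) Ω) := by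
  apply hi_sum
  rintro ⟨o, i⟩ _
  cases o with
  | none => simpa [ee] using hi_zero 1 0
  | some j' =>
    have h := (hi_X_some (ρ := ρ) (Ω := Ω) j' i).mul (Hi.triv (C (ee u (some j', i) (some j) l)))
    exact h

private lemma sch_cc {n ρ : ℕ} {Ω : Type} [CommRing Ω] (u : Fin n → Fin n → Ω)
    (o : Option (Fin ρ)) (l : Fin n) :
    constantCoeff (∑ ι : Option (Fin ρ) × Fin n, X ι * C (ee u ι o l) :
      MvPolynomial (Option (Fin ρ) × Fin n) Ω) = 0 := by
  rw [map_sum]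
  refine Finset.sum_eq_zero fun ι _ => ?_
  simp

private lemma sch_factor {n ρ : ℕ} {Ω : Type} [Field Ω] (w : Option (Fin ρ) → ℕ)
    (x : Fin n → Ω) (u : Fin n → Fin n → Ω) (o : Option (Fin ρ)) (l : Fin n)
    (π : Equiv.Perm (Fin n)) (p q : ℕ)
    (hne : zz (ρ := ρ) x o l ≠ zz (ρ := ρ) x o (π l))
    (hhi : Hi p q (∑ ι : Option (Fin ρ) × Fin n, X ι * C (ee u ι o (π l)) :
      MvPolynomial (Option (Fin ρ) × Fin n) Ω)) :
    ∃ f : MvPolynomial (Option (Fin ρ) × Fin n) Ω,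
      WL (fun q => w q.1) (∑ j, w j) f ∧ constantCoeff (th x u 1 f) = 1 ∧
      Hi p q (th x u π f) := by
  refine ⟨C ((zz (ρ := ρ) x o l - zz (ρ := ρ) x o (π l))⁻¹) *
    (X (o, l) - C (zz (ρ := ρ) x o (π l))), ?_, ?_, ?_⟩
  · have h1 : w o ≤ ∑ j, w j :=
      Finset.single_le_sum (f := w) (fun _ _ => Nat.zero_le _) (Finset.mem_univ o)
    have h2 : WL (fun q : Option (Fin ρ) × Fin n => w q.1) (w o)
        (X (o, l) - C (zz (ρ := ρ) x o (π l)) : MvPolynomial (Option (Fin ρ) × Fin n) Ω) :=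
      (WL.X (fun q : Option (Fin ρ) × Fin n => w q.1) (o, l)).sub
        ((WL.C _ _).mono (Nat.zero_le _))
    have h3 := (WL.C (fun q : Option (Fin ρ) × Fin n => w q.1)
      ((zz (ρ := ρ) x o l - zz (ρ := ρ) x o (π l))⁻¹)).mul h2
    rw [zero_add] at h3
    exact h3.mono h1
  · unfold th
    simp only [map_mul, map_sub, aeval_X, pt, map_add, Equiv.Perm.coe_one, id_eq]
    rw [sch_cc u o l]
    simp only [algHom_C, algebraMap_eq, constantCoeff_C, add_zero]
    exact inv_mul_cancel₀ (sub_ne_zero.2 hne)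
  · have h1 : th x u π (C ((zz (ρ := ρ) x o l - zz (ρ := ρ) x o (π l))⁻¹) *
        (X (o, l) - C (zz (ρ := ρ) x o (π l)))) =
        C ((zz (ρ := ρ) x o l - zz (ρ := ρ) x o (π l))⁻¹) *
        ∑ ι : Option (Fin ρ) × Fin n, X ι * C (ee u ι o (π l)) := by
      unfold th
      simp only [map_mul, map_sub, aeval_X, pt, algHom_C, algebraMap_eq]
      congr 1
      ring
    rw [h1]
    simpa using (Hi.triv (C ((zz (ρ := ρ) x o l - zz (ρ := ρ) x o (π l))⁻¹))).mul hhi

private lemma sch_lab_ne {n : ℕ} {Ω : Type} [Field Ω] (a b : Fin n) (j : ℕ)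
    (h : lab a j ≠ lab b j) : (lab a j : Ω) ≠ (lab b j : Ω) := by
  have ha : lab a j < 2 := Nat.mod_lt _ (by norm_num)
  have hb : lab b j < 2 := Nat.mod_lt _ (by norm_num)
  generalize lab a j = s at *
  generalize lab b j = t at *
  interval_cases s <;> interval_cases t <;> simp_all

private lemma sch_ex {n ρ : ℕ} {Ω : Type} [Field Ω] (w : Option (Fin ρ) → ℕ)
    (x : Fin n → Ω) (u : Fin n → Fin n → Ω) (hD : Dual ρ x u) (π : Equiv.Perm (Fin n)) :
    ∃ f : MvPolynomial (Option (Fin ρ) × Fin n) Ω,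
      WL (fun q => w q.1) (∑ j, w j) f ∧ constantCoeff (th x u 1 f) = 1 ∧
      (π ≠ 1 →
        ((∀ l, ((π l : Fin n) : ℕ) % 2 ^ ρ = (l : ℕ) % 2 ^ ρ) → Hi 0 1 (th x u π f)) ∧
        ((¬ ∀ l, ((π l : Fin n) : ℕ) % 2 ^ ρ = (l : ℕ) % 2 ^ ρ) → Hi 1 0 (th x u π f))) := by
  by_cases h1 : π = 1
  · refine ⟨1, ?_, by simp, fun h => absurd h1 h⟩
    have := WL.C (fun q : Option (Fin ρ) × Fin n => w q.1) (1 : Ω)
    rw [map_one] at this
    exact this.mono (Nat.zero_le _)
  · by_cases hp : ∀ l, ((π l : Fin n) : ℕ) % 2 ^ ρ = (l : ℕ) % 2 ^ ρ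
    · obtain ⟨l, hl⟩ : ∃ l, π l ≠ l := by
        by_contra h0
        push Not at h0
        exact h1 (Equiv.ext h0)
      have hx : zz (ρ := ρ) x none l ≠ zz (ρ := ρ) x none (π l) := by
        intro h
        exact hl (hD.inj (π l) l (hp l) h.symm)
      obtain ⟨f, hf1, hf2, hf3⟩ := sch_factor w x u none l π 0 1 hx (sch_pt_hi_none u (π l))
      exact ⟨f, hf1, hf2, fun _ => ⟨fun _ => hf3, fun h => absurd hp h⟩⟩
    · obtain ⟨l, hl⟩ := not_forall.1 hp
      obtain ⟨j, hj, hd⟩ := sch_digit ρ _ _ hl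
      have hx : zz (ρ := ρ) x (some ⟨j, hj⟩) l ≠ zz (ρ := ρ) x (some ⟨j, hj⟩) (π l) :=
        sch_lab_ne l (π l) j (fun h => hd h.symm)
      obtain ⟨f, hf1, hf2, hf3⟩ := sch_factor w x u (some ⟨j, hj⟩) l π 1 0 hx
        (sch_pt_hi_some u ⟨j, hj⟩ (π l))
      exact ⟨f, hf1, hf2, fun _ => ⟨fun h => absurd h hp, fun _ => hf3⟩⟩

theorem hh_exists (n ρ : ℕ) (w : Option (Fin ρ) → ℕ) :
    ∃ c₀ : ℕ, ∀ (Ω : Type) [Field Ω] (x : Fin n → Ω) (u : Fin n → Fin n → Ω), Dual ρ x u →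
      ∃ H : MvPolynomial (Option (Fin ρ) × Fin n) Ω,
        WL (fun q => w q.1) c₀ H ∧ Lead 0 (th x u 1 H) ∧
        ∀ π : Equiv.Perm (Fin n), π ≠ 1 →
          ((∀ l, ((π l : Fin n) : ℕ) % 2 ^ ρ = (l : ℕ) % 2 ^ ρ) → Hi 0 1 (th x u π H)) ∧
          ((¬ ∀ l, ((π l : Fin n) : ℕ) % 2 ^ ρ = (l : ℕ) % 2 ^ ρ) → Hi 1 0 (th x u π H)) := by
  classical
  refine ⟨∑ _π : Equiv.Perm (Fin n), ∑ j, w j, ?_⟩
  intro Ω _ x u hD
  choose f hf1 hf2 hf3 using sch_ex w x u hD
  refine ⟨∏ π : Equiv.Perm (Fin n), f π, WL.prod _ _ _ (fun π _ => hf1 π), ?_, ?_⟩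
  · apply sch_lead
    rw [map_prod, map_prod]
    exact Finset.prod_eq_one fun π _ => hf2 π
  · intro π hπ
    have hsplit : th x u π (∏ π' : Equiv.Perm (Fin n), f π') =
        th x u π (f π) * th x u π (∏ π' ∈ Finset.univ.erase π, f π') := by
      rw [← map_mul, Finset.mul_prod_erase _ _ (Finset.mem_univ π)]
    rw [hsplit]
    refine ⟨fun hp => ?_, fun hp => ?_⟩
    · simpa using ((hf3 π hπ).1 hp).mul (Hi.triv _)
    · simpa using ((hf3 π hπ).2 hp).mul (Hi.triv _)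

end Pool.Agent.SNO
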