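import Mathlib
import Pool.Agent.SNO.Defs
import Pool.Agent.SNO.Basic
import Pool.Agent.SNO.SCDefs

set_option autoImplicit false

/-!
# Module SCS

The polynomials `Y_i^2 - Y_i` of the labels are coordinates.
Proof. `S = X (some j, i)^2 - X (some j, i)`, weight `2 w (some j)`. With `y = lab (π i) j ∈ {0, 1}`
and `ε = 2 y - 1`, `ε^2 = 1`: `th x u π (X (some j, i)) = C y + C ε * X (some j, π i)` (in the sum over
the directions `ι` of `ee ι (some j) (π i)` only `ι = (some j, π i)` survives). So
`th x u π S = T + T^2` with `T = X (some j, π i)` (because `y^2 = y`, `2 y ε - ε = ε^2 = 1`).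
`Hi 1 0`, and for `π = 1` `Lead (single (some j, i) 1)`.
-/

namespace Pool.Agent.SNO

open NumberField Module MvPolynomial

private lemma scs_sum {Ω : Type} [Field Ω] {n ρ : ℕ}
    (x : Fin n → Ω) (u : Fin n → Fin n → Ω) (j : Fin ρ) (i : Fin n) (π : Equiv.Perm (Fin n)) :
    th x u π (X (some j, i)) = C ((lab (π i) (j : ℕ) : ℕ) : Ω) +
      X (some j, π i) * C (2 * ((lab (π i) (j : ℕ) : ℕ) : Ω) - 1) := by
  classical
  unfold th
  rw [aeval_X]
  unfold pt
  congr 1
  rw [Finset.sum_eq_single (some j, π i)]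
  · simp [ee]
  · rintro ⟨ι, l⟩ _ hne
    cases ι with
    | none => simp [ee]
    | some j' =>
      have : ¬ (j' = j ∧ l = π i) := by
        rintro ⟨h1, h2⟩
        exact hne (by rw [h1, h2])
      simp [ee, this]
  · intro h
    exact absurd (Finset.mem_univ _) h

private lemma scs_eq {Ω : Type} [Field Ω] {n ρ : ℕ}
    (x : Fin n → Ω) (u : Fin n → Fin n → Ω) (j : Fin ρ) (i : Fin n) (π : Equiv.Perm (Fin n)) :
    th x u π (X (some j, i) ^ 2 - X (some j, i)) =
      X (some j, π i) + X (some j, π i) ^ 2 := by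
  rw [map_sub, map_pow, scs_sum]
  have hy : lab (π i) (j : ℕ) = 0 ∨ lab (π i) (j : ℕ) = 1 := by
    unfold lab
    exact Nat.mod_two_eq_zero_or_one _
  rcases hy with h | h
  · rw [h]
    simp only [Nat.cast_zero, mul_zero, zero_sub, map_neg, map_zero, map_one]
    ring
  · rw [h]
    have : (2 * ((1 : ℕ) : Ω) - 1) = 1 := by push_cast; ring
    rw [this]
    simp only [Nat.cast_one, map_one]
    ring

private lemma scs_yd {n ρ : ℕ} (j : Fin ρ) (l : Fin n) (k : ℕ) :
    yd (Finsupp.single ((some j, l) : Option (Fin ρ) × Fin n) k) = k := by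
  classical
  unfold yd
  rw [Finset.sum_eq_single j, Finset.sum_eq_single l]
  · simp
  · intro b _ hb
    rw [Finsupp.single_apply, if_neg]
    intro h
    exact hb (Prod.mk.inj h).2.symm
  · intro h; exact absurd (Finset.mem_univ _) h
  · intro b _ hb
    refine Finset.sum_eq_zero fun l' _ => ?_
    rw [Finsupp.single_apply, if_neg]
    intro h
    exact hb (Option.some.inj (Prod.mk.inj h).1).symm
  · intro h; exact absurd (Finset.mem_univ _) h

private lemma scs_xd {n ρ : ℕ} (j : Fin ρ) (l : Fin n) (k : ℕ) :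
    xd (Finsupp.single ((some j, l) : Option (Fin ρ) × Fin n) k) = 0 := by
  classical
  unfold xd
  refine Finset.sum_eq_zero fun l' _ => ?_
  rw [Finsupp.single_apply, if_neg]
  intro h
  exact absurd (Prod.mk.inj h).1 (by simp)

private lemma scs_supp {Ω : Type} [Field Ω] {n ρ : ℕ} (j : Fin ρ) (l : Fin n)
    (β : (Option (Fin ρ) × Fin n) →₀ ℕ)
    (hβ : β ∈ (X (some j, l) + X (some j, l) ^ 2 :
      MvPolynomial (Option (Fin ρ) × Fin n) Ω).support) :
    β = Finsupp.single (some j, l) 1 ∨ β = Finsupp.single (some j, l) 2 := by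
  classical
  rw [MvPolynomial.mem_support_iff, coeff_add] at hβ
  by_contra h
  push Not at h
  apply hβ
  rw [MvPolynomial.coeff_X, if_neg h.1.symm, coeff_X_pow, if_neg h.2.symm, add_zero]

theorem ss_exists {Ω : Type} [Field Ω] {n ρ : ℕ} (w : Option (Fin ρ) → ℕ)
    (x : Fin n → Ω) (u : Fin n → Fin n → Ω) (j : Fin ρ) (i : Fin n) :
    ∃ S : MvPolynomial (Option (Fin ρ) × Fin n) Ω,
      WL (fun q => w q.1) (2 * w (some j)) S ∧
      Lead (Finsupp.single (some j, i) 1) (th x u 1 S) ∧
      ∀ π : Equiv.Perm (Fin n), Hi 1 0 (th x u π S) := by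
  classical
  refine ⟨X (some j, i) ^ 2 - X (some j, i), ?_, ?_, ?_⟩
  · have h1 : WL (fun q : Option (Fin ρ) × Fin n => w q.1) (w (some j))
        (X (some j, i) : MvPolynomial (Option (Fin ρ) × Fin n) Ω) :=
      WL.X (fun q : Option (Fin ρ) × Fin n => w q.1) (some j, i)
    have h2 := (h1.mul h1)
    rw [← pow_two, ← two_mul] at h2
    exact h2.sub (h1.mono (by omega))
  · rw [scs_eq]
    simp only [Equiv.Perm.coe_one, id_eq]
    refine ⟨?_, ?_⟩
    · rw [coeff_add, MvPolynomial.coeff_X, if_pos rfl, coeff_X_pow, if_neg, add_zero]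
      intro h
      have := Finsupp.single_injective _ h
      omega
    · intro β hβ hne
      rcases scs_supp j i β hβ with h | h
      · exact absurd h hne
      · rw [h, scs_yd, scs_yd, scs_xd, scs_xd]
        omega
  · intro π β hβ
    rw [scs_eq] at hβ
    rcases scs_supp j (π i) β hβ with h | h
    · rw [h, scs_yd, scs_xd]; omega
    · rw [h, scs_yd, scs_xd]; omega

end Pool.Agent.SNO
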