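import Mathlib
import Pool.Agent.SNO.Defs
import Pool.Agent.SNO.Basic
import Pool.Agent.SNO.SCDefs

set_option autoImplicit false

/-!
# Module SCU

The power sums of `x` over a residue class are coordinates.
Proof. `k = i / 2^ρ + 1`, `U = C (1/k) * ∑_{l : l ≡ i mod 2^ρ} (X (none, l)^k - C (x l ^ k))`, weight
`k * w none` (`WL` lemmas in Basic; `WL.X` for the weight function `fun q => w q.1`). Let
`P l = C (x l) + T l`, `T l = ∑_{i'} X (none, i') * C (u i' l)`. Then `P l ^ k = C (x_l^k) +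
k C (x_l^(k-1)) T l + R * T l ^ 2`.
-/

namespace Pool.Agent.SNO

open NumberField Module MvPolynomial

variable {n ρ : ℕ} {Ω : Type}

/-- the linear form of the coordinate `(none, l)` -/
noncomputable def tt [CommRing Ω] (ρ : ℕ) (u : Fin n → Fin n → Ω) (l : Fin n) :
    MvPolynomial (Option (Fin ρ) × Fin n) Ω := ∑ i, X (none, i) * C (u i l)

lemma th_X_none [CommRing Ω] (x : Fin n → Ω) (u : Fin n → Fin n → Ω) (π : Equiv.Perm (Fin n))
    (l : Fin n) :
    th x u π (X ((none : Option (Fin ρ)), l)) = C (x (π l)) + tt ρ u (π l) := by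
  unfold th tt pt
  rw [aeval_X]
  congr 1
  rw [Fintype.sum_prod_type, Fintype.sum_option]
  simp [ee]

lemma xd_single_none (i : Fin n) :
    xd (Finsupp.single ((none : Option (Fin ρ)), i) 1) = 1 := by
  classical
  unfold xd
  rw [Finset.sum_eq_single i]
  · simp
  · intro j _ hj
    rw [Finsupp.single_apply, if_neg]
    intro h
    exact hj (Prod.ext_iff.1 h).2.symm
  · simp

lemma yd_single_none (i : Fin n) :
    yd (Finsupp.single ((none : Option (Fin ρ)), i) 1) = 0 := by
  classical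
  unfold yd
  refine Finset.sum_eq_zero fun j _ => Finset.sum_eq_zero fun i' _ => ?_
  rw [Finsupp.single_apply, if_neg]
  intro h
  exact absurd (Prod.ext_iff.1 h).1 (by simp)

lemma hi_X_none [CommRing Ω] (i : Fin n) :
    Hi 0 1 (X ((none : Option (Fin ρ)), i) : MvPolynomial (Option (Fin ρ) × Fin n) Ω) := by
  classical
  intro β hβ
  rw [MvPolynomial.mem_support_iff, coeff_X] at hβ
  have h : Finsupp.single ((none : Option (Fin ρ)), i) 1 = β := by
    by_contra h
    exact hβ (if_neg h)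
  rw [← h, xd_single_none]
  exact ⟨Nat.zero_le _, le_rfl⟩

lemma hi_sum [CommRing Ω] {ι : Type*} (s : Finset ι) (p q : ℕ)
    (G : ι → MvPolynomial (Option (Fin ρ) × Fin n) Ω) (h : ∀ i ∈ s, Hi p q (G i)) :
    Hi p q (∑ i ∈ s, G i) := by
  classical
  induction s using Finset.induction_on with
  | empty => intro β hβ; simp at hβ
  | insert a s ha ih =>
    rw [Finset.sum_insert ha]
    exact (h a (Finset.mem_insert_self a s)).add (ih fun i hi => h i (Finset.mem_insert_of_mem hi))

lemma hi_tt [CommRing Ω] (u : Fin n → Fin n → Ω) (l : Fin n) : Hi 0 1 (tt ρ u l) := by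
  unfold tt
  refine hi_sum _ _ _ _ fun i _ => ?_
  exact (hi_X_none i).mul (Hi.triv _)

theorem uu_exists {Ω : Type} [Field Ω] [CharZero Ω] {n ρ : ℕ} (w : Option (Fin ρ) → ℕ)
    (x : Fin n → Ω) (u : Fin n → Fin n → Ω) (h : Dual ρ x u) (i : Fin n) :
    ∃ U : MvPolynomial (Option (Fin ρ) × Fin n) Ω,
      WL (fun q => w q.1) (w none * ((i : ℕ) / 2 ^ ρ + 1)) U ∧
      Lead (Finsupp.single (none, i) 1) (th x u 1 U) ∧
      ∀ π : Equiv.Perm (Fin n), (∀ l, ((π l : Fin n) : ℕ) % 2 ^ ρ = (l : ℕ) % 2 ^ ρ) →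
        Hi 0 1 (th x u π U) := by
  classical
  set k : ℕ := (i : ℕ) / 2 ^ ρ + 1 with hk
  set S : Finset (Fin n) := Finset.univ.filter fun l => (l : ℕ) % 2 ^ ρ = (i : ℕ) % 2 ^ ρ with hS
  have hk0 : (k : Ω) ≠ 0 := by
    rw [Ne, Nat.cast_eq_zero, hk]; exact Nat.succ_ne_zero _
  let U : MvPolynomial (Option (Fin ρ) × Fin n) Ω :=
    C ((k : Ω)⁻¹) * ∑ l ∈ S, (X (none, l) ^ k - C (x l ^ k))
  -- the expansion
  obtain ⟨R, hR⟩ : ∃ R : Fin n → MvPolynomial (Option (Fin ρ) × Fin n) Ω, ∀ l,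
      (C (x l) + tt ρ u l) ^ k - C (x l ^ k) =
        C (k : Ω) * (C (x l ^ ((i : ℕ) / 2 ^ ρ)) * tt ρ u l) + R l * tt ρ u l ^ 2 := by
    have e0 : ∀ l, ∃ r, (C (x l) + tt ρ u l) ^ k =
        C (x l) ^ k + (k : MvPolynomial (Option (Fin ρ) × Fin n) Ω) * C (x l) ^ (k - 1) *
          tt ρ u l + r * tt ρ u l ^ 2 := fun l =>
      ⟨_, (Polynomial.powAddExpansion (C (x l)) (tt ρ u l) k).2⟩
    choose r hr using e0
    refine ⟨r, fun l => ?_⟩
    have e1 : (C (k : Ω) : MvPolynomial (Option (Fin ρ) × Fin n) Ω) = (k : _) := by simp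
    have e2 : k - 1 = (i : ℕ) / 2 ^ ρ := by rw [hk, Nat.add_sub_cancel]
    rw [hr, e2, e1, C_pow, C_pow]
    ring
  have hlin : ∑ l ∈ S, C (x l ^ ((i : ℕ) / 2 ^ ρ)) * tt ρ u l =
      X ((none : Option (Fin ρ)), i) := by
    have e1 : ∀ l ∈ S, C (x l ^ ((i : ℕ) / 2 ^ ρ)) * tt ρ u l =
        ∑ i' : Fin n, X ((none : Option (Fin ρ)), i') * C (x l ^ ((i : ℕ) / 2 ^ ρ) * u i' l) := by
      intro l _
      unfold tt
      rw [Finset.mul_sum]
      refine Finset.sum_congr rfl fun i' _ => ?_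
      rw [C_mul]; ring
    rw [Finset.sum_congr rfl e1, Finset.sum_comm]
    have e2 : ∀ i' : Fin n, ∑ l ∈ S, X ((none : Option (Fin ρ)), i') *
        C (x l ^ ((i : ℕ) / 2 ^ ρ) * u i' l) =
          X ((none : Option (Fin ρ)), i') * C (if i' = i then (1 : Ω) else 0) := by
      intro i'
      rw [← Finset.mul_sum, ← map_sum]
      congr 2
      by_cases hc : (i' : ℕ) % 2 ^ ρ = (i : ℕ) % 2 ^ ρ
      · have := h.dual i' i hc.symm
        rw [hS, Finset.sum_filter]
        rw [hc] at this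
        rw [this]
        by_cases hc' : i' = i
        · rw [if_pos hc', if_pos hc'.symm]
        · rw [if_neg hc', if_neg (Ne.symm hc')]
      · rw [Finset.sum_eq_zero]
        · rw [if_neg]
          rintro rfl
          exact hc rfl
        · intro l hl
          rw [hS, Finset.mem_filter] at hl
          rw [h.supp i' l (by rw [hl.2]; exact fun h' => hc h'.symm), mul_zero]
    rw [Finset.sum_congr rfl fun i' _ => e2 i']
    simp only [apply_ite C, C_1, C_0, mul_ite, mul_one, mul_zero, Finset.sum_ite_eq',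
      Finset.mem_univ, if_true]
  set G : MvPolynomial (Option (Fin ρ) × Fin n) Ω :=
    C ((k : Ω)⁻¹) * ∑ l ∈ S, R l * tt ρ u l ^ 2 with hG
  have hGhi : Hi 0 2 G := by
    rw [hG]
    have h1 : Hi 0 2 (∑ l ∈ S, R l * tt ρ u l ^ 2) := by
      refine hi_sum _ _ _ _ fun l _ => ?_
      have := (Hi.triv (R l)).mul ((hi_tt u l).pow 2)
      simpa using this
    simpa using (Hi.triv (C ((k : Ω)⁻¹))).mul h1
  have hmain : ∀ π : Equiv.Perm (Fin n), (∀ l, ((π l : Fin n) : ℕ) % 2 ^ ρ = (l : ℕ) % 2 ^ ρ) →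
      th x u π U = X (none, i) + G := by
    intro π hπ
    have e1 : th x u π U = C ((k : Ω)⁻¹) * ∑ l ∈ S,
        ((C (x (π l)) + tt ρ u (π l)) ^ k - C (x l ^ k)) := by
      simp only [U, map_mul, map_sum, map_sub, map_pow, th_X_none]
      simp only [th, aeval_C, algebraMap_eq]
    have e2 : ∑ l ∈ S, ((C (x (π l)) + tt ρ u (π l)) ^ k - C (x l ^ k)) =
        ∑ l ∈ S, ((C (x l) + tt ρ u l) ^ k - C (x l ^ k)) := by
      rw [Finset.sum_sub_distrib, Finset.sum_sub_distrib]
      congr 1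
      refine Finset.sum_bij (fun l _ => π l) ?_ ?_ ?_ ?_
      · intro l hl
        rw [hS, Finset.mem_filter] at hl ⊢
        exact ⟨Finset.mem_univ _, by rw [hπ]; exact hl.2⟩
      · intro a _ b _ hab
        exact π.injective hab
      · intro b hb
        refine ⟨π.symm b, ?_, π.apply_symm_apply b⟩
        rw [hS, Finset.mem_filter] at hb ⊢
        refine ⟨Finset.mem_univ _, ?_⟩
        have := hπ (π.symm b)
        rw [π.apply_symm_apply] at this
        rw [← this]; exact hb.2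
      · intro l _; rfl
    rw [e1, e2, Finset.sum_congr rfl fun l _ => hR l, Finset.sum_add_distrib, ← Finset.mul_sum,
      hlin, mul_add, ← mul_assoc, ← C_mul, inv_mul_cancel₀ hk0, C_1, one_mul]
  refine ⟨U, ?_, ?_, ?_⟩
  · have h1 : WL (fun q : Option (Fin ρ) × Fin n => w q.1) (0 + w none * k) U := by
      refine (WL.C _ _).mul (WL.sum _ _ fun l _ => WL.sub ?_ ?_)
      · have := WL.prod (k := Ω) (wt := fun q : Option (Fin ρ) × Fin n => w q.1) (Finset.range k)
          (fun _ => w none) (fun _ => X (none, l)) (fun _ _ => WL.X _ _)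
        rw [Finset.prod_const, Finset.sum_const, Finset.card_range, smul_eq_mul, mul_comm] at this
        exact this
      · exact (WL.C _ _).mono (Nat.zero_le _)
    rwa [zero_add] at h1
  · rw [hmain 1 (fun l => rfl)]
    have hnot : coeff (Finsupp.single (none, i) 1) G = 0 := by
      by_contra h0
      have := (hGhi _ (MvPolynomial.mem_support_iff.2 h0)).2
      rw [xd_single_none] at this
      omega
    refine ⟨by rw [coeff_add, hnot, coeff_X, if_pos rfl, add_zero], ?_⟩
    intro β hβ hne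
    have hβ' : β ∈ G.support := by
      rw [MvPolynomial.mem_support_iff, coeff_add, coeff_X, if_neg (Ne.symm hne), zero_add] at hβ
      exact MvPolynomial.mem_support_iff.2 hβ
    have := (hGhi _ hβ').2
    rw [xd_single_none, yd_single_none]
    omega
  · intro π hπ
    rw [hmain π hπ]
    exact (hi_X_none i).add (hGhi.mono le_rfl (by norm_num))

end Pool.Agent.SNO
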