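import Mathlib
import Pool.Agent.SNO.Defs
import Pool.Agent.SNO.Basic
import Pool.Agent.SNO.SCDefs

set_option autoImplicit false

/-!
# Module SCV

Dual vectors in the residue classes modulo `2^ρ`.
Proof. Fix `i`, let `r = i % 2^ρ`. The indices congruent to `r` are `r + 2^ρ q`, `q = 0,…,s-1`
(`s` = their number), and `i' / 2^ρ = q`. The matrix `(x_{r+2^ρ q} ^ q')_{q, q'}` is a Vandermonde
matrix with distinct nodes (hypothesis `hx`), so it is invertible (`Matrix.det_vandermonde_ne_zero_iff`);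
its transpose inverse gives for each `q₀` a vector `u` with `∑_q x_q^{q'} u_q = δ_{q' q₀}`. Put
`u i l = 0` outside the class. `i` and `i'` in the same class with equal quotient are equal.
-/

namespace Pool.Agent.SNO

open NumberField Module MvPolynomial

private lemma scv_card (n ρ r : ℕ) (i : Fin n) (hi : (i : ℕ) % 2 ^ ρ = r) :
    (i : ℕ) / 2 ^ ρ < Fintype.card {l : Fin n // (l : ℕ) % 2 ^ ρ = r} := by
  have h2 : 0 < 2 ^ ρ := by positivity
  have hb : ∀ q : Fin ((i : ℕ) / 2 ^ ρ + 1), r + 2 ^ ρ * (q : ℕ) < n := by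
    intro q
    have h1 := Nat.mod_add_div (i : ℕ) (2 ^ ρ)
    have h3 : 2 ^ ρ * (q : ℕ) ≤ 2 ^ ρ * ((i : ℕ) / 2 ^ ρ) :=
      Nat.mul_le_mul_left _ (Nat.lt_succ_iff.1 q.2)
    have h4 := i.2
    omega
  have hr : r < 2 ^ ρ := hi ▸ Nat.mod_lt _ h2
  let g : Fin ((i : ℕ) / 2 ^ ρ + 1) → {l : Fin n // (l : ℕ) % 2 ^ ρ = r} := fun q =>
    ⟨⟨r + 2 ^ ρ * (q : ℕ), hb q⟩, by
      simp only [Nat.add_mul_mod_self_left]
      exact Nat.mod_eq_of_lt hr⟩
  have hg : Function.Injective g := by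
    intro q q' h
    have h1 : r + 2 ^ ρ * (q : ℕ) = r + 2 ^ ρ * (q' : ℕ) := by
      have := congrArg (fun l : {l : Fin n // (l : ℕ) % 2 ^ ρ = r} => ((l : Fin n) : ℕ)) h
      exact this
    have h3 : 2 ^ ρ * (q : ℕ) = 2 ^ ρ * (q' : ℕ) := by omega
    exact Fin.ext (Nat.eq_of_mul_eq_mul_left h2 h3)
  have := Fintype.card_le_of_injective g hg
  rw [Fintype.card_fin] at this
  omega

private lemma scv_class {Ω : Type} [Field Ω] (n ρ : ℕ) (x : Fin n → Ω)
    (hx : ∀ i i' : Fin n, (i : ℕ) % 2 ^ ρ = (i' : ℕ) % 2 ^ ρ → x i = x i' → i = i') (r : ℕ) :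
    ∃ U : {l : Fin n // (l : ℕ) % 2 ^ ρ = r} → {l : Fin n // (l : ℕ) % 2 ^ ρ = r} → Ω,
      ∀ i' i : {l : Fin n // (l : ℕ) % 2 ^ ρ = r},
        ∑ l : {l : Fin n // (l : ℕ) % 2 ^ ρ = r},
          x (l : Fin n) ^ (((i' : Fin n) : ℕ) / 2 ^ ρ) * U l i = if i' = i then 1 else 0 := by
  classical
  set M : Matrix {l : Fin n // (l : ℕ) % 2 ^ ρ = r} {l : Fin n // (l : ℕ) % 2 ^ ρ = r} Ω :=
    Matrix.of fun i' l => x (l : Fin n) ^ (((i' : Fin n) : ℕ) / 2 ^ ρ) with hM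
  have hinj : ∀ i i' : {l : Fin n // (l : ℕ) % 2 ^ ρ = r},
      ((i : Fin n) : ℕ) / 2 ^ ρ = ((i' : Fin n) : ℕ) / 2 ^ ρ → i = i' := by
    intro i i' h
    apply Subtype.ext
    apply Fin.ext
    have h1 := Nat.mod_add_div ((i : Fin n) : ℕ) (2 ^ ρ)
    have h2 := Nat.mod_add_div ((i' : Fin n) : ℕ) (2 ^ ρ)
    rw [i.2, h] at h1
    rw [i'.2] at h2
    omega
  have hdet : M.det ≠ 0 := by
    intro h0
    obtain ⟨v, hv0, hv⟩ := Matrix.exists_vecMul_eq_zero_iff.2 h0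
    apply hv0
    set P : Polynomial Ω := ∑ i' : {l : Fin n // (l : ℕ) % 2 ^ ρ = r},
      Polynomial.monomial (((i' : Fin n) : ℕ) / 2 ^ ρ) (v i') with hP
    have hdeg : P.degree < ((Finset.univ : Finset {l : Fin n // (l : ℕ) % 2 ^ ρ = r}).card : ℕ) := by
      rw [hP]
      refine lt_of_le_of_lt (Polynomial.degree_sum_le _ _) ?_
      rw [Finset.sup_lt_iff (WithBot.bot_lt_coe _)]
      intro i' _
      refine lt_of_le_of_lt (Polynomial.degree_monomial_le _ _) ?_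
      exact WithBot.coe_lt_coe.2 (scv_card n ρ r i' i'.2)
    have hP0 : P = 0 := by
      refine Polynomial.eq_zero_of_degree_lt_of_eval_index_eq_zero
        (v := fun l : {l : Fin n // (l : ℕ) % 2 ^ ρ = r} => x (l : Fin n)) Finset.univ ?_ hdeg ?_
      · intro l _ l' _ h
        exact Subtype.ext (hx _ _ (by rw [l.2, l'.2]) h)
      · intro l _
        have h1 := congrFun hv l
        rw [hP, Polynomial.eval_finsetSum]
        simp only [Polynomial.eval_monomial]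
        simpa [Matrix.vecMul, dotProduct, hM] using h1
    funext i'
    have h1 : P.coeff (((i' : Fin n) : ℕ) / 2 ^ ρ) = v i' := by
      rw [hP, Polynomial.finsetSum_coeff]
      rw [Finset.sum_eq_single i']
      · rw [Polynomial.coeff_monomial, if_pos rfl]
      · intro i _ hne
        rw [Polynomial.coeff_monomial, if_neg]
        intro h
        exact hne (hinj i i' h)
      · intro h
        exact absurd (Finset.mem_univ _) h
    rw [← h1, hP0, Polynomial.coeff_zero]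
    rfl
  refine ⟨fun l i => M⁻¹ l i, ?_⟩
  intro i' i
  have h1 : M * M⁻¹ = 1 := Matrix.mul_nonsing_inv M (isUnit_iff_ne_zero.2 hdet)
  have h2 := congrFun (congrFun h1 i') i
  rw [Matrix.mul_apply, Matrix.one_apply] at h2
  simpa [hM] using h2

theorem exists_dual {Ω : Type} [Field Ω] (n ρ : ℕ) (x : Fin n → Ω)
    (hx : ∀ i i' : Fin n, (i : ℕ) % 2 ^ ρ = (i' : ℕ) % 2 ^ ρ → x i = x i' → i = i') :
    ∃ u : Fin n → Fin n → Ω, Dual ρ x u := by
  classical
  choose U hU using scv_class n ρ x hx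
  refine ⟨fun i l => if h : (l : ℕ) % 2 ^ ρ = (i : ℕ) % 2 ^ ρ then
    U ((i : ℕ) % 2 ^ ρ) ⟨l, h⟩ ⟨i, rfl⟩ else 0, hx, ?_, ?_⟩
  · intro i l h
    exact dif_neg h
  · intro i i' h
    have h1 := hU ((i : ℕ) % 2 ^ ρ) ⟨i', h⟩ ⟨i, rfl⟩
    simp only [Subtype.mk.injEq] at h1
    rw [← h1, ← Finset.sum_filter]
    rw [Finset.sum_subtype (p := fun l : Fin n => (l : ℕ) % 2 ^ ρ = (i : ℕ) % 2 ^ ρ)
        (Finset.univ.filter fun l : Fin n => (l : ℕ) % 2 ^ ρ = (i : ℕ) % 2 ^ ρ)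
        (fun l => by simp)]
    refine Finset.sum_congr rfl fun l _ => ?_
    rw [dif_pos l.2]

end Pool.Agent.SNO
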