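import Mathlib
import Pool.Agent.SNO.Defs
import Pool.Agent.SNO.Basic

set_option autoImplicit false

/-!
# Module SYM

Symmetrised monomials are polynomials in power sums, with weights.
Proof of `sym_mono`. More generally for `k : ℕ` and `a : Fin k → (σ →₀ ℕ)` there is `f` of weight at
most `∑ wd w (a i)` with `aeval (p_b) f = ∑_{ι : Fin k ↪ Fin n} ∏_i m_{a i}(Z (ι i))`,
`p_b = ∑_i ∏_j Z i j ^ b j`, `m_a(y) = ∏_j y j ^ a j`. Induction on `k`: an embedding of `Fin (k+1)` is an
embedding of `Fin k` and a value outside its range, so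
`A_{k+1}(a, b) = A_k(a) * p_b - ∑_{i < k} A_k(a with a_i replaced by a_i + b)` (`m_a m_b = m_{a+b}`,
`wd` is additive). `p_b` has weight `vw w b = wd w b` for `b ≠ 0` (as all `w j ≥ 1`); for `b = 0` it is
the constant `n`, use `C n` instead of `X 0`. (It may be more convenient to use functions on
`Finset`/lists or injective functions instead of embeddings.) For `k = n` embeddings of `Fin n` into
`Fin n` are the permutations.
`sym_poly`: write `F = ∑_{m ∈ support} coeff m F * monomial`, a monomial `m : σ × Fin n →₀ ℕ` is the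
family `a i = (j ↦ m (j, i))`, `mw (fun q => w q.1) m = ∑_i wd w (a i)`; take
`f = ∑ coeff m F • map (Int.castRingHom k) f_m`.
-/

namespace Pool.Agent.SNO

open NumberField Module MvPolynomial

/-- the monomial with exponent vector `a` -/
private def mo {σ R : Type} [Fintype σ] [CommRing R] (y : σ → R) (a : σ →₀ ℕ) : R :=
  ∏ j, y j ^ a j

private lemma mo_add {σ R : Type} [Fintype σ] [CommRing R] (y : σ → R) (a b : σ →₀ ℕ) :
    mo y (a + b) = mo y a * mo y b := by
  simp [mo, pow_add, Finset.prod_mul_distrib]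

private lemma wd_add' {σ : Type} [Fintype σ] (w : σ → ℕ) (a b : σ →₀ ℕ) :
    wd w (a + b) = wd w a + wd w b := by
  simp [wd, mul_add, Finset.sum_add_distrib]

/-- the sum over injective functions -/
private noncomputable def SI {σ R : Type} [Fintype σ] [CommRing R] (n k : ℕ) (Z : Fin n → σ → R)
    (a : Fin k → (σ →₀ ℕ)) : R :=
  haveI := Classical.decPred fun ι : Fin k → Fin n => Function.Injective ι
  ∑ ι : Fin k → Fin n, if Function.Injective ι then ∏ i, mo (Z (ι i)) (a i) else 0

private lemma SI_eq {σ R : Type} [Fintype σ] [CommRing R] (n k : ℕ) (Z : Fin n → σ → R)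
    (a : Fin k → (σ →₀ ℕ)) (d : ∀ ι : Fin k → Fin n, Decidable (Function.Injective ι)) :
    SI n k Z a = ∑ ι : Fin k → Fin n, if Function.Injective ι then ∏ i, mo (Z (ι i)) (a i) else 0 := by
  unfold SI
  refine Finset.sum_congr rfl fun ι _ => ?_
  by_cases h : Function.Injective ι
  · rw [if_pos h, if_pos h]
  · rw [if_neg h, if_neg h]

private lemma sum_notin {n k : ℕ} {R : Type} [CommRing R] (g : Fin n → R) (ι : Fin k → Fin n)
    (hι : Function.Injective ι) (d : DecidablePred fun x => x ∉ Set.range ι) :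
    (∑ x, if x ∉ Set.range ι then g x else 0) = ∑ x, g x - ∑ i, g (ι i) := by
  classical
  have h1 : ∑ i, g (ι i) = ∑ x, if x ∈ Set.range ι then g x else 0 := by
    rw [← Finset.sum_filter]
    rw [← Finset.sum_image (s := Finset.univ) (g := ι) (f := g) (fun x _ y _ h => hι h)]
    refine Finset.sum_congr ?_ fun _ _ => rfl
    ext x
    simp
  rw [h1, ← Finset.sum_sub_distrib]
  refine Finset.sum_congr rfl fun x _ => ?_
  by_cases h : x ∈ Set.range ι
  · rw [if_neg (not_not.2 h), if_pos h, sub_self]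
  · rw [if_pos h, if_neg h, sub_zero]

private lemma SI_succ {σ R : Type} [Fintype σ] [CommRing R] (n k : ℕ) (Z : Fin n → σ → R)
    (a : Fin (k + 1) → (σ →₀ ℕ)) :
    SI n (k + 1) Z a = SI n k Z (Fin.tail a) * (∑ x, mo (Z x) (a 0)) -
      ∑ i : Fin k, SI n k Z (Function.update (Fin.tail a) i (Fin.tail a i + a 0)) := by
  classical
  rw [SI_eq n (k + 1) Z a inferInstance,
    SI_eq n k Z _ inferInstance]
  rw [Finset.sum_congr rfl fun i _ => SI_eq n k Z _ inferInstance]
  rw [← (Fin.consEquiv (fun _ : Fin (k + 1) => Fin n)).sum_comp, Fintype.sum_prod_type,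
    Finset.sum_comm, Finset.sum_comm (s := (Finset.univ : Finset (Fin k))), Finset.sum_mul,
    ← Finset.sum_sub_distrib]
  refine Finset.sum_congr rfl fun ι _ => ?_
  by_cases hι : Function.Injective ι
  · simp only [hι, if_true]
    have h1 : ∀ x : Fin n, (if Function.Injective
        ((Fin.consEquiv (fun _ : Fin (k + 1) => Fin n)) (x, ι)) then
        ∏ i, mo (Z ((Fin.consEquiv (fun _ : Fin (k + 1) => Fin n)) (x, ι) i)) (a i) else 0) =
        if x ∉ Set.range ι then mo (Z x) (a 0) * ∏ i, mo (Z (ι i)) (Fin.tail a i) else 0 := by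
      intro x
      have h2 : Function.Injective ((Fin.consEquiv (fun _ : Fin (k + 1) => Fin n)) (x, ι)) ↔
          x ∉ Set.range ι := by
        have h3 : ((Fin.consEquiv (fun _ : Fin (k + 1) => Fin n)) (x, ι)) = Fin.cons x ι := rfl
        rw [h3, Fin.cons_injective_iff]
        exact ⟨fun h => h.1, fun h => ⟨h, hι⟩⟩
      by_cases h4 : x ∉ Set.range ι
      · rw [if_pos (h2.2 h4), if_pos h4, Fin.prod_univ_succ]
        rfl
      · rw [if_neg (fun h => h4 (h2.1 h)), if_neg h4]
    refine (Finset.sum_congr rfl fun x _ => h1 x).trans ?_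
    rw [sum_notin (fun x => mo (Z x) (a 0) * ∏ i, mo (Z (ι i)) (Fin.tail a i)) ι hι]
    rw [← Finset.sum_mul, mul_comm]
    congr 1
    refine Finset.sum_congr rfl fun i _ => ?_
    rw [← Finset.mul_prod_erase Finset.univ _ (Finset.mem_univ i),
      ← Finset.mul_prod_erase Finset.univ (fun i' => mo (Z (ι i'))
        (Function.update (Fin.tail a) i (Fin.tail a i + a 0) i')) (Finset.mem_univ i)]
    rw [Function.update_self, mo_add]
    have h5 : ∏ x ∈ Finset.univ.erase i, mo (Z (ι x))
        (Function.update (Fin.tail a) i (Fin.tail a i + a 0) x) =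
        ∏ x ∈ Finset.univ.erase i, mo (Z (ι x)) (Fin.tail a x) := by
      refine Finset.prod_congr rfl fun x hx => ?_
      rw [Function.update_of_ne (Finset.ne_of_mem_erase hx)]
    rw [h5]
    ring
  · simp only [hι, if_false]
    rw [Finset.sum_const_zero, zero_mul, sub_zero]
    refine Finset.sum_eq_zero fun x _ => ?_
    rw [if_neg]
    intro h
    have h3 : ((Fin.consEquiv (fun _ : Fin (k + 1) => Fin n)) (x, ι)) = Fin.cons x ι := rfl
    rw [h3, Fin.cons_injective_iff] at h
    exact hι h.2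

private lemma sym_gen {σ : Type} [Fintype σ] (w : σ → ℕ) (hw : ∀ j, 1 ≤ w j) (n : ℕ) (k : ℕ) :
    ∀ a : Fin k → (σ →₀ ℕ),
    ∃ f : MvPolynomial (σ →₀ ℕ) ℤ, WL (vw w) (∑ i, wd w (a i)) f ∧
      ∀ (R : Type) [CommRing R] (Z : Fin n → σ → R),
        aeval (fun b : σ →₀ ℕ => ∑ i, ∏ j, Z i j ^ b j) f = SI n k Z a := by
  classical
  induction k with
  | zero =>
    intro a
    refine ⟨1, ?_, ?_⟩
    · have := WL.C (vw w) (1 : ℤ)
      rw [C_1] at this
      exact this.mono (Nat.zero_le _)
    · intro R _ Z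
      rw [map_one]
      unfold SI
      rw [Fintype.sum_unique, if_pos (Function.injective_of_subsingleton _)]
      simp
  | succ k ih =>
    intro a
    obtain ⟨P, hP1, hP2⟩ : ∃ P : MvPolynomial (σ →₀ ℕ) ℤ, WL (vw w) (wd w (a 0)) P ∧
        ∀ (R : Type) [CommRing R] (Z : Fin n → σ → R),
          aeval (fun b : σ →₀ ℕ => ∑ i, ∏ j, Z i j ^ b j) P = ∑ x, mo (Z x) (a 0) := by
      by_cases h0 : a 0 = 0
      · refine ⟨C (n : ℤ), (WL.C _ _).mono (Nat.zero_le _), ?_⟩
        intro R _ Z
        rw [h0]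
        simp [mo]
      · refine ⟨X (a 0), (WL.X _ _).mono ?_, ?_⟩
        · unfold vw
          refine max_le ?_ le_rfl
          obtain ⟨j, hj⟩ : ∃ j, a 0 j ≠ 0 := by
            by_contra h
            exact h0 (Finsupp.ext fun j => not_not.1 fun hj => h ⟨j, hj⟩)
          unfold wd
          refine le_trans ?_ (Finset.single_le_sum (f := fun i => w i * a 0 i)
            (fun _ _ => Nat.zero_le _) (Finset.mem_univ j))
          exact Nat.mul_pos (hw j) (Nat.pos_of_ne_zero hj)
        · intro R _ Z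
          rw [aeval_X]
          rfl
    obtain ⟨f0, hf0, hf0'⟩ := ih (Fin.tail a)
    choose g hg hg' using fun i : Fin k =>
      ih (Function.update (Fin.tail a) i (Fin.tail a i + a 0))
    refine ⟨f0 * P - ∑ i, g i, ?_, ?_⟩
    · have hs : ∑ i, wd w (a i) = ∑ i, wd w (Fin.tail a i) + wd w (a 0) := by
        rw [Fin.sum_univ_succ, add_comm]
        rfl
      rw [hs]
      refine (hf0.mul hP1).sub (WL.sum _ _ fun i _ => (hg i).mono (le_of_eq ?_))
      rw [← Finset.add_sum_erase Finset.univ _ (Finset.mem_univ i),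
        ← Finset.add_sum_erase Finset.univ (fun i => wd w (Fin.tail a i)) (Finset.mem_univ i),
        Function.update_self, wd_add']
      have h5 : ∑ x ∈ Finset.univ.erase i, wd w
          (Function.update (Fin.tail a) i (Fin.tail a i + a 0) x) =
          ∑ x ∈ Finset.univ.erase i, wd w (Fin.tail a x) := by
        refine Finset.sum_congr rfl fun x hx => ?_
        rw [Function.update_of_ne (Finset.ne_of_mem_erase hx)]
      rw [h5]
      ring
    · intro R _ Z
      rw [SI_succ, map_sub, map_mul, map_sum, hf0' R Z, hP2 R Z]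
      congr 1
      exact Finset.sum_congr rfl fun i _ => hg' i R Z

private lemma SI_perm {σ R : Type} [Fintype σ] [CommRing R] (n : ℕ) (Z : Fin n → σ → R)
    (a : Fin n → (σ →₀ ℕ)) :
    SI n n Z a = ∑ π : Equiv.Perm (Fin n), ∏ i, ∏ j, Z (π i) j ^ (a i) j := by
  classical
  rw [SI_eq n n Z a inferInstance, ← Finset.sum_filter]
  symm
  refine Finset.sum_bij (fun (π : Equiv.Perm (Fin n)) _ => (π : Fin n → Fin n)) ?_ ?_ ?_ ?_
  · intro π _
    simp only [Finset.mem_filter, Finset.mem_univ, true_and]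
    exact π.injective
  · intro π _ π' _ h
    exact Equiv.ext (congrFun h)
  · intro ι hι
    simp only [Finset.mem_filter, Finset.mem_univ, true_and] at hι
    exact ⟨Equiv.ofBijective ι (Finite.injective_iff_bijective.1 hι), Finset.mem_univ _, rfl⟩
  · intro π _
    rfl

theorem sym_mono {σ : Type} [Fintype σ] (w : σ → ℕ) (hw : ∀ j, 1 ≤ w j) (n : ℕ)
    (a : Fin n → (σ →₀ ℕ)) :
    ∃ f : MvPolynomial (σ →₀ ℕ) ℤ, WL (vw w) (∑ i, wd w (a i)) f ∧
      ∀ (R : Type) [CommRing R] (Z : Fin n → σ → R),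
        aeval (fun b : σ →₀ ℕ => ∑ i, ∏ j, Z i j ^ b j) f =
          ∑ π : Equiv.Perm (Fin n), ∏ i, ∏ j, Z (π i) j ^ (a i) j := by
  obtain ⟨f, hf, hf'⟩ := sym_gen w hw n n a
  exact ⟨f, hf, fun R _ Z => (hf' R Z).trans (SI_perm n Z a)⟩

theorem sym_poly {σ : Type} [Fintype σ] (w : σ → ℕ) (hw : ∀ j, 1 ≤ w j) (n : ℕ) {k : Type}
    [CommRing k] (F : MvPolynomial (σ × Fin n) k) (t : ℕ) (hF : WL (fun q => w q.1) t F) :
    ∃ f : MvPolynomial (σ →₀ ℕ) k, WL (vw w) t f ∧
      ∀ (R : Type) [CommRing R] [Algebra k R] (Z : Fin n → σ → R),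
        aeval (fun b : σ →₀ ℕ => ∑ i, ∏ j, Z i j ^ b j) f =
          ∑ π : Equiv.Perm (Fin n), aeval (fun q : σ × Fin n => Z (π q.2) q.1) F := by
  choose f hf hf' using fun m : (σ × Fin n) →₀ ℕ => sym_mono w hw n
    (fun i => Finsupp.equivFunOnFinite.symm fun j => m (j, i))
  refine ⟨∑ m ∈ F.support, coeff m F • map (Int.castRingHom k) (f m), ?_, ?_⟩
  · refine WL.sum _ _ fun m hm => WL.smul _ (WL.map _ ((hf m).mono ?_))
    refine le_trans (le_of_eq ?_) (hF m hm)
    unfold mw wd
    rw [Finsupp.sum_fintype _ _ (by simp), Fintype.sum_prod_type, Finset.sum_comm]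
    refine Finset.sum_congr rfl fun j _ => Finset.sum_congr rfl fun i _ => ?_
    simp [mul_comm]
  · intro R _ _ Z
    rw [map_sum]
    have h1 : ∀ π : Equiv.Perm (Fin n), aeval (fun q : σ × Fin n => Z (π q.2) q.1) F =
        ∑ m ∈ F.support, coeff m F • ∏ i, ∏ j, Z (π i) j ^ m (j, i) := by
      intro π
      rw [aeval_def, eval₂_eq']
      refine Finset.sum_congr rfl fun m _ => ?_
      rw [Algebra.smul_def, Fintype.prod_prod_type, Finset.prod_comm]
    rw [Finset.sum_congr rfl fun π _ => h1 π, Finset.sum_comm]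
    refine Finset.sum_congr rfl fun m _ => ?_
    rw [map_smul, ← Finset.smul_sum]
    congr 1
    have h2 := hf' m R Z
    have h3 : aeval (fun b : σ →₀ ℕ => ∑ i, ∏ j, Z i j ^ b j) (map (Int.castRingHom k) (f m)) =
        aeval (fun b : σ →₀ ℕ => ∑ i, ∏ j, Z i j ^ b j) (f m) := by
      rw [← algebraMap_int_eq]
      exact aeval_map_algebraMap k _ _
    rw [h3, h2]
    simp

end Pool.Agent.SNO
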