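import Mathlib
import Pool.Agent.SNO.Defs
import Pool.Agent.SNO.Basic

set_option autoImplicit false

/-!
# Module TRI

Solution of a unitriangular system ordered by a key.
Proof. Show by descending induction on `N` (from `sup key + 1` down to 0): for every `c` supported on
`{β ∈ S | N ≤ key β}` there is such `u`. Step `N + 1 → N`: take `u = c` on `{key = N}`; then
`c - ∑ u α F α ·` vanishes on `{key ≤ N} ∩ S` (by `h1`, `h2`: for `α, β` with `key β ≤ key α = N`,
`F α β = δ`), so the induction hypothesis applies to it. Alternatively: the matrix of `F` on `S` sorted
by key is unitriangular.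
-/

namespace Pool.Agent.SNO

open NumberField Module MvPolynomial

theorem triangular {J Ω : Type} [CommRing Ω] (S : Finset J) (key : J → ℕ) (F : J → J → Ω)
    (h1 : ∀ α ∈ S, F α α = 1)
    (h2 : ∀ α ∈ S, ∀ β ∈ S, β ≠ α → key β ≤ key α → F α β = 0) (c : J → Ω) :
    ∃ u : J → Ω, ∀ β ∈ S, ∑ α ∈ S, u α * F α β = c β := by
  classical
  set K : ℕ := S.sup key + 1 with hK
  have main : ∀ m : ℕ, ∀ c : J → Ω, (∀ β ∈ S, key β < K - m → c β = 0) →
      ∃ u : J → Ω, ∀ β ∈ S, ∑ α ∈ S, u α * F α β = c β := by
    intro m
    induction m with
    | zero =>
      intro c hc
      refine ⟨0, fun β hβ => ?_⟩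
      have h : key β < K - 0 := by
        have := Finset.le_sup (f := key) hβ
        omega
      rw [hc β hβ h]
      simp
    | succ m ih =>
      intro c hc
      by_cases hm : K - m = 0
      · exact ih c (fun β hβ h => by omega)
      · obtain ⟨N, hN⟩ : ∃ N, N + 1 = K - m := ⟨K - m - 1, by omega⟩
        have hN' : K - (m + 1) = N := by omega
        rw [hN'] at hc
        set u0 : J → Ω := fun α => if key α = N then c α else 0 with hu0
        have hsum : ∀ β ∈ S, key β < N + 1 → ∑ α ∈ S, u0 α * F α β = c β := by
          intro β hβ hlt
          by_cases hb : key β = N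
          · rw [Finset.sum_eq_single β]
            · rw [hu0]
              simp only [hb, if_true]
              rw [h1 β hβ, mul_one]
            · intro α hα hne
              rw [hu0]
              simp only
              split_ifs with h
              · rw [h2 α hα β hβ (Ne.symm hne) (by omega), mul_zero]
              · rw [zero_mul]
            · intro h
              exact absurd hβ h
          · rw [hc β hβ (by omega)]
            refine Finset.sum_eq_zero (fun α hα => ?_)
            rw [hu0]
            simp only
            split_ifs with h
            · rw [h2 α hα β hβ (fun e => hb (e ▸ h)) (by omega), mul_zero]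
            · rw [zero_mul]
        obtain ⟨u, hu⟩ := ih (fun β => c β - ∑ α ∈ S, u0 α * F α β) (by
          intro β hβ hlt
          rw [← hN] at hlt
          rw [hsum β hβ hlt, sub_self])
        refine ⟨fun α => u0 α + u α, fun β hβ => ?_⟩
        have := hu β hβ
        simp only [add_mul, Finset.sum_add_distrib]
        rw [this]
        ring
  exact main K c (fun β _ h => by omega)

end Pool.Agent.SNO
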