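import Mathlib
import Pool.Agent.SNO.Defs
import Pool.Agent.SNO.Basic
import Pool.Agent.SNO.SYM
import Pool.Agent.SNO.TRI
import Pool.Agent.SNO.SCV
import Pool.Agent.SNO.SCU
import Pool.Agent.SNO.SCS
import Pool.Agent.SNO.SCH
import Pool.Agent.SNO.SCDefs

set_option autoImplicit false

/-!
# Module SC

The special configuration is good.
Proof. `c₀` from `hh_exists`. `u` from `exists_dual`, `e = ee u`. For `α : Option (Fin ρ) × Fin n →₀ ℕ`
put `F_α = H * ∏_i U_i ^ α (none, i) * ∏_{j,i} S_{j,i} ^ α (some j, i)`, weight at most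
`wd (vv n ρ w) α + c₀`. Then
(a) `th x u 1 F_α` is `Lead α` (`Lead.mul`, `Lead.prod`, `Lead.pow`; `α` is the sum of its singles);
(b) `π ≠ 1` preserving the classes: `th x u π F_α` is `Hi (yd α) (xd α + 1)`;
(c) other `π`: `th x u π F_α` is `Hi (yd α + 1) 0`.
By `sym_poly` (with `R = MvPolynomial (Option (Fin ρ) × Fin n) Ω`,
`Z i j = pt (fun j => zz x j i) (fun ι j => ee u ι j i) j`) and `ps_sm` there is `f_α` with
`WL (vw w) (wd (vv n ρ w) α + c₀) f_α` and `ex (sm n Ω) (zz x) (ee u) f_α = ∑_π th x u π F_α`.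
Let `S = JS (vv n ρ w) b` (`mem_JS`; the weights `vv` are at least 1), `key β = yd β * b + xd β`. For
`α ∈ S` we have `xd α < b` (`xd α ≤ wd v α`). The coefficient of `β` in `ex f_α` is: `1` for `β = α`
(in (b), (c) every exponent in the support has a larger key than `α`: (b) `key β ≥ yd α b + xd α + 1`;
(c) `key β ≥ (yd α + 1) b > key α`), and `0` for `β ≠ α` with `key β ≤ key α` (in (a): `yd β ≥ yd α`,
`xd β ≥ xd α` and larger total degree, so `key β > key α`, using `b ≥ 1`). `triangular` gives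
for each `c` coefficients `t_α` with `∑ t_α coeff β (ex f_α) = c β` on `S`; take
`f = ∑_{α ∈ S} t_α • f_α`, of weight `≤ b - 1 + c₀`.
-/

namespace Pool.Agent.SNO

open NumberField Module MvPolynomial

private lemma WL.pow' {E k : Type} [CommRing k] {wt : E → ℕ} {d : ℕ} {f : MvPolynomial E k}
    (hf : WL wt d f) (m : ℕ) : WL wt (m * d) (f ^ m) := by
  have := WL.prod (wt := wt) (Finset.range m) (fun _ => d) (fun _ => f) (fun _ _ => hf)
  simpa using this

theorem special (n ρ : ℕ) (w : Option (Fin ρ) → ℕ) (hw : ∀ j, 1 ≤ w j) :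
    ∃ c₀ : ℕ, ∀ (Ω : Type) [Field Ω] [CharZero Ω] (x : Fin n → Ω),
      (∀ i i' : Fin n, (i : ℕ) % 2 ^ ρ = (i' : ℕ) % 2 ^ ρ → x i = x i' → i = i') →
      ∃ e : Option (Fin ρ) × Fin n → Option (Fin ρ) → Fin n → Ω, ∀ b, 1 ≤ b →
        JGood (sm n Ω) w (vv n ρ w) (b - 1 + c₀) b (zz x) e := by
  classical
  obtain ⟨c₀, hc₀⟩ := hh_exists n ρ w
  refine ⟨c₀, fun Ω _ _ x hx => ?_⟩
  obtain ⟨u, hu⟩ := exists_dual n ρ x hx
  obtain ⟨H, hH1, hH2, hH3⟩ := hc₀ Ω x u hu
  choose U hU1 hU2 hU3 using fun i => uu_exists w x u hu i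
  choose S hS1 hS2 hS3 using fun (j : Fin ρ) (i : Fin n) => ss_exists w x u j i
  refine ⟨ee u, fun b hb c => ?_⟩
  have hv : ∀ q, 1 ≤ vv n ρ w q := by
    rintro ⟨_ | j, i⟩
    · show 1 ≤ w none * ((i : ℕ) / 2 ^ ρ + 1)
      exact Nat.one_le_iff_ne_zero.2 (Nat.mul_ne_zero (by have := hw none; omega) (Nat.succ_ne_zero _))
    · show 1 ≤ 2 * w (some j)
      have := hw (some j); omega
  have hwd : ∀ α : (Option (Fin ρ) × Fin n) →₀ ℕ, wd (vv n ρ w) α =
      ∑ i : Fin n, w none * ((i : ℕ) / 2 ^ ρ + 1) * α (none, i) +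
        ∑ j : Fin ρ, ∑ i : Fin n, 2 * w (some j) * α (some j, i) := by
    intro α
    unfold wd
    rw [Fintype.sum_prod_type, Fintype.sum_option]
    rfl
  let F : ((Option (Fin ρ) × Fin n) →₀ ℕ) → MvPolynomial (Option (Fin ρ) × Fin n) Ω := fun α =>
    H * (∏ i, U i ^ α (none, i)) * ∏ j, ∏ i, S j i ^ α (some j, i)
  have hF : ∀ α, WL (fun q => w q.1) (wd (vv n ρ w) α + c₀) (F α) := by
    intro α
    have h1 : WL (fun q : Option (Fin ρ) × Fin n => w q.1)
        (∑ i : Fin n, α (none, i) * (w none * ((i : ℕ) / 2 ^ ρ + 1)))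
        (∏ i, U i ^ α (none, i)) := WL.prod _ _ _ fun i _ => (hU1 i).pow' _
    have h2 : WL (fun q : Option (Fin ρ) × Fin n => w q.1)
        (∑ j : Fin ρ, ∑ i : Fin n, α (some j, i) * (2 * w (some j)))
        (∏ j, ∏ i, S j i ^ α (some j, i)) :=
      WL.prod _ _ _ fun j _ => WL.prod _ _ _ fun i _ => (hS1 j i).pow' _
    refine ((hH1.mul h1).mul h2).mono (le_of_eq ?_)
    rw [hwd]
    have e1 : ∑ i : Fin n, α (none, i) * (w none * ((i : ℕ) / 2 ^ ρ + 1)) =
        ∑ i : Fin n, w none * ((i : ℕ) / 2 ^ ρ + 1) * α (none, i) :=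
      Finset.sum_congr rfl fun i _ => by ring
    have e2 : ∑ j : Fin ρ, ∑ i : Fin n, α (some j, i) * (2 * w (some j)) =
        ∑ j : Fin ρ, ∑ i : Fin n, 2 * w (some j) * α (some j, i) :=
      Finset.sum_congr rfl fun j _ => Finset.sum_congr rfl fun i _ => by ring
    rw [e1, e2]
    ring
  have hth : ∀ π α, th x u π (F α) = th x u π H * (∏ i, th x u π (U i) ^ α (none, i)) *
      ∏ j, ∏ i, th x u π (S j i) ^ α (some j, i) := by
    intro π α
    simp only [F, map_mul, map_prod, map_pow]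
  have ha : ∀ α, Lead α (th x u 1 (F α)) := by
    intro α
    rw [hth]
    have h1 := Lead.prod Finset.univ (fun i : Fin n => α (none, i) •
      (Finsupp.single ((none : Option (Fin ρ)), i) 1)) _ (fun i _ => (hU2 i).pow (α (none, i)))
    have h2 := Lead.prod Finset.univ (fun j : Fin ρ => ∑ i : Fin n, α (some j, i) •
      (Finsupp.single (some j, i) 1)) _ (fun j _ => Lead.prod Finset.univ (fun i : Fin n =>
        α (some j, i) • (Finsupp.single (some j, i) 1)) _
        (fun i _ => (hS2 j i).pow (α (some j, i))))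
    have h3 := (hH2.mul h1).mul h2
    have e : (0 + ∑ i : Fin n, α (none, i) • (Finsupp.single ((none : Option (Fin ρ)), i) 1) +
        ∑ j : Fin ρ, ∑ i : Fin n, α (some j, i) • (Finsupp.single (some j, i) 1)) = α := by
      have h4 : α = ∑ q : Option (Fin ρ) × Fin n, Finsupp.single q (α q) := by
        ext q
        rw [Finsupp.finsetSum_apply]
        simp [Finsupp.single_apply]
      conv_rhs => rw [h4, Fintype.sum_prod_type, Fintype.sum_option]
      simp
    rwa [e] at h3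
  have hb' : ∀ π : Equiv.Perm (Fin n), π ≠ 1 →
      (∀ l, ((π l : Fin n) : ℕ) % 2 ^ ρ = (l : ℕ) % 2 ^ ρ) →
      ∀ α, Hi (yd α) (xd α + 1) (th x u π (F α)) := by
    intro π hπ hcl α
    rw [hth]
    have h1 := Hi.prod Finset.univ _ _ _ (fun (i : Fin n) _ => (hU3 i π hcl).pow (α (none, i)))
    have h2 := Hi.prod Finset.univ _ _ _ (fun (j : Fin ρ) _ => Hi.prod Finset.univ _ _ _
      (fun (i : Fin n) _ => (hS3 j i π).pow (α (some j, i))))
    refine ((((hH3 π hπ).1 hcl).mul h1).mul h2).mono (le_of_eq ?_) (le_of_eq ?_)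
    · simp [yd]
    · simp [xd]; ring
  have hc' : ∀ π : Equiv.Perm (Fin n), π ≠ 1 →
      (¬ ∀ l, ((π l : Fin n) : ℕ) % 2 ^ ρ = (l : ℕ) % 2 ^ ρ) →
      ∀ α, Hi (yd α + 1) 0 (th x u π (F α)) := by
    intro π hπ hcl α
    rw [hth]
    have h1 := Hi.triv (∏ i, th x u π (U i) ^ α (none, i))
    have h2 := Hi.prod Finset.univ _ _ _ (fun (j : Fin ρ) _ => Hi.prod Finset.univ _ _ _
      (fun (i : Fin n) _ => (hS3 j i π).pow (α (some j, i))))
    refine ((((hH3 π hπ).2 hcl).mul h1).mul h2).mono (le_of_eq ?_) (Nat.zero_le _)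
    simp [yd]; ring
  choose f hf1 hf2 using fun α => sym_poly w hw n (F α) _ (hF α)
  have hex : ∀ α, ex (sm n Ω) (zz x) (ee u) (f α) = ∑ π : Equiv.Perm (Fin n), th x u π (F α) := by
    intro α
    have h1 := hf2 α (MvPolynomial (Option (Fin ρ) × Fin n) Ω)
      (fun i j => pt (fun j => zz x j i) (fun ι j => ee u ι j i) j)
    have h2 : ps (sm n Ω) (zz x) (ee u) = fun a : Option (Fin ρ) →₀ ℕ =>
        ∑ i, ∏ j, pt (fun j => zz (ρ := ρ) x j i) (fun ι j => ee u ι j i) j ^ a j := by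
      funext a
      exact ps_sm n Ω (zz x) (ee u) a
    unfold ex
    rw [h2]
    exact h1
  have hxd : ∀ α : (Option (Fin ρ) × Fin n) →₀ ℕ, xd α ≤ wd (vv n ρ w) α := by
    intro α
    rw [hwd]
    refine le_trans ?_ (Nat.le_add_right _ _)
    unfold xd
    refine Finset.sum_le_sum fun i _ => ?_
    exact Nat.le_mul_of_pos_left _ (hv (none, i))
  have hk1 : ∀ α ∈ JS (vv n ρ w) b, coeff α (ex (sm n Ω) (zz x) (ee u) (f α)) = 1 := by
    intro α _
    rw [hex, coeff_sum, Finset.sum_eq_single (1 : Equiv.Perm (Fin n))]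
    · exact (ha α).1
    · intro π _ hπ
      by_contra h0
      have hmem : α ∈ (th x u π (F α)).support := mem_support_iff.2 h0
      by_cases hcl : ∀ l, ((π l : Fin n) : ℕ) % 2 ^ ρ = (l : ℕ) % 2 ^ ρ
      · have := (hb' π hπ hcl α α hmem).2; omega
      · have := (hc' π hπ hcl α α hmem).1; omega
    · intro h; exact absurd (Finset.mem_univ _) h
  have hk2 : ∀ α ∈ JS (vv n ρ w) b, ∀ β ∈ JS (vv n ρ w) b, β ≠ α →
      yd β * b + xd β ≤ yd α * b + xd α →
      coeff β (ex (sm n Ω) (zz x) (ee u) (f α)) = 0 := by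
    intro α hα β _ hne hkey
    have hαb : xd α < b := lt_of_le_of_lt (hxd α) ((mem_JS _ hv b α).1 hα)
    rw [hex, coeff_sum]
    refine Finset.sum_eq_zero fun π _ => ?_
    by_contra h0
    have hmem : β ∈ (th x u π (F α)).support := mem_support_iff.2 h0
    by_cases hπ : π = 1
    · subst hπ
      obtain ⟨k1, k2, k3⟩ := (ha α).2 β hmem hne
      have k4 : yd α * b ≤ yd β * b := Nat.mul_le_mul_right _ k1
      rcases Nat.lt_or_ge (yd α) (yd β) with k5 | k5
      · have k6 : (yd α + 1) * b ≤ yd β * b := Nat.mul_le_mul_right _ k5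
        rw [add_mul] at k6
        omega
      · omega
    · by_cases hcl : ∀ l, ((π l : Fin n) : ℕ) % 2 ^ ρ = (l : ℕ) % 2 ^ ρ
      · obtain ⟨k1, k2⟩ := hb' π hπ hcl α β hmem
        have k4 : yd α * b ≤ yd β * b := Nat.mul_le_mul_right _ k1
        omega
      · obtain ⟨k1, _⟩ := hc' π hπ hcl α β hmem
        have k6 : (yd α + 1) * b ≤ yd β * b := Nat.mul_le_mul_right _ k1
        rw [add_mul] at k6
        omega
  obtain ⟨t, ht⟩ := triangular (JS (vv n ρ w) b) (fun β => yd β * b + xd β)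
    (fun α β => coeff β (ex (sm n Ω) (zz x) (ee u) (f α))) hk1 hk2 c
  refine ⟨∑ α ∈ JS (vv n ρ w) b, t α • f α, ?_, ?_⟩
  · refine WL.sum _ _ fun α hα => ((hf1 α).smul (t α)).mono ?_
    have := (mem_JS _ hv b α).1 hα
    omega
  · intro β hβ
    have hβS : β ∈ JS (vv n ρ w) b := (mem_JS _ hv b β).2 hβ
    rw [← ht β hβS, map_sum, coeff_sum]
    refine Finset.sum_congr rfl fun α _ => ?_
    rw [map_smul, coeff_smul, smul_eq_mul]

end Pool.Agent.SNO
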