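import Mathlib
import Pool.Agent.SNO.Defs
import Pool.Agent.SNO.Basic
import Pool.Agent.SNO.SC
import Pool.Agent.SNO.MIN
import Pool.Agent.SNO.OPN
import Pool.Agent.SNO.DSC
import Pool.Agent.SNO.ORD
import Pool.Agent.Helper58.NF.Sep

set_option autoImplicit false

/-!
# Module MNA

The polynomial condition for a tuple and flags to be good.
Proof. `c₀` from `special`. Given `B`: `D₀ = D_open + ρ n^2`. For `L, u, x, y` take `en` from
`order_embeddings`. Work over `Ω = ℂ`, `A = Fin n → ℂ`, functional `sm n ℂ`, parameters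
`P = (Fin ρ × Fin n) ⊕ (I × σ × Fin n)`, with
`z none = C (en · x)`, `z (some j) = C (en · (y j)) + ∑_l X (inl (j, l)) * C (en · (u l))`,
`e ι j = ∑_l X (inr (ι, j, l)) * C (en · (u l))` (all of total degree at most 1).
The matrix `(en i (u l))` is invertible (`u` is a basis of `L`, the embeddings are independent;
e.g. `Algebra.discr_not_zero_of_basis` or `Helper58.NF.dedekind`), so there is a parameter `c₁` with
`z(c₁) = zz (i ↦ en i x)` and `e(c₁) =` the directions of `special` (the hypothesis on `x` of
`special` is the property of `en`). `special` + `JGood.mgood` + `open_good` give `F₁` of degree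
`≤ D_open`, nonzero at `c₁`, such that `F₁(c) ≠ 0` implies `MGood` at `c`. Generators: for each `j` the
polynomial `∏_{i < i'} (en i (y_j(c)) - en i' (y_j(c)))` (degree `≤ n^2`) is nonzero (choose the
parameters such that the values are `0, 1, …, n-1`); if it does not vanish, the `n` embeddings take
different values at `y_j(c)`, so `ℚ(y_j(c)) = L` (`IntermediateField.adjoin_simple_eq_top_iff...`,
`Field.primitive_element_iff_algHom_eq_of_eval`; embeddings agreeing on the subfield would
coincide). `F = F₁ * ∏_j F_j ≠ 0`. For natural parameters `(c, h)` the point is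
`(en i (z_j))` with `z` the tuple of the statement, and `descend` gives `MGood` over ℚ.
-/

namespace Pool.Agent.SNO

open NumberField Module MvPolynomial

private lemma totalDegree_X_le {S R : Type} [CommRing R] (i : S) :
    (X i : MvPolynomial S R).totalDegree ≤ 1 := by
  rw [X]
  refine (totalDegree_monomial_le _ _).trans ?_
  rw [Finsupp.sum_single_index] <;> simp

/-- the matrix of the embeddings on a basis is invertible -/
private lemma solve {L : Type} [Field L] [NumberField L] {n : ℕ} (hL : finrank ℚ L = n)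
    (u : Fin n → L) (hu : LinearIndependent ℚ u) (en : Fin n ≃ (L →+* ℂ)) (g : Fin n → ℂ) :
    ∃ a : Fin n → ℂ, ∀ i, ∑ l, a l * en i (u l) = g i := by
  classical
  set U : Matrix (Fin n) (Fin n) ℂ := Matrix.of fun i l => en i (u l) with hU
  have hspan : Submodule.span ℚ (Set.range u) = ⊤ :=
    hu.span_eq_top_of_card_eq_finrank' (by rw [Fintype.card_fin, hL])
  have hrow : LinearIndependent ℂ U.row := by
    rw [Fintype.linearIndependent_iff]
    intro c hc
    have h1 : ∀ v : L, ∑ i, c i * en i v = 0 := by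
      intro v
      have hv : v ∈ Submodule.span ℚ (Set.range u) := by rw [hspan]; trivial
      induction hv using Submodule.span_induction with
      | mem x hx =>
        obtain ⟨l, rfl⟩ := hx
        have := congrFun hc l
        simpa [hU, Matrix.row] using this
      | zero => simp
      | add x y _ _ hx hy =>
        simp only [map_add, mul_add, Finset.sum_add_distrib, hx, hy, add_zero]
      | smul q x _ hx =>
        have h2 : ∀ i, en i (q • x) = (q : ℂ) * en i x := by
          intro i
          rw [Algebra.smul_def, map_mul]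
          congr 1
          simp
        have h3 : ∑ i, c i * en i (q • x) = (q : ℂ) * ∑ i, c i * en i x := by
          rw [Finset.mul_sum]
          refine Finset.sum_congr rfl fun i _ => ?_
          rw [h2]; ring
        rw [h3, hx, mul_zero]
    have h2 := linearIndependent_monoidHom L ℂ
    have h3 : LinearIndependent ℂ (fun i : Fin n => (((en i : L →+* ℂ) : L →* ℂ) : L → ℂ)) := by
      refine h2.comp (fun i : Fin n => ((en i : L →+* ℂ) : L →* ℂ)) ?_
      intro i i' hii
      apply en.injective
      ext v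
      exact DFunLike.congr_fun hii v
    rw [Fintype.linearIndependent_iff] at h3
    apply h3 c
    funext v
    have := h1 v
    simpa [Finset.sum_apply] using this
  have hunit : IsUnit U := Matrix.linearIndependent_rows_iff_isUnit.1 hrow
  have hdet : IsUnit U.det := (Matrix.isUnit_iff_isUnit_det U).1 hunit
  refine ⟨U⁻¹.mulVec g, fun i => ?_⟩
  have h1 : U.mulVec (U⁻¹.mulVec g) = g := by
    rw [Matrix.mulVec_mulVec, Matrix.mul_nonsing_inv U hdet, Matrix.one_mulVec]
  have h2 := congrFun h1 i
  rw [← h2]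
  simp only [Matrix.mulVec, dotProduct, hU, Matrix.of_apply]
  refine Finset.sum_congr rfl fun l _ => mul_comm _ _

private lemma gen_of_inj {L : Type} [Field L] [NumberField L] {n : ℕ} (en : Fin n ≃ (L →+* ℂ))
    (v : L) (h : Function.Injective fun i => en i v) : IntermediateField.adjoin ℚ {v} = ⊤ := by
  rw [Field.primitive_element_iff_algHom_eq_of_eval' ℚ ℂ (fun x => IsAlgClosed.splits _)]
  intro φ ψ hφ
  have h1 : en (en.symm φ.toRingHom) v = en (en.symm ψ.toRingHom) v := by
    rw [Equiv.apply_symm_apply, Equiv.apply_symm_apply]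
    exact hφ
  have h2 := en.symm.injective (h h1)
  ext x
  exact DFunLike.congr_fun h2 x

theorem many_poly (n ρ : ℕ) (hn : 1 ≤ n) (w : Option (Fin ρ) → ℕ) (hw : ∀ j, 1 ≤ w j) :
    ∃ c₀ : ℕ, ∀ B : ℕ, ∃ D₀ : ℕ, ∀ (L : Type) [Field L] [NumberField L], finrank ℚ L = n →
      ∀ u : Fin n → L, LinearIndependent ℚ u → ∀ x : L,
      n ≤ finrank ℚ (IntermediateField.adjoin ℚ {x}) * 2 ^ ρ → ∀ y : Fin ρ → L,
      ∃ F : MvPolynomial ((Fin ρ × Fin n) ⊕
          ((Option (Fin ρ) × Fin n) × Option (Fin ρ) × Fin n)) ℂ,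
        F ≠ 0 ∧ F.totalDegree ≤ D₀ ∧ ∀ (c : Fin ρ → Fin n → ℕ)
        (h : Option (Fin ρ) × Fin n → Option (Fin ρ) → Fin n → ℕ),
        eval (Sum.elim (fun q => (c q.1 q.2 : ℂ)) (fun q => (h q.1 q.2.1 q.2.2 : ℂ))) F ≠ 0 →
        (∀ j, IntermediateField.adjoin ℚ {y j + ∑ l, (c j l : L) * u l} = ⊤) ∧
          ∀ b, 1 ≤ b → b ≤ B → MGood (tra ℚ L) w (vv n ρ w) (b - 1 + c₀) b
            (fun j => j.elim x fun j => y j + ∑ l, (c j l : L) * u l)
            (fun ι j => ∑ l, (h ι j l : L) * u l) := by
  obtain ⟨c₀, hc₀⟩ := special n ρ w hw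
  refine ⟨c₀, fun B => ?_⟩
  obtain ⟨D₁, hD₁⟩ := open_good (P := (Fin ρ × Fin n) ⊕
          ((Option (Fin ρ) × Fin n) × Option (Fin ρ) × Fin n)) w hw (vv n ρ w) c₀ B
  refine ⟨D₁ + ρ * n ^ 2, ?_⟩
  intro L _ _ hL u hu x hx y
  obtain ⟨en, hen⟩ := order_embeddings L n ρ hL x hx
  obtain ⟨e₀, he₀⟩ := hc₀ ℂ (fun i => en i x) hen
  have hsolve := solve hL u hu en
  set P := (Fin ρ × Fin n) ⊕ ((Option (Fin ρ) × Fin n) × Option (Fin ρ) × Fin n) with hP
  have hvv : ∀ i, 1 ≤ vv n ρ w i := by
    rintro ⟨j, i⟩
    cases j with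
    | none =>
      simp only [vv]
      exact Nat.one_le_iff_ne_zero.2
        (Nat.mul_ne_zero (Nat.one_le_iff_ne_zero.1 (hw none)) (Nat.succ_ne_zero _))
    | some j => simp only [vv]; have := hw (some j); omega
  -- the family
  set z' : Option (Fin ρ) → MvPolynomial P (Fin n → ℂ) := fun j => j.elim (C (fun i => en i x))
    (fun j => C (fun i => en i (y j)) + ∑ l, X (Sum.inl (j, l)) * C (fun i => en i (u l))) with hz'
  set e' : Option (Fin ρ) × Fin n → Option (Fin ρ) → MvPolynomial P (Fin n → ℂ) :=
    fun ι j => ∑ l, X (Sum.inr (ι, j, l)) * C (fun i => en i (u l)) with he'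
  have hsumdeg : ∀ g : Fin n → P, (∑ l, X (g l) * C (fun i => en i (u l)) :
      MvPolynomial P (Fin n → ℂ)).totalDegree ≤ 1 := by
    intro g
    refine (totalDegree_finsetSum _ _).trans (Finset.sup_le fun l _ => ?_)
    refine (totalDegree_mul _ _).trans ?_
    rw [totalDegree_C, add_zero]
    exact totalDegree_X_le _
  have hevz : ∀ c : P → ℂ, ∀ j i, eval (fun q => algebraMap ℂ (Fin n → ℂ) (c q)) (z' (some j)) i =
      en i (y j) + ∑ l, c (Sum.inl (j, l)) * en i (u l) := by
    intro c j i
    simp [hz', Finset.sum_apply]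
  have hevz0 : ∀ c : P → ℂ, ∀ i, eval (fun q => algebraMap ℂ (Fin n → ℂ) (c q)) (z' none) i =
      en i x := by
    intro c i
    simp [hz']
  have heve : ∀ c : P → ℂ, ∀ ι j i, eval (fun q => algebraMap ℂ (Fin n → ℂ) (c q)) (e' ι j) i =
      ∑ l, c (Sum.inr (ι, j, l)) * en i (u l) := by
    intro c ι j i
    simp [he', Finset.sum_apply]
  choose az haz using fun j : Fin ρ => hsolve (fun i => (lab i (j : ℕ) : ℂ) - en i (y j))
  choose ae hae using fun (q : (Option (Fin ρ) × Fin n) × Option (Fin ρ)) => hsolve (e₀ q.1 q.2)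
  set c₁ : P → ℂ := Sum.elim (fun q => az q.1 q.2) (fun q => ae (q.1, q.2.1) q.2.2) with hc₁
  obtain ⟨F₁, hF₁d, hF₁u, hF₁⟩ := hD₁ ℂ (Fin n → ℂ) (sm n ℂ) (sm_smul n ℂ) z' e'
    (fun j => by
      cases j with
      | none => simp [hz']
      | some j =>
        simp only [hz', Option.elim_some]
        refine (totalDegree_add _ _).trans (max_le (by simp) (hsumdeg _)))
    (fun ι j => hsumdeg _) c₁ (fun b hb1 hb2 => by
      have h1 := (he₀ b hb1).mgood hvv
      have h2 : (fun j => eval (fun q => algebraMap ℂ (Fin n → ℂ) (c₁ q)) (z' j)) =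
          zz (fun i => en i x) := by
        funext j i
        cases j with
        | none => rw [hevz0]; rfl
        | some j =>
          rw [hevz]
          have := haz j i
          simp only [hc₁, Sum.elim_inl]
          rw [this]
          simp [zz]
      have h3 : (fun ι j => eval (fun q => algebraMap ℂ (Fin n → ℂ) (c₁ q)) (e' ι j)) = e₀ := by
        funext ι j i
        rw [heve]
        have := hae (ι, j) i
        simp only [hc₁, Sum.elim_inr]
        rw [this]
      rw [h2, h3]
      exact h1)
  -- the generators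
  set V : Fin ρ → Fin n → MvPolynomial P ℂ := fun j i => C (en i (y j)) +
    ∑ l, X (Sum.inl (j, l)) * C (en i (u l)) with hV
  have hVdeg : ∀ j i, (V j i).totalDegree ≤ 1 := by
    intro j i
    refine (totalDegree_add _ _).trans (max_le (by simp) ?_)
    refine (totalDegree_finsetSum _ _).trans (Finset.sup_le fun l _ => ?_)
    refine (totalDegree_mul _ _).trans ?_
    rw [totalDegree_C, add_zero]
    exact totalDegree_X_le _
  have hVev : ∀ c : P → ℂ, ∀ j i, eval c (V j i) =
      en i (y j) + ∑ l, c (Sum.inl (j, l)) * en i (u l) := by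
    intro c j i
    simp [hV]
  set G : Fin ρ → MvPolynomial P ℂ := fun j =>
    ∏ q ∈ (Finset.univ : Finset (Fin n)).offDiag, (V j q.1 - V j q.2) with hG
  have hGdeg : ∀ j, (G j).totalDegree ≤ n ^ 2 := by
    intro j
    refine (totalDegree_finsetProd _ _).trans ?_
    calc ∑ q ∈ (Finset.univ : Finset (Fin n)).offDiag, (V j q.1 - V j q.2).totalDegree
        ≤ ∑ q ∈ (Finset.univ : Finset (Fin n)).offDiag, 1 :=
          Finset.sum_le_sum fun q _ => (totalDegree_sub _ _).trans (max_le (hVdeg _ _) (hVdeg _ _))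
      _ ≤ n ^ 2 := by
          rw [Finset.sum_const, smul_eq_mul, mul_one, Finset.offDiag_card, Finset.card_univ,
            Fintype.card_fin, sq]
          exact Nat.sub_le _ _
  have hG0 : ∀ j, G j ≠ 0 := by
    intro j
    rw [hG]
    simp only
    rw [Finset.prod_ne_zero_iff]
    rintro ⟨i, i'⟩ hii h0
    rw [Finset.mem_offDiag] at hii
    obtain ⟨a, ha⟩ := hsolve (fun i => ((i : ℕ) : ℂ) - en i (y j))
    have h1 : ∀ i, eval (Sum.elim (fun q : Fin ρ × Fin n => a q.2) (fun _ => 0)) (V j i) =
        ((i : ℕ) : ℂ) := by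
      intro i
      rw [hVev]
      simp only [Sum.elim_inl]
      rw [ha i]; ring
    have h2 := congrArg (eval (Sum.elim (fun q : Fin ρ × Fin n => a q.2) (fun _ => 0))) h0
    simp only [map_sub, h1, map_zero, sub_eq_zero] at h2
    exact hii.2.2 (Fin.ext (by exact_mod_cast h2))
  refine ⟨F₁ * ∏ j, G j, ?_, ?_, ?_⟩
  · refine mul_ne_zero ?_ (Finset.prod_ne_zero_iff.2 fun j _ => hG0 j)
    intro h0
    rw [h0, map_zero] at hF₁u
    exact not_isUnit_zero hF₁u
  · refine (totalDegree_mul _ _).trans (add_le_add hF₁d ?_)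
    refine (totalDegree_finsetProd _ _).trans ?_
    calc ∑ j : Fin ρ, (G j).totalDegree ≤ ∑ j : Fin ρ, n ^ 2 :=
          Finset.sum_le_sum fun j _ => hGdeg j
      _ = ρ * n ^ 2 := by simp
  · intro c h hne
    set p₀ : P → ℂ := Sum.elim (fun q => (c q.1 q.2 : ℂ)) (fun q => (h q.1 q.2.1 q.2.2 : ℂ)) with hp₀
    rw [map_mul] at hne
    have hne1 := left_ne_zero_of_mul hne
    have hne2 := right_ne_zero_of_mul hne
    rw [map_prod, Finset.prod_ne_zero_iff] at hne2
    have hval : ∀ j i, en i (y j + ∑ l, (c j l : L) * u l) =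
        en i (y j) + ∑ l, p₀ (Sum.inl (j, l)) * en i (u l) := by
      intro j i
      simp [hp₀]
    constructor
    · intro j
      apply gen_of_inj en
      intro i i' hii
      by_contra hne3
      have h1 := hne2 j (Finset.mem_univ _)
      rw [hG] at h1
      simp only [map_prod] at h1
      rw [Finset.prod_ne_zero_iff] at h1
      have h2 := h1 (i, i') (by simp [hne3])
      apply h2
      simp only [map_sub, sub_eq_zero]
      rw [hVev, hVev, ← hval, ← hval]
      exact hii
    · intro b hb1 hb2
      apply descend w (vv n ρ w) (b - 1 + c₀) b L n en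
      have h1 := hF₁ p₀ (Ne.isUnit hne1) b hb1 hb2
      have h2 : (fun j => eval (fun q => algebraMap ℂ (Fin n → ℂ) (p₀ q)) (z' j)) =
          fun j i => en i (j.elim x fun j => y j + ∑ l, (c j l : L) * u l) := by
        funext j i
        cases j with
        | none => rw [hevz0]; rfl
        | some j =>
          rw [hevz]
          simp only [Option.elim_some]
          rw [hval]
      have h3 : (fun ι j => eval (fun q => algebraMap ℂ (Fin n → ℂ) (p₀ q)) (e' ι j)) =
          fun ι j i => en i (∑ l, (h ι j l : L) * u l) := by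
        funext ι j i
        rw [heve]
        simp [hp₀]
      rw [h2, h3] at h1
      exact h1

end Pool.Agent.SNO
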