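import Mathlib
import Pool.Agent.SNO.Defs
import Pool.Agent.SNO.Basic

set_option autoImplicit false

/-!
# Module ZCT

Schwartz-Zippel for a product of two grids.
Proof. Let `S = {0, …, 2 D₀}` and count the points `(c, h) ∈ S^P × S^Q` (as functions `P ⊕ Q → ℕ`) with
`F(c, h) = 0`: at most `D₀ (2 D₀ + 1)^(|P| + |Q| - 1)`, so at most half of all (for
`|P| + |Q| ≥ 1`; Mathlib `MvPolynomial.schwartz_zippel_totalDegree` for `Fin N` variables, use
`rename` along an equivalence `P ⊕ Q ≃ Fin N`; if `D₀ = 0` then `F` is a nonzero constant). So at least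
half of the pairs have `F ≠ 0`; for each good `c` there are at most `(2 D₀ + 1)^|Q|` pairs, hence
`(2D₀+1)^(|P|+|Q|) ≤ 2 * #good pairs ≤ 2 * (2D₀+1)^|Q| * #good c`.
-/

namespace Pool.Agent.SNO

open NumberField Module MvPolynomial

private lemma ZCT_sz {N : ℕ} {Ω : Type} [Field Ω] [CharZero Ω] [DecidableEq Ω] (D₀ : ℕ)
    (F : MvPolynomial (Fin N) Ω) (hF : F ≠ 0) (hd : F.totalDegree ≤ D₀) :
    (2 * D₀ + 1) ^ N ≤ 2 * ((Fintype.piFinset fun _ : Fin N => Finset.range (2 * D₀ + 1)).filter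
      fun g => eval (fun i => (g i : Ω)) F ≠ 0).card := by
  classical
  set S : Finset Ω := (Finset.range (2 * D₀ + 1)).image fun a : ℕ => (a : Ω) with hS
  have hSc : S.card = 2 * D₀ + 1 := by
    rw [hS, Finset.card_image_of_injective _ Nat.cast_injective, Finset.card_range]
  have h1 := schwartz_zippel_totalDegree hF S
  rw [hSc] at h1
  set Zr := (Fintype.piFinset fun _ : Fin N => S).filter fun f => eval f F = 0 with hZ
  have h2 : 2 * Zr.card ≤ (2 * D₀ + 1) ^ N := by
    have hpos : (0 : ℚ≥0) < ((2 * D₀ + 1 : ℕ) : ℚ≥0) := by exact_mod_cast Nat.succ_pos _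
    have hpos' : (0 : ℚ≥0) < ((2 * D₀ + 1 : ℕ) : ℚ≥0) ^ N := pow_pos hpos N
    rw [div_le_div_iff₀ hpos' hpos] at h1
    have h3 : Zr.card * (2 * D₀ + 1) ≤ F.totalDegree * (2 * D₀ + 1) ^ N := by
      exact_mod_cast h1
    have h4 : (2 * Zr.card) * (2 * D₀ + 1) ≤ (2 * D₀ + 1) ^ N * (2 * D₀ + 1) := by
      calc (2 * Zr.card) * (2 * D₀ + 1) = 2 * (Zr.card * (2 * D₀ + 1)) := by ring
        _ ≤ 2 * (F.totalDegree * (2 * D₀ + 1) ^ N) := Nat.mul_le_mul_left _ h3
        _ ≤ 2 * (D₀ * (2 * D₀ + 1) ^ N) :=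
          Nat.mul_le_mul_left _ (Nat.mul_le_mul_right _ hd)
        _ ≤ (2 * D₀ + 1) ^ N * (2 * D₀ + 1) := by nlinarith [Nat.zero_le ((2 * D₀ + 1) ^ N)]
    exact Nat.le_of_mul_le_mul_right h4 (Nat.succ_pos _)
  -- compare the two grids
  set G := Fintype.piFinset fun _ : Fin N => Finset.range (2 * D₀ + 1) with hG
  have hGc : G.card = (2 * D₀ + 1) ^ N := by
    rw [hG, Fintype.card_piFinset]
    simp
  have h5 := Finset.card_filter_add_card_filter_not (s := G)
    (fun g : Fin N → ℕ => eval (fun i => (g i : Ω)) F = 0)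
  have h6 : (G.filter fun g : Fin N → ℕ => eval (fun i => (g i : Ω)) F = 0).card ≤ Zr.card := by
    refine Finset.card_le_card_of_injOn (fun g i => (g i : Ω)) ?_ ?_
    · intro g hg
      rw [Finset.mem_coe, Finset.mem_filter] at hg
      rw [Finset.mem_coe, hZ, Finset.mem_filter]
      refine ⟨?_, hg.2⟩
      rw [Fintype.mem_piFinset]
      intro i
      exact Finset.mem_image_of_mem _ (Fintype.mem_piFinset.1 hg.1 i)
    · intro g _ g' _ he
      funext i
      exact Nat.cast_injective (congrFun he i)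
  rw [hGc] at h5
  change (2 * D₀ + 1) ^ N ≤ 2 * (G.filter fun g : Fin N → ℕ =>
    ¬ (eval (fun i => (g i : Ω)) F = 0)).card
  omega

theorem zero_count {P Q Ω : Type} [Fintype P] [Fintype Q] [Field Ω] [CharZero Ω] (D₀ : ℕ)
    (F : MvPolynomial (P ⊕ Q) Ω) (hF : F ≠ 0) (hd : F.totalDegree ≤ D₀) :
    (2 * D₀ + 1) ^ Fintype.card P ≤ 2 * {c : P → ℕ | (∀ i, c i ≤ 2 * D₀) ∧
      ∃ h : Q → ℕ, (∀ i, h i ≤ 2 * D₀) ∧
        eval (Sum.elim (fun i => (c i : Ω)) (fun i => (h i : Ω))) F ≠ 0}.ncard := by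
  classical
  set e := Fintype.equivFin (P ⊕ Q) with he
  set N := Fintype.card (P ⊕ Q) with hN
  have hNc : N = Fintype.card P + Fintype.card Q := Fintype.card_sum
  have h1 := ZCT_sz D₀ (rename e F)
    (fun h => hF (rename_injective e e.injective (by rw [h, map_zero])))
    ((totalDegree_rename_le e F).trans hd)
  set A := (Fintype.piFinset fun _ : Fin N => Finset.range (2 * D₀ + 1)).filter
      (fun g => eval (fun i => (g i : Ω)) (rename e F) ≠ 0) with hA
  set B := (Fintype.piFinset fun _ : P => Finset.range (2 * D₀ + 1)).filter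
      (fun c => ∃ h : Q → ℕ, (∀ i, h i ≤ 2 * D₀) ∧
        eval (Sum.elim (fun i => (c i : Ω)) (fun i => (h i : Ω))) F ≠ 0) with hB
  have hBs : {c : P → ℕ | (∀ i, c i ≤ 2 * D₀) ∧
      ∃ h : Q → ℕ, (∀ i, h i ≤ 2 * D₀) ∧
        eval (Sum.elim (fun i => (c i : Ω)) (fun i => (h i : Ω))) F ≠ 0} = ↑B := by
    ext c
    rw [hB, Finset.mem_coe, Finset.mem_filter, Fintype.mem_piFinset]
    simp only [Finset.mem_range, Nat.lt_succ_iff]
    rfl
  rw [hBs, Set.ncard_coe_finset]
  have hmap : ∀ g ∈ A, (fun i : P => g (e (Sum.inl i))) ∈ B := by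
    intro g hg
    rw [hA, Finset.mem_filter, Fintype.mem_piFinset] at hg
    rw [hB, Finset.mem_filter, Fintype.mem_piFinset]
    refine ⟨fun i => hg.1 _, fun i : Q => g (e (Sum.inr i)), fun i => ?_, ?_⟩
    · have := hg.1 (e (Sum.inr i))
      rw [Finset.mem_range] at this
      exact Nat.lt_succ_iff.1 this
    · have h2 := hg.2
      rw [eval_rename] at h2
      have h3 : ((fun i : Fin N => (g i : Ω)) ∘ e) =
          Sum.elim (fun i : P => ((g (e (Sum.inl i)) : ℕ) : Ω))
            (fun i : Q => ((g (e (Sum.inr i)) : ℕ) : Ω)) := by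
        funext x
        rcases x with x | x <;> rfl
      rwa [h3] at h2
  have hfib : ∀ c ∈ B, (A.filter fun g => (fun i : P => g (e (Sum.inl i))) = c).card ≤
      (2 * D₀ + 1) ^ Fintype.card Q := by
    intro c _
    have : (Fintype.piFinset fun _ : Q => Finset.range (2 * D₀ + 1)).card =
        (2 * D₀ + 1) ^ Fintype.card Q := by
      rw [Fintype.card_piFinset]
      simp
    rw [← this]
    refine Finset.card_le_card_of_injOn (fun g i => g (e (Sum.inr i))) ?_ ?_
    · intro g hg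
      rw [Finset.mem_coe, Finset.mem_filter, hA, Finset.mem_filter, Fintype.mem_piFinset] at hg
      rw [Finset.mem_coe, Fintype.mem_piFinset]
      intro i
      exact hg.1.1 _
    · intro g hg g' hg' hgg
      rw [Finset.mem_coe, Finset.mem_filter] at hg hg'
      funext x
      obtain ⟨y, rfl⟩ := e.surjective x
      rcases y with y | y
      · exact congrFun (hg.2.trans hg'.2.symm) y
      · exact congrFun hgg y
  have h2 := Finset.card_le_mul_card_image_of_maps_to hmap _ hfib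
  have h3 : (2 * D₀ + 1) ^ Fintype.card P * (2 * D₀ + 1) ^ Fintype.card Q ≤
      (2 * B.card) * (2 * D₀ + 1) ^ Fintype.card Q := by
    calc (2 * D₀ + 1) ^ Fintype.card P * (2 * D₀ + 1) ^ Fintype.card Q
        = (2 * D₀ + 1) ^ N := by rw [hNc, pow_add]
      _ ≤ 2 * A.card := h1
      _ ≤ 2 * ((2 * D₀ + 1) ^ Fintype.card Q * B.card) := Nat.mul_le_mul_left _ h2
      _ = (2 * B.card) * (2 * D₀ + 1) ^ Fintype.card Q := by ring
  exact Nat.le_of_mul_le_mul_right h3 (pow_pos (Nat.succ_pos _) _)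

end Pool.Agent.SNO
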