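import Mathlib
import Pool.Agent.SNO.Defs
import Pool.Agent.SNO.Basic
import Pool.Agent.SNO.ZCT
import Pool.Agent.SNO.MNA

set_option autoImplicit false

/-!
# Module MNY

Many good tuples. Proof. `D = 2 D₀` with `D₀` from `many_poly`; apply `zero_count` with
`P = Fin ρ × Fin n`, `Q = (Option (Fin ρ) × Fin n) × Option (Fin ρ) × Fin n`; translate between
`c : Fin ρ × Fin n → ℕ` and `c : Fin ρ → Fin n → ℕ` by currying (an injection between the two sets;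
the set of the statement is finite, as `c j l ≤ D`).
-/

namespace Pool.Agent.SNO

open NumberField Module MvPolynomial

theorem many (n ρ : ℕ) (hn : 1 ≤ n) (w : Option (Fin ρ) → ℕ) (hw : ∀ j, 1 ≤ w j) :
    ∃ c₀ : ℕ, ∀ B : ℕ, ∃ D : ℕ, ∀ (L : Type) [Field L] [NumberField L], finrank ℚ L = n →
      ∀ u : Fin n → L, LinearIndependent ℚ u → ∀ x : L,
      n ≤ finrank ℚ (IntermediateField.adjoin ℚ {x}) * 2 ^ ρ → ∀ y : Fin ρ → L,
      (D + 1) ^ (ρ * n) ≤ 2 * {c : Fin ρ → Fin n → ℕ | (∀ j l, c j l ≤ D) ∧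
        (∀ j, IntermediateField.adjoin ℚ {y j + ∑ l, (c j l : L) * u l} = ⊤) ∧
        ∃ h : Option (Fin ρ) × Fin n → Option (Fin ρ) → Fin n → ℕ, (∀ ι j l, h ι j l ≤ D) ∧
          ∀ b, 1 ≤ b → b ≤ B → MGood (tra ℚ L) w (vv n ρ w) (b - 1 + c₀) b
            (fun j => j.elim x fun j => y j + ∑ l, (c j l : L) * u l)
            (fun ι j => ∑ l, (h ι j l : L) * u l)}.ncard := by
  obtain ⟨c₀, hc₀⟩ := many_poly n ρ hn w hw
  refine ⟨c₀, fun B => ?_⟩
  obtain ⟨D₀, hD₀⟩ := hc₀ B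
  refine ⟨2 * D₀, ?_⟩
  intro L _ _ hL u hu x hx y
  obtain ⟨F, hF0, hFd, hF⟩ := hD₀ L hL u hu x hx y
  have h1 := zero_count (P := Fin ρ × Fin n)
    (Q := (Option (Fin ρ) × Fin n) × Option (Fin ρ) × Fin n) D₀ F hF0 hFd
  rw [Fintype.card_prod, Fintype.card_fin, Fintype.card_fin] at h1
  refine h1.trans (Nat.mul_le_mul_left 2 ?_)
  refine Set.ncard_le_ncard_of_injOn (fun c j l => c (j, l)) ?_ ?_ ?_
  · rintro c ⟨hc, h, hh, hne⟩
    obtain ⟨h2, h3⟩ := hF (fun j l => c (j, l)) (fun ι j l => h (ι, j, l)) hne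
    exact ⟨fun j l => hc (j, l), h2, fun ι j l => h (ι, j, l), fun ι j l => hh (ι, j, l), h3⟩
  · intro c _ c' _ hcc
    funext q
    exact congrFun (congrFun hcc q.1) q.2
  · refine Set.Finite.subset (Set.Finite.pi' (t := fun _ : Fin ρ =>
      {f : Fin n → ℕ | ∀ l, f l ≤ 2 * D₀}) fun _ => ?_) ?_
    · exact Set.Finite.pi' (t := fun _ : Fin n => {k : ℕ | k ≤ 2 * D₀}) fun _ =>
        Set.finite_le_nat _
    · rintro c ⟨hc, -⟩ j l
      exact hc j l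

end Pool.Agent.SNO
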