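import Mathlib
import Pool.Agent.SNO.Defs
import Pool.Agent.SNO.Basic

set_option autoImplicit false

/-!
# Module XSB

A generator that is a small combination of elements of `S`.
Proof. Let `K₀ = ℚ(S)`. Choose `y_1, …, y_n ∈ S ∪ {0}` with `ℚ(y_1,…,y_n) = K₀`: greedily, as long as
`ℚ(y_1,…,y_r) ≠ K₀` some element of `S` is not in it, the degree at least doubles, so at most `n`
steps are needed (pad with 0). `D = n^2`. The restrictions to `K₀` of the `n` embeddings `φ : L → ℂ` (or into
an algebraic closure): for each pair of embeddings `φ, ψ` of `L` with `φ|K₀ ≠ ψ|K₀` some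
`φ y_i ≠ ψ y_i`, so `c ↦ ∑ c_i (φ y_i - ψ y_i)` is a nonzero linear form; the product over the at most
`n^2` pairs is a nonzero polynomial of total degree `≤ n^2`, so it does not vanish at some
`c ∈ {0,…,n^2}^n` (`MvPolynomial.eq_zero_of_eval_zero_at_prod_finset` or
`Helper58.NF.exists_nat_eval_ne_zero`). Then `x = ∑ c_i y_i ∈ K₀` has the property: `φ x = ψ x` implies
`φ|K₀ = ψ|K₀`, so `ℚ(x) = K₀` (number of embeddings of `ℚ(x)` equals the number of embeddings of `K₀`;
or: primitive element theory, the embeddings of `K₀` over `ℚ(x)` into ℂ extending a fixed one is unique,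
so `[K₀ : ℚ(x)] = 1`).
-/

namespace Pool.Agent.SNO

open NumberField Module MvPolynomial

private lemma greedy (E : Type) [Field E] (L : Type) [Field L] [Algebra E L] [FiniteDimensional E L] (S : Set L) (k : ℕ) :
    ∃ y : Fin k → L, (∀ i, y i ∈ S ∨ y i = 0) ∧
      (IntermediateField.adjoin E (Set.range y) = IntermediateField.adjoin E S ∨
        k + 1 ≤ finrank E (IntermediateField.adjoin E (Set.range y))) := by
  induction k with
  | zero =>
    refine ⟨Fin.elim0, fun i => i.elim0, Or.inr ?_⟩
    exact Nat.succ_le_of_lt finrank_pos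
  | succ k ih =>
    obtain ⟨y, hy, h⟩ := ih
    have hle : IntermediateField.adjoin E (Set.range y) ≤ IntermediateField.adjoin E S := by
      rw [IntermediateField.adjoin_le_iff]
      rintro x ⟨i, rfl⟩
      rcases hy i with h1 | h1
      · exact IntermediateField.subset_adjoin E S h1
      · rw [h1]; exact zero_mem _
    have hr : ∀ s : L, Set.range (Fin.snoc (α := fun _ => L) y s) = insert s (Set.range y) := by
      intro s
      ext x
      constructor
      · rintro ⟨i, rfl⟩
        refine Fin.lastCases ?_ (fun j => ?_) i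
        · simp
        · simp
      · rintro (rfl | ⟨j, rfl⟩)
        · exact ⟨Fin.last k, by simp⟩
        · exact ⟨j.castSucc, by simp⟩
    by_cases hE : IntermediateField.adjoin E (Set.range y) = IntermediateField.adjoin E S
    · refine ⟨Fin.snoc (α := fun _ => L) y 0, ?_, Or.inl ?_⟩
      · intro i
        refine Fin.lastCases ?_ (fun j => ?_) i
        · right; simp
        · simpa using hy j
      · rw [← hE, hr]
        apply le_antisymm
        · rw [IntermediateField.adjoin_le_iff]
          rintro x (rfl | hx)
          · exact zero_mem _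
          · exact IntermediateField.subset_adjoin E _ hx
        · exact IntermediateField.adjoin.mono E _ _ (Set.subset_insert _ _)
    · have h2 : k + 1 ≤ finrank E (IntermediateField.adjoin E (Set.range y)) := h.resolve_left hE
      have h3 : ¬ S ⊆ IntermediateField.adjoin E (Set.range y) := by
        intro hS
        exact hE (le_antisymm hle (IntermediateField.adjoin_le_iff.2 hS))
      obtain ⟨s, hsS, hs⟩ := Set.not_subset.1 h3
      refine ⟨Fin.snoc (α := fun _ => L) y s, ?_, Or.inr ?_⟩
      · intro i
        refine Fin.lastCases ?_ (fun j => ?_) i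
        · left; simpa using hsS
        · simpa using hy j
      · rw [hr]
        have hlt : IntermediateField.adjoin E (Set.range y) <
            IntermediateField.adjoin E (insert s (Set.range y)) := by
          refine lt_of_le_of_ne (IntermediateField.adjoin.mono E _ _ (Set.subset_insert _ _)) ?_
          intro he
          apply hs
          have : s ∈ IntermediateField.adjoin E (insert s (Set.range y)) :=
            IntermediateField.subset_adjoin E _ (Set.mem_insert _ _)
          rw [← he] at this
          exact this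
        by_contra hcon
        exact hlt.ne (IntermediateField.eq_of_le_of_finrank_le hlt.le (by omega))

private lemma exists_power (n : ℕ) {ι : Type} [Fintype ι] (v : ι → Fin n → ℂ) (hv : ∀ a, v a ≠ 0)
    (hc : Fintype.card ι ≤ n ^ 2) :
    ∃ t : ℕ, t ≤ n ^ 3 ∧ ∀ a, ∑ i : Fin n, ((t : ℂ) ^ (i : ℕ)) * v a i ≠ 0 := by
  classical
  let P : ι → Polynomial ℂ := fun a => ∑ i : Fin n, Polynomial.C (v a i) * Polynomial.X ^ (i : ℕ)
  have hP : ∀ a, P a ≠ 0 := by
    intro a h
    apply hv a
    funext i
    have h1 : (P a).coeff (i : ℕ) = v a i := by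
      simp only [P, Polynomial.finsetSum_coeff, Polynomial.coeff_C_mul_X_pow]
      rw [Finset.sum_eq_single i]
      · simp
      · intro j _ hj
        rw [if_neg]
        intro he
        exact hj (Fin.ext he.symm)
      · intro hi; exact absurd (Finset.mem_univ _) hi
    rw [← h1, h]
    simp
  have hd : ∀ a, (P a).natDegree ≤ n := by
    intro a
    refine Polynomial.natDegree_sum_le_of_forall_le _ _ (fun i _ => ?_)
    exact (Polynomial.natDegree_C_mul_X_pow_le _ _).trans i.2.le
  have hQ : ∏ a, P a ≠ 0 := Finset.prod_ne_zero_iff.2 (fun a _ => hP a)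
  have hdQ : (∏ a, P a).natDegree ≤ n ^ 3 := by
    refine (Polynomial.natDegree_prod_le _ _).trans ?_
    refine (Finset.sum_le_card_nsmul _ _ n (fun a _ => hd a)).trans ?_
    rw [Finset.card_univ, smul_eq_mul]
    calc Fintype.card ι * n ≤ n ^ 2 * n := Nat.mul_le_mul_right _ hc
      _ = n ^ 3 := by ring
  by_contra hcon
  push Not at hcon
  apply hQ
  refine Polynomial.eq_zero_of_natDegree_lt_card_of_eval_eq_zero _ (ι := Fin (n ^ 3 + 1))
    (f := fun t => ((t : ℕ) : ℂ)) ?_ ?_ ?_
  · intro a b h
    exact Fin.ext (Nat.cast_injective h)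
  · intro t
    obtain ⟨a, ha⟩ := hcon t (Nat.lt_succ_iff.1 t.2)
    rw [Polynomial.eval_prod]
    refine Finset.prod_eq_zero (Finset.mem_univ a) ?_
    simp only [P, Polynomial.eval_finsetSum, Polynomial.eval_mul, Polynomial.eval_C,
      Polynomial.eval_pow, Polynomial.eval_X]
    rw [← ha]
    exact Finset.sum_congr rfl (fun i _ => mul_comm _ _)
  · rw [Fintype.card_fin]
    omega

private lemma gen (E : Type) [Field E] [CharZero E] [Algebra E ℂ] (L : Type) [Field L] [Algebra E L]
    [FiniteDimensional E L] (n : ℕ) (hL : finrank E L = n) (S : Set L) :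
    ∃ (y : Fin n → L) (c : Fin n → ℕ),
      (∀ i, y i ∈ S ∨ y i = 0) ∧ (∀ i, c i ≤ (n ^ 3 + 1) ^ n) ∧
      IntermediateField.adjoin E {∑ i, (c i : L) * y i} = IntermediateField.adjoin E S := by
  classical
  obtain ⟨y, hy, h⟩ := greedy E L S n
  have hfin : ∀ F : IntermediateField E L, finrank E F ≤ n := by
    intro F
    rw [← hL]
    exact Submodule.finrank_le (Subalgebra.toSubmodule F.toSubalgebra)
  have hE : IntermediateField.adjoin E (Set.range y) = IntermediateField.adjoin E S := by
    rcases h with h | h
    · exact h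
    · have := hfin (IntermediateField.adjoin E (Set.range y))
      omega
  let F : IntermediateField E L := IntermediateField.adjoin E (Set.range y)
  have hyF : ∀ i, y i ∈ F := fun i => IntermediateField.subset_adjoin E _ ⟨i, rfl⟩
  let z : Fin n → F := fun i => ⟨y i, hyF i⟩
  have hz : IntermediateField.adjoin E (Set.range z) = ⊤ := by
    apply IntermediateField.lift_injective F
    rw [IntermediateField.lift_adjoin, IntermediateField.lift_top]
    have : (Subtype.val '' Set.range z) = Set.range y := by
      rw [← Set.range_comp]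
      rfl
    rw [this]
  let ι : Type := {p : (F →ₐ[E] ℂ) × (F →ₐ[E] ℂ) // p.1 ≠ p.2}
  have hcard : Fintype.card ι ≤ n ^ 2 := by
    refine (Fintype.card_subtype_le _).trans ?_
    rw [Fintype.card_prod, AlgHom.card]
    calc finrank E F * finrank E F ≤ n * n := Nat.mul_le_mul (hfin F) (hfin F)
      _ = n ^ 2 := by ring
  let v : ι → Fin n → ℂ := fun p i => p.1.1 (z i) - p.1.2 (z i)
  have hv : ∀ p, v p ≠ 0 := by
    intro p hp
    apply p.2
    have h1 : ∀ i, p.1.1 (z i) = p.1.2 (z i) := by
      intro i
      have := congrFun hp i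
      exact sub_eq_zero.1 this
    have h2 : IntermediateField.adjoin E (Set.range z) ≤ 
        (AlgHom.equalizer p.1.1 p.1.2).toIntermediateField (by
          intro x hx
          have hx' : p.1.1 x = p.1.2 x := hx
          change p.1.1 x⁻¹ = p.1.2 x⁻¹
          rw [map_inv₀, map_inv₀, hx']) := by
      rw [IntermediateField.adjoin_le_iff]
      rintro x ⟨i, rfl⟩
      exact h1 i
    rw [hz] at h2
    ext x
    exact h2 (IntermediateField.mem_top (x := x))
  obtain ⟨t, ht, hne⟩ := exists_power n v hv hcard
  refine ⟨y, fun i => t ^ (i : ℕ), hy, ?_, ?_⟩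
  · intro i
    calc t ^ (i : ℕ) ≤ (n ^ 3 + 1) ^ (i : ℕ) := Nat.pow_le_pow_left (by omega) _
      _ ≤ (n ^ 3 + 1) ^ n := Nat.pow_le_pow_right (by omega) i.2.le
  · rw [← hE]
    let x : F := ∑ i : Fin n, ((t ^ (i : ℕ) : ℕ) : F) * z i
    have hx : (x : L) = ∑ i : Fin n, ((t ^ (i : ℕ) : ℕ) : L) * y i := by
      simp [x, z]
    rw [← hx, ← IntermediateField.lift_adjoin_simple]
    have htop : IntermediateField.adjoin E {x} = ⊤ := by
      have := (Field.primitive_element_iff_algHom_eq_of_eval' E ℂ
        (fun _ => IsAlgClosed.splits _) x).2 ?_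
      · exact this
      · intro φ ψ hφψ
        by_contra hcon
        apply hne ⟨(φ, ψ), hcon⟩
        have h3 : φ x = ψ x := hφψ
        simp only [x, map_sum, map_mul, map_natCast] at h3
        simp only [v, mul_sub, Finset.sum_sub_distrib]
        rw [sub_eq_zero]
        simpa using h3
    rw [htop, IntermediateField.lift_top]

theorem small_generator (n : ℕ) : ∃ D : ℕ, ∀ (L : Type) [Field L] [NumberField L],
    finrank ℚ L = n → ∀ S : Set L, ∃ (y : Fin n → L) (c : Fin n → ℕ),
      (∀ i, y i ∈ S ∨ y i = 0) ∧ (∀ i, c i ≤ D) ∧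
      IntermediateField.adjoin ℚ {∑ i, (c i : L) * y i} = IntermediateField.adjoin ℚ S := by
  exact ⟨(n ^ 3 + 1) ^ n, fun L _ _ hL S => gen ℚ L n hL S⟩

end Pool.Agent.SNO
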