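import Mathlib
import Pool.Agent.SNO.Defs
import Pool.Agent.SNO.Basic
import Pool.Agent.SNO.XSB
import Pool.Agent.helper22.Final
import Pool.Agent.Helper58.NF.Mink

set_option autoImplicit false

/-!
# Module XSM

A small integer generating a field of degree at least `s`.
Proof. `Ca` from `sub_count n d`, `V = vol n / 3^n > 0` (`Helper58.NF.cnt_lower_uniform`:
`V R^n / sqrt |disc| ≤ #{x : house x ≤ R}`), `R = C' X^(1/(2(n-d)))` with `C' ≥ 1` so large that
`V C'^(n-d) > Ca`. Let `K₀ = ℚ(all integers of house ≤ R)`. If `[K₀ : ℚ] ≤ d`: all integers of house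
`≤ R` lie in `K₀`, so `V R^n / sqrt X ≤ Ca R^d`, i.e. `V R^(n-d) ≤ Ca sqrt X`, but
`R^(n-d) = C'^(n-d) sqrt X`: contradiction. So `s ≤ [K₀ : ℚ]` by the hypothesis on the subfields.
`small_generator` with `S` = the integers of house `≤ R`: `x = ∑ c_i y_i` is integral, house
`≤ n D R`, `ℚ(x) = K₀`. `C = C' (1 + n D)`.
-/

namespace Pool.Agent.SNO

open NumberField Module MvPolynomial

theorem small_x (n d s : ℕ) (hd : 1 ≤ d) (hdn : d < n) :
    ∃ C : ℝ, 1 ≤ C ∧ ∀ (L : Type) [Field L] [NumberField L], finrank ℚ L = n →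
      (∀ F : IntermediateField ℚ L, finrank ℚ F ≤ d ∨ s ≤ finrank ℚ F) → ∀ X : ℝ, 1 ≤ X →
      (|discr L| : ℝ) ≤ X → ∃ x : 𝓞 L, house ((x : 𝓞 L) : L) ≤ C * X ^ (1 / (2 * ((n : ℝ) - d))) ∧
        s ≤ finrank ℚ (IntermediateField.adjoin ℚ {((x : 𝓞 L) : L)}) := by
  classical
  obtain ⟨D, hD⟩ := small_generator n
  have hCM := Pool.Agent.Helper58.NF.CM_one_le n
  refine ⟨Pool.Agent.Helper58.NF.CM n * (1 + n * D), ?_, ?_⟩
  · have h1 : (1 : ℝ) ≤ 1 + n * D := by
      have : (0 : ℝ) ≤ n * D := by positivity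
      linarith
    exact one_le_mul_of_one_le_of_one_le hCM h1
  intro L _ _ hL hF X hX hdisc
  have hspan := Pool.Agent.Helper58.NF.small_span ℚ L d (by rw [hL]; exact hdn) hX hdisc
  rw [hL, Module.finrank_self, Nat.cast_one, mul_one] at hspan
  set R : ℝ := Pool.Agent.Helper58.NF.CM n * X ^ (1 / (2 * ((n : ℝ) - d))) with hR
  have hR0 : 0 ≤ R := by
    have : 0 ≤ X ^ (1 / (2 * ((n : ℝ) - d))) := Real.rpow_nonneg (by linarith) _
    rw [hR]
    exact mul_nonneg (by linarith) this
  set S : Set L := {x : L | IsIntegral ℤ x ∧ house x ≤ R} with hS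
  obtain ⟨y, c, hy, hc, hadj⟩ := hD L hL S
  have hyint : ∀ i, IsIntegral ℤ (y i) := by
    intro i
    rcases hy i with h | h
    · exact h.1
    · rw [h]; exact isIntegral_zero
  have hyh : ∀ i, house (y i) ≤ R := by
    intro i
    rcases hy i with h | h
    · exact h.2
    · rw [h]
      have : house (0 : L) = 0 := by
        have := house_intCast (K := L) 0
        simpa using this
      rw [this]; exact hR0
  have hxint : IsIntegral ℤ (∑ i, (c i : L) * y i) :=
    IsIntegral.sum _ (fun i _ => (isIntegral_natCast _).mul (hyint i))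
  refine ⟨⟨∑ i, (c i : L) * y i, hxint⟩, ?_, ?_⟩
  · change house (∑ i, (c i : L) * y i) ≤ _
    calc house (∑ i, (c i : L) * y i) ≤ ∑ i, house ((c i : L) * y i) := house_sum_le_sum_house _ _
      _ ≤ ∑ _i : Fin n, (D : ℝ) * R := by
          refine Finset.sum_le_sum (fun i _ => ?_)
          rw [house_nat_mul]
          exact mul_le_mul (by exact_mod_cast hc i) (hyh i) (house_nonneg _) (by positivity)
      _ = n * D * R := by
          rw [Finset.sum_const, Finset.card_univ, Fintype.card_fin, nsmul_eq_mul, mul_assoc]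
      _ ≤ (1 + n * D) * R := by
          refine mul_le_mul_of_nonneg_right ?_ hR0
          linarith
      _ = _ := by rw [hR]; ring
  · change s ≤ finrank ℚ (IntermediateField.adjoin ℚ {∑ i, (c i : L) * y i})
    rw [hadj]
    rcases hF (IntermediateField.adjoin ℚ S) with h | h
    · exfalso
      have h1 : Submodule.span ℚ S ≤ Subalgebra.toSubmodule (IntermediateField.adjoin ℚ S).toSubalgebra :=
        Submodule.span_le.2 (IntermediateField.subset_adjoin ℚ S)
      have h2 := Submodule.finrank_mono h1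
      have h3 : finrank ℚ (Subalgebra.toSubmodule (IntermediateField.adjoin ℚ S).toSubalgebra) =
        finrank ℚ (IntermediateField.adjoin ℚ S) := rfl
      omega
    · exact h

end Pool.Agent.SNO
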