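import Mathlib
import Pool.Agent.SNO.Defs
import Pool.Agent.SNO.Basic
import Pool.Agent.SNO.MNY
import Pool.Agent.SNO.XSM
import Pool.Agent.UpLog.TC

set_option autoImplicit false

/-!
# Module CNT

Each field contains many good tuples.
Proof. This is `Pool/Agent/UpLog/TC.lean` (tuple_count, copy it) with one more variable. `c₀` and (given
`B`) `D` from `many`; basis `u` of house `≤ Cb X^e`, `e = (1 + 1/m)/n`, from
`Pool.Agent.UpLog.small_basis' 1 n m` (with `K = ℚ`); `x` from `small_x` (then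
`n ≤ s 2^ρ ≤ [ℚ(x):ℚ] 2^ρ`). `S` = integers of house `≤ R = Cb X^e`; `#S ≥ V X^(1/2)` as in TC.
Double counting (`Pool.Agent.UpLog.TC.double_count`) with translates `y ↦ y + ∑ c_l u_l` of the tuples
`y ∈ S^ρ`: at least half of the translates are good, so the set `G` of good `y` (house `≤ Cb (1+nD) X^e`,
generators, flags `e ι j = ∑_l h ι j l u_l`, `MGood` for `z = (x, y)`) has at least
`(V X^(1/2))^ρ / 2` elements. The map `y ↦ (none ↦ x, some j ↦ y j)` is injective into the set of the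
statement. Finiteness: houses are bounded (`helper22.finite_house_le`, `TC.ncard_pi` or `Set.Finite.pi`).
-/

namespace Pool.Agent.SNO

open NumberField Module MvPolynomial

theorem tuples (n ρ d s m : ℕ) (hd : 1 ≤ d) (hdn : d < n) (hs : n ≤ s * 2 ^ ρ) (hm : 1 ≤ m)
    (w : Option (Fin ρ) → ℕ) (hw : ∀ j, 1 ≤ w j) :
    ∃ c₀ : ℕ, ∀ B : ℕ, ∃ C c : ℝ, 1 ≤ C ∧ 0 < c ∧ ∀ (L : Type) [Field L] [NumberField L],
      finrank ℚ L = n → (∀ F : IntermediateField ℚ L, finrank ℚ F ≤ d ∨ s ≤ finrank ℚ F) →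
      ∀ X : ℝ, 1 ≤ X → (|discr L| : ℝ) ≤ X →
      {z : Option (Fin ρ) → 𝓞 L |
        house ((z none : 𝓞 L) : L) ≤ C * X ^ (1 / (2 * ((n : ℝ) - d))) ∧
        (∀ j, house ((z (some j) : 𝓞 L) : L) ≤ C * X ^ ((1 + 1 / (m : ℝ)) / n)) ∧
        (∀ j : Fin ρ, IntermediateField.adjoin ℚ {((z (some j) : 𝓞 L) : L)} = ⊤) ∧
        ∃ e : Option (Fin ρ) × Fin n → Option (Fin ρ) → 𝓞 L,
          (∀ ι j, house ((e ι j : 𝓞 L) : L) ≤ C * X ^ ((1 + 1 / (m : ℝ)) / n)) ∧
          ∀ b, 1 ≤ b → b ≤ B → MGood (tra ℚ L) w (vv n ρ w) (b - 1 + c₀) b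
            (fun j => ((z j : 𝓞 L) : L)) (fun ι j => ((e ι j : 𝓞 L) : L))}.Finite ∧
      c * X ^ ((ρ : ℝ) / 2) ≤ {z : Option (Fin ρ) → 𝓞 L |
        house ((z none : 𝓞 L) : L) ≤ C * X ^ (1 / (2 * ((n : ℝ) - d))) ∧
        (∀ j, house ((z (some j) : 𝓞 L) : L) ≤ C * X ^ ((1 + 1 / (m : ℝ)) / n)) ∧
        (∀ j : Fin ρ, IntermediateField.adjoin ℚ {((z (some j) : 𝓞 L) : L)} = ⊤) ∧
        ∃ e : Option (Fin ρ) × Fin n → Option (Fin ρ) → 𝓞 L,
          (∀ ι j, house ((e ι j : 𝓞 L) : L) ≤ C * X ^ ((1 + 1 / (m : ℝ)) / n)) ∧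
          ∀ b, 1 ≤ b → b ≤ B → MGood (tra ℚ L) w (vv n ρ w) (b - 1 + c₀) b
            (fun j => ((z j : 𝓞 L) : L)) (fun ι j => ((e ι j : 𝓞 L) : L))}.ncard := by
  classical
  have hn : 1 ≤ n := by omega
  obtain ⟨c₀, hmany⟩ := many n ρ hn w hw
  refine ⟨c₀, fun B => ?_⟩
  obtain ⟨D, hD⟩ := hmany B
  obtain ⟨Cx, hCx, hsmall⟩ := small_x n d s hd hdn
  obtain ⟨Cb, hCb, hbasis⟩ := Pool.Agent.UpLog.small_basis' 1 n m hm
  have hvol : 0 < Helper58.NF.vol n := Helper58.NF.vol_pos _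
  have hnD : (0 : ℝ) ≤ (n : ℝ) * D := by positivity
  have hCbD : Cb ≤ Cb * (1 + n * D) := by nlinarith
  obtain ⟨C, hC⟩ : ∃ C : ℝ, C = max Cx (Cb * (1 + n * D)) := ⟨_, rfl⟩
  have hCxC : Cx ≤ C := by rw [hC]; exact le_max_left _ _
  have hCbC : Cb * (1 + n * D) ≤ C := by rw [hC]; exact le_max_right _ _
  refine ⟨C, (Helper58.NF.vol n / 3 ^ n) ^ ρ / 2, hCx.trans hCxC, by positivity, ?_⟩
  intro L _ _ hL hsub X hX hdisc
  obtain ⟨x, hx1, hx2⟩ := hsmall L hL hsub X hX hdisc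
  obtain ⟨u, hu, huB'⟩ := hbasis ℚ L (Module.finrank_self ℚ) hL X hX hdisc
  have hX0 : (0 : ℝ) < X := by linarith
  have hm0 : (0 : ℝ) < m := by exact_mod_cast hm
  have hn0 : (0 : ℝ) < n := by exact_mod_cast hn
  obtain ⟨e, he⟩ : ∃ e : ℝ, e = (1 + 1 / (m : ℝ)) / (n : ℝ) := ⟨_, rfl⟩
  have he0 : 0 ≤ e := by rw [he]; positivity
  have huB : ∀ i, IsIntegral ℤ (u i) ∧ house (u i) ≤ Cb * X ^ e := by
    intro i
    refine ⟨(huB' i).1, ?_⟩
    have h1 := (huB' i).2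
    rw [Nat.cast_one, one_mul, ← he] at h1
    exact h1
  obtain ⟨R, hRdef⟩ : ∃ R : ℝ, R = Cb * X ^ e := ⟨_, rfl⟩
  have hXe : 1 ≤ X ^ e := Real.one_le_rpow hX he0
  have hR0 : 0 < R := by rw [hRdef]; positivity
  have hXR : X ^ e ≤ R := by rw [hRdef]; nlinarith
  rw [← he]
  -- the statement set
  obtain ⟨Z, hZ⟩ : ∃ Z : Set (Option (Fin ρ) → 𝓞 L), Z = {z : Option (Fin ρ) → 𝓞 L |
        house ((z none : 𝓞 L) : L) ≤ C * X ^ (1 / (2 * ((n : ℝ) - d))) ∧
        (∀ j, house ((z (some j) : 𝓞 L) : L) ≤ C * X ^ e) ∧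
        (∀ j : Fin ρ, IntermediateField.adjoin ℚ {((z (some j) : 𝓞 L) : L)} = ⊤) ∧
        ∃ e' : Option (Fin ρ) × Fin n → Option (Fin ρ) → 𝓞 L,
          (∀ ι j, house ((e' ι j : 𝓞 L) : L) ≤ C * X ^ e) ∧
          ∀ b, 1 ≤ b → b ≤ B → MGood (tra ℚ L) w (vv n ρ w) (b - 1 + c₀) b
            (fun j => ((z j : 𝓞 L) : L)) (fun ι j => ((e' ι j : 𝓞 L) : L))} := ⟨_, rfl⟩
  rw [← hZ]
  have hZfin : Z.Finite := by
    have h1 : {z : Option (Fin ρ) → 𝓞 L | ∀ j, z j ∈ {y : 𝓞 L | house ((y : 𝓞 L) : L) ≤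
        max (C * X ^ (1 / (2 * ((n : ℝ) - d)))) (C * X ^ e)}}.Finite :=
      Set.Finite.pi' fun _ => helper22.finite_house_le L _
    refine h1.subset ?_
    intro z hz
    rw [hZ] at hz
    intro j
    cases j with
    | none => exact hz.1.trans (le_max_left _ _)
    | some j => exact (hz.2.1 j).trans (le_max_right _ _)
  refine ⟨hZfin, ?_⟩
  -- the set of integers of house at most `R`
  obtain ⟨S, hS⟩ : ∃ S : Set (𝓞 L), S = {x | house ((x : 𝓞 L) : L) ≤ R} := ⟨_, rfl⟩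
  have hSfin : S.Finite := by rw [hS]; exact helper22.finite_house_le L R
  have hcnt : Helper58.NF.vol n / 3 ^ n * X ^ (1 / 2 : ℝ) ≤ (S.ncard : ℝ) := by
    have h1 := Helper58.NF.cnt_lower_uniform L hR0
    rw [hL] at h1
    have h2 : (S.ncard : ℝ) = (helper22.cnt L R : ℝ) := by rw [hS]; rfl
    rw [h2]
    refine le_trans ?_ h1
    have h3 : X ≤ R ^ n := by
      have h4 : X ≤ (X ^ e) ^ n := by
        rw [← Real.rpow_natCast, ← Real.rpow_mul hX0.le]
        have h5 : e * (n : ℝ) = 1 + 1 / (m : ℝ) := by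
          rw [he]; field_simp
        rw [h5]
        calc X = X ^ (1 : ℝ) := (Real.rpow_one X).symm
          _ ≤ X ^ (1 + 1 / (m : ℝ)) := by
            apply Real.rpow_le_rpow_of_exponent_le hX
            have : 0 ≤ 1 / (m : ℝ) := by positivity
            linarith
      exact h4.trans (pow_le_pow_left₀ (by positivity) hXR _)
    have hd0 : 0 < √|(discr L : ℝ)| := by
      apply Real.sqrt_pos.2
      rw [abs_pos]
      exact_mod_cast NumberField.discr_ne_zero L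
    have hd1 : √|(discr L : ℝ)| ≤ X ^ (1 / 2 : ℝ) := by
      rw [← Real.sqrt_eq_rpow]
      exact Real.sqrt_le_sqrt hdisc
    rw [le_div_iff₀ hd0, div_pow]
    have h6 : X ^ (1 / 2 : ℝ) * √|(discr L : ℝ)| ≤ X := by
      calc X ^ (1 / 2 : ℝ) * √|(discr L : ℝ)| ≤ X ^ (1 / 2 : ℝ) * X ^ (1 / 2 : ℝ) :=
            mul_le_mul_of_nonneg_left hd1 (by positivity)
        _ = X := by rw [← Real.rpow_add hX0]; norm_num
    calc Helper58.NF.vol n / 3 ^ n * X ^ (1 / 2 : ℝ) *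
          √|(discr L : ℝ)|
        = Helper58.NF.vol n / 3 ^ n *
          (X ^ (1 / 2 : ℝ) * √|(discr L : ℝ)|) := by ring
      _ ≤ Helper58.NF.vol n / 3 ^ n * R ^ n :=
          mul_le_mul_of_nonneg_left (h6.trans h3) (by positivity)
      _ = _ := by ring
  obtain ⟨T, hTdef⟩ : ∃ T : Set (Fin ρ → 𝓞 L), T = {x | ∀ j, x j ∈ S} := ⟨_, rfl⟩
  have hTfin : T.Finite := by rw [hTdef]; exact (Pool.Agent.UpLog.TC.ncard_pi S hSfin ρ).1
  have hTcard : T.ncard = S.ncard ^ ρ := by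
    rw [hTdef]; exact (Pool.Agent.UpLog.TC.ncard_pi S hSfin ρ).2
  have hinj : Function.Injective
      (fun (y : Fin ρ → 𝓞 L) (j : Option (Fin ρ)) => (j.elim x y : 𝓞 L)) := by
    intro y y' hy
    funext j
    exact congrFun hy (some j)
  obtain ⟨G, hGdef⟩ : ∃ G : Set (Fin ρ → 𝓞 L), G =
      (fun (y : Fin ρ → 𝓞 L) (j : Option (Fin ρ)) => (j.elim x y : 𝓞 L)) ⁻¹' Z := ⟨_, rfl⟩
  have hGfin : G.Finite := by rw [hGdef]; exact hZfin.preimage hinj.injOn
  have hGcard : G.ncard ≤ Z.ncard := by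
    refine Set.ncard_le_ncard_of_injOn _ ?_ (hinj.injOn) hZfin
    intro y hy
    rw [hGdef] at hy
    exact hy
  obtain ⟨U, hU⟩ : ∃ U : Fin n → 𝓞 L, ∀ j, ((U j : 𝓞 L) : L) = u j :=
    ⟨fun j => ⟨u j, (huB j).1⟩, fun _ => rfl⟩
  obtain ⟨P, hP⟩ : ∃ P : Finset (Fin ρ → Fin n → ℕ), P =
    Fintype.piFinset fun _ => Fintype.piFinset fun _ => Finset.range (D + 1) := ⟨_, rfl⟩
  have hPmem : ∀ c, c ∈ P ↔ ∀ i j, c i j ≤ D := by
    intro c
    simp only [hP, Fintype.mem_piFinset, Finset.mem_range]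
    exact forall₂_congr fun i j => Nat.lt_succ_iff
  have hPcard : P.card = (D + 1) ^ (ρ * n) := by
    simp only [hP, Fintype.card_piFinset, Finset.card_range, Finset.prod_const, Finset.card_univ,
      Fintype.card_fin]
    rw [← pow_mul, mul_comm]
  have hcoe : ∀ c : Fin n → ℕ, (((∑ j, (c j) • U j : 𝓞 L)) : L) = ∑ j, (c j : L) * u j := by
    intro c
    simp only [map_sum, nsmul_eq_mul, map_mul, map_natCast, hU]
  have hnorm : ∀ (c : Fin n → ℕ), (∀ j, c j ≤ D) → ∀ φ : L →+* ℂ,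
      ‖φ (∑ j, (c j : L) * u j)‖ ≤ n * D * R := by
    intro c hc φ
    rw [map_sum]
    have h3 : ∀ j, ‖φ (u j)‖ ≤ R := fun j => by
      rw [hRdef]; exact (helper22.house_le_iff _ _).1 (huB j).2 φ
    calc ‖∑ j, φ ((c j : L) * u j)‖ ≤ ∑ j, ‖φ ((c j : L) * u j)‖ := norm_sum_le _ _
      _ ≤ ∑ j : Fin n, (D : ℝ) * R := by
          refine Finset.sum_le_sum fun j _ => ?_
          rw [map_mul, norm_mul, map_natCast, Complex.norm_natCast]
          have : (c j : ℝ) ≤ D := by exact_mod_cast hc j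
          exact mul_le_mul this (h3 j) (norm_nonneg _) (by positivity)
      _ = n * D * R := by
          rw [Finset.sum_const, Finset.card_univ, Fintype.card_fin, nsmul_eq_mul]
          ring
  have hnR : R + n * D * R ≤ C * X ^ e := by
    calc R + n * D * R = (Cb * (1 + n * D)) * X ^ e := by rw [hRdef]; ring
      _ ≤ C * X ^ e := mul_le_mul_of_nonneg_right hCbC (by positivity)
  have hnR' : n * D * R ≤ C * X ^ e := by linarith
  have hgen : n ≤ finrank ℚ (IntermediateField.adjoin ℚ {((x : 𝓞 L) : L)}) * 2 ^ ρ :=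
    hs.trans (Nat.mul_le_mul_right _ hx2)
  have hmain : T.ncard ≤ 2 * G.ncard := by
    refine Pool.Agent.UpLog.TC.double_count P (fun c i => ∑ j, (c i j) • U j) T G hTfin hGfin
      (by rw [hPcard]; positivity) ?_
    intro y hy
    rw [hPcard]
    refine (hD L hL u hu x hgen (fun i => ((y i : 𝓞 L) : L))).trans ?_
    refine Nat.mul_le_mul_left _ (Set.ncard_le_ncard ?_ ?_)
    · intro c hc
      obtain ⟨hc1, hc2, h, hh1, hh2⟩ := hc
      refine ⟨(hPmem c).2 hc1, ?_⟩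
      have hyc : ∀ i, (((y + fun i => ∑ j, (c i j) • U j) i : 𝓞 L) : L) =
          ((y i : 𝓞 L) : L) + ∑ j, (c i j : L) * u j := by
        intro i
        change algebraMap (𝓞 L) L (y i + ∑ j, (c i j) • U j) = _
        rw [map_add]
        exact congrArg₂ (· + ·) rfl (hcoe _)
      rw [hGdef, Set.mem_preimage, hZ]
      refine ⟨?_, ?_, ?_, fun ι j => ∑ l, (h ι j l) • U l, ?_, ?_⟩
      · exact hx1.trans (mul_le_mul_of_nonneg_right hCxC (by positivity))
      · intro j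
        rw [helper22.house_le_iff]
        intro φ
        change ‖φ ((((y + fun i => ∑ j, (c i j) • U j) j : 𝓞 L) : L))‖ ≤ _
        rw [hyc, map_add]
        have h2 : ‖φ ((y j : 𝓞 L) : L)‖ ≤ R := by
          rw [hTdef, hS] at hy
          exact (helper22.house_le_iff _ _).1 (hy j) φ
        refine (norm_add_le _ _).trans ?_
        have h3 := hnorm (c j) (hc1 j) φ
        linarith
      · intro j
        change IntermediateField.adjoin ℚ
          {((((y + fun i => ∑ j, (c i j) • U j) j : 𝓞 L) : L))} = ⊤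
        rw [hyc]
        exact hc2 j
      · intro ι j
        rw [helper22.house_le_iff]
        intro φ
        rw [hcoe]
        exact (hnorm _ (hh1 ι j) φ).trans hnR'
      · intro b hb1 hb2
        have h1 := hh2 b hb1 hb2
        have h2 : (fun j : Option (Fin ρ) =>
            (((j.elim x (y + fun i => ∑ j, (c i j) • U j) : 𝓞 L)) : L)) =
            fun j => j.elim ((x : 𝓞 L) : L)
              fun j => ((y j : 𝓞 L) : L) + ∑ l, (c j l : L) * u l := by
          funext j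
          cases j with
          | none => rfl
          | some j => exact hyc j
        have h3 : (fun (ι : Option (Fin ρ) × Fin n) (j : Option (Fin ρ)) =>
            (((∑ l, (h ι j l) • U l : 𝓞 L)) : L)) =
            fun ι j => ∑ l, (h ι j l : L) * u l := by
          funext ι j
          exact hcoe _
        change MGood (tra ℚ L) w (vv n ρ w) (b - 1 + c₀) b (fun j : Option (Fin ρ) =>
            (((j.elim x (y + fun i => ∑ j, (c i j) • U j) : 𝓞 L)) : L))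
            (fun (ι : Option (Fin ρ) × Fin n) (j : Option (Fin ρ)) =>
            (((∑ l, (h ι j l) • U l : 𝓞 L)) : L))
        rw [h2, h3]
        exact h1
    · exact P.finite_toSet.subset fun c hc => hc.1
  have hTreal : (T.ncard : ℝ) = (S.ncard : ℝ) ^ ρ := by
    rw [hTcard]; push_cast; rfl
  have hXr : X ^ ((ρ : ℝ) / 2) = (X ^ (1 / 2 : ℝ)) ^ ρ := by
    rw [← Real.rpow_natCast, ← Real.rpow_mul hX0.le]
    congr 1
    ring
  have h7 : (T.ncard : ℝ) ≤ 2 * (Z.ncard : ℝ) := by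
    exact_mod_cast hmain.trans (Nat.mul_le_mul_left 2 hGcard)
  have h8 : (Helper58.NF.vol n / 3 ^ n * X ^ (1 / 2 : ℝ)) ^ ρ ≤
      (S.ncard : ℝ) ^ ρ := pow_le_pow_left₀ (by positivity) hcnt ρ
  rw [hXr]
  rw [mul_pow] at h8
  linarith

end Pool.Agent.SNO
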