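import Mathlib
import Pool.Agent.SNO.Defs
import Pool.Agent.SNO.Basic

set_option autoImplicit false

/-!
# Module CLS

Coordinates with respect to a flag and classes modulo the lattice.
Proof. `R = ℤ/p^B'`. `H = (h ι (eqv κ))_{ι,κ}` is invertible over `R`. For `z : σ → A` let
`q_z κ = β.repr (z (eqv κ).1) (eqv κ).2` and `t_z = q_z ᵥ* H⁻¹`, so that `z j = ∑_ι t_z ι • ∑_l h ι j l • β l`
for all `j` (check the coordinates: coordinate `κ = (j, l)` of the right side is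
`∑_ι t ι h ι j l = (t ᵥ* H) κ`). `cl z ι` = image of `t_z ι` in `ZMod (p^(v ι))`
(`ZMod.castHom (pow_dvd_pow p (hv ι))`). If `cl z = cl z'` then `t_{z'} ι - t_z ι` is in the kernel of
`ZMod (p^B') → ZMod (p^(v ι))`, which consists of the multiples of `p^(v ι)`: `= s ι * p^(v ι)`.
(`ZMod.ker_castHom` or via `ZMod.val`/`ZMod.natCast_self_eq_zero`.)
-/

namespace Pool.Agent.SNO

open NumberField Module MvPolynomial

/-- the kernel of the reduction between two powers of a prime -/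
theorem cls_ker (p v B' : ℕ) (hp : p.Prime) (hv : v ≤ B') (x : ZMod (p ^ B'))
    (hx : ZMod.castHom (pow_dvd_pow p hv) (ZMod (p ^ v)) x = 0) :
    ∃ y : ZMod (p ^ B'), x = y * (p : ZMod (p ^ B')) ^ v := by
  have : NeZero (p ^ B') := ⟨pow_ne_zero _ hp.ne_zero⟩
  have h1 : ((x.val : ℕ) : ZMod (p ^ B')) = x := ZMod.natCast_zmod_val x
  rw [← h1, map_natCast, ZMod.natCast_eq_zero_iff] at hx
  obtain ⟨c, hc⟩ := hx
  refine ⟨(c : ZMod (p ^ B')), ?_⟩
  rw [← h1, hc]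
  push_cast
  ring

theorem coords {σ I : Type} [Fintype σ] [Fintype I] [DecidableEq I] (v : I → ℕ) (n : ℕ)
    (eqv : I ≃ σ × Fin n) (p B' : ℕ) (hp : p.Prime) (hv : ∀ i, v i ≤ B') (A : Type) [CommRing A]
    [Algebra (ZMod (p ^ B')) A] (β : Basis (Fin n) (ZMod (p ^ B')) A) (h : I → σ → Fin n → ℕ)
    (hh : IsUnit (Matrix.det (Matrix.of fun ι κ : I =>
      ((h ι (eqv κ).1 (eqv κ).2 : ℕ) : ZMod (p ^ B'))))) :
    ∃ cl : (σ → A) → ∀ i : I, ZMod (p ^ v i), ∀ z z' : σ → A, cl z = cl z' →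
      ∃ t : I → ZMod (p ^ B'), ∀ j, z' j = z j + ∑ i, (t i * (p : ZMod (p ^ B')) ^ v i) •
        ∑ l, (h i j l) • β l := by
  set H : Matrix I I (ZMod (p ^ B')) := Matrix.of fun ι κ : I =>
      ((h ι (eqv κ).1 (eqv κ).2 : ℕ) : ZMod (p ^ B')) with hH
  set q : (σ → A) → I → ZMod (p ^ B') := fun z κ => β.repr (z (eqv κ).1) (eqv κ).2 with hq
  set T : (σ → A) → I → ZMod (p ^ B') := fun z => Matrix.vecMul (q z) H⁻¹ with hT
  have hTH : ∀ z κ, ∑ i, T z i * H i κ = q z κ := by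
    intro z κ
    have h1 : Matrix.vecMul (T z) H = q z := by
      rw [hT, Matrix.vecMul_vecMul, Matrix.nonsing_inv_mul _ hh, Matrix.vecMul_one]
    exact congrFun h1 κ
  refine ⟨fun z i => ZMod.castHom (pow_dvd_pow p (hv i)) (ZMod (p ^ v i)) (T z i), ?_⟩
  intro z z' hzz
  have h1 : ∀ i, ∃ y : ZMod (p ^ B'), T z' i - T z i = y * (p : ZMod (p ^ B')) ^ v i := by
    intro i
    apply cls_ker p (v i) B' hp (hv i)
    rw [map_sub, sub_eq_zero]
    exact (congrFun hzz i).symm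
  choose t ht using h1
  refine ⟨t, ?_⟩
  intro j
  apply β.ext_elem
  intro l
  have h2 : ∀ i, β.repr (∑ l, (h i j l) • β l) l = ((h i j l : ℕ) : ZMod (p ^ B')) := by
    intro i
    have h5 : ∑ l, (h i j l) • β l = ∑ l, ((h i j l : ℕ) : ZMod (p ^ B')) • β l :=
      Finset.sum_congr rfl fun l _ => (Nat.cast_smul_eq_nsmul _ _ _).symm
    rw [h5, β.repr_sum_self]
  have h3 : ∀ z : σ → A, β.repr (z j) l = ∑ i, T z i * ((h i j l : ℕ) : ZMod (p ^ B')) := by
    intro z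
    have h4 := hTH z (eqv.symm (j, l))
    simp only [hH, hq, Matrix.of_apply, Equiv.apply_symm_apply] at h4
    exact h4.symm
  rw [map_add, map_sum, Finsupp.add_apply, Finsupp.coe_finsetSum, Finset.sum_apply, h3 z, h3 z',
    ← Finset.sum_add_distrib]
  refine Finset.sum_congr rfl fun i _ => ?_
  rw [map_smul, Finsupp.smul_apply, h2 i, ← ht i, smul_eq_mul]
  ring

end Pool.Agent.SNO
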