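import Mathlib
import Pool.Agent.SNO.Defs
import Pool.Agent.SNO.Basic

set_option autoImplicit false

/-!
# Module SEP

Two families of `n` points with the same power sums of degree at most `2n` agree up to order.
Proof. By linearity `∑_i F(Z_i) = ∑_i F(Z'_i)` for every polynomial `F` in the variables σ of total
degree at most `2n`. For a point `P : σ → Ω` let `Q_1,…,Q_r` be the distinct points different from
`P` among all `Z_i, Z'_i`; `r ≤ 2n`. For each choose `j_q` with `P j_q ≠ Q_q j_q` and
`F = ∏_q (X_{j_q} - Q_q j_q)/(P j_q - Q_q j_q)`, degree `≤ 2n`, `F(P) = 1`, `F(Q_q) = 0`. So the number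
of `i` with `Z_i = P` equals the number of `i` with `Z'_i = P` (as elements of Ω, characteristic
zero). Equal fibre cardinalities give the permutation (for each value the fibres have the same
cardinality; `Equiv.ofFiberEquiv` or `Multiset` argument: `Multiset.map Z univ = Multiset.map Z'
univ`, then `Tuple`/`List.Perm` lemmas).
-/

namespace Pool.Agent.SNO

open NumberField Module MvPolynomial

private lemma SEP_sum {σ Ω : Type} [Fintype σ] [Field Ω] (n : ℕ) (Z Z' : Fin n → σ → Ω)
    (h : ∀ a : σ →₀ ℕ, ∑ j, a j ≤ 2 * n → ∑ i, ∏ j, Z i j ^ a j = ∑ i, ∏ j, Z' i j ^ a j)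
    (F : MvPolynomial σ Ω) (hF : F.totalDegree ≤ 2 * n) :
    ∑ i, eval (Z i) F = ∑ i, eval (Z' i) F := by
  simp only [eval_eq']
  rw [Finset.sum_comm, Finset.sum_comm (s := Finset.univ)]
  refine Finset.sum_congr rfl fun d hd => ?_
  rw [← Finset.mul_sum, ← Finset.mul_sum, h d]
  have h1 := le_totalDegree hd
  rw [Finsupp.sum_fintype _ _ (by simp)] at h1
  exact h1.trans hF

/-- a polynomial of degree at most the number of points which is one at `P`, zero at the points -/
private lemma SEP_poly {σ Ω : Type} [Fintype σ] [Field Ω] (P : σ → Ω) (S : Finset (σ → Ω))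
    (hP : P ∉ S) : ∃ F : MvPolynomial σ Ω, F.totalDegree ≤ S.card ∧ eval P F = 1 ∧
      ∀ q ∈ S, eval q F = 0 := by
  classical
  induction S using Finset.induction_on with
  | empty => exact ⟨1, by simp, by simp, by simp⟩
  | insert q S hq ih =>
    obtain ⟨F, h1, h2, h3⟩ := ih (fun h => hP (Finset.mem_insert_of_mem h))
    have hne : P ≠ q := fun e => hP (e ▸ Finset.mem_insert_self _ _)
    obtain ⟨j, hj⟩ := Function.ne_iff.1 hne
    have hj' : P j - q j ≠ 0 := sub_ne_zero.2 hj
    refine ⟨C (P j - q j)⁻¹ * (X j - C (q j)) * F, ?_, ?_, ?_⟩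
    · rw [Finset.card_insert_of_notMem hq]
      refine (totalDegree_mul _ _).trans ?_
      have h4 : (C (P j - q j)⁻¹ * (X j - C (q j)) : MvPolynomial σ Ω).totalDegree ≤ 1 := by
        refine (totalDegree_mul _ _).trans ?_
        rw [totalDegree_C, zero_add]
        refine (totalDegree_sub _ _).trans ?_
        rw [totalDegree_X, totalDegree_C]
        simp
      omega
    · rw [map_mul, map_mul, h2, eval_C, map_sub, eval_X, eval_C, mul_one,
        inv_mul_cancel₀ hj']
    · intro r hr
      rcases Finset.mem_insert.1 hr with rfl | hr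
      · simp
      · rw [map_mul, h3 r hr, mul_zero]

private lemma SEP_card {σ Ω : Type} [Fintype σ] [Field Ω] [CharZero Ω] (n : ℕ)
    (Z Z' : Fin n → σ → Ω)
    (h : ∀ a : σ →₀ ℕ, ∑ j, a j ≤ 2 * n → ∑ i, ∏ j, Z i j ^ a j = ∑ i, ∏ j, Z' i j ^ a j)
    (P : σ → Ω) : Nat.card {i // Z i = P} = Nat.card {i // Z' i = P} := by
  classical
  obtain ⟨F, h1, h2, h3⟩ := SEP_poly P
    ((Finset.univ.image Z ∪ Finset.univ.image Z').erase P) (Finset.notMem_erase P _)
  have hcard : ((Finset.univ.image Z ∪ Finset.univ.image Z').erase P).card ≤ 2 * n := by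
    refine (Finset.card_erase_le).trans ((Finset.card_union_le _ _).trans ?_)
    have h1 : (Finset.univ.image Z).card ≤ n := by
      simpa using Finset.card_image_le (s := (Finset.univ : Finset (Fin n))) (f := Z)
    have h2 : (Finset.univ.image Z').card ≤ n := by
      simpa using Finset.card_image_le (s := (Finset.univ : Finset (Fin n))) (f := Z')
    omega
  have h4 := SEP_sum n Z Z' h F (h1.trans hcard)
  have e1 : ∀ i, eval (Z i) F = if Z i = P then 1 else 0 := by
    intro i
    split_ifs with hi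
    · rw [hi, h2]
    · exact h3 _ (Finset.mem_erase.2 ⟨hi, Finset.mem_union_left _
        (Finset.mem_image_of_mem _ (Finset.mem_univ i))⟩)
  have e2 : ∀ i, eval (Z' i) F = if Z' i = P then 1 else 0 := by
    intro i
    split_ifs with hi
    · rw [hi, h2]
    · exact h3 _ (Finset.mem_erase.2 ⟨hi, Finset.mem_union_right _
        (Finset.mem_image_of_mem _ (Finset.mem_univ i))⟩)
  simp only [e1, e2, Finset.sum_boole] at h4
  have h5 := Nat.cast_injective h4
  rw [Nat.card_eq_fintype_card, Nat.card_eq_fintype_card, Fintype.card_subtype,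
    Fintype.card_subtype]
  exact h5

theorem separation {σ Ω : Type} [Fintype σ] [Field Ω] [CharZero Ω] (n : ℕ) (Z Z' : Fin n → σ → Ω)
    (h : ∀ a : σ →₀ ℕ, ∑ j, a j ≤ 2 * n → ∑ i, ∏ j, Z i j ^ a j = ∑ i, ∏ j, Z' i j ^ a j) :
    ∃ π : Equiv.Perm (Fin n), ∀ i, Z' i = Z (π i) := by
  classical
  have hc := SEP_card n Z Z' h
  have e : ∀ P : σ → Ω, {i // Z' i = P} ≃ {i // Z i = P} := fun P =>
    Fintype.equivOfCardEq (by
      rw [← Nat.card_eq_fintype_card, ← Nat.card_eq_fintype_card]; exact (hc P).symm)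
  refine ⟨Equiv.ofFiberEquiv e, fun i => ?_⟩
  exact (Equiv.ofFiberEquiv_map e i).symm

end Pool.Agent.SNO
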