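import Mathlib
import Pool.Agent.SNO.Defs
import Pool.Agent.SNO.Basic
import Pool.Agent.SNO.SEP

set_option autoImplicit false

/-!
# Module FIB

At most `n` algebraic points of degree `n` have given power sums (traces).
Proof. If the set is empty, trivial. Otherwise fix a member `z₀` with `(L₀, x₀)` and an enumeration
`σ_i`, `i : Fin n`, of the `n` embeddings `L₀ →ₐ[ℚ] AlgebraicClosure ℚ`; `Z i j = σ_i (x₀ j)`. Claim:
every member `z` (with `(L, x)`) is one of the `n` points `Z i`. Enumerate the embeddings `σ'_i` of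
`L`, `Z' i j = σ'_i (x j)`; `Algebra.trace = ∑` over embeddings (`trace_eq_sum_embeddings`) gives
`∑_i ∏_j Z i j ^ a j = s a = ∑_i ∏_j Z' i j ^ a j` (cast to the closure) for `∑ a j ≤ 2n`. `separation`:
`Z' i = Z (π i)`. The inclusion `L.val` is some `σ'_{i₀}`, and `z = Z' i₀ = Z (π i₀)`. So the set is
contained in the range of `Z`, which has at most `n` elements. Finiteness likewise.
-/

namespace Pool.Agent.SNO

open NumberField Module MvPolynomial

private lemma fibre_aux {σ : Type} [Fintype σ] (n : ℕ) (s : (σ →₀ ℕ) → ℚ)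
    (z : σ → AlgebraicClosure ℚ) (L : IntermediateField ℚ (AlgebraicClosure ℚ))
    (hL : NumberField L) (x : σ → L) (hn : finrank ℚ L = n)
    (hz : ∀ j, z j = ((x j : L) : AlgebraicClosure ℚ))
    (hs : ∀ a : σ →₀ ℕ, ∑ j, a j ≤ 2 * n → Algebra.trace ℚ L (∏ j, x j ^ a j) = s a) :
    ∃ Z : Fin n → σ → AlgebraicClosure ℚ, (∃ i, Z i = z) ∧
      ∀ a : σ →₀ ℕ, ∑ j, a j ≤ 2 * n → ∑ i, ∏ j, Z i j ^ a j =
        algebraMap ℚ (AlgebraicClosure ℚ) (s a) := by
  classical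
  have hcard : Fintype.card (L →ₐ[ℚ] AlgebraicClosure ℚ) = n := by
    rw [AlgHom.card ℚ L (AlgebraicClosure ℚ), hn]
  let e : Fin n ≃ (L →ₐ[ℚ] AlgebraicClosure ℚ) :=
    (Fintype.equivFinOfCardEq hcard).symm
  refine ⟨fun i j => e i (x j), ⟨e.symm L.val, ?_⟩, ?_⟩
  · funext j
    have h1 : e (e.symm L.val) = L.val := e.apply_symm_apply _
    change (e (e.symm L.val)) (x j) = z j
    rw [h1, hz j]
    rfl
  · intro a ha
    rw [← hs a ha, trace_eq_sum_embeddings (AlgebraicClosure ℚ), ← e.sum_comp]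
    refine Finset.sum_congr rfl fun i _ => ?_
    rw [map_prod]
    simp

theorem fibre {σ : Type} [Fintype σ] (n : ℕ) (s : (σ →₀ ℕ) → ℚ) :
    {z : σ → AlgebraicClosure ℚ | ∃ (L : IntermediateField ℚ (AlgebraicClosure ℚ))
      (_ : NumberField L) (x : σ → L), finrank ℚ L = n ∧
      (∀ j, z j = ((x j : L) : AlgebraicClosure ℚ)) ∧
      ∀ a : σ →₀ ℕ, ∑ j, a j ≤ 2 * n → Algebra.trace ℚ L (∏ j, x j ^ a j) = s a}.Finite ∧
    {z : σ → AlgebraicClosure ℚ | ∃ (L : IntermediateField ℚ (AlgebraicClosure ℚ))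
      (_ : NumberField L) (x : σ → L), finrank ℚ L = n ∧
      (∀ j, z j = ((x j : L) : AlgebraicClosure ℚ)) ∧
      ∀ a : σ →₀ ℕ, ∑ j, a j ≤ 2 * n → Algebra.trace ℚ L (∏ j, x j ^ a j) = s a}.ncard ≤ n := by
  classical
  set S := {z : σ → AlgebraicClosure ℚ | ∃ (L : IntermediateField ℚ (AlgebraicClosure ℚ))
      (_ : NumberField L) (x : σ → L), finrank ℚ L = n ∧
      (∀ j, z j = ((x j : L) : AlgebraicClosure ℚ)) ∧
      ∀ a : σ →₀ ℕ, ∑ j, a j ≤ 2 * n → Algebra.trace ℚ L (∏ j, x j ^ a j) = s a} with hS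
  rcases S.eq_empty_or_nonempty with h0 | ⟨z₀, L₀, hL₀, x₀, hn₀, hz₀, hs₀⟩
  · rw [h0]
    simp
  obtain ⟨Z, -, hZ⟩ := fibre_aux n s z₀ L₀ hL₀ x₀ hn₀ hz₀ hs₀
  have hsub : S ⊆ Set.range Z := by
    rintro z ⟨L, hL, x, hn, hz, hs⟩
    obtain ⟨Z', ⟨i, hi⟩, hZ'⟩ := fibre_aux n s z L hL x hn hz hs
    obtain ⟨π, hπ⟩ := separation n Z Z' fun a ha => by rw [hZ a ha, hZ' a ha]
    exact ⟨π i, by rw [← hπ i, hi]⟩
  refine ⟨(Set.finite_range Z).subset hsub, ?_⟩
  refine (Set.ncard_le_ncard hsub (Set.finite_range Z)).trans ?_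
  rw [← Set.image_univ]
  refine (Set.ncard_image_le Set.finite_univ).trans ?_
  simp [Set.ncard_univ]

end Pool.Agent.SNO
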