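import Mathlib
import Pool.Agent.SNO.Defs
import Pool.Agent.SNO.Basic

set_option autoImplicit false

/-!
# Module DZ

The index of a full sublattice of `ℤ^M` spanned by rows with entries bounded by `Bd k`.
Proof. `v` is a linearly independent family of `M` vectors of `ℤ^M`. The index of its span is
`|det v|`: use `Pi.basisFun ℤ (Fin M)`, `Module.Basis` of the span and
`Submodule.natAbs_det_equiv`/`AddSubgroup.index_eq...` (see `Pool/Agent/UpLog/DT.lean`, which proves
the same statement for products of rings of integers; the part index = |det C| can be copied; there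
are also `Int.natAbs_det_...` lemmas). Then `|det| ≤ ∑_π ∏_k |v (π k) k| ≤ M! ∏ Bd` by the Leibniz
formula (`Matrix.det_apply`, `Finset.abs_sum_le_sum_abs`; each product is `∏_l |v (π l) l|`, reindex
by `π`). Nonvanishing of the index: the determinant of an independent family is nonzero.
-/

namespace Pool.Agent.SNO

open NumberField Module MvPolynomial

theorem index_le_int (M : ℕ) (v : Fin M → Fin M → ℤ) (hv : LinearIndependent ℤ v)
    (Bd : Fin M → ℝ) (hB : ∀ k l, |(v k l : ℝ)| ≤ Bd k) :
    (Submodule.span ℤ (Set.range v)).toAddSubgroup.index ≠ 0 ∧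
    ((Submodule.span ℤ (Set.range v)).toAddSubgroup.index : ℝ) ≤ M.factorial * ∏ k, Bd k := by
  classical
  let b : Basis (Fin M) ℤ (Fin M → ℤ) := Pi.basisFun ℤ (Fin M)
  let Cm : Matrix (Fin M) (Fin M) ℤ := b.toMatrix v
  have hCm : ∀ l k, Cm l k = v k l := fun l k => rfl
  have hidx : (Submodule.span ℤ (Set.range v)).toAddSubgroup.index = Cm.det.natAbs := by
    have h := Submodule.natAbs_det_basis_change b (Submodule.span ℤ (Set.range v))
      (Basis.span hv)
    have h2 : ((↑) ∘ (Basis.span hv) : Fin M → Fin M → ℤ) = v := by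
      funext k
      exact congrArg Subtype.val (Basis.span_apply hv k)
    rw [h2, Basis.det_apply] at h
    exact h.symm
  have hC0 : Cm.det ≠ 0 := by
    intro h0
    obtain ⟨c, hc0, hc⟩ := Matrix.exists_mulVec_eq_zero_iff.2 h0
    apply hc0
    have hsum : ∑ k, c k • v k = 0 := by
      funext l
      rw [Finset.sum_apply]
      have h1 : ∑ k, Cm l k * c k = 0 := congrFun hc l
      rw [Pi.zero_apply, ← h1]
      refine Finset.sum_congr rfl fun k _ => ?_
      rw [hCm, Pi.smul_apply, smul_eq_mul, mul_comm]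
    funext k
    exact Fintype.linearIndependent_iff.1 hv c hsum k
  refine ⟨?_, ?_⟩
  · rw [hidx]
    exact Int.natAbs_ne_zero.2 hC0
  · rw [hidx]
    have h1 : ((Cm.det.natAbs : ℕ) : ℝ) = |(Cm.det : ℝ)| := by
      rw [Nat.cast_natAbs, Int.cast_abs]
    rw [h1, Matrix.det_apply', Int.cast_sum]
    have h2 : ∀ σ : Equiv.Perm (Fin M),
        |((((Equiv.Perm.sign σ : ℤ) : ℤ) * ∏ k, Cm (σ k) k : ℤ) : ℝ)| ≤ ∏ k, Bd k := by
      intro σ
      rw [Int.cast_mul, abs_mul, Int.cast_prod, Finset.abs_prod]
      have h3 : |(((Equiv.Perm.sign σ : ℤ) : ℤ) : ℝ)| = 1 := by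
        rcases Int.units_eq_one_or (Equiv.Perm.sign σ) with h | h <;> simp [h]
      rw [h3, one_mul]
      exact Finset.prod_le_prod (fun _ _ => abs_nonneg _) fun k _ => by
        rw [hCm]
        exact hB k _
    calc _ ≤ ∑ σ : Equiv.Perm (Fin M),
          |((((Equiv.Perm.sign σ : ℤ) : ℤ) * ∏ k, Cm (σ k) k : ℤ) : ℝ)| :=
          Finset.abs_sum_le_sum_abs _ _
      _ ≤ ∑ σ : Equiv.Perm (Fin M), ∏ k, Bd k := Finset.sum_le_sum fun σ _ => h2 σ
      _ = _ := by
        rw [Finset.sum_const, Finset.card_univ, Fintype.card_perm, Fintype.card_fin, nsmul_eq_mul]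

end Pool.Agent.SNO
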