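import Mathlib
import Pool.Agent.SNO.Defs
import Pool.Agent.SNO.Basic

set_option autoImplicit false

/-!
# Module HT

The monomials of weight at most `W * M` in functions separating `M` points span all functions.
Proof. `V_t` = the span for weight at most `t`, a subspace of `ℚ^M` (finite dimensional). It contains
the constant function 1 (m = 0), it is monotone in `t`, and if `wt a ≤ W` then
`s_a * V_t ⊆ V_(t+W)` (`s_a l = s l a`; `mw_add`, `mw_single`). Claim: for `j`, either `V_(jW) = ⊤` or
`dim V_(jW) ≥ j + 1`. Induction: if `V_((j+1)W) = V_(jW)`, then `V_(jW)` is stable under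
multiplication by all `s_a` with `wt a ≤ W`, hence contains the whole algebra generated by them
(times 1); this algebra separates the `M` points, so it is everything: for `l`, the product over
`l' ≠ l` of `(s_a - s l' a)/(s l a - s l' a)` (with `a = a(l,l')`) is the `l`-th unit vector; apply it
factor by factor to 1. So the dimension grows strictly until `V = ⊤`. With `j = M` : dim would be
`≥ M + 1`, impossible, so `V_(MW) = ⊤`; `M = 0` is trivial. See `Pool/Agent/UpLog/HF.lean`
(`hilb_top`) for a similar argument.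
-/

namespace Pool.Agent.SNO

open NumberField Module MvPolynomial

private noncomputable def HTV {E : Type} (wt : E → ℕ) (M : ℕ) (s : Fin M → E → ℚ) (t : ℕ) :
    Submodule ℚ (Fin M → ℚ) :=
  Submodule.span ℚ ((fun (m : E →₀ ℕ) (l : Fin M) => m.prod fun a e => s l a ^ e) ''
      {m | mw wt m ≤ t})

private lemma HT_mono {E : Type} (wt : E → ℕ) (M : ℕ) (s : Fin M → E → ℚ) {t t' : ℕ}
    (h : t ≤ t') : HTV wt M s t ≤ HTV wt M s t' :=
  Submodule.span_mono (Set.image_mono fun _ hm => le_trans hm h)

private lemma HT_one {E : Type} (wt : E → ℕ) (M : ℕ) (s : Fin M → E → ℚ) (t : ℕ) :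
    (fun _ => 1 : Fin M → ℚ) ∈ HTV wt M s t := by
  refine Submodule.subset_span ⟨0, ?_, ?_⟩
  · simp [mw_zero]
  · funext l
    simp

private lemma HT_mul {E : Type} (wt : E → ℕ) (M W : ℕ) (s : Fin M → E → ℚ) (t : ℕ) (a : E)
    (ha : wt a ≤ W) (f : Fin M → ℚ) (hf : f ∈ HTV wt M s t) :
    (fun l => s l a * f l) ∈ HTV wt M s (t + W) := by
  classical
  induction hf using Submodule.span_induction with
  | mem x hx =>
    obtain ⟨m, hm, rfl⟩ := hx
    refine Submodule.subset_span ⟨m + Finsupp.single a 1, ?_, ?_⟩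
    · simp only [Set.mem_setOf_eq] at hm ⊢
      rw [mw_add, mw_single, one_mul]
      omega
    · funext l
      simp only
      rw [Finsupp.prod_add_index' (by simp) (by intro a b c; rw [pow_add]),
        Finsupp.prod_single_index (by simp), pow_one, mul_comm]
  | zero =>
    have : (fun l => s l a * (0 : Fin M → ℚ) l) = 0 := by
      funext l; simp
    rw [this]
    exact Submodule.zero_mem _
  | add x y _ _ hx hy =>
    have : (fun l => s l a * (x + y) l) = (fun l => s l a * x l) + (fun l => s l a * y l) := by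
      funext l; simp [mul_add]
    rw [this]
    exact Submodule.add_mem _ hx hy
  | smul c x _ hx =>
    have : (fun l => s l a * (c • x) l) = c • (fun l => s l a * x l) := by
      funext l; simp only [Pi.smul_apply, smul_eq_mul]; ring
    rw [this]
    exact Submodule.smul_mem _ _ hx

private lemma HT_top {E : Type} (M : ℕ) (s : Fin M → E → ℚ) (P : E → Prop)
    (hsep : ∀ l l', l ≠ l' → ∃ a, P a ∧ s l a ≠ s l' a) (V : Submodule ℚ (Fin M → ℚ))
    (h1 : (fun _ => 1 : Fin M → ℚ) ∈ V)
    (h2 : ∀ a, P a → ∀ f ∈ V, (fun l => s l a * f l) ∈ V) : V = ⊤ := by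
  classical
  have key : ∀ (l : Fin M) (T : Finset (Fin M)), l ∉ T →
      ∃ f ∈ V, f l = 1 ∧ ∀ l' ∈ T, f l' = 0 := by
    intro l T
    induction T using Finset.induction_on with
    | empty => intro _; exact ⟨fun _ => 1, h1, rfl, by simp⟩
    | insert q T hq ih =>
      intro hl
      obtain ⟨f, hf, h3, h4⟩ := ih fun h => hl (Finset.mem_insert_of_mem h)
      have hne : l ≠ q := fun e => hl (e ▸ Finset.mem_insert_self _ _)
      obtain ⟨a, ha, hne'⟩ := hsep l q hne
      have h5 : s l a - s q a ≠ 0 := sub_ne_zero.2 hne'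
      refine ⟨(s l a - s q a)⁻¹ • ((fun l => s l a * f l) - (s q a) • f), ?_, ?_, ?_⟩
      · exact V.smul_mem _ (V.sub_mem (h2 a ha f hf) (V.smul_mem _ hf))
      · simp only [Pi.smul_apply, Pi.sub_apply, smul_eq_mul, h3, mul_one]
        exact inv_mul_cancel₀ h5
      · intro r hr
        simp only [Pi.smul_apply, Pi.sub_apply, smul_eq_mul]
        rcases Finset.mem_insert.1 hr with rfl | hr
        · ring
        · rw [h4 r hr]; ring
  rw [eq_top_iff]
  intro f _
  have h3 : ∀ l : Fin M, (Pi.single l (1 : ℚ) : Fin M → ℚ) ∈ V := by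
    intro l
    obtain ⟨g, hg, h4, h5⟩ := key l (Finset.univ.erase l) (Finset.notMem_erase _ _)
    have : (Pi.single l (1 : ℚ) : Fin M → ℚ) = g := by
      funext l'
      by_cases hl : l' = l
      · subst hl; rw [Pi.single_eq_same, h4]
      · rw [Pi.single_eq_of_ne hl, h5 l' (Finset.mem_erase.2 ⟨hl, Finset.mem_univ _⟩)]
    rw [this]
    exact hg
  have h4 : f = ∑ l, f l • (Pi.single l (1 : ℚ) : Fin M → ℚ) := by
    funext l'
    rw [Finset.sum_apply]
    simp [Pi.single_apply]
  rw [h4]
  exact V.sum_mem fun l _ => V.smul_mem _ (h3 l)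

private lemma HT_grow {E : Type} (wt : E → ℕ) (M W : ℕ) (s : Fin M → E → ℚ)
    (hsep : ∀ l l', l ≠ l' → ∃ a, wt a ≤ W ∧ s l a ≠ s l' a) (j : ℕ) :
    HTV wt M s (W * j) = ⊤ ∨ j + 1 ≤ finrank ℚ (HTV wt M s (W * j)) := by
  induction j with
  | zero =>
    by_cases hM : M = 0
    · left
      subst hM
      exact Subsingleton.elim _ _
    · right
      have hp : 0 < M := Nat.pos_of_ne_zero hM
      have h1 := HT_one wt M s (W * 0)
      have h2 : 0 < finrank ℚ (HTV wt M s (W * 0)) := by
        rw [finrank_pos_iff]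
        refine ⟨⟨⟨_, h1⟩, 0, fun h => ?_⟩⟩
        have h3 := congrArg Subtype.val h
        have h4 := congrFun h3 ⟨0, hp⟩
        simp at h4
      omega
  | succ j ih =>
    rcases ih with h | h
    · left
      rw [eq_top_iff, ← h]
      exact HT_mono wt M s (Nat.mul_le_mul_left _ (Nat.le_succ j))
    · have hle : HTV wt M s (W * j) ≤ HTV wt M s (W * (j + 1)) :=
        HT_mono wt M s (Nat.mul_le_mul_left _ (Nat.le_succ j))
      by_cases he : HTV wt M s (W * j) = HTV wt M s (W * (j + 1))
      · left
        rw [← he]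
        refine HT_top M s (fun a => wt a ≤ W) hsep _ (HT_one wt M s _) fun a ha f hf => ?_
        rw [he, Nat.mul_succ]
        exact HT_mul wt M W s _ a ha f hf
      · right
        have hlt := lt_of_le_of_ne hle he
        have := Submodule.finrank_lt_finrank_of_lt hlt
        omega

theorem hilb {E : Type} (wt : E → ℕ) (hwt : ∀ a, 1 ≤ wt a) (M W : ℕ) (s : Fin M → E → ℚ)
    (hsep : ∀ l l', l ≠ l' → ∃ a, wt a ≤ W ∧ s l a ≠ s l' a) (t : ℕ) (ht : W * M ≤ t) :
    Submodule.span ℚ ((fun (m : E →₀ ℕ) (l : Fin M) => m.prod fun a e => s l a ^ e) ''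
      {m | mw wt m ≤ t}) = ⊤ := by
  have h1 : HTV wt M s (W * M) = ⊤ := by
    rcases HT_grow wt M W s hsep M with h | h
    · exact h
    · exfalso
      have h2 := Submodule.finrank_le (HTV wt M s (W * M))
      rw [finrank_fin_fun] at h2
      omega
  rw [eq_top_iff, ← h1]
  exact HT_mono wt M s ht

end Pool.Agent.SNO
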