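import Mathlib
import Pool.Agent.SNO.Defs
import Pool.Agent.SNO.Basic
import Pool.Agent.SNO.DZ
import Pool.Agent.SNO.HT
import Pool.Agent.UpLog.IX
import Pool.Agent.UpLog.GR
import Pool.Agent.UpLog.NU

set_option autoImplicit false

/-!
# Module KC

The index (determinant) argument: a class contains fewer than `M` points.
Proof. Let `G = {m : E →₀ ℕ}`, `g m = (l ↦ m.prod (s l a)^e) ∈ ℤ^M`, `H(t)` = rank of the span over ℚ
of the `g m` with `mw wt m ≤ t`. Choose `T₀ = 2 m (2 c₀ + 1) + 2` (or larger), `h₀` = number of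
monomials of weight `≤ T₀` (finite by `finite_mw_le`), `M = 2 h₀ + 2`, `t₁ = W * M + T₀ + 1`,
`B = t₁ + 1`. Put `Rm` = ℤ-span of all `g m`, `O = Fin M → ℤ`.
(1) `HT` (with `s` cast to ℚ) : the span for weight `≤ t₁` is `⊤`, so `H(t₁) = M`.
(2) `Pool.Agent.UpLog.greedy` with `V = Fin M → ℚ`: monomials `m_1, …, m_M` of weight `≤ t₁` with
`g(m_k)` independent and `∑ mw(m_k) ≤ D := ∑_{t<t₁} (M - H(t))` (`finrank ℚ V = M`; transport
`Fin (finrank ℚ V)` to `Fin M`).
(3) `index_le_int` for `v k = g(m_k)`, `Bd k = (C₁ Y)^(mw m_k)` (product of the bounds of the factors,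
`mw` is the sum of the weights): index of the span `≤ M! (C₁ Y)^D`; the span is contained in `Rm`, so
`[O : Rm] ≤ M! (C₁ Y)^D` and it is nonzero (`AddSubgroup.index_dvd_of_le` or relIndex).
(4) `Pool.Agent.UpLog.index_ge` with `W b` = ℤ-span of the `g m` with `mw m ≤ b - 1 + c₀`,
`h b = H(b-1+c₀)`: hypothesis `hdec`: `r = g-value of some polynomial f` (every element of `Rm` is
`l ↦ eval (s l) f`), take the `g` of the third hypothesis of the theorem: `r = eval g + eval (f-g)`,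
`eval (f-g) = p^b o`. So `p^(∑_{b ≤ B} (M - H(b-1+c₀))) ≤ [O : Rm]`.
(5) `Pool.Agent.UpLog.numeric` with κ = 1: `D ≤ ∑_b (M - H(b-1+c₀)) + c₀ M`.
(6) So `p^(D - c₀ M) ≤ M! (C₁ Y)^D`. `D ≥ T₀ (M - h₀) ≥ T₀ M / 2` since `H(t) ≤ h₀` for `t < T₀`.
Raise to the power `m` and use `Y^(m+1) ≤ p^m`: `Y^((m+1)(D - c₀ M)) ≤ (M!)^m (C₁ Y)^(mD)`, and
`(m+1)(D - c₀M) - mD = D - (m+1) c₀ M ≥ 1` (choose `T₀ ≥ 2 (m+1) c₀ + 2`), hence
`Y ≤ Y^(D - (m+1)c₀M) ≤ (M!)^m C₁^(mD) ≤ (M!)^m C₁^(m t₁ M) =: C₂`. See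
`Pool/Agent/UpLog/KC.lean` for the analogous proof (529 lines, this one is simpler).
-/

namespace Pool.Agent.SNO

open NumberField Module MvPolynomial

namespace KCaux

/-- rank of a `ℤ`-submodule inside a `ℚ`-vector space -/
private lemma finrank_int_le {O V : Type} [AddCommGroup O] [Module.Free ℤ O] [Module.Finite ℤ O]
    [AddCommGroup V] [Module ℚ V] [FiniteDimensional ℚ V] (ι : O →+ V)
    (hι : Function.Injective ι) (N : Submodule ℤ O) (U : Submodule ℚ V)
    (h : ∀ x ∈ N, ι x ∈ U) : finrank ℤ N ≤ finrank ℚ U := by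
  classical
  let b := Module.finBasis ℤ N
  have hli : LinearIndependent ℤ (fun i => ι (b i : O)) := by
    have h1 : LinearIndependent ℤ (fun i => (b i : O)) :=
      b.linearIndependent.map' N.subtype (Submodule.ker_subtype N)
    have h2 := h1.map' ι.toIntLinearMap (LinearMap.ker_eq_bot.2 (by simpa using hι))
    exact h2
  have hli2 : LinearIndependent ℚ (fun i => ι (b i : O)) :=
    (LinearIndependent.iff_fractionRing ℤ ℚ).1 hli
  have hli3 : LinearIndependent ℚ (fun i => (⟨ι (b i : O), h _ (b i).2⟩ : U)) := by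
    apply LinearIndependent.of_comp U.subtype
    exact hli2
  have := hli3.fintype_card_le_finrank
  simpa using this

private lemma numeric_end (S κ m c₀ D Sg p : ℕ) (hκ : 1 ≤ κ) (hm : 1 ≤ m) (hS : 1 ≤ S)
    (h1 : D ≤ κ * Sg + c₀ * S) (h2 : 2 * ((κ * m + 1) * c₀ + κ * m) * S ≤ 2 * D) (Y Cc : ℝ)
    (hY : 1 ≤ Y) (_hC : 1 ≤ Cc) (hp : Y ^ (κ * m + 1) ≤ (p : ℝ) ^ m)
    (h : (p : ℝ) ^ Sg ≤ Cc * Y ^ D) : Y ≤ Cc ^ (m * κ) := by
  have hY0 : 0 < Y := by linarith
  have e1 : D - c₀ * S ≤ κ * Sg := by omega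
  have e2 : m * κ * D + 1 ≤ (κ * m + 1) * (D - c₀ * S) := by
    have h3 : ((κ * m + 1) * c₀ + κ * m) * S ≤ D := by nlinarith
    have h4 : (κ * m + 1) * c₀ * S + 1 ≤ D := by
      have : 1 ≤ κ * m * S := Nat.mul_pos (Nat.mul_pos hκ hm) hS
      nlinarith
    have h5 : c₀ * S ≤ D := by
      have : c₀ * S ≤ (κ * m + 1) * c₀ * S := by
        rw [mul_assoc]
        exact Nat.le_mul_of_pos_left _ (Nat.succ_pos _)
      omega
    obtain ⟨E, hE⟩ := Nat.exists_eq_add_of_le h5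
    have h6 : D - c₀ * S = E := by omega
    rw [h6]
    have h7 : κ * m * (c₀ * S) + 1 ≤ E := by
      have : (κ * m + 1) * c₀ * S = κ * m * (c₀ * S) + c₀ * S := by ring
      omega
    rw [hE]
    nlinarith
  have e3 : Y ^ (m * κ * D + 1) ≤ Cc ^ (m * κ) * Y ^ (m * κ * D) := by
    calc Y ^ (m * κ * D + 1) ≤ Y ^ ((κ * m + 1) * (κ * Sg)) :=
          pow_le_pow_right₀ hY (e2.trans (Nat.mul_le_mul_left _ e1))
      _ = (Y ^ (κ * m + 1)) ^ (κ * Sg) := by rw [pow_mul]
      _ ≤ ((p : ℝ) ^ m) ^ (κ * Sg) := pow_le_pow_left₀ (by positivity) hp _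
      _ = ((p : ℝ) ^ Sg) ^ (m * κ) := by rw [← pow_mul, ← pow_mul]; congr 1; ring
      _ ≤ (Cc * Y ^ D) ^ (m * κ) := pow_le_pow_left₀ (by positivity) h _
      _ = Cc ^ (m * κ) * Y ^ (m * κ * D) := by rw [mul_pow, ← pow_mul]; congr 2; ring
  rw [pow_succ'] at e3
  have e4 : 0 < Y ^ (m * κ * D) := by positivity
  nlinarith [le_of_mul_le_mul_right e3 e4]

/-- bound for a monomial -/
private lemma prod_le {E : Type} (wt : E → ℕ) (c : ℝ) (_hc : 0 ≤ c) (s : E → ℤ)
    (hs : ∀ a, |(s a : ℝ)| ≤ c ^ wt a) (m : E →₀ ℕ) :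
    |((m.prod fun a e => s a ^ e : ℤ) : ℝ)| ≤ c ^ mw wt m := by
  classical
  unfold mw Finsupp.prod Finsupp.sum
  rw [Int.cast_prod, Finset.abs_prod, ← Finset.prod_pow_eq_pow_sum]
  apply Finset.prod_le_prod
  · intro a _; exact abs_nonneg _
  · intro a _
    rw [Int.cast_pow, abs_pow]
    change _ ≤ c ^ (m a * wt a)
    rw [mul_comm, pow_mul]
    exact pow_le_pow_left₀ (abs_nonneg _) (hs a) _

/-- values of polynomials -/
private noncomputable def Ph {E : Type} (M : ℕ) (s : Fin M → E → ℤ) :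
    MvPolynomial E ℤ →ₐ[ℤ] (Fin M → ℤ) := aeval fun a l => s l a

private lemma Ph_apply {E : Type} (M : ℕ) (s : Fin M → E → ℤ) (f : MvPolynomial E ℤ) (l : Fin M) :
    Ph M s f l = eval (s l) f := by
  have h : (Pi.evalAlgHom ℤ (fun _ : Fin M => ℤ) l).comp (Ph M s) =
      (aeval (s l) : MvPolynomial E ℤ →ₐ[ℤ] ℤ) := by
    apply MvPolynomial.algHom_ext
    intro j
    simp [Ph]
  have h2 := congrArg (fun ψ => ψ f) h
  simpa [aeval_eq_eval] using h2

end KCaux

theorem class_bound (E : Type) (wt : E → ℕ) (hwt : ∀ a, 1 ≤ wt a)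
    (hfin : ∀ t, {a | wt a ≤ t}.Finite) (W c₀ m : ℕ) (hm : 1 ≤ m) :
    ∃ M B : ℕ, 1 ≤ M ∧ 1 ≤ B ∧ ∀ C₁ : ℝ, 1 ≤ C₁ → ∃ C₂ : ℝ, ∀ Y : ℝ, 1 ≤ Y → ∀ p : ℕ, p.Prime →
      Y ^ (m + 1) ≤ (p : ℝ) ^ m → ∀ s : Fin M → E → ℤ,
        (∀ l a, |(s l a : ℝ)| ≤ (C₁ * Y) ^ wt a) →
        (∀ l l', l ≠ l' → ∃ a, wt a ≤ W ∧ s l a ≠ s l' a) →
        (∀ b, 1 ≤ b → b ≤ B → ∀ f : MvPolynomial E ℤ, ∃ g, WL wt (b - 1 + c₀) g ∧
          ∀ l, (p : ℤ) ^ b ∣ eval (s l) (f - g)) →
        Y ≤ C₂ := by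
  classical
  set T₀ := 2 * ((1 * m + 1) * c₀ + 1 * m) with hT₀
  set h₀ := (finite_mw_le wt hwt hfin T₀).toFinset.card with hh₀
  set M := 2 * h₀ + 1 with hM
  set t₁ := W * M + T₀ with ht₁
  refine ⟨M, t₁ + 1, Nat.succ_pos _, Nat.succ_pos _, fun C₁ hC₁ => ?_⟩
  refine ⟨((M.factorial : ℝ) * C₁ ^ (M * t₁)) ^ (m * 1), ?_⟩
  intro Y hY p hp hpY s hsize hsep hstar
  let gO : (E →₀ ℕ) → (Fin M → ℤ) := fun k l => k.prod fun a e => s l a ^ e
  let gV : (E →₀ ℕ) → (Fin M → ℚ) := fun k l => k.prod fun a e => (s l a : ℚ) ^ e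
  let inc : (Fin M → ℤ) →+ (Fin M → ℚ) :=
    { toFun := fun y l => (y l : ℚ)
      map_zero' := by ext; simp
      map_add' := by intro x y; ext; simp }
  have hinc_inj : Function.Injective inc := by
    intro x y h
    funext l
    have := congrFun h l
    exact Int.cast_injective this
  have hinc : ∀ k, inc (gO k) = gV k := by
    intro k
    funext l
    change ((k.prod fun a e => s l a ^ e : ℤ) : ℚ) = k.prod fun a e => (s l a : ℚ) ^ e
    simp [Finsupp.prod]
  let H : ℕ → ℕ := fun t => finrank ℚ (Submodule.span ℚ (gV '' {k | mw wt k ≤ t}))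
  have hfrV : finrank ℚ (Fin M → ℚ) = M := by simp
  have hfrO : finrank ℤ (Fin M → ℤ) = M := by simp
  have hHmono : Monotone H := by
    intro a b hab
    apply Submodule.finrank_mono
    apply Submodule.span_mono
    apply Set.image_mono
    intro k hk
    exact le_trans hk hab
  have hHS : ∀ t, H t ≤ M := by
    intro t
    rw [← hfrV]
    exact Submodule.finrank_le _
  have hspan : Submodule.span ℚ (gV '' {k | mw wt k ≤ t₁}) = ⊤ := by
    apply hilb wt hwt M W (fun l a => (s l a : ℚ)) _ t₁ (by omega)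
    intro l l' hll
    obtain ⟨a, ha, hne⟩ := hsep l l' hll
    exact ⟨a, ha, fun h => hne (Int.cast_injective h)⟩
  obtain ⟨sq, hsli, hssum⟩ := Pool.Agent.UpLog.greedy (fun k : E →₀ ℕ => mw wt k) gV t₁ hspan
  set D := ∑ t ∈ Finset.range t₁, (M - H t) with hD
  -- the independent family, indexed by `Fin M`
  let q : Fin M → (E →₀ ℕ) := fun k => sq (Fin.cast hfrV.symm k)
  have hq : LinearIndependent ℤ (fun k => gO (q k)) := by
    have h1 : LinearIndependent ℤ (fun k : Fin (finrank ℚ (Fin M → ℚ)) => gV (sq k)) :=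
      (LinearIndependent.iff_fractionRing ℤ ℚ).2 hsli
    have h2 : LinearIndependent ℤ (fun k : Fin M => gV (q k)) :=
      h1.comp (Fin.cast hfrV.symm) (Fin.cast_injective _)
    have h3 : LinearIndependent ℤ (fun k : Fin M => inc.toIntLinearMap (gO (q k))) := by
      have h4 : (fun k : Fin M => inc.toIntLinearMap (gO (q k))) = fun k => gV (q k) :=
        funext fun k => hinc (q k)
      rw [h4]
      exact h2
    exact LinearIndependent.of_comp _ h3
  have hqsum : ∑ k, mw wt (q k) ≤ D := by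
    have h1 : ∑ k, mw wt (q k) = ∑ k, mw wt (sq k) :=
      Equiv.sum_comp (finCongr hfrV.symm) (fun k => mw wt (sq k))
    rw [h1, hD]
    refine hssum.trans (le_of_eq ?_)
    rw [hfrV]
  have hCY : 1 ≤ C₁ * Y := one_le_mul_of_one_le_of_one_le hC₁ hY
  obtain ⟨hDT0, hDT1⟩ := index_le_int M (fun k => gO (q k)) hq
    (fun k => (C₁ * Y) ^ mw wt (q k)) (fun k l =>
      KCaux.prod_le wt (C₁ * Y) (by linarith) (s l) (hsize l) (q k))
  -- index bounds
  let Φ := KCaux.Ph M s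
  let Rm : Submodule ℤ (Fin M → ℤ) := LinearMap.range Φ.toLinearMap
  have hΦm : ∀ k (c : ℤ), Φ (monomial k c) = c • gO k := by
    intro k c
    funext l
    change KCaux.Ph M s (monomial k c) l = _
    rw [KCaux.Ph_apply, eval_monomial]
    simp [gO]
  let Wb : ℕ → Submodule ℤ (Fin M → ℤ) := fun b =>
    Submodule.span ℤ (gO '' {k | mw wt k ≤ b - 1 + c₀})
  have hWR : ∀ b, Wb b ≤ Rm := by
    intro b
    rw [Submodule.span_le]
    rintro _ ⟨k, _, rfl⟩
    refine ⟨monomial k 1, ?_⟩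
    have := hΦm k 1
    rw [one_smul] at this
    exact this
  have hWH : ∀ b, finrank ℤ (Wb b) ≤ H (b - 1 + c₀) := by
    intro b
    apply KCaux.finrank_int_le inc hinc_inj
    intro x hx
    induction hx using Submodule.span_induction with
    | mem y hy =>
      obtain ⟨k, hk, rfl⟩ := hy
      apply Submodule.subset_span
      exact ⟨k, hk, (hinc k).symm⟩
    | zero => rw [map_zero]; exact Submodule.zero_mem _
    | add y z _ _ hy hz => rw [map_add]; exact Submodule.add_mem _ hy hz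
    | smul c y _ hy => rw [map_zsmul]; exact zsmul_mem hy c
  have hle : Submodule.span ℤ (Set.range fun k : Fin M => gO (q k)) ≤ Rm := by
    rw [Submodule.span_le]
    rintro _ ⟨k, rfl⟩
    refine ⟨monomial (q k) 1, ?_⟩
    have := hΦm (q k) 1
    rw [one_smul] at this
    exact this
  have hdvd : Rm.toAddSubgroup.index ∣
      (Submodule.span ℤ (Set.range fun k : Fin M => gO (q k))).toAddSubgroup.index :=
    AddSubgroup.index_dvd_of_le hle
  have hRm0 : Rm.toAddSubgroup.index ≠ 0 :=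
    fun h => hDT0 (by rw [h] at hdvd; exact Nat.eq_zero_of_zero_dvd hdvd)
  have hRm1 := Nat.le_of_dvd (Nat.pos_of_ne_zero hDT0) hdvd
  have hIX := Pool.Agent.UpLog.index_ge Rm hRm0 p hp (t₁ + 1) Wb (fun b => H (b - 1 + c₀)) hWH
    hWR (by
      intro b hb1 hb2 r hr
      obtain ⟨f, rfl⟩ := hr
      obtain ⟨g, hg, hfg⟩ := hstar b hb1 hb2 f
      choose o ho using hfg
      refine ⟨Φ g, ?_, Φ (f - g), ⟨f - g, rfl⟩, o, 0, Rm.zero_mem, ?_, ?_⟩
      · rw [MvPolynomial.as_sum g, map_sum]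
        apply Submodule.sum_mem
        intro k hk
        rw [hΦm]
        apply Submodule.smul_mem
        apply Submodule.subset_span
        exact ⟨k, hg k hk, rfl⟩
      · funext l
        change KCaux.Ph M s (f - g) l = _
        rw [KCaux.Ph_apply, ho l]
        simp
      · rw [smul_zero, add_zero, map_sub]
        change Φ f = _
        abel)
  -- numerical part
  have hDS : D ≤ M * t₁ := by
    rw [hD]
    calc ∑ t ∈ Finset.range t₁, (M - H t) ≤ ∑ _t ∈ Finset.range t₁, M :=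
          Finset.sum_le_sum fun t _ => Nat.sub_le _ _
      _ = M * t₁ := by simp [mul_comm]
  have hnum := Pool.Agent.UpLog.numeric H M 1 c₀ (t₁ + 1) t₁ le_rfl hHmono hHS (by omega)
  have h2D : T₀ * M ≤ 2 * D := by
    have hT1 : T₀ ≤ t₁ := by omega
    have h1 : ∀ t ∈ Finset.range T₀, M ≤ 2 * (M - H t) := by
      intro t ht
      have ht' : t ≤ T₀ := (Finset.mem_range.1 ht).le
      have h2 : H t ≤ h₀ := by
        have e1 : gV '' {k | mw wt k ≤ t} ⊆
            (((finite_mw_le wt hwt hfin T₀).toFinset.image gV : Finset (Fin M → ℚ)) :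
              Set (Fin M → ℚ)) := by
          rintro _ ⟨k, hk, rfl⟩
          rw [Finset.coe_image]
          refine ⟨k, ?_, rfl⟩
          rw [Finset.mem_coe, Set.Finite.mem_toFinset]
          exact le_trans hk ht'
        calc H t ≤ finrank ℚ (Submodule.span ℚ
              (((finite_mw_le wt hwt hfin T₀).toFinset.image gV : Finset (Fin M → ℚ)) :
              Set (Fin M → ℚ))) := Submodule.finrank_mono (Submodule.span_mono e1)
          _ ≤ ((finite_mw_le wt hwt hfin T₀).toFinset.image gV).card :=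
              finrank_span_finset_le_card _
          _ ≤ h₀ := Finset.card_image_le
      omega
    calc T₀ * M = ∑ _t ∈ Finset.range T₀, M := by simp
      _ ≤ ∑ t ∈ Finset.range T₀, 2 * (M - H t) := Finset.sum_le_sum h1
      _ = 2 * ∑ t ∈ Finset.range T₀, (M - H t) := by rw [Finset.mul_sum]
      _ ≤ 2 * D := by
          apply Nat.mul_le_mul_left
          exact Finset.sum_le_sum_of_subset (Finset.range_mono hT1)
  have hY0 : 0 < Y := by linarith
  have hfinal : (p : ℝ) ^ (∑ b ∈ Finset.Icc 1 (t₁ + 1), (M - H (1 * (b - 1) + c₀))) ≤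
      ((M.factorial : ℝ) * C₁ ^ (M * t₁)) * Y ^ D := by
    rw [hfrO] at hIX
    simp only [one_mul]
    have h1 : (p : ℝ) ^ (∑ b ∈ Finset.Icc 1 (t₁ + 1), (M - H (b - 1 + c₀))) ≤
        (Rm.toAddSubgroup.index : ℝ) := by exact_mod_cast hIX
    have h2 : (Rm.toAddSubgroup.index : ℝ) ≤ ((Submodule.span ℤ (Set.range
        fun k : Fin M => gO (q k))).toAddSubgroup.index : ℝ) := by exact_mod_cast hRm1
    refine h1.trans (h2.trans (hDT1.trans ?_))
    rw [Finset.prod_pow_eq_pow_sum]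
    calc (M.factorial : ℝ) * (C₁ * Y) ^ ∑ k, mw wt (q k)
        ≤ (M.factorial : ℝ) * (C₁ * Y) ^ D := by gcongr
      _ = (M.factorial : ℝ) * C₁ ^ D * Y ^ D := by rw [mul_pow]; ring
      _ ≤ (M.factorial : ℝ) * C₁ ^ (M * t₁) * Y ^ D := by gcongr
  refine KCaux.numeric_end M 1 m c₀ D _ p le_rfl hm (by omega) hnum ?_ Y _ hY ?_ ?_ hfinal
  · exact h2D
  · have h1 : (1 : ℝ) ≤ M.factorial := by exact_mod_cast Nat.factorial_pos M
    have h3 : 1 ≤ C₁ ^ (M * t₁) := one_le_pow₀ hC₁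
    exact one_le_mul_of_one_le_of_one_le h1 h3
  · rw [one_mul]
    exact hpY

end Pool.Agent.SNO
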