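import Mathlib
import Pool.Agent.SNO.Defs
import Pool.Agent.SNO.Basic

set_option autoImplicit false

/-!
# Module STR

From jets to congruences.
Proof. `k = ℤ/p^B'`. Let `f̄ = map (Int.castRingHom k) f`. `JGood` with `c α = coeff α (ex τ z e f̄)` gives
`g' : MvPolynomial (σ →₀ ℕ) k` with `WL d g'` and equal jets for `wd v α < b`. Lift the coefficients:
`g = ∑_{m ∈ g'.support} monomial m (lift)` with `(lift : k) = coeff m g'` (`ZMod.intCast_surjective`),
`map g = g'`, `WL d g`. For `t`: `eval₂ cast (pv ..) (f - g) = eval (pv ..) (f̄ - g')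
= eval (t_i p^(v i)) (ex τ z e (f̄ - g'))` (`eval_ex`), a sum over exponents `α` with `wd v α ≥ b` (the
others have coefficient 0) of `coeff * ∏ (t_i p^(v i))^(α i)`, and `∏_i (p^(v i))^(α i) = p^(wd v α)` is a
multiple of `p^b`.
-/

namespace Pool.Agent.SNO

open NumberField Module MvPolynomial

theorem star {σ I : Type} [Fintype σ] [Fintype I] (w : σ → ℕ) (v : I → ℕ) (p B' b d : ℕ)
    (hp : p.Prime) (A : Type) [CommRing A] [Algebra (ZMod (p ^ B')) A] (τ : A →+ ZMod (p ^ B'))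
    (hτ : ∀ (c : ZMod (p ^ B')) (a : A), τ (c • a) = c * τ a) (z : σ → A) (e : I → σ → A)
    (h : JGood τ w v d b z e) (f : MvPolynomial (σ →₀ ℕ) ℤ) :
    ∃ g : MvPolynomial (σ →₀ ℕ) ℤ, WL (vw w) d g ∧ ∀ t : I → ZMod (p ^ B'),
      ∃ y : ZMod (p ^ B'), eval₂ (Int.castRingHom (ZMod (p ^ B')))
        (pv τ fun j => z j + ∑ i, (t i * (p : ZMod (p ^ B')) ^ v i) • e i j) (f - g) =
          (p : ZMod (p ^ B')) ^ b * y := by
  classical
  obtain ⟨g', hg', hc⟩ := h (fun α => coeff α (ex τ z e (map (Int.castRingHom (ZMod (p ^ B'))) f)))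
  choose L hL using fun c : ZMod (p ^ B') => ZMod.intCast_surjective c
  set g : MvPolynomial (σ →₀ ℕ) ℤ := ∑ m ∈ g'.support, monomial m (L (coeff m g')) with hg
  have hmap : map (Int.castRingHom (ZMod (p ^ B'))) g = g' := by
    rw [hg, map_sum]
    conv_rhs => rw [g'.as_sum]
    refine Finset.sum_congr rfl (fun m _ => ?_)
    rw [map_monomial, eq_intCast, hL]
  refine ⟨g, WL.sum _ _ (fun m hm => WL.monomial (hg' m hm) _), fun t => ?_⟩
  have h1 : (p : ZMod (p ^ B')) ^ b ∣ eval₂ (Int.castRingHom (ZMod (p ^ B')))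
        (pv τ fun j => z j + ∑ i, (t i * (p : ZMod (p ^ B')) ^ v i) • e i j) (f - g) := by
    rw [← eval_map, ← eval_ex τ hτ z e (fun i => t i * (p : ZMod (p ^ B')) ^ v i)]
    rw [map_sub (map (Int.castRingHom (ZMod (p ^ B')))), hmap, eval_eq']
    refine Finset.dvd_sum (fun α hα => ?_)
    have hwd : b ≤ wd v α := by
      by_contra hlt
      push Not at hlt
      rw [MvPolynomial.mem_support_iff] at hα
      apply hα
      rw [map_sub, coeff_sub, hc α hlt, sub_self]
    refine Dvd.dvd.mul_left ?_ _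
    have h2 : ∏ i, (t i * (p : ZMod (p ^ B')) ^ v i) ^ α i =
        (∏ i, t i ^ α i) * (p : ZMod (p ^ B')) ^ wd v α := by
      unfold wd
      rw [← Finset.prod_pow_eq_pow_sum, ← Finset.prod_mul_distrib]
      refine Finset.prod_congr rfl (fun i _ => ?_)
      rw [mul_pow, ← pow_mul]
    rw [h2]
    exact Dvd.dvd.mul_left (pow_dvd_pow _ hwd) _
  exact h1

end Pool.Agent.SNO
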