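import Mathlib
import Pool.Agent.SNO.Defs
import Pool.Agent.SNO.Basic
import Pool.Agent.SNO.KC
import Pool.Agent.SNO.FIB
import Pool.Agent.SNO.CLS
import Pool.Agent.SNO.STR
import Pool.Agent.SNO.MIN
import Pool.Agent.helper22.Fields

set_option autoImplicit false

/-!
# Module CRA

The number of points in the classes of a fixed algebra and a fixed flag.
Proof. `M, B₀` from `class_bound` with `E = σ →₀ ℕ`, `wt = vw w`, `W = 2 n ∑ w j + 1` (finiteness of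
`{a | vw w a ≤ t}` because `w j ≥ 1`), `B = B₀ + ∑ v i`. `C₂` from `class_bound` for the constant
`C₁' = n C₁` (`n ≥ 1`). Power sums: `s_z a = Algebra.trace ℤ (𝓞 L) (∏ x j ^ a j)`; `|s_z a| ≤
n ∏ (C₁ Y^(w j))^(a j) ≤ (n C₁ Y)^(vw w a)` (`∑ a j ≤ wd w a ≤ vw w a`; trace = sum over the `n`
embeddings, `house`). Let `cl` be the map of `coords` (with `B' = B`). The values `cl (Ψ ∘ x)` lie in a
set of `p^(∑ v i)` elements. Claim: among the `z ∈ T` with the same value of `cl` fewer than `M`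
different functions `s_z` occur: suppose `z_1, …, z_M` had pairwise different ones. They differ at some
`a` with `∑ a j ≤ 2n` (`separation`/`fibre`: if all the power sums of degree at most `2n` agree then the
families of conjugates agree up to order, so all power sums agree; alternatively count the
restrictions of `s_z` to `{a | ∑ a j ≤ 2n}` instead of `s_z`, this avoids the remark), so at some `a`
with `wt a ≤ W`. For `b ≤ B₀` and `f` take the `g` of `star` at the point `Ψ_1 ∘ x_1` and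
`e i j = ∑_l h i j l • β l` (`JGood` from `MGood.jgood`). For each `l`: by `coords`
`Ψ_l x_l = Ψ_1 x_1 + ∑ (t_i p^(v i)) • e_i`, and
`pv tra (Ψ_l ∘ x_l) a = tra (Ψ_l (∏ x^a)) = (s_{z_l} a : ℤ/p^B)`, so the integer
`eval (s_{z_l}) (f - g)` is `p^b y` in `ℤ/p^B`, `b ≤ B`, so it is divisible by `p^b`. `class_bound` gives
`Y ≤ C₂`, a contradiction. Finally for a given function `a ↦ s a` (on `∑ a j ≤ 2n`) there are at most `n`
points `z` (`fibre`; `Algebra.coe_trace_int`). Total `≤ p^(∑ v i) * M * n`.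
-/

namespace Pool.Agent.SNO

open NumberField Module MvPolynomial

namespace CRA

/-- fewer than `M` distinct elements -/
lemma ncard_le_of_no_inj {α : Type*} (R : Set α) (M : ℕ)
    (h : ∀ f : Fin M → α, Function.Injective f → (∀ i, f i ∈ R) → False) :
    R.Finite ∧ R.ncard ≤ M := by
  classical
  have key : ∀ t : Finset α, (t : Set α) ⊆ R → t.card = M → False := by
    intro t ht hc
    refine h (fun i => ((t.equivFin.symm (Fin.cast hc.symm i) : t) : α)) ?_ ?_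
    · intro i j hij
      have h1 := t.equivFin.symm.injective (Subtype.ext hij)
      exact Fin.cast_injective _ h1
    · intro i
      exact ht (t.equivFin.symm (Fin.cast hc.symm i)).2
  have hfin : R.Finite := by
    by_contra hinf
    obtain ⟨t, ht, hc⟩ := (Set.not_finite.1 hinf : R.Infinite).exists_subset_card_eq M
    exact key t ht hc
  refine ⟨hfin, ?_⟩
  by_contra hlt
  rw [Set.ncard_eq_toFinset_card R hfin] at hlt
  obtain ⟨t, ht, hc⟩ := Finset.exists_subset_card_eq (le_of_not_ge hlt)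
  exact key t (fun a ha => hfin.mem_toFinset.1 (ht ha)) hc

/-- counting along a map -/
lemma ncard_le_fibres {α β : Type*} (T : Set α) (F : α → β) (I : Set β) (hI : I.Finite) (n N : ℕ)
    (hN : I.ncard ≤ N) (hF : ∀ z ∈ T, F z ∈ I)
    (hfib : ∀ b ∈ I, {z | z ∈ T ∧ F z = b}.Finite ∧ {z | z ∈ T ∧ F z = b}.ncard ≤ n) :
    T.Finite ∧ T.ncard ≤ n * N := by
  classical
  have hT : T = ⋃ b ∈ I, {z | z ∈ T ∧ F z = b} := by
    ext z
    simp only [Set.mem_iUnion, Set.mem_ofPred_eq, exists_prop]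
    constructor
    · intro hz; exact ⟨F z, hF z hz, hz, rfl⟩
    · rintro ⟨b, _, hz, _⟩; exact hz
  have hfin : T.Finite := by
    rw [hT]; exact hI.biUnion fun b hb => (hfib b hb).1
  refine ⟨hfin, ?_⟩
  rw [Set.ncard_eq_toFinset_card T hfin]
  have h1 := Finset.card_le_mul_card_image (f := F) hfin.toFinset n (by
    intro b hb
    obtain ⟨z, hz, rfl⟩ := Finset.mem_image.1 hb
    have hz' := hfin.mem_toFinset.1 hz
    refine le_trans (le_of_eq ?_) (hfib _ (hF z hz')).2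
    rw [← Set.ncard_coe_finset]
    congr 1
    ext y
    simp)
  refine h1.trans (Nat.mul_le_mul_left _ ?_)
  refine le_trans ?_ hN
  rw [Set.ncard_eq_toFinset_card I hI]
  refine Finset.card_le_card ?_
  intro b hb
  obtain ⟨z, hz, rfl⟩ := Finset.mem_image.1 hb
  exact hI.mem_toFinset.2 (hF z (hfin.mem_toFinset.1 hz))

/-- bound for the traces of monomials -/
lemma trace_bound {σ : Type} [Fintype σ] (n : ℕ) (hn : 1 ≤ n) (w : σ → ℕ) (hw : ∀ j, 1 ≤ w j)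
    (C₁ Y : ℝ) (hC₁ : 1 ≤ C₁) (hY : 1 ≤ Y) (L : Type) [Field L] [NumberField L]
    (hL : finrank ℚ L = n) (x : σ → 𝓞 L) (hx : ∀ j, house ((x j : 𝓞 L) : L) ≤ C₁ * Y ^ w j)
    (a : σ →₀ ℕ) :
    |((Algebra.trace ℤ (𝓞 L) (∏ j, x j ^ a j) : ℤ) : ℝ)| ≤ (n * C₁ * Y) ^ vw w a := by
  classical
  have hn0 : (1 : ℝ) ≤ n := by exact_mod_cast hn
  have h1 : ((Algebra.trace ℤ (𝓞 L) (∏ j, x j ^ a j) : ℤ) : ℚ) =
      Algebra.trace ℚ L ((∏ j, x j ^ a j : 𝓞 L) : L) := Algebra.coe_trace_int _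
  have h2 := trace_eq_sum_embeddings ℂ (K := ℚ) (x := ((∏ j, x j ^ a j : 𝓞 L) : L))
  rw [← h1] at h2
  have h3 : ‖((Algebra.trace ℤ (𝓞 L) (∏ j, x j ^ a j) : ℤ) : ℂ)‖ ≤
      n * (C₁ ^ (∑ j, a j) * Y ^ wd w a) := by
    have h4 : ((Algebra.trace ℤ (𝓞 L) (∏ j, x j ^ a j) : ℤ) : ℂ) =
        ∑ τ : L →ₐ[ℚ] ℂ, τ ((∏ j, x j ^ a j : 𝓞 L) : L) := by
      rw [← h2]; simp
    rw [h4]
    have h5 : ∀ τ : L →ₐ[ℚ] ℂ, ‖τ ((∏ j, x j ^ a j : 𝓞 L) : L)‖ ≤
        C₁ ^ (∑ j, a j) * Y ^ wd w a := by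
      intro τ
      have h6 : ((∏ j, x j ^ a j : 𝓞 L) : L) = ∏ j, ((x j : 𝓞 L) : L) ^ a j := by
        simp only [map_prod, map_pow]
      rw [h6, map_prod, norm_prod]
      calc ∏ j, ‖τ (((x j : 𝓞 L) : L) ^ a j)‖ ≤ ∏ j, (C₁ * Y ^ w j) ^ a j := by
            refine Finset.prod_le_prod (fun _ _ => norm_nonneg _) fun j _ => ?_
            rw [map_pow, norm_pow]
            exact pow_le_pow_left₀ (norm_nonneg _)
              ((helper22.house_le_iff _ _).1 (hx j) (τ : L →+* ℂ)) _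
        _ = C₁ ^ (∑ j, a j) * Y ^ wd w a := by
            unfold wd
            rw [← Finset.prod_pow_eq_pow_sum, ← Finset.prod_pow_eq_pow_sum,
              ← Finset.prod_mul_distrib]
            refine Finset.prod_congr rfl fun j _ => ?_
            rw [mul_pow, ← pow_mul]
    refine (norm_sum_le _ _).trans ?_
    refine (Finset.sum_le_sum fun τ _ => h5 τ).trans ?_
    rw [Finset.sum_const, Finset.card_univ, AlgHom.card, hL, nsmul_eq_mul]
  rw [Complex.norm_intCast] at h3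
  refine h3.trans ?_
  have h6 : ∑ j, a j ≤ vw w a := by
    refine le_trans ?_ (le_max_right _ _)
    unfold wd
    exact Finset.sum_le_sum fun j _ => Nat.le_mul_of_pos_left _ (hw j)
  have h7 : wd w a ≤ vw w a := le_max_right _ _
  have h8 : 1 ≤ vw w a := le_max_left _ _
  rw [mul_pow, mul_pow, mul_assoc]
  refine mul_le_mul ?_ ?_ (by positivity) (by positivity)
  · calc (n : ℝ) = n ^ 1 := (pow_one _).symm
      _ ≤ n ^ vw w a := pow_le_pow_right₀ hn0 h8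
  · exact mul_le_mul (pow_le_pow_right₀ hC₁ h6) (pow_le_pow_right₀ hY h7) (by positivity)
      (by positivity)

lemma finite_vw {σ : Type} [Fintype σ] (w : σ → ℕ) (hw : ∀ j, 1 ≤ w j) (t : ℕ) :
    {a : σ →₀ ℕ | vw w a ≤ t}.Finite := by
  refine (finite_wd_lt w hw (t + 1)).subset ?_
  intro a ha
  have h1 : vw w a ≤ t := ha
  have h2 : wd w a ≤ vw w a := le_max_right _ _
  change wd w a < t + 1
  omega

lemma vw_le {σ : Type} [Fintype σ] (w : σ → ℕ) (n : ℕ) (a : σ →₀ ℕ) (ha : ∑ j, a j ≤ 2 * n) :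
    vw w a ≤ 2 * n * ∑ j, w j + 1 := by
  have h1 : wd w a ≤ 2 * n * ∑ j, w j := by
    unfold wd
    rw [Finset.mul_sum]
    refine Finset.sum_le_sum fun j _ => ?_
    rw [mul_comm]
    refine Nat.mul_le_mul_right _ ?_
    refine le_trans ?_ ha
    exact Finset.single_le_sum (f := fun j => a j) (fun _ _ => Nat.zero_le _) (Finset.mem_univ j)
  unfold vw
  exact max_le (by omega) (by omega)

lemma dvd_of_cast (p B b : ℕ) (hb : b ≤ B) (k : ℤ) (y : ZMod (p ^ B))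
    (h : (k : ZMod (p ^ B)) = (p : ZMod (p ^ B)) ^ b * y) : (p : ℤ) ^ b ∣ k := by
  obtain ⟨y', rfl⟩ := ZMod.intCast_surjective y
  have h1 : ((k - (p : ℤ) ^ b * y' : ℤ) : ZMod (p ^ B)) = 0 := by
    push_cast
    rw [h, sub_self]
  rw [ZMod.intCast_zmod_eq_zero_iff_dvd] at h1
  have h2 : (p : ℤ) ^ b ∣ ((p ^ B : ℕ) : ℤ) := by
    push_cast
    exact pow_dvd_pow _ hb
  have h3 := h2.trans h1
  exact (Int.dvd_iff_dvd_of_dvd_sub (by
    have : (p : ℤ) ^ b ∣ k - (p : ℤ) ^ b * y' := h3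
    exact this)).2 (dvd_mul_right _ _)

end CRA

theorem class_card {σ I : Type} [Fintype σ] [Fintype I] (n c₀ m : ℕ) (hn : 1 ≤ n) (hm : 1 ≤ m)
    (w : σ → ℕ) (hw : ∀ j, 1 ≤ w j) (v : I → ℕ) (hv : ∀ i, 1 ≤ v i) (eqv : I ≃ σ × Fin n) :
    ∃ M B : ℕ, 1 ≤ B ∧ (∀ i, v i ≤ B) ∧ ∀ C₁ : ℝ, 1 ≤ C₁ → ∃ C₂ : ℝ, ∀ Y : ℝ, 1 ≤ Y → C₂ < Y →
      ∀ p : ℕ, p.Prime → Y ^ (m + 1) ≤ (p : ℝ) ^ m → ∀ g : Polynomial (ZMod (p ^ B)), g.Monic →
      ∀ (β : Basis (Fin n) (ZMod (p ^ B)) (AdjoinRoot g)) (h : I → σ → Fin n → ℕ),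
      (∀ [DecidableEq I], IsUnit (Matrix.det (Matrix.of fun ι κ : I =>
        ((h ι (eqv κ).1 (eqv κ).2 : ℕ) : ZMod (p ^ B))))) →
      ∀ T : Set (σ → AlgebraicClosure ℚ),
        (∀ z ∈ T, ∃ (L : IntermediateField ℚ (AlgebraicClosure ℚ)) (_ : NumberField L)
          (x : σ → 𝓞 L) (Ψ : 𝓞 L →+* AdjoinRoot g),
          (∀ j, z j = (((x j : 𝓞 L) : L) : AlgebraicClosure ℚ)) ∧ finrank ℚ L = n ∧
          (∀ j, house ((x j : 𝓞 L) : L) ≤ C₁ * Y ^ w j) ∧
          (∀ u, tra (ZMod (p ^ B)) (AdjoinRoot g) (Ψ u) =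
            ((Algebra.trace ℤ (𝓞 L) u : ℤ) : ZMod (p ^ B))) ∧
          ∀ b, 1 ≤ b → b ≤ B → MGood (tra (ZMod (p ^ B)) (AdjoinRoot g)) w v (b - 1 + c₀) b
            (fun j => Ψ (x j)) (fun i j => ∑ l, (h i j l) • β l)) →
        T.Finite ∧ T.ncard ≤ M * n * p ^ (∑ i, v i) := by
  classical
  obtain ⟨M, B₀, hM, hB₀, hcb⟩ := class_bound (σ →₀ ℕ) (vw w) (fun a => le_max_left _ _)
    (CRA.finite_vw w hw) (2 * n * ∑ j, w j + 1) c₀ m hm
  have hvB : ∀ i, v i ≤ B₀ + ∑ i, v i := fun i =>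
    (Finset.single_le_sum (f := fun i => v i) (fun _ _ => Nat.zero_le _)
      (Finset.mem_univ i)).trans (Nat.le_add_left _ _)
  refine ⟨M, B₀ + ∑ i, v i, by omega, hvB, ?_⟩
  obtain ⟨B, hB⟩ : ∃ B, B = B₀ + ∑ i, v i := ⟨_, rfl⟩
  rw [← hB] at hvB ⊢
  intro C₁ hC₁
  have hn0 : (1 : ℝ) ≤ n := by exact_mod_cast hn
  obtain ⟨C₂, hC₂⟩ := hcb (n * C₁) (by nlinarith)
  refine ⟨C₂, ?_⟩
  intro Y hY hYC p hp hYp g hg β h hh T hT
  have : Fact p.Prime := ⟨hp⟩
  obtain ⟨cl, hcl⟩ := coords v n eqv p B hp hvB (AdjoinRoot g) β h hh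
  -- the data of a point
  have hdata : ∀ z ∈ T, ∃ (q : σ → AdjoinRoot g) (s : (σ →₀ ℕ) → ℤ),
      (∀ a, |(s a : ℝ)| ≤ (n * C₁ * Y) ^ vw w a) ∧
      (∀ a, pv (tra (ZMod (p ^ B)) (AdjoinRoot g)) q a = ((s a : ℤ) : ZMod (p ^ B))) ∧
      (∀ b, 1 ≤ b → b ≤ B → MGood (tra (ZMod (p ^ B)) (AdjoinRoot g)) w v (b - 1 + c₀) b
            q (fun i j => ∑ l, (h i j l) • β l)) ∧
      (∃ (L : IntermediateField ℚ (AlgebraicClosure ℚ))
        (_ : NumberField L) (x : σ → L), finrank ℚ L = n ∧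
        (∀ j, z j = ((x j : L) : AlgebraicClosure ℚ)) ∧
        ∀ a : σ →₀ ℕ, Algebra.trace ℚ L (∏ j, x j ^ a j) = s a) := by
    intro z hz
    obtain ⟨L, hL, x, Ψ, hz1, hz2, hz3, hz4, hz5⟩ := hT z hz
    refine ⟨fun j => Ψ (x j), fun a => Algebra.trace ℤ (𝓞 L) (∏ j, x j ^ a j), ?_, ?_, hz5, L, hL,
      fun j => ((x j : 𝓞 L) : L), hz2, hz1, ?_⟩
    · intro a
      exact CRA.trace_bound n hn w hw C₁ Y hC₁ hY L hz2 x hz3 a
    · intro a
      unfold pv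
      rw [← hz4]
      simp only [map_prod, map_pow]
    · intro a
      have h1 : ((Algebra.trace ℤ (𝓞 L) (∏ j, x j ^ a j) : ℤ) : ℚ) =
        Algebra.trace ℚ L ((∏ j, x j ^ a j : 𝓞 L) : L) := Algebra.coe_trace_int _
      rw [h1]
      congr 1
      simp only [map_prod, map_pow]
  choose! q s hs1 hs2 hs3 hs4 using hdata
  -- the restriction of the power sums
  obtain ⟨rs, hrs⟩ : ∃ rs : (σ → AlgebraicClosure ℚ) → ({a : σ →₀ ℕ // ∑ j, a j ≤ 2 * n} → ℤ),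
    rs = fun z a => s z a.1 := ⟨_, rfl⟩
  have hclass : ∀ κ : (∀ i : I, ZMod (p ^ v i)),
      (rs '' {z | z ∈ T ∧ cl (q z) = κ}).Finite ∧
      (rs '' {z | z ∈ T ∧ cl (q z) = κ}).ncard ≤ M := by
    intro κ
    refine CRA.ncard_le_of_no_inj _ M ?_
    intro f hf hfR
    choose z hz hzf using hfR
    have hzT : ∀ l, z l ∈ T := fun l => (hz l).1
    have hzk : ∀ l, cl (q (z l)) = κ := fun l => (hz l).2
    have hle := hC₂ Y hY p hp hYp (fun l => s (z l)) (fun l a => hs1 _ (hzT l) a) (by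
      intro l l' hll'
      have h1 : f l ≠ f l' := fun hh => hll' (hf hh)
      rw [← hzf l, ← hzf l', hrs] at h1
      obtain ⟨⟨a, ha⟩, h2⟩ := Function.ne_iff.1 h1
      exact ⟨a, CRA.vw_le w n a ha, h2⟩) (by
      intro b hb1 hb2 F
      obtain ⟨l₀⟩ : Nonempty (Fin M) := ⟨⟨0, by omega⟩⟩
      have hbB : b ≤ B := by omega
      obtain ⟨G, hG1, hG2⟩ := star w v p B b (b - 1 + c₀) hp (AdjoinRoot g)
        (tra (ZMod (p ^ B)) (AdjoinRoot g)) (tra_smul _ _) (q (z l₀))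
        (fun i j => ∑ l, (h i j l) • β l) (MGood.jgood hv (hs3 _ (hzT l₀) b hb1 hbB)) F
      refine ⟨G, hG1, fun l => ?_⟩
      obtain ⟨t, ht⟩ := hcl (q (z l₀)) (q (z l)) ((hzk l₀).trans (hzk l).symm)
      obtain ⟨y, hy⟩ := hG2 t
      have h1 : (fun j => q (z l₀) j + ∑ i, (t i * (p : ZMod (p ^ B)) ^ v i) •
          ∑ l, (h i j l) • β l) = q (z l) := by
        funext j
        exact (ht j).symm
      rw [h1] at hy
      have h2 : (pv (tra (ZMod (p ^ B)) (AdjoinRoot g)) (q (z l))) =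
          fun a => Int.castRingHom (ZMod (p ^ B)) (s (z l) a) := by
        funext a
        exact hs2 _ (hzT l) a
      rw [h2] at hy
      refine CRA.dvd_of_cast p B b hbB _ y ?_
      rw [← hy]
      have h3 := hom_eval₂ (F - G) (RingHom.id ℤ) (Int.castRingHom (ZMod (p ^ B))) (s (z l))
      rw [eval₂_id, RingHom.comp_id] at h3
      exact h3)
    exact absurd hle (not_le.2 hYC)
  -- the fibres
  have hfib : ∀ r : ({a : σ →₀ ℕ // ∑ j, a j ≤ 2 * n} → ℤ),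
      {z | z ∈ T ∧ rs z = r}.Finite ∧ {z | z ∈ T ∧ rs z = r}.ncard ≤ n := by
    intro r
    by_cases hne : ∃ z₀, z₀ ∈ T ∧ rs z₀ = r
    · obtain ⟨z₀, hz₀, hr₀⟩ := hne
      have hsub : {z | z ∈ T ∧ rs z = r} ⊆ {z : σ → AlgebraicClosure ℚ |
          ∃ (L : IntermediateField ℚ (AlgebraicClosure ℚ))
          (_ : NumberField L) (x : σ → L), finrank ℚ L = n ∧
          (∀ j, z j = ((x j : L) : AlgebraicClosure ℚ)) ∧
          ∀ a : σ →₀ ℕ, ∑ j, a j ≤ 2 * n → Algebra.trace ℚ L (∏ j, x j ^ a j) =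
            (s z₀ a : ℚ)} := by
        rintro z ⟨hz, hr⟩
        obtain ⟨L, hL, x, h1, h2, h3⟩ := hs4 z hz
        refine ⟨L, hL, x, h1, h2, fun a ha => ?_⟩
        rw [h3 a]
        have h4 : rs z = rs z₀ := hr.trans hr₀.symm
        rw [hrs] at h4
        have h5 : s z a = s z₀ a := congrFun h4 ⟨a, ha⟩
        rw [h5]
      obtain ⟨hf1, hf2⟩ := fibre (σ := σ) n (fun a => (s z₀ a : ℚ))
      exact ⟨hf1.subset hsub, (Set.ncard_le_ncard hsub hf1).trans hf2⟩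
    · have hempty : {z | z ∈ T ∧ rs z = r} = ∅ := by
        ext z
        simp only [Set.mem_ofPred_eq, Set.mem_empty_iff_false, iff_false]
        exact fun hz => hne ⟨z, hz⟩
      rw [hempty]
      simp
  have hcard : (Set.univ : Set (∀ i : I, ZMod (p ^ v i))).ncard ≤ p ^ (∑ i, v i) := by
    rw [Set.ncard_univ, Nat.card_pi]
    simp only [Nat.card_zmod]
    rw [Finset.prod_pow_eq_pow_sum]
  have hκ : ∀ κ : (∀ i : I, ZMod (p ^ v i)), {z | z ∈ T ∧ cl (q z) = κ}.Finite ∧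
      {z | z ∈ T ∧ cl (q z) = κ}.ncard ≤ n * M := by
    intro κ
    refine CRA.ncard_le_fibres _ rs _ (hclass κ).1 n M (hclass κ).2
      (fun z hz => Set.mem_image_of_mem _ hz) ?_
    intro r _
    have hsub : {z | z ∈ {z | z ∈ T ∧ cl (q z) = κ} ∧ rs z = r} ⊆ {z | z ∈ T ∧ rs z = r} := by
      rintro z ⟨⟨hz, _⟩, hr⟩
      exact ⟨hz, hr⟩
    exact ⟨(hfib r).1.subset hsub, (Set.ncard_le_ncard hsub (hfib r).1).trans (hfib r).2⟩
  have hfinal := CRA.ncard_le_fibres T (fun z => cl (q z)) Set.univ Set.finite_univ (n * M)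
    (p ^ (∑ i, v i)) hcard (fun _ _ => Set.mem_univ _) (fun κ _ => hκ κ)
  refine ⟨hfinal.1, hfinal.2.trans (le_of_eq ?_)⟩
  ring

end Pool.Agent.SNO
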