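import Mathlib
import Pool.Agent.SNO.Defs
import Pool.Agent.SNO.Basic
import Pool.Agent.SNO.OPN
import Pool.Agent.Helper58.NF.Gen

set_option autoImplicit false

/-!
# Module FLG

Flags from a fixed grid.
Proof. Apply `open_good` with `P = I × σ × Fin n`, `k = ℤ/p^B'`, the constants `z j` (as `C (z j)`) and
`e i j = ∑_l X (i, j, l) * C (β l)`; at `c₁ (i,j,l) = β.repr (e i j) l` it is the given point. Get `F` of
degree `≤ D_open` (this number does not depend on `p, B', A`), `F(c₁)` a unit. Let `Gd` be the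
determinant of the generic matrix `(X (ι, (eqv κ).1, (eqv κ).2))_{ι,κ}`, degree `≤ card I`; `D = D_open +
card I`. Reduce modulo `p` (`ZMod.castHom`): `F̄ ≠ 0` (nonzero value), `Ḡd ≠ 0` (value 1 at the identity
matrix), so `F̄ Ḡd ≠ 0` over the field `ZMod p`, of total degree `≤ D`. If `p > D` the `D + 1` residues
of `0, …, D` are distinct, and `MvPolynomial.eq_zero_of_eval_zero_at_prod_finset`
(Combinatorics/Nullstellensatz) gives `h` with entries `≤ D` and `F̄ Ḡd (h) ≠ 0`. An element of `ℤ/p^B'`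
with nonzero image in `ZMod p` is a unit (coprime to `p`). So `F(h)` and `det h` are units.
-/

namespace Pool.Agent.SNO

open NumberField Module MvPolynomial

private lemma totalDegree_X_le {S R : Type} [CommRing R] (i : S) :
    (X i : MvPolynomial S R).totalDegree ≤ 1 := by
  rw [X]
  refine (totalDegree_monomial_le _ _).trans ?_
  rw [Finsupp.sum_single_index] <;> simp

private lemma castHom_ne_zero {p B' : ℕ} (hp : p.Prime) (hB : B' ≠ 0) (a : ZMod (p ^ B'))
    (h : ZMod.castHom (dvd_pow_self p hB) (ZMod p) a ≠ 0) : IsUnit a := by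
  have : NeZero (p ^ B') := ⟨(pow_pos hp.pos _).ne'⟩
  have h1 : (a.val : ZMod (p ^ B')) = a := ZMod.natCast_zmod_val a
  rw [← h1] at h ⊢
  rw [map_natCast] at h
  rw [ZMod.isUnit_iff_coprime]
  refine Nat.Coprime.pow_right _ ?_
  rw [Nat.coprime_comm, Nat.Prime.coprime_iff_not_dvd hp]
  intro h2
  exact h ((ZMod.natCast_eq_zero_iff _ _).2 h2)

theorem flags {σ I : Type} [Fintype σ] [Fintype I] (w : σ → ℕ) (hw : ∀ j, 1 ≤ w j) (v : I → ℕ)
    (n c₀ B : ℕ) (eqv : I ≃ σ × Fin n) :
    ∃ D : ℕ, ∀ p : ℕ, p.Prime → D < p → ∀ B' : ℕ, B' ≠ 0 → ∀ (A : Type) [CommRing A]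
      [Algebra (ZMod (p ^ B')) A] (β : Basis (Fin n) (ZMod (p ^ B')) A) (τ : A →+ ZMod (p ^ B')),
      (∀ (c : ZMod (p ^ B')) (a : A), τ (c • a) = c * τ a) → ∀ (z : σ → A) (e : I → σ → A),
      (∀ b, 1 ≤ b → b ≤ B → MGood τ w v (b - 1 + c₀) b z e) →
      ∃ h : I → σ → Fin n → ℕ, (∀ i j l, h i j l ≤ D) ∧
        (∀ [DecidableEq I], IsUnit (Matrix.det (Matrix.of fun ι κ : I =>
          ((h ι (eqv κ).1 (eqv κ).2 : ℕ) : ZMod (p ^ B'))))) ∧
        ∀ b, 1 ≤ b → b ≤ B → MGood τ w v (b - 1 + c₀) b z (fun i j => ∑ l, (h i j l) • β l) := by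
  obtain ⟨D₀, hD₀⟩ := open_good (P := I × σ × Fin n) w hw v c₀ B
  refine ⟨D₀ + Fintype.card I, ?_⟩
  intro p hp hDp B' hB' A _ _ β τ hτ z e hg
  have : Fact p.Prime := ⟨hp⟩
  set P := I × σ × Fin n with hP
  set z' : σ → MvPolynomial P A := fun j => C (z j) with hz'
  set e' : I → σ → MvPolynomial P A := fun i j => ∑ l, X (i, j, l) * C (β l) with he'
  set c₁ : P → ZMod (p ^ B') := fun q => β.repr (e q.1 q.2.1) q.2.2 with hc₁
  have hev : ∀ c : P → ZMod (p ^ B'), ∀ i j,
      eval (fun q => algebraMap (ZMod (p ^ B')) A (c q)) (e' i j) = ∑ l, c (i, j, l) • β l := by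
    intro c i j
    simp [he', Algebra.smul_def]
  have hez : ∀ c : P → ZMod (p ^ B'), ∀ j,
      eval (fun q => algebraMap (ZMod (p ^ B')) A (c q)) (z' j) = z j := by
    intro c j
    simp [hz']
  obtain ⟨F, hFd, hFu, hF⟩ := hD₀ (ZMod (p ^ B')) A τ hτ z' e' (fun j => by simp [hz'])
    (fun i j => by
      refine (totalDegree_finsetSum _ _).trans (Finset.sup_le fun l _ => ?_)
      refine (totalDegree_mul _ _).trans ?_
      rw [totalDegree_C, add_zero]
      exact totalDegree_X_le _) c₁ (fun b hb1 hb2 => by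
      have h1 := hg b hb1 hb2
      have h2 : (fun i j => eval (fun q => algebraMap (ZMod (p ^ B')) A (c₁ q)) (e' i j)) = e := by
        funext i j
        rw [hev]
        exact β.sum_repr (e i j)
      have h3 : (fun j => eval (fun q => algebraMap (ZMod (p ^ B')) A (c₁ q)) (z' j)) = z := by
        funext j
        rw [hez]
      rw [h2, h3]
      exact h1)
  classical
  set ψ := ZMod.castHom (dvd_pow_self p hB') (ZMod p) with hψ
  set Fb : MvPolynomial P (ZMod p) := map ψ F with hFb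
  set Gd : MvPolynomial P (ZMod p) :=
    Matrix.det (Matrix.of fun ι κ : I => (X (ι, (eqv κ).1, (eqv κ).2) : MvPolynomial P (ZMod p)))
    with hGd
  have hcomp : ∀ x : P → ZMod (p ^ B'), eval (fun q => ψ (x q)) Fb = ψ (eval x F) := by
    intro x
    have h1 : eval x F = eval₂ (RingHom.id _) x F := rfl
    rw [hFb, eval_map, h1, eval₂_comp_left]
    rfl
  have hFb0 : Fb ≠ 0 := by
    intro h0
    have h1 := hcomp c₁
    rw [h0, map_zero] at h1
    have h2 := hFu.map ψ
    rw [← h1] at h2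
    exact not_isUnit_zero h2
  have hGd0 : Gd ≠ 0 := by
    intro h0
    have h1 : eval (fun q : P => if eqv q.1 = q.2 then (1 : ZMod p) else 0) Gd = 1 := by
      rw [hGd, RingHom.map_det]
      have : (eval (fun q : P => if eqv q.1 = q.2 then (1 : ZMod p) else 0)).mapMatrix
          (Matrix.of fun ι κ : I => (X (ι, (eqv κ).1, (eqv κ).2) : MvPolynomial P (ZMod p))) =
          1 := by
        ext ι κ
        simp [Matrix.one_apply]
      rw [this, Matrix.det_one]
    rw [h0, map_zero] at h1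
    exact zero_ne_one h1
  have hFG : Fb * Gd ≠ 0 := mul_ne_zero hFb0 hGd0
  have hdeg : (Fb * Gd).totalDegree ≤ D₀ + Fintype.card I := by
    refine (totalDegree_mul _ _).trans (add_le_add ?_ ?_)
    · refine le_trans ?_ hFd
      exact Finset.sup_mono (support_map_subset ψ F)
    · have := Pool.Agent.Helper58.NF.totalDegree_det_le 1
        (Matrix.of fun ι κ : I => (X (ι, (eqv κ).1, (eqv κ).2) : MvPolynomial P (ZMod p)))
        (fun i j => totalDegree_X_le _)
      rw [one_mul] at this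
      exact this
  set S : Finset (ZMod p) := (Finset.range (D₀ + Fintype.card I + 1)).image
    (fun t : ℕ => (t : ZMod p)) with hS
  have hScard : S.card = D₀ + Fintype.card I + 1 := by
    rw [hS, Finset.card_image_of_injOn, Finset.card_range]
    intro a ha b hb hab
    simp only [Finset.coe_range, Set.mem_Iio] at ha hb
    simp only at hab
    have h1 := (ZMod.natCast_eq_natCast_iff' a b p).1 hab
    rwa [Nat.mod_eq_of_lt (by omega), Nat.mod_eq_of_lt (by omega)] at h1
  have hex : ∃ x : P → ZMod p, (∀ q, x q ∈ S) ∧ eval x (Fb * Gd) ≠ 0 := by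
    by_contra hno
    push Not at hno
    apply hFG
    refine eq_zero_of_eval_zero_at_prod_finset (Fb * Gd) (fun _ => S) (fun i => ?_) hno
    rw [hScard]
    exact Nat.lt_succ_of_le ((degreeOf_le_totalDegree _ _).trans hdeg)
  obtain ⟨x, hxS, hx⟩ := hex
  have hch : ∀ q, ∃ t : ℕ, t ≤ D₀ + Fintype.card I ∧ (t : ZMod p) = x q := by
    intro q
    obtain ⟨t, ht, h⟩ := Finset.mem_image.1 (hxS q)
    exact ⟨t, Nat.lt_succ_iff.1 (Finset.mem_range.1 ht), h⟩
  choose t ht1 ht2 using hch
  have hxψ : (fun q => ψ ((t q : ℕ) : ZMod (p ^ B'))) = x := by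
    funext q
    rw [map_natCast, ht2]
  rw [map_mul] at hx
  have hx1 := left_ne_zero_of_mul hx
  have hx2 := right_ne_zero_of_mul hx
  have hdetu : IsUnit (Matrix.det (Matrix.of fun ι κ : I =>
      ((t (ι, (eqv κ).1, (eqv κ).2) : ℕ) : ZMod (p ^ B')))) := by
    apply castHom_ne_zero hp hB'
    rw [← hψ, RingHom.map_det]
    intro h0
    apply hx2
    rw [hGd, RingHom.map_det]
    rw [← h0]
    congr 1
    ext ι κ
    simp [ht2]
  refine ⟨fun i j l => t (i, j, l), fun i j l => ht1 _, ?_, ?_⟩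
  · intro inst
    have e1 : ∀ (i1 i2 : DecidableEq I) (M : Matrix I I (ZMod (p ^ B'))),
        @Matrix.det I i1 _ _ _ M = @Matrix.det I i2 _ _ _ M := fun i1 i2 M => by
      rw [Subsingleton.elim i1 i2]
    have h9 := hdetu
    rw [e1 _ inst] at h9
    exact h9
  · have hu : IsUnit (eval (fun q => ((t q : ℕ) : ZMod (p ^ B'))) F) := by
      apply castHom_ne_zero hp hB'
      rw [← hψ, ← hcomp, hxψ]
      exact hx1
    intro b hb1 hb2
    have h1 := hF _ hu b hb1 hb2
    have h2 : (fun i j => eval (fun q => algebraMap (ZMod (p ^ B')) A ((t q : ℕ) : ZMod (p ^ B')))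
        (e' i j)) = fun i j => ∑ l, (t (i, j, l)) • β l := by
      funext i j
      rw [hev]
      refine Finset.sum_congr rfl fun l _ => ?_
      rw [Nat.cast_smul_eq_nsmul]
    have h3 : (fun j => eval (fun q => algebraMap (ZMod (p ^ B')) A ((t q : ℕ) : ZMod (p ^ B')))
        (z' j)) = z := by
      funext j
      rw [hez]
    rw [h2, h3] at h1
    exact h1

end Pool.Agent.SNO
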