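import Mathlib
import Pool.Agent.SNO.Defs
import Pool.Agent.SNO.Basic

set_option autoImplicit false

/-!
# Module GMB

A bound for the jet coefficients over `ℤ`.
Proof. With an enumeration of the `n` embeddings `en i : L →+* ℂ` and `Φ : 𝓞 L →+* (Fin n → ℂ)` the
coefficient is (as a complex number, `coeff_ex_map`, trace = sum over embeddings, see the header of
DSC; `Algebra.coe_trace_int`/`trace_eq_sum_embeddings`) the coefficient of
`∏_a (∑_i ∏_j (pt_i j) ^ a j)^(m a)` with `pt_i j = C (en i (z j)) + ∑ X ι C (en i (e ι j))`. Use the norm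
`‖G‖ = ∑_{β ∈ support} ‖coeff β G‖` on `MvPolynomial I ℂ`: subadditive, submultiplicative,
`‖coeff β G‖ ≤ ‖G‖`. `‖pt_i j‖ ≤ (1 + card I) H`, so the coefficient is at most
`∏_a (n ((1 + card I) H)^(∑ a j))^(m a) = C H^c`. (`house x ≤ H` iff all `‖φ x‖ ≤ H`:
`Pool.Agent.helper22.house_le_iff`, in `Pool/Agent/helper22`.)
-/

namespace Pool.Agent.SNO

open NumberField Module MvPolynomial

private structure SN {A : Type} [CommRing A] (ν : A → ℝ) : Prop where
  zero : ν 0 = 0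
  one : ν 1 ≤ 1
  nonneg : ∀ a, 0 ≤ ν a
  add : ∀ a b, ν (a + b) ≤ ν a + ν b
  mul : ∀ a b, ν (a * b) ≤ ν a * ν b

private noncomputable def Nv {I A : Type} [CommRing A] (ν : A → ℝ) (F : MvPolynomial I A) : ℝ :=
  ∑ β ∈ F.support, ν (coeff β F)

private lemma Nv_eq {I A : Type} [CommRing A] {ν : A → ℝ} (h : SN ν) (F : MvPolynomial I A)
    (s : Finset (I →₀ ℕ)) (hs : F.support ⊆ s) : Nv ν F = ∑ β ∈ s, ν (coeff β F) := by
  unfold Nv
  refine Finset.sum_subset hs fun β _ hβ => ?_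
  rw [notMem_support_iff.1 hβ, h.zero]

private lemma Nv_nonneg {I A : Type} [CommRing A] {ν : A → ℝ} (h : SN ν) (F : MvPolynomial I A) :
    0 ≤ Nv ν F := Finset.sum_nonneg fun _ _ => h.nonneg _

private lemma Nv_zero {I A : Type} [CommRing A] {ν : A → ℝ} :
    Nv ν (0 : MvPolynomial I A) = 0 := by simp [Nv]

private lemma le_Nv {I A : Type} [CommRing A] {ν : A → ℝ} (h : SN ν) (F : MvPolynomial I A)
    (β : I →₀ ℕ) : ν (coeff β F) ≤ Nv ν F := by
  classical
  by_cases hβ : β ∈ F.support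
  · exact Finset.single_le_sum (f := fun β => ν (coeff β F)) (fun _ _ => h.nonneg _) hβ
  · rw [notMem_support_iff.1 hβ, h.zero]
    exact Nv_nonneg h F

private lemma Nv_add {I A : Type} [CommRing A] {ν : A → ℝ} (h : SN ν) (F G : MvPolynomial I A) :
    Nv ν (F + G) ≤ Nv ν F + Nv ν G := by
  classical
  rw [Nv_eq h (F + G) (F.support ∪ G.support) support_add,
    Nv_eq h F (F.support ∪ G.support) Finset.subset_union_left,
    Nv_eq h G (F.support ∪ G.support) Finset.subset_union_right, ← Finset.sum_add_distrib]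
  refine Finset.sum_le_sum fun β _ => ?_
  rw [coeff_add]
  exact h.add _ _

private lemma Nv_sum {I A ι : Type} [CommRing A] {ν : A → ℝ} (h : SN ν) (s : Finset ι)
    (F : ι → MvPolynomial I A) : Nv ν (∑ i ∈ s, F i) ≤ ∑ i ∈ s, Nv ν (F i) := by
  classical
  induction s using Finset.induction_on with
  | empty => simp [Nv_zero]
  | insert a s ha ih =>
    rw [Finset.sum_insert ha, Finset.sum_insert ha]
    exact (Nv_add h _ _).trans (by linarith)

private lemma Nv_monomial {I A : Type} [CommRing A] {ν : A → ℝ} (h : SN ν) (β : I →₀ ℕ) (a : A) :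
    Nv ν (monomial β a) ≤ ν a := by
  classical
  rw [Nv_eq h (monomial β a) {β} support_monomial_subset, Finset.sum_singleton, coeff_monomial,
    if_pos rfl]

private lemma Nv_mul {I A : Type} [CommRing A] {ν : A → ℝ} (h : SN ν) (F G : MvPolynomial I A) :
    Nv ν (F * G) ≤ Nv ν F * Nv ν G := by
  classical
  rw [MvPolynomial.mul_def, Finsupp.sum]
  refine (Nv_sum h _ _).trans ?_
  unfold Nv
  rw [Finset.sum_mul]
  refine Finset.sum_le_sum fun a _ => ?_
  rw [Finsupp.sum, Finset.mul_sum]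
  refine (Nv_sum h _ _).trans ?_
  refine Finset.sum_le_sum fun b _ => ?_
  exact (Nv_monomial h _ _).trans (h.mul _ _)

private lemma Nv_one {I A : Type} [CommRing A] {ν : A → ℝ} (h : SN ν) :
    Nv ν (1 : MvPolynomial I A) ≤ 1 := (Nv_monomial h 0 1).trans h.one

private lemma Nv_pow {I A : Type} [CommRing A] {ν : A → ℝ} (h : SN ν) (F : MvPolynomial I A)
    (k : ℕ) : Nv ν (F ^ k) ≤ Nv ν F ^ k := by
  induction k with
  | zero => simpa using Nv_one h
  | succ k ih =>
    rw [pow_succ, pow_succ]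
    exact (Nv_mul h _ _).trans (mul_le_mul_of_nonneg_right ih (Nv_nonneg h F))

private lemma Nv_prod {I A ι : Type} [CommRing A] {ν : A → ℝ} (h : SN ν) (s : Finset ι)
    (F : ι → MvPolynomial I A) : Nv ν (∏ i ∈ s, F i) ≤ ∏ i ∈ s, Nv ν (F i) := by
  classical
  induction s using Finset.induction_on with
  | empty => simpa using Nv_one h
  | insert a s ha ih =>
    rw [Finset.prod_insert ha, Finset.prod_insert ha]
    exact (Nv_mul h _ _).trans (mul_le_mul_of_nonneg_left ih (Nv_nonneg h _))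

private lemma Nv_C {I A : Type} [CommRing A] {ν : A → ℝ} (h : SN ν) (a : A) :
    Nv ν (C a : MvPolynomial I A) ≤ ν a := Nv_monomial h 0 a

private lemma Nv_X {I A : Type} [CommRing A] {ν : A → ℝ} (h : SN ν) (i : I) :
    Nv ν (X i : MvPolynomial I A) ≤ 1 := (Nv_monomial h _ 1).trans h.one

private lemma Nv_ptr {I A k : Type} [CommRing A] [CommRing k] {ν : A → ℝ} {ν' : k → ℝ}
    (h' : SN ν') (τ : A →+ k) (c : ℝ) (hc : ∀ a, ν' (τ a) ≤ c * ν a)
    (F : MvPolynomial I A) : Nv ν' (ptr τ F) ≤ c * Nv ν F := by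
  unfold ptr
  refine (Nv_sum h' _ _).trans ?_
  rw [Nv, Finset.mul_sum]
  exact Finset.sum_le_sum fun β _ => (Nv_monomial h' _ _).trans (hc _)

private lemma Nv_pt {σ I A : Type} [Fintype I] [CommRing A] {ν : A → ℝ} (h : SN ν) (z : σ → A)
    (e : I → σ → A) (H : ℝ) (hz : ∀ j, ν (z j) ≤ H) (he : ∀ i j, ν (e i j) ≤ H)
    (j : σ) : Nv ν (pt z e j) ≤ (1 + Fintype.card I) * H := by
  unfold pt
  refine (Nv_add h _ _).trans ?_
  have h1 : Nv ν (C (z j) : MvPolynomial I A) ≤ H := (Nv_C h _).trans (hz j)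
  have h2 : Nv ν (∑ i, X i * C (e i j) : MvPolynomial I A) ≤ Fintype.card I * H := by
    refine (Nv_sum h _ _).trans ?_
    have : ∀ i ∈ (Finset.univ : Finset I), Nv ν (X i * C (e i j) : MvPolynomial I A) ≤ H := by
      intro i _
      refine (Nv_mul h _ _).trans ?_
      have h3 := Nv_X h i
      have h4 := (Nv_C (I := I) h (e i j)).trans (he i j)
      have h5 := Nv_nonneg h (C (e i j) : MvPolynomial I A)
      calc _ ≤ 1 * Nv ν (C (e i j) : MvPolynomial I A) := mul_le_mul_of_nonneg_right h3 h5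
        _ ≤ H := by rw [one_mul]; exact h4
    refine (Finset.sum_le_sum this).trans ?_
    simp
  linarith

private lemma SN_int : SN (fun a : ℤ => |(a : ℝ)|) where
  zero := by simp
  one := by simp
  nonneg a := abs_nonneg _
  add a b := by push_cast; exact abs_add_le _ _
  mul a b := by push_cast; rw [abs_mul]

private lemma SN_house (L : Type) [Field L] [NumberField L] :
    SN (fun a : 𝓞 L => house ((a : 𝓞 L) : L)) where
  zero := by
    show house ((0 : 𝓞 L) : L) = 0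
    have : ((0 : 𝓞 L) : L) = ((0 : ℤ) : L) := by simp
    rw [this, house_intCast]; simp
  one := by
    show house ((1 : 𝓞 L) : L) ≤ 1
    have : ((1 : 𝓞 L) : L) = ((1 : ℤ) : L) := by simp
    rw [this, house_intCast]; simp
  nonneg a := house_nonneg _
  add a b := by
    show house ((a + b : 𝓞 L) : L) ≤ _
    have : ((a + b : 𝓞 L) : L) = (a : L) + (b : L) := by simp
    rw [this]; exact house_add_le _ _
  mul a b := by
    show house ((a * b : 𝓞 L) : L) ≤ _
    have : ((a * b : 𝓞 L) : L) = (a : L) * (b : L) := by simp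
    rw [this]; exact house_mul_le _ _

private lemma tra_le (L : Type) [Field L] [NumberField L] (a : 𝓞 L) :
    |((tra ℤ (𝓞 L) a : ℤ) : ℝ)| ≤ (finrank ℚ L : ℝ) * house ((a : 𝓞 L) : L) := by
  have h1 : ((tra ℤ (𝓞 L) a : ℤ) : ℚ) = Algebra.trace ℚ L (a : L) := by
    exact Algebra.coe_trace_int a
  have h2 : algebraMap ℚ ℂ (Algebra.trace ℚ L (a : L)) = ∑ φ : L →ₐ[ℚ] ℂ, φ (a : L) :=
    trace_eq_sum_embeddings ℂ
  have h3 : ((tra ℤ (𝓞 L) a : ℤ) : ℂ) = ∑ φ : L →ₐ[ℚ] ℂ, φ (a : L) := by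
    rw [← h2, ← h1]; simp
  have h4 : |((tra ℤ (𝓞 L) a : ℤ) : ℝ)| = ‖((tra ℤ (𝓞 L) a : ℤ) : ℂ)‖ := by
    rw [Complex.norm_intCast]
  rw [h4, h3]
  refine (norm_sum_le _ _).trans ?_
  have h5 : ∀ φ ∈ (Finset.univ : Finset (L →ₐ[ℚ] ℂ)), ‖φ (a : L)‖ ≤ house (a : L) :=
    fun φ _ => norm_embedding_le_house (a : L) φ.toRingHom
  refine (Finset.sum_le_sum h5).trans ?_
  rw [Finset.sum_const, nsmul_eq_mul, Finset.card_univ, AlgHom.card]

theorem coeff_bound {σ I : Type} [Fintype σ] [Fintype I] (n : ℕ) (m : (σ →₀ ℕ) →₀ ℕ)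
    (α : I →₀ ℕ) :
    ∃ C : ℝ, ∃ c : ℕ, 1 ≤ C ∧ ∀ (L : Type) [Field L] [NumberField L] (z : σ → 𝓞 L)
      (e : I → σ → 𝓞 L), finrank ℚ L = n → ∀ H : ℝ, 1 ≤ H →
      (∀ j, house ((z j : 𝓞 L) : L) ≤ H) → (∀ i j, house ((e i j : 𝓞 L) : L) ≤ H) →
      |((coeff α (ex (tra ℤ (𝓞 L)) z e (monomial m 1)) : ℤ) : ℝ)| ≤ C * H ^ c := by
  classical
  refine ⟨∏ a ∈ m.support, (((n : ℝ) + 1) * (1 + Fintype.card I) ^ (∑ j, a j)) ^ m a,
    ∑ a ∈ m.support, (∑ j, a j) * m a, ?_, ?_⟩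
  · refine Finset.prod_induction _ (fun x : ℝ => 1 ≤ x)
      (fun a b ha hb => one_le_mul_of_one_le_of_one_le ha hb) le_rfl fun a _ => one_le_pow₀ ?_
    have h1 : (1 : ℝ) ≤ (n : ℝ) + 1 := by linarith [Nat.cast_nonneg (α := ℝ) n]
    have h2 : (1 : ℝ) ≤ (1 + Fintype.card I) ^ (∑ j, a j) :=
      one_le_pow₀ (by linarith [Nat.cast_nonneg (α := ℝ) (Fintype.card I)])
    nlinarith
  · intro L _ _ z e hn H hH hz he
    have hi := SN_int
    have hh := SN_house L
    refine (le_Nv (ν := fun a : ℤ => |(a : ℝ)|) hi _ α).trans ?_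
    have h1 : ex (tra ℤ (𝓞 L)) z e (monomial m 1) =
        ∏ a ∈ m.support, ps (tra ℤ (𝓞 L)) z e a ^ m a := by
      unfold ex
      rw [aeval_monomial]
      simp [Finsupp.prod]
    rw [h1]
    refine (Nv_prod hi _ _).trans ?_
    have h2 : (∏ a ∈ m.support, (((n : ℝ) + 1) * (1 + Fintype.card I) ^ (∑ j, a j)) ^ m a) *
        H ^ (∑ a ∈ m.support, (∑ j, a j) * m a) =
        ∏ a ∈ m.support, (((n : ℝ) + 1) * ((1 + Fintype.card I) * H) ^ (∑ j, a j)) ^ m a := by
      rw [← Finset.prod_pow_eq_pow_sum, ← Finset.prod_mul_distrib]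
      refine Finset.prod_congr rfl fun a _ => ?_
      rw [pow_mul, ← mul_pow, mul_assoc, ← mul_pow]
    rw [h2]
    refine Finset.prod_le_prod (fun a _ => Nv_nonneg hi _) fun a _ => ?_
    refine (Nv_pow hi _ _).trans ?_
    refine pow_le_pow_left₀ (Nv_nonneg hi _) ?_ _
    unfold ps
    refine (Nv_ptr (ν := fun a : 𝓞 L => house ((a : 𝓞 L) : L)) hi (tra ℤ (𝓞 L)) ((n : ℝ) + 1)
      (fun a => ?_) _).trans ?_
    · refine (tra_le L a).trans ?_
      rw [hn]
      have := hh.nonneg a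
      nlinarith
    · refine mul_le_mul_of_nonneg_left ?_ (by positivity)
      refine (Nv_prod hh _ _).trans ?_
      rw [← Finset.prod_pow_eq_pow_sum]
      refine Finset.prod_le_prod (fun a _ => Nv_nonneg hh _) fun j _ => ?_
      refine (Nv_pow hh _ _).trans ?_
      exact pow_le_pow_left₀ (Nv_nonneg hh _) (Nv_pt hh z e H hz he j) _

end Pool.Agent.SNO
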