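import Mathlib
import Pool.Agent.SNO.Defs
import Pool.Agent.SNO.Basic
import Pool.Agent.SNO.GMB
import Pool.Agent.SNO.MIN

set_option autoImplicit false

/-!
# Module GMD

Goodness modulo a number: the integer `D₁`.
Proof. For `1 ≤ b ≤ B` take the monomials `m_b` of `MGood` over ℚ and the integer
`N_b = det (coeff β (ex (tra ℤ (𝓞 L)) z e (monomial (m_b α) 1)))_{α, β ∈ JS v b}`. Base change
`ℤ → ℚ`, `𝓞 L → L` (`coeff_ex_map`, `Algebra.coe_trace_int`): `N_b` is the determinant over ℚ, so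
`N_b ≠ 0`. `D₁ = ∏_{b ∈ Icc 1 B} |N_b|`. For `k, A, τ, Ψ` : base change `Int.castRingHom k`, `Ψ`: the
matrix over `k` is the image of the integer matrix, its determinant is `(N_b : k)`, a divisor of the
unit `(D₁ : k)` (up to sign), so a unit. Bound: there are finitely many monomials of weight at most
`B - 1 + c₀` (`finite_mw_le` with `wt = vw w`; the sets `{a | vw w a ≤ t}` are finite because
`w j ≥ 1`) and finitely many `β ∈ JS v b`, so `coeff_bound` gives uniform `C₂, c₂` with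
`|entry| ≤ C₂ H^(c₂)`, `H = C₁ Y^(c₁)`; `|N_b| ≤ N! (C₂ H^(c₂))^N`, `N = card (JS v b)`
(`Matrix.det_le` or the Leibniz formula).
-/

namespace Pool.Agent.SNO

open NumberField Module MvPolynomial

private lemma vw_fin {σ : Type} [Fintype σ] (w : σ → ℕ) (hw : ∀ j, 1 ≤ w j) (t : ℕ) :
    {a : σ →₀ ℕ | vw w a ≤ t}.Finite := by
  refine (finite_wd_lt w hw (t + 1)).subset ?_
  intro a ha
  simp only [Set.mem_ofPred_eq, vw] at ha ⊢
  have := le_max_right 1 (wd w a)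
  omega

/-- the integer matrix -/
private noncomputable def imat {σ I : Type} [Fintype σ] [Fintype I] (v : I → ℕ) (b : ℕ)
    (L : Type) [Field L] [NumberField L] (z : σ → 𝓞 L) (e : I → σ → 𝓞 L)
    (m : JS v b → ((σ →₀ ℕ) →₀ ℕ)) : Matrix (JS v b) (JS v b) ℤ :=
  Matrix.of fun α β : JS v b => coeff (β : I →₀ ℕ) (ex (tra ℤ (𝓞 L)) z e (monomial (m α) 1))

private lemma imat_map {σ I : Type} [Fintype σ] [Fintype I] (v : I → ℕ) (b : ℕ)
    (L : Type) [Field L] [NumberField L] (z : σ → 𝓞 L) (e : I → σ → 𝓞 L)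
    (m : JS v b → ((σ →₀ ℕ) →₀ ℕ)) {k A : Type} [CommRing k] [CommRing A]
    (τ : A →+ k) (Ψ : 𝓞 L →+* A)
    (h : ∀ u, τ (Ψ u) = ((Algebra.trace ℤ (𝓞 L) u : ℤ) : k)) :
    Matrix.det (Matrix.of fun α β : JS v b => coeff (β : I →₀ ℕ)
      (ex τ (fun j => Ψ (z j)) (fun i j => Ψ (e i j)) (monomial (m α) 1))) =
      ((imat v b L z e m).det : k) := by
  have h1 : ((imat v b L z e m).det : k) = (Int.castRingHom k) (imat v b L z e m).det := rfl
  rw [h1, RingHom.map_det]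
  congr 1
  ext α β
  simp only [Matrix.of_apply, imat, RingHom.mapMatrix_apply, Matrix.map_apply]
  rw [← coeff_ex_map (tra ℤ (𝓞 L)) τ (Int.castRingHom k) Ψ (fun u => ?_) z e]
  · simp
  · rw [h u]; rfl

private lemma unit_natAbs {k : Type} [CommRing k] (N : ℤ) (h : IsUnit ((N.natAbs : ℕ) : k)) :
    IsUnit ((N : ℤ) : k) := by
  rcases Int.natAbs_eq N with h1 | h1
  · rw [h1]; simpa using h
  · rw [h1]; simpa using h

theorem good_mod {σ I : Type} [Fintype σ] [Fintype I] (w : σ → ℕ) (hw : ∀ j, 1 ≤ w j) (v : I → ℕ)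
    (hv : ∀ i, 1 ≤ v i) (n c₀ B c₁ : ℕ) (C₁ : ℝ) (hC₁ : 1 ≤ C₁) :
    ∃ C : ℝ, ∃ c : ℕ, 1 ≤ C ∧ ∀ Y : ℝ, 1 ≤ Y → ∀ (L : Type) [Field L] [NumberField L]
      (z : σ → 𝓞 L) (e : I → σ → 𝓞 L), finrank ℚ L = n →
      (∀ j, house ((z j : 𝓞 L) : L) ≤ C₁ * Y ^ c₁) →
      (∀ i j, house ((e i j : 𝓞 L) : L) ≤ C₁ * Y ^ c₁) →
      (∀ b, 1 ≤ b → b ≤ B → MGood (tra ℚ L) w v (b - 1 + c₀) b (fun j => ((z j : 𝓞 L) : L))
        (fun i j => ((e i j : 𝓞 L) : L))) →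
      ∃ D₁ : ℕ, D₁ ≠ 0 ∧ (D₁ : ℝ) ≤ C * Y ^ c ∧ ∀ (k A : Type) [CommRing k] [CommRing A]
        (τ : A →+ k) (Ψ : 𝓞 L →+* A),
        (∀ u, τ (Ψ u) = ((Algebra.trace ℤ (𝓞 L) u : ℤ) : k)) → IsUnit (D₁ : k) →
        ∀ b, 1 ≤ b → b ≤ B → MGood τ w v (b - 1 + c₀) b (fun j => Ψ (z j))
          (fun i j => Ψ (e i j)) := by
  have hMf : {m : (σ →₀ ℕ) →₀ ℕ | mw (vw w) m ≤ B - 1 + c₀}.Finite :=
    finite_mw_le (vw w) (fun a => le_max_left _ _) (vw_fin w hw) _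
  set M := hMf.toFinset with hM
  choose Cf cf hCf1 hCf using fun (q : ((σ →₀ ℕ) →₀ ℕ) × (I →₀ ℕ)) =>
    coeff_bound (σ := σ) (I := I) n q.1 q.2
  set T := M ×ˢ (JS v B) with hT
  set C₂ : ℝ := 1 + ∑ q ∈ T, Cf q with hC₂
  set c₂ : ℕ := ∑ q ∈ T, cf q with hc₂
  have hCfnn : ∀ q, 0 ≤ Cf q := fun q => le_trans zero_le_one (hCf1 q)
  have hC₂1 : 1 ≤ C₂ := by
    rw [hC₂]
    linarith [Finset.sum_nonneg (fun q (_ : q ∈ T) => hCfnn q)]
  set N : ℕ → ℕ := fun b => Fintype.card (JS v b) with hN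
  set Cb : ℕ → ℝ := fun b => ((N b).factorial : ℝ) * (C₂ * C₁ ^ c₂) ^ (N b) with hCb
  have hCb1 : ∀ b, 1 ≤ Cb b := by
    intro b
    have h1 : (1 : ℝ) ≤ ((N b).factorial : ℝ) := by
      exact_mod_cast Nat.one_le_iff_ne_zero.2 (Nat.factorial_ne_zero _)
    have h2 : (1 : ℝ) ≤ C₂ * C₁ ^ c₂ := one_le_mul_of_one_le_of_one_le hC₂1 (one_le_pow₀ hC₁)
    exact one_le_mul_of_one_le_of_one_le h1 (one_le_pow₀ h2)
  refine ⟨∏ b ∈ Finset.Icc 1 B, Cb b, ∑ b ∈ Finset.Icc 1 B, c₁ * c₂ * N b, ?_, ?_⟩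
  · exact Finset.prod_induction _ (fun x : ℝ => 1 ≤ x)
      (fun a b ha hb => one_le_mul_of_one_le_of_one_le ha hb) le_rfl (fun b _ => hCb1 b)
  intro Y hY L _ _ z e hL hz he hg
  set H : ℝ := C₁ * Y ^ c₁ with hH
  have hH1 : 1 ≤ H := one_le_mul_of_one_le_of_one_le hC₁ (one_le_pow₀ hY)
  -- the monomials
  have hg' : ∀ b, ∃ m : JS v b → ((σ →₀ ℕ) →₀ ℕ), (1 ≤ b → b ≤ B →
      (∀ α, mw (vw w) (m α) ≤ b - 1 + c₀) ∧ IsUnit (Matrix.det (Matrix.of fun α β : JS v b =>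
      coeff (β : I →₀ ℕ) (ex (tra ℚ L) (fun j => ((z j : 𝓞 L) : L))
        (fun i j => ((e i j : 𝓞 L) : L)) (monomial (m α) 1))))) := by
    intro b
    by_cases h1 : 1 ≤ b ∧ b ≤ B
    · obtain ⟨m, hm1, hm2⟩ := hg b h1.1 h1.2
      exact ⟨m, fun _ _ => ⟨hm1, hm2⟩⟩
    · exact ⟨fun _ => 0, fun h2 h3 => absurd ⟨h2, h3⟩ h1⟩
  choose m hm using hg'
  set Nb : ℕ → ℤ := fun b => (imat v b L z e (m b)).det with hNb
  have hNb0 : ∀ b ∈ Finset.Icc 1 B, Nb b ≠ 0 := by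
    intro b hb h0
    rw [Finset.mem_Icc] at hb
    have h1 := (hm b hb.1 hb.2).2
    have h2 := imat_map v b L z e (m b) (tra ℚ L) (algebraMap (𝓞 L) L)
      (fun u => by
        simp only [tra, LinearMap.toAddMonoidHom_coe]
        exact (Algebra.coe_trace_int (K := L) u).symm)
    have h3 : Matrix.det (Matrix.of fun α β : JS v b => coeff (β : I →₀ ℕ)
        (ex (tra ℚ L) (fun j => ((z j : 𝓞 L) : L))
        (fun i j => ((e i j : 𝓞 L) : L)) (monomial (m b α) 1))) = ((Nb b : ℤ) : ℚ) := h2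
    rw [h3, h0] at h1
    simp at h1
  have hbd : ∀ b ∈ Finset.Icc 1 B, (((Nb b).natAbs : ℕ) : ℝ) ≤ Cb b * Y ^ (c₁ * c₂ * N b) := by
    intro b hb
    rw [Finset.mem_Icc] at hb
    have hentry : ∀ α β : JS v b, |(((imat v b L z e (m b)) α β : ℤ) : ℝ)| ≤ C₂ * H ^ c₂ := by
      intro α β
      have hq : ((m b α, (β : I →₀ ℕ)) : ((σ →₀ ℕ) →₀ ℕ) × (I →₀ ℕ)) ∈ T := by
        rw [hT, Finset.mem_product]
        refine ⟨?_, ?_⟩
        · rw [hM, Set.Finite.mem_toFinset]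
          have := (hm b hb.1 hb.2).1 α
          show mw (vw w) (m b α) ≤ B - 1 + c₀
          omega
        · have h1 := (mem_JS v hv b _).1 β.2
          rw [mem_JS v hv]
          show wd v (β : I →₀ ℕ) < B
          omega
      have h1 := hCf (m b α, (β : I →₀ ℕ)) L z e hL H hH1 hz he
      refine h1.trans ?_
      have h2 : Cf (m b α, (β : I →₀ ℕ)) ≤ C₂ := by
        rw [hC₂]
        have := Finset.single_le_sum (f := Cf) (fun q (_ : q ∈ T) => hCfnn q) hq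
        linarith
      have h3 : cf (m b α, (β : I →₀ ℕ)) ≤ c₂ :=
        Finset.single_le_sum (f := cf) (fun q (_ : q ∈ T) => Nat.zero_le _) hq
      exact mul_le_mul h2 (pow_le_pow_right₀ hH1 h3) (by positivity) (by linarith)
    have hdet : |((Nb b : ℤ) : ℝ)| ≤ ((N b).factorial : ℝ) * (C₂ * H ^ c₂) ^ (N b) := by
      have e1 : ((Nb b : ℤ) : ℝ) = ((imat v b L z e (m b)).map (Int.cast : ℤ → ℝ)).det := by
        have := RingHom.map_det (Int.castRingHom ℝ) (imat v b L z e (m b))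
        simpa [hNb] using this
      rw [e1]
      have := Matrix.det_le (A := (imat v b L z e (m b)).map (Int.cast : ℤ → ℝ))
        (abv := AbsoluteValue.abs) (x := C₂ * H ^ c₂) (fun i j => by
          simpa using hentry i j)
      simpa [hN, nsmul_eq_mul] using this
    have e2 : (((Nb b).natAbs : ℕ) : ℝ) = |((Nb b : ℤ) : ℝ)| := by
      rw [Nat.cast_natAbs]; simp
    rw [e2]
    refine hdet.trans (le_of_eq ?_)
    rw [hCb, hH]
    simp only
    rw [mul_assoc]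
    congr 1
    rw [mul_pow C₁, ← mul_assoc, mul_pow (C₂ * C₁ ^ c₂), ← pow_mul, ← pow_mul]
    try rw [mul_assoc]
  refine ⟨∏ b ∈ Finset.Icc 1 B, (Nb b).natAbs, ?_, ?_, ?_⟩
  · rw [Finset.prod_ne_zero_iff]
    intro b hb
    exact Int.natAbs_ne_zero.2 (hNb0 b hb)
  · push_cast
    rw [← Finset.prod_pow_eq_pow_sum, ← Finset.prod_mul_distrib]
    refine Finset.prod_le_prod (fun b _ => by positivity) fun b hb => ?_
    have := hbd b hb
    simpa using this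
  · intro k A _ _ τ Ψ hτ hunit b hb1 hb2
    refine ⟨m b, (hm b hb1 hb2).1, ?_⟩
    have h1 := imat_map v b L z e (m b) τ Ψ hτ
    have h2 : IsUnit (((Nb b).natAbs : ℕ) : k) := by
      rw [Nat.cast_prod] at hunit
      exact isUnit_of_dvd_unit
        (Finset.dvd_prod_of_mem (fun b => (((Nb b).natAbs : ℕ) : k)) (Finset.mem_Icc.2 ⟨hb1, hb2⟩))
        hunit
    have h3 := unit_natAbs _ h2
    have h4 : ((Nb b : ℤ) : k) = (((imat v b L z e (m b)).det : ℤ) : k) := rfl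
    rw [h4] at h3
    rw [← h1] at h3
    exact h3

end Pool.Agent.SNO
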