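import Mathlib
import Pool.Agent.SNO.Defs
import Pool.Agent.SNO.Basic

set_option autoImplicit false

/-!
# Module MDL

A ring homomorphism from `𝓞 L` to `(ℤ/p^B)[T]/(g)` compatible with traces.
Proof. `P = minpoly ℤ θ`, monic of degree `n`, `g = P mod p^B`. `D₁ = |discr|` of the power basis of
`θ`: by `Algebra.discr_powerBasis_eq_prod''`/`discr_powerBasis_eq_norm` it is
`± N(P'(θ)) = ∏_{i<j} (θ_i - θ_j)^2` (up to sign), a nonzero integer, `≤ (2H)^(n^2)`.
(1) `D₁ · 𝓞 L ⊆ ℤ[θ]`: `Algebra.discr_mul_isIntegral_mem_adjoin`.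
(2) `ḡ = P mod p` is separable if `p ∤ D₁`: `N(P'(θ))` is a multiple of `P'(θ)` in `ℤ[θ]` (the norm of
`y` is a multiple of `y` in `ℤ[y]`; or: resultant/discriminant of `P` mod p; or: if `ḡ` had a
multiple root, then ... ), so `P' w ≡ D₁ mod P` for a polynomial `w`, and `D₁` is a unit mod `p`.
(3) `ℤ[θ] ≅ AdjoinRoot P → AdjoinRoot g` (`AdjoinRoot.map`); call it `r`. Put
`Ψ u = D₁⁻¹ · r(D₁ u)` where `D₁⁻¹ ∈ ℤ/p^B` (unit because `p ∤ D₁`). It is a ring homomorphism:
`r(D₁ u) r(D₁ u') = r(D₁^2 u u') = D₁ r(D₁ u u')`, `Ψ 1 = 1`, additive.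
(4) trace: both sides are additive and multiply by `D₁` under `u ↦ D₁ u`, `D₁` is a unit, so it is
enough for `u ∈ ℤ[θ]`: the trace of `Q(θ)` over ℤ is the trace of the matrix of multiplication in the
power basis of `AdjoinRoot P` over ℤ, its entries map to those of the power basis of `AdjoinRoot g`
(`AdjoinRoot.powerBasis'`, `Algebra.trace_eq_matrix_trace`; by linearity it is enough for
`u = θ^i`). Relation with `Algebra.trace ℤ (𝓞 L)`: compare both with `Algebra.trace ℚ L`
(`Algebra.coe_trace_int`; `AdjoinRoot P ⊗ ℚ = L`, `Algebra.trace_localization` or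
`trace_eq_matrix_trace` for the power basis of `L` over ℚ given by `θ`, whose multiplication matrices
have the same integer entries). Useful: `minpoly ℤ θ` maps to `minpoly ℚ θ`
(`minpoly.isIntegrallyClosed_eq_field_fractions'`), degree `n` because `ℚ(θ) = L`.
-/

namespace Pool.Agent.SNO

open NumberField Module MvPolynomial

private lemma mdl_repr {R R' S S' ι : Type} [CommRing R] [CommRing R'] [CommRing S] [CommRing S']
    [Algebra R S] [Algebra R' S'] [Fintype ι] (φ : R →+* R') (f : S →+* S')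
    (hf : ∀ r : R, f (algebraMap R S r) = algebraMap R' S' (φ r))
    (b : Basis ι R S) (b' : Basis ι R' S') (hb : ∀ i, f (b i) = b' i) (s : S) (i : ι) :
    b'.repr (f s) i = φ (b.repr s i) := by
  classical
  have h1 : f s = ∑ j, φ (b.repr s j) • b' j := by
    conv_lhs => rw [← b.sum_repr s]
    rw [map_sum]
    refine Finset.sum_congr rfl fun j _ => ?_
    rw [Algebra.smul_def, map_mul, hf, hb, Algebra.smul_def]
  rw [h1, map_sum]
  simp [Finsupp.single_apply]

private lemma mdl_matrix {R R' S S' ι : Type} [CommRing R] [CommRing R'] [CommRing S] [CommRing S']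
    [Algebra R S] [Algebra R' S'] [Fintype ι] [DecidableEq ι] (φ : R →+* R') (f : S →+* S')
    (hf : ∀ r : R, f (algebraMap R S r) = algebraMap R' S' (φ r))
    (b : Basis ι R S) (b' : Basis ι R' S') (hb : ∀ i, f (b i) = b' i) (s : S) :
    Algebra.leftMulMatrix b' (f s) = (Algebra.leftMulMatrix b s).map φ := by
  ext i j
  rw [Matrix.map_apply, Algebra.leftMulMatrix_eq_repr_mul, Algebra.leftMulMatrix_eq_repr_mul,
    ← hb, ← map_mul, mdl_repr φ f hf b b' hb]

private lemma mdl_trace {R R' S S' ι : Type} [CommRing R] [CommRing R'] [CommRing S] [CommRing S']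
    [Algebra R S] [Algebra R' S'] [Fintype ι] (φ : R →+* R') (f : S →+* S')
    (hf : ∀ r : R, f (algebraMap R S r) = algebraMap R' S' (φ r))
    (b : Basis ι R S) (b' : Basis ι R' S') (hb : ∀ i, f (b i) = b' i) (s : S) :
    Algebra.trace R' S' (f s) = φ (Algebra.trace R S s) := by
  classical
  rw [Algebra.trace_eq_matrix_trace b', Algebra.trace_eq_matrix_trace b,
    mdl_matrix φ f hf b b' hb, Matrix.trace, Matrix.trace, map_sum]
  rfl

private lemma mdl_norm {R R' S S' ι : Type} [CommRing R] [CommRing R'] [CommRing S] [CommRing S']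
    [Algebra R S] [Algebra R' S'] [Fintype ι] (φ : R →+* R') (f : S →+* S')
    (hf : ∀ r : R, f (algebraMap R S r) = algebraMap R' S' (φ r))
    (b : Basis ι R S) (b' : Basis ι R' S') (hb : ∀ i, f (b i) = b' i) (s : S) :
    Algebra.norm R' (f s) = φ (Algebra.norm R s) := by
  classical
  rw [Algebra.norm_eq_matrix_det b', Algebra.norm_eq_matrix_det b,
    mdl_matrix φ f hf b b' hb, RingHom.map_det]
  rfl

private lemma mdl_basis {R : Type} [CommRing R] (P : Polynomial R) (hP : P.Monic) :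
    ∃ b : Basis (Fin P.natDegree) R (AdjoinRoot P), ∀ i, b i = AdjoinRoot.root P ^ (i : ℕ) :=
  ⟨(AdjoinRoot.powerBasis' hP).basis, fun i => (AdjoinRoot.powerBasis' hP).basis_eq_pow i⟩

/-- the bases of `AdjoinRoot P` and `AdjoinRoot (P mod something)` -/
private lemma mdl_bases {R R' : Type} [CommRing R] [CommRing R'] [Nontrivial R'] (φ : R →+* R')
    (P : Polynomial R) (hP : P.Monic) :
    ∃ (b : Basis (Fin P.natDegree) R (AdjoinRoot P))
      (b' : Basis (Fin P.natDegree) R' (AdjoinRoot (P.map φ))),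
      (∀ i, b i = AdjoinRoot.root P ^ (i : ℕ)) ∧
      ∀ i, AdjoinRoot.map φ P (P.map φ) dvd_rfl (b i) = b' i := by
  have hg : (P.map φ).Monic := hP.map φ
  have hdeg : (P.map φ).natDegree = P.natDegree := hP.natDegree_map φ
  obtain ⟨b, hb⟩ := mdl_basis P hP
  obtain ⟨b', hb'⟩ := mdl_basis (P.map φ) hg
  refine ⟨b, b'.reindex (finCongr hdeg), hb, ?_⟩
  intro i
  rw [Basis.reindex_apply, hb, hb', map_pow]
  simp

private lemma mdl_map_mk {R R' : Type} [CommRing R] [CommRing R'] (φ : R →+* R')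
    (P : Polynomial R) (q : Polynomial R) :
    AdjoinRoot.map φ P (P.map φ) dvd_rfl (AdjoinRoot.mk P q) =
      AdjoinRoot.mk (P.map φ) (q.map φ) := by
  rw [AdjoinRoot.map, AdjoinRoot.lift_mk, ← Polynomial.eval₂_map, ← AdjoinRoot.aeval_eq,
    Polynomial.aeval_def, AdjoinRoot.algebraMap_eq]

private lemma mdl_map_alg {R R' : Type} [CommRing R] [CommRing R'] (φ : R →+* R')
    (P : Polynomial R) (r : R) :
    AdjoinRoot.map φ P (P.map φ) dvd_rfl (algebraMap R (AdjoinRoot P) r) =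
      algebraMap R' (AdjoinRoot (P.map φ)) (φ r) := by
  simp [AdjoinRoot.algebraMap_eq]

private lemma mdl_trace_map {R R' : Type} [CommRing R] [CommRing R'] [Nontrivial R'] (φ : R →+* R')
    (P : Polynomial R) (hP : P.Monic) (s : AdjoinRoot P) :
    Algebra.trace R' (AdjoinRoot (P.map φ)) (AdjoinRoot.map φ P (P.map φ) dvd_rfl s) =
      φ (Algebra.trace R (AdjoinRoot P) s) := by
  obtain ⟨b, b', -, hb⟩ := mdl_bases φ P hP
  exact mdl_trace φ _ (mdl_map_alg φ P) b b' hb s

private lemma mdl_norm_map {R R' : Type} [CommRing R] [CommRing R'] [Nontrivial R'] (φ : R →+* R')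
    (P : Polynomial R) (hP : P.Monic) (s : AdjoinRoot P) :
    Algebra.norm R' (AdjoinRoot.map φ P (P.map φ) dvd_rfl s) =
      φ (Algebra.norm R s) := by
  obtain ⟨b, b', -, hb⟩ := mdl_bases φ P hP
  exact mdl_norm φ _ (mdl_map_alg φ P) b b' hb s

/-- an element of nonzero norm is a unit -/
private lemma mdl_unit {K S : Type} [Field K] [CommRing S] [Algebra K S] [Module.Finite K S]
    (y : S) (hy : Algebra.norm K y ≠ 0) : ∃ w, y * w = 1 := by
  classical
  have h1 : LinearMap.det (Algebra.lmul K S y) ≠ 0 := by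
    rwa [Algebra.norm_apply] at hy
  have h2 : Function.Surjective (Algebra.lmul K S y) := by
    have := (LinearMap.equivOfDetNeZero _ h1).surjective
    exact this
  obtain ⟨w, hw⟩ := h2 1
  exact ⟨w, by simpa using hw⟩

/-- separability modulo `p` -/
private lemma mdl_sep (p : ℕ) (hp : p.Prime) (P : Polynomial ℤ) (hP : P.Monic)
    (h : ¬ (p : ℤ) ∣ Algebra.norm ℤ (AdjoinRoot.mk P (Polynomial.derivative P))) :
    (P.map (Int.castRingHom (ZMod p))).Separable := by
  have : Fact p.Prime := ⟨hp⟩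
  set φ := Int.castRingHom (ZMod p) with hφ
  set Q := P.map φ with hQ
  have hQm : Q.Monic := hP.map φ
  have h1 := mdl_norm_map φ P hP (AdjoinRoot.mk P (Polynomial.derivative P))
  have h2 : AdjoinRoot.map φ P (P.map φ) dvd_rfl (AdjoinRoot.mk P (Polynomial.derivative P)) =
      AdjoinRoot.mk Q (Polynomial.derivative Q) := by
    have h3 := mdl_map_mk φ P (Polynomial.derivative P)
    rw [← Polynomial.derivative_map] at h3
    exact h3
  rw [h2] at h1
  have : Module.Finite (ZMod p) (AdjoinRoot Q) := hQm.finite_adjoinRoot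
  obtain ⟨w, hw⟩ := mdl_unit (K := ZMod p) (AdjoinRoot.mk Q (Polynomial.derivative Q)) (by
    rw [h1]
    intro h0
    apply h
    rw [hφ, eq_intCast, ZMod.intCast_zmod_eq_zero_iff_dvd] at h0
    exact h0)
  obtain ⟨W, rfl⟩ := AdjoinRoot.mk_surjective w
  rw [← map_mul, ← map_one (AdjoinRoot.mk Q), AdjoinRoot.mk_eq_mk] at hw
  obtain ⟨V, hV⟩ := hw
  refine ⟨-V, W, ?_⟩
  linear_combination hV

/-- the power basis of `L` given by `θ` and the comparison with `AdjoinRoot P` -/
private lemma mdl_core (L : Type) [Field L] [NumberField L] (θ : L) (hint : IsIntegral ℤ θ)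
    (hadj : IntermediateField.adjoin ℚ {θ} = ⊤) :
    ∃ (P : Polynomial ℤ) (pb : PowerBasis ℚ L) (f : AdjoinRoot P →+* L), P.Monic ∧
      minpoly ℚ θ = P.map (algebraMap ℤ ℚ) ∧ pb.gen = θ ∧
      pb.dim = P.natDegree ∧ Function.Injective f ∧
      (∀ q, f (AdjoinRoot.mk P q) = Polynomial.aeval θ q) ∧
      (∀ v, Algebra.trace ℚ L (f v) = (Algebra.trace ℤ (AdjoinRoot P) v : ℚ)) ∧
      (∀ v, Algebra.norm ℚ (f v) = (Algebra.norm ℤ v : ℚ)) := by
  have hintQ : IsIntegral ℚ θ := hint.tower_top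
  have hadj' : Algebra.adjoin ℚ {θ} = ⊤ := by
    rw [← IntermediateField.adjoin_simple_toSubalgebra_of_isAlgebraic hintQ.isAlgebraic, hadj]
    rfl
  have hmin : minpoly ℚ θ = (minpoly ℤ θ).map (algebraMap ℤ ℚ) :=
    minpoly.isIntegrallyClosed_eq_field_fractions' ℚ hint
  set P := minpoly ℤ θ with hP
  have hPm : P.Monic := minpoly.monic hint
  have hdeg : (minpoly ℚ θ).natDegree = P.natDegree := by
    rw [hmin, hPm.natDegree_map]
  set pb := PowerBasis.ofAdjoinEqTop hintQ hadj' with hpb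
  have hgen : pb.gen = θ := PowerBasis.ofAdjoinEqTop_gen hintQ hadj'
  have hdim : pb.dim = P.natDegree := by
    rw [hpb, PowerBasis.ofAdjoinEqTop_dim, hdeg]
  have hroot : P.eval₂ (algebraMap ℤ L) θ = 0 := minpoly.aeval ℤ θ
  set f : AdjoinRoot P →+* L := AdjoinRoot.lift (algebraMap ℤ L) θ hroot with hf
  have hfmk : ∀ q, f (AdjoinRoot.mk P q) = Polynomial.aeval θ q := by
    intro q
    rw [hf, AdjoinRoot.lift_mk, Polynomial.aeval_def]
  have hinj : Function.Injective f := by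
    rw [injective_iff_map_eq_zero]
    intro v hv
    obtain ⟨q, rfl⟩ := AdjoinRoot.mk_surjective v
    rw [hfmk] at hv
    rw [AdjoinRoot.mk_eq_zero]
    exact minpoly.isIntegrallyClosed_dvd hint hv
  obtain ⟨b, hb⟩ := mdl_basis P hPm
  have halg : ∀ r : ℤ, f (algebraMap ℤ (AdjoinRoot P) r) = algebraMap ℚ L ((Int.castRingHom ℚ) r) := by
    intro r
    simp
  have hbb : ∀ i, f (b i) = (pb.basis.reindex (finCongr hdim)) i := by
    intro i
    rw [Basis.reindex_apply, hb, pb.basis_eq_pow, map_pow, hf, AdjoinRoot.lift_root, hgen]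
    simp
  refine ⟨P, pb, f, hPm, hmin, hgen, hdim, hinj, hfmk, ?_, ?_⟩
  · intro v
    rw [mdl_trace (Int.castRingHom ℚ) f halg b _ hbb v]
    rfl
  · intro v
    rw [mdl_norm (Int.castRingHom ℚ) f halg b _ hbb v]
    rfl

/-- the bound for the discriminant -/
private lemma mdl_bound (L : Type) [Field L] [NumberField L] (pb : PowerBasis ℚ L) (H : ℝ)
    (hH : 1 ≤ H) (hh : house pb.gen ≤ H) :
    |((Algebra.discr ℚ pb.basis : ℚ) : ℝ)| ≤
      2 ^ (2 * (pb.dim * pb.dim)) * H ^ (2 * (pb.dim * pb.dim)) := by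
  classical
  have e : Fin pb.dim ≃ (L →ₐ[ℚ] ℂ) := by
    refine Fintype.equivOfCardEq ?_
    rw [Fintype.card_fin, AlgHom.card]
    exact (PowerBasis.finrank pb).symm
  have h1 := Algebra.discr_powerBasis_eq_prod ℚ ℂ pb e
  have h2 : ‖algebraMap ℚ ℂ (Algebra.discr ℚ pb.basis)‖ =
      |((Algebra.discr ℚ pb.basis : ℚ) : ℝ)| := by
    rw [eq_ratCast, ← Complex.ofReal_ratCast, Complex.norm_real, Real.norm_eq_abs]
  rw [← h2, h1, norm_prod, ← mul_pow, pow_mul, pow_mul]
  have hone : (1 : ℝ) ≤ (2 * H) ^ 2 := by nlinarith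
  have hfac : ∀ i j : Fin pb.dim, ‖(e j pb.gen - e i pb.gen) ^ 2‖ ≤ (2 * H) ^ 2 := by
    intro i j
    rw [norm_pow]
    refine pow_le_pow_left₀ (norm_nonneg _) ?_ 2
    refine (norm_sub_le _ _).trans ?_
    have h3 := norm_embedding_le_house pb.gen (e j : L →+* ℂ)
    have h4 := norm_embedding_le_house pb.gen (e i : L →+* ℂ)
    have h5 : ‖e j pb.gen‖ ≤ H := h3.trans hh
    have h6 : ‖e i pb.gen‖ ≤ H := h4.trans hh
    linarith
  have hin : ∀ i : Fin pb.dim, ‖∏ j ∈ Finset.Ioi i, (e j pb.gen - e i pb.gen) ^ 2‖ ≤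
      ((2 * H) ^ 2) ^ pb.dim := by
    intro i
    rw [norm_prod]
    calc ∏ j ∈ Finset.Ioi i, ‖(e j pb.gen - e i pb.gen) ^ 2‖
        ≤ ∏ j ∈ Finset.Ioi i, (2 * H) ^ 2 :=
          Finset.prod_le_prod (fun _ _ => norm_nonneg _) fun j _ => hfac i j
      _ = ((2 * H) ^ 2) ^ (Finset.Ioi i).card := by rw [Finset.prod_const]
      _ ≤ ((2 * H) ^ 2) ^ pb.dim := by
          refine pow_le_pow_right₀ hone ?_
          calc (Finset.Ioi i).card ≤ Fintype.card (Fin pb.dim) := Finset.card_le_univ _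
            _ = pb.dim := Fintype.card_fin _
  calc ∏ i, ‖∏ j ∈ Finset.Ioi i, (e j pb.gen - e i pb.gen) ^ 2‖
      ≤ ∏ i : Fin pb.dim, ((2 * H) ^ 2) ^ pb.dim :=
        Finset.prod_le_prod (fun _ _ => norm_nonneg _) fun i _ => hin i
    _ = (((2 * H) ^ 2) ^ pb.dim) ^ pb.dim := by rw [Finset.prod_const, Finset.card_fin]

private lemma mdl_glue {O L S T : Type} [CommRing O] [Field L] [Algebra O L] [CommRing S]
    [CommRing T] (f : S →+* L) (hf : Function.Injective f) (r : S →+* T) (D : ℤ)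
    (hD : IsUnit ((D : ℤ) : T)) (h : ∀ u : O, ∃ v : S, f v = (D : L) * algebraMap O L u) :
    ∃ Ψ : O →+* T, ∀ u v, f v = (D : L) * algebraMap O L u → ((D : ℤ) : T) * Ψ u = r v := by
  choose V hV using h
  obtain ⟨d, hd⟩ := hD.exists_left_inv
  have key : ∀ u v, f v = (D : L) * algebraMap O L u → V u = v := by
    intro u v huv
    exact hf ((hV u).trans huv.symm)
  have h0 : V 0 = 0 := key 0 0 (by simp)
  have h1 : V 1 = (D : S) := key 1 D (by simp)
  have hadd : ∀ u u', V (u + u') = V u + V u' := by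
    intro u u'
    refine key _ _ ?_
    rw [map_add, hV, hV, map_add]
    ring
  have hmul : ∀ u u', V (u * u') * (D : S) = V u * V u' := by
    intro u u'
    apply hf
    rw [map_mul, map_mul, hV, hV, hV, map_mul, map_intCast]
    ring
  refine ⟨{ toFun := fun u => d * r (V u), map_one' := ?_, map_mul' := ?_, map_zero' := ?_,
            map_add' := ?_ }, ?_⟩
  · change d * r (V 1) = 1
    rw [h1, map_intCast, hd]
  · intro u u'
    change d * r (V (u * u')) = d * r (V u) * (d * r (V u'))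
    have h2 := congrArg r (hmul u u')
    rw [map_mul, map_mul, map_intCast] at h2
    calc d * r (V (u * u')) = d * (r (V (u * u')) * 1) := by ring
      _ = d * (r (V (u * u')) * (d * (D : T))) := by rw [hd]
      _ = d * d * (r (V (u * u')) * (D : T)) := by ring
      _ = d * r (V u) * (d * r (V u')) := by rw [h2]; ring
  · change d * r (V 0) = 0
    rw [h0, map_zero, mul_zero]
  · intro u u'
    change d * r (V (u + u')) = d * r (V u) + d * r (V u')
    rw [hadd, map_add, mul_add]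
  · intro u v huv
    change (D : T) * (d * r (V u)) = r v
    rw [key u v huv, ← mul_assoc, mul_comm (D : T) d, hd, one_mul]

theorem model_hom (n : ℕ) : ∃ C : ℝ, ∃ c : ℕ, 1 ≤ C ∧ ∀ (L : Type) [Field L] [NumberField L]
    (θ : 𝓞 L), finrank ℚ L = n → IntermediateField.adjoin ℚ {((θ : 𝓞 L) : L)} = ⊤ →
    ∀ H : ℝ, 1 ≤ H → house ((θ : 𝓞 L) : L) ≤ H →
    ∃ D₁ : ℕ, D₁ ≠ 0 ∧ (D₁ : ℝ) ≤ C * H ^ c ∧ ∀ p B : ℕ, p.Prime → ∀ hB : B ≠ 0, ¬ p ∣ D₁ →
      ∃ g : Polynomial (ZMod (p ^ B)), g.Monic ∧ g.natDegree = n ∧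
        (g.map (ZMod.castHom (dvd_pow_self p hB) (ZMod p))).Separable ∧
        ∃ Ψ : 𝓞 L →+* AdjoinRoot g, ∀ u, tra (ZMod (p ^ B)) (AdjoinRoot g) (Ψ u) =
          ((Algebra.trace ℤ (𝓞 L) u : ℤ) : ZMod (p ^ B)) := by
  refine ⟨2 ^ (2 * (n * n)), 2 * (n * n), one_le_pow₀ (by norm_num), ?_⟩
  intro L _ _ θ hn hadj H hH hh
  have hint : IsIntegral ℤ ((θ : 𝓞 L) : L) := θ.isIntegral_coe
  obtain ⟨P, pb, f, hPm, hmin, hgen, hdim, hinj, hfmk, htr, hno⟩ := mdl_core L θ hint hadj
  have hpn : pb.dim = n := by rw [← hn]; exact (PowerBasis.finrank pb).symm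
  have hPn : P.natDegree = n := by rw [← hdim, hpn]
  set D : ℤ := Algebra.norm ℤ (AdjoinRoot.mk P (Polynomial.derivative P)) with hD
  have hDQ : (D : ℚ) = Algebra.norm ℚ (Polynomial.aeval pb.gen
      (Polynomial.derivative (minpoly ℚ pb.gen))) := by
    rw [hgen, hmin, Polynomial.derivative_map, Polynomial.aeval_map_algebraMap, ← hfmk, hno]
  have hdisc := Algebra.discr_powerBasis_eq_norm ℚ pb
  rw [← hDQ] at hdisc
  obtain ⟨ε, hε, hε1⟩ : ∃ ε : ℤ, (Algebra.discr ℚ pb.basis : ℚ) = ε * D ∧ (ε = 1 ∨ ε = -1) := by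
    refine ⟨(-1) ^ (finrank ℚ L * (finrank ℚ L - 1) / 2), ?_, neg_one_pow_eq_or ℤ _⟩
    rw [hdisc]
    push_cast
    rfl
  have hεε : ε * ε = 1 := by rcases hε1 with h | h <;> rw [h] <;> norm_num
  have hDne : D ≠ 0 := by
    intro h0
    apply Algebra.discr_not_zero_of_basis ℚ pb.basis
    rw [hε, h0]
    simp
  refine ⟨D.natAbs, Int.natAbs_ne_zero.2 hDne, ?_, ?_⟩
  · have h1 := mdl_bound L pb H hH (by rw [hgen]; exact hh)
    rw [hε, hpn] at h1
    have h2 : |(((ε : ℚ) * (D : ℚ) : ℚ) : ℝ)| = (D.natAbs : ℝ) := by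
      push_cast
      rw [abs_mul]
      have h3 : |(ε : ℝ)| = 1 := by rcases hε1 with h | h <;> rw [h] <;> norm_num
      rw [h3, one_mul, Nat.cast_natAbs, Int.cast_abs]
    rw [h2] at h1
    exact h1
  · intro p B hp hB hpD
    have hpB : p ^ B ≠ 1 := by
      intro h0
      rw [Nat.pow_eq_one] at h0
      rcases h0 with h | h
      · exact hp.one_lt.ne' h
      · exact hB h
    have hnt : Nontrivial (ZMod (p ^ B)) := ZMod.nontrivial_iff.2 hpB
    set φ := Int.castRingHom (ZMod (p ^ B)) with hφ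
    have hpD' : ¬ (p : ℤ) ∣ D := fun h => hpD (Int.natCast_dvd.1 h)
    refine ⟨P.map φ, hPm.map φ, by rw [hPm.natDegree_map, hPn], ?_, ?_⟩
    · rw [Polynomial.map_map]
      have : (ZMod.castHom (dvd_pow_self p hB) (ZMod p)).comp φ = Int.castRingHom (ZMod p) :=
        RingHom.ext_int _ _
      rw [this]
      exact mdl_sep p hp P hPm hpD'
    · have hunit : IsUnit ((D : ℤ) : ZMod (p ^ B)) := by
        rw [ZMod.coe_int_isUnit_iff_isCoprime]
        push_cast
        refine IsCoprime.pow_left ?_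
        exact (Prime.coprime_iff_not_dvd (Nat.prime_iff_prime_int.1 hp)).2 hpD'
      have hunitT : IsUnit ((D : ℤ) : AdjoinRoot (P.map φ)) := by
        have := hunit.map (algebraMap (ZMod (p ^ B)) (AdjoinRoot (P.map φ)))
        rwa [map_intCast] at this
      have hex : ∀ u : 𝓞 L, ∃ v : AdjoinRoot P, f v = (D : L) * algebraMap (𝓞 L) L u := by
        intro u
        have h1 := Algebra.discr_mul_isIntegral_mem_adjoin ℚ (R := ℤ) (B := pb)
          (by rw [hgen]; exact hint) (z := algebraMap (𝓞 L) L u) u.isIntegral_coe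
        rw [hgen, hε] at h1
        have h2 : (D : L) * algebraMap (𝓞 L) L u ∈
            Algebra.adjoin ℤ ({((θ : 𝓞 L) : L)} : Set L) := by
          have h3 := Subalgebra.zsmul_mem _ h1 ε
          have h4 : ε • (((ε : ℚ) * (D : ℚ)) • algebraMap (𝓞 L) L u) =
              (D : L) * algebraMap (𝓞 L) L u := by
            rw [Rat.smul_def, zsmul_eq_mul]
            push_cast
            have : (ε : L) * (ε : L) = 1 := by
              rw [← Int.cast_mul, hεε, Int.cast_one]
            linear_combination ((D : L) * algebraMap (𝓞 L) L u) * this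
          rwa [h4] at h3
        rw [Algebra.adjoin_singleton_eq_range_aeval] at h2
        obtain ⟨q, hq⟩ := h2
        refine ⟨AdjoinRoot.mk P q, ?_⟩
        rw [hfmk]
        exact hq
      obtain ⟨Ψ, hΨ⟩ := mdl_glue f hinj (AdjoinRoot.map φ P (P.map φ) dvd_rfl) D hunitT hex
      refine ⟨Ψ, ?_⟩
      intro u
      obtain ⟨v, hv⟩ := hex u
      have h1 := hΨ u v hv
      have h2 := mdl_trace_map φ P hPm v
      have h3 := htr v
      rw [hv] at h3
      have h4 : Algebra.trace ℚ L ((D : L) * algebraMap (𝓞 L) L u) =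
          (D : ℚ) * (Algebra.trace ℤ (𝓞 L) u : ℤ) := by
        have h5 : (D : L) * algebraMap (𝓞 L) L u = (D : ℚ) • algebraMap (𝓞 L) L u := by
          rw [Rat.smul_def]; push_cast; rfl
        rw [h5, map_smul, smul_eq_mul, Algebra.coe_trace_int]
      rw [h4] at h3
      have h6 : Algebra.trace ℤ (AdjoinRoot P) v = D * Algebra.trace ℤ (𝓞 L) u := by
        have : ((D * Algebra.trace ℤ (𝓞 L) u : ℤ) : ℚ) =
            ((Algebra.trace ℤ (AdjoinRoot P) v : ℤ) : ℚ) := by
          rw [← h3]; push_cast; rfl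
        exact (Int.cast_injective this).symm
      rw [← h1, h6] at h2
      have h7 : ((D : ℤ) : AdjoinRoot (P.map φ)) * Ψ u = ((D : ℤ) : ZMod (p ^ B)) • Ψ u := by
        rw [Algebra.smul_def, map_intCast]
      rw [h7, map_smul, smul_eq_mul, map_mul] at h2
      exact hunit.mul_left_cancel h2

end Pool.Agent.SNO
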