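import Mathlib
import Pool.Agent.SNO.Defs
import Pool.Agent.SNO.Basic
import Pool.Agent.SNO.GMD
import Pool.Agent.SNO.MDL
import Pool.Agent.SNO.FLG

set_option autoImplicit false

/-!
# Module CRB

Every good tuple is good modulo `p` for all `p` outside a bounded number.
Proof. `D = D_flag` from `flags` with the given `B`. `D₁ = D₁(good_mod) * D₁(model_hom, θ = x j₀,
H = C₁ Y^(c₁)) * (D_flag)!`, bounded by `C Y^c`. For `p ∤ D₁`: `p > D_flag` (otherwise `p` divides the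
factorial). `model_hom` gives `g₀` and `Ψ₀ : 𝓞 L → AdjoinRoot g₀`; the hypothesis on `G` gives `g ∈ G` and
an isomorphism of `ℤ/p^B`-algebras `AdjoinRoot g₀ ≃ₐ AdjoinRoot g`; `Ψ` = the composition, compatible
with the traces (`Algebra.trace_eq_of_algEquiv`). `(D₁ : ℤ/p^B)` is a unit, so `good_mod` gives `MGood` over
`ℤ/p^B` at `(Ψ x, Ψ e)`, and `flags` (with `β`, `τ = tra`, `tra_smul`) the flag `h`.
-/

namespace Pool.Agent.SNO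

open NumberField Module MvPolynomial

theorem cover {σ I : Type} [Fintype σ] [Fintype I] (n c₀ B : ℕ) (hn : 1 ≤ n) (hB : B ≠ 0)
    (w : σ → ℕ) (hw : ∀ j, 1 ≤ w j) (v : I → ℕ) (hv : ∀ i, 1 ≤ v i) (eqv : I ≃ σ × Fin n) :
    ∃ D : ℕ, ∀ (c₁ : ℕ) (C₁ : ℝ), 1 ≤ C₁ → ∃ C : ℝ, ∃ c : ℕ, 1 ≤ C ∧ ∀ Y : ℝ, 1 ≤ Y →
      ∀ (L : Type) [Field L] [NumberField L] (x : σ → 𝓞 L) (e : I → σ → 𝓞 L) (j₀ : σ),
      finrank ℚ L = n → IntermediateField.adjoin ℚ {((x j₀ : 𝓞 L) : L)} = ⊤ →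
      (∀ j, house ((x j : 𝓞 L) : L) ≤ C₁ * Y ^ c₁) →
      (∀ i j, house ((e i j : 𝓞 L) : L) ≤ C₁ * Y ^ c₁) →
      (∀ b, 1 ≤ b → b ≤ B → MGood (tra ℚ L) w v (b - 1 + c₀) b (fun j => ((x j : 𝓞 L) : L))
        (fun i j => ((e i j : 𝓞 L) : L))) →
      ∃ D₁ : ℕ, D₁ ≠ 0 ∧ (D₁ : ℝ) ≤ C * Y ^ c ∧ ∀ p : ℕ, p.Prime → ¬ p ∣ D₁ →
        ∀ G : Set (Polynomial (ZMod (p ^ B))),
        (∀ g : Polynomial (ZMod (p ^ B)), g.Monic → g.natDegree = n →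
          (g.map (ZMod.castHom (dvd_pow_self p hB) (ZMod p))).Separable →
          ∃ g' ∈ G, Nonempty (AdjoinRoot g ≃ₐ[ZMod (p ^ B)] AdjoinRoot g')) →
        ∃ g ∈ G, ∃ Ψ : 𝓞 L →+* AdjoinRoot g,
          (∀ u, tra (ZMod (p ^ B)) (AdjoinRoot g) (Ψ u) =
            ((Algebra.trace ℤ (𝓞 L) u : ℤ) : ZMod (p ^ B))) ∧
          ∀ β : Basis (Fin n) (ZMod (p ^ B)) (AdjoinRoot g),
            ∃ h : I → σ → Fin n → ℕ, (∀ i j l, h i j l ≤ D) ∧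
              (∀ [DecidableEq I], IsUnit (Matrix.det (Matrix.of fun ι κ : I =>
                ((h ι (eqv κ).1 (eqv κ).2 : ℕ) : ZMod (p ^ B))))) ∧
              ∀ b, 1 ≤ b → b ≤ B → MGood (tra (ZMod (p ^ B)) (AdjoinRoot g)) w v (b - 1 + c₀) b
                (fun j => Ψ (x j)) (fun i j => ∑ l, (h i j l) • β l) := by
  obtain ⟨D, hD⟩ := flags w hw v n c₀ B eqv
  refine ⟨D, fun c₁ C₁ hC₁ => ?_⟩
  obtain ⟨Cg, cg, hCg1, hgm⟩ := good_mod w hw v hv n c₀ B c₁ C₁ hC₁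
  obtain ⟨Cm, cm, hCm1, hmh⟩ := model_hom n
  have hCg0 : 0 ≤ Cg := zero_le_one.trans hCg1
  have hCm0 : 0 ≤ Cm := zero_le_one.trans hCm1
  have hC₁0 : 0 ≤ C₁ := zero_le_one.trans hC₁
  have hf1 : (1 : ℝ) ≤ (D.factorial : ℝ) := by
    exact_mod_cast Nat.one_le_iff_ne_zero.2 (Nat.factorial_ne_zero _)
  refine ⟨Cg * (Cm * C₁ ^ cm) * (D.factorial : ℝ), cg + c₁ * cm, ?_, ?_⟩
  · exact one_le_mul_of_one_le_of_one_le (one_le_mul_of_one_le_of_one_le hCg1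
      (one_le_mul_of_one_le_of_one_le hCm1 (one_le_pow₀ hC₁))) hf1
  intro Y hY L _ _ x e j₀ hL hadj hx he hg
  have hY0 : 0 ≤ Y := zero_le_one.trans hY
  have hH1 : 1 ≤ C₁ * Y ^ c₁ := one_le_mul_of_one_le_of_one_le hC₁ (one_le_pow₀ hY)
  obtain ⟨Dg, hDg0, hDgb, hDg⟩ := hgm Y hY L x e hL hx he hg
  obtain ⟨Dm, hDm0, hDmb, hDm⟩ := hmh L (x j₀) hL hadj (C₁ * Y ^ c₁) hH1 (hx j₀)
  refine ⟨Dg * Dm * D.factorial, ?_, ?_, ?_⟩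
  · exact mul_ne_zero (mul_ne_zero hDg0 hDm0) (Nat.factorial_ne_zero _)
  · push_cast
    have h1 : (Dg : ℝ) * (Dm : ℝ) ≤ (Cg * Y ^ cg) * (Cm * (C₁ * Y ^ c₁) ^ cm) :=
      mul_le_mul hDgb hDmb (Nat.cast_nonneg _) (by positivity)
    have h2 : (Cg * Y ^ cg) * (Cm * (C₁ * Y ^ c₁) ^ cm) * (D.factorial : ℝ) =
        Cg * (Cm * C₁ ^ cm) * (D.factorial : ℝ) * Y ^ (cg + c₁ * cm) := by
      rw [mul_pow, ← pow_mul, pow_add]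
      ring
    rw [← h2]
    exact mul_le_mul_of_nonneg_right h1 (by positivity)
  intro p hp hpd G hG
  have hpDg : ¬ p ∣ Dg := fun h => hpd (dvd_mul_of_dvd_left (dvd_mul_of_dvd_left h _) _)
  have hpDm : ¬ p ∣ Dm := fun h => hpd (dvd_mul_of_dvd_left (dvd_mul_of_dvd_right h _) _)
  have hDp : D < p := by
    by_contra h
    exact hpd (dvd_mul_of_dvd_right (hp.dvd_factorial.2 (not_lt.1 h)) _)
  obtain ⟨g₀, hm, hdeg, hsep, Ψ₀, hΨ₀⟩ := hDm p B hp hB hpDm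
  obtain ⟨g, hgG, ⟨φ⟩⟩ := hG g₀ hm hdeg hsep
  have htr : ∀ u, tra (ZMod (p ^ B)) (AdjoinRoot g)
      (((φ : AdjoinRoot g₀ ≃+* AdjoinRoot g) : AdjoinRoot g₀ →+* AdjoinRoot g).comp Ψ₀ u) =
        ((Algebra.trace ℤ (𝓞 L) u : ℤ) : ZMod (p ^ B)) := by
    intro u
    rw [← hΨ₀ u]
    exact Algebra.trace_eq_of_algEquiv φ (Ψ₀ u)
  have hunit : IsUnit ((Dg : ℕ) : ZMod (p ^ B)) := by
    rw [ZMod.isUnit_iff_coprime]
    exact Nat.Coprime.pow_right _ ((Nat.Prime.coprime_iff_not_dvd hp).2 hpDg).symm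
  refine ⟨g, hgG, ((φ : AdjoinRoot g₀ ≃+* AdjoinRoot g) :
    AdjoinRoot g₀ →+* AdjoinRoot g).comp Ψ₀, htr, ?_⟩
  intro β
  exact hD p hp hDp B hB (AdjoinRoot g) β (tra _ _) (tra_smul _ _) _ _
    (hDg _ _ _ _ htr hunit)

end Pool.Agent.SNO
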