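import Mathlib
import Pool.Agent.SNO.Defs
import Pool.Agent.SNO.Basic

set_option autoImplicit false

/-!
# Module FFT

Finitely many types of separable algebras of rank `n` over `ZMod p`, uniformly in `p`.
Proof. For `g` monic separable of degree `n` let `g = ∏ q_i` with distinct monic irreducible
factors; `AdjoinRoot g ≅ ∏ AdjoinRoot q_i` (Chinese remainder) and `AdjoinRoot q_i` is a field with
`p^(deg q_i)` elements, so its isomorphism class depends only on `deg q_i` (`FiniteField.algEquivOfCardEq`
or `GaloisField`). So the type is the function `c : Fin (n+1) → Fin (n+1)`, `c(d)` = number of factors of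
degree `d`: `T = (n+1)^(n+1)` (encode by an equivalence with `Fin T`). If `c` agrees for `g, g'`, there
is a bijection between the factors preserving degrees. The file `Pool/Agent/UpLog/CL.lean` contains
the structure theorem for finite reduced rings of characteristic `p` (`structure_kr`), which may be
used instead: a finite reduced `ZMod p`-algebra with `p^n` elements is isomorphic to
`∏_{i : Fin t} GaloisField p (f i)`, `∑ f i = n`; then the type is `(t, f)` with `t ≤ n`, `f i ≤ n`
(finitely many, independent of `p`), chosen by `Classical.choose`.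
-/

namespace Pool.Agent.SNO

open NumberField Module MvPolynomial

namespace FFT

/-- the types -/
abbrev Ty (n : ℕ) : Type := Σ t : Fin (n + 1), (Fin (t : ℕ) → Fin (n + 1))

/-- structure of a finite reduced algebra of characteristic `p` with `p ^ N` elements -/
theorem structure_iso {A : Type} [CommRing A]
    [IsReduced A] [Finite A] (p : ℕ) [Fact p.Prime] [CharP A p] (N : ℕ)
    (hcard : Nat.card A = p ^ N) :
    ∃ τ : Ty N, Nonempty (A ≃+* (∀ i, GaloisField p (τ.2 i : ℕ))) := by
  classical
  have hp : p.Prime := Fact.out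
  have : Finite (MaximalSpectrum A) := inferInstance
  have := Fintype.ofFinite (MaximalSpectrum A)
  let e := IsArtinianRing.equivPi A
  -- the residue fields
  have hF : ∀ m : MaximalSpectrum A, ∃ f : ℕ, f ≠ 0 ∧ Nat.card (A ⧸ m.asIdeal) = p ^ f ∧
      Nonempty ((A ⧸ m.asIdeal) ≃+* GaloisField p f) := by
    intro m
    have hm : m.asIdeal.IsMaximal := m.isMaximal
    have hfq : Finite (A ⧸ m.asIdeal) := Finite.of_surjective _ Ideal.Quotient.mk_surjective
    let _ : Field (A ⧸ m.asIdeal) := Ideal.Quotient.field m.asIdeal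
    have hc : CharP (A ⧸ m.asIdeal) p := by
      rw [CharP.charP_iff_prime_eq_zero hp]
      have : (p : A) = 0 := CharP.cast_eq_zero A p
      have h2 := congrArg (Ideal.Quotient.mk m.asIdeal) this
      rw [map_natCast, map_zero] at h2
      exact h2
    have := Fintype.ofFinite (A ⧸ m.asIdeal)
    obtain ⟨n, -, hn⟩ := FiniteField.card (A ⧸ m.asIdeal) p
    have hn' : Nat.card (A ⧸ m.asIdeal) = p ^ (n : ℕ) := by
      rw [Nat.card_eq_fintype_card, hn]
    let _ : Algebra (ZMod p) (A ⧸ m.asIdeal) := ZMod.algebra _ p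
    exact ⟨n, n.ne_zero, hn', ⟨(GaloisField.algEquivGaloisField p n hn').toRingEquiv⟩⟩
  choose f hf0 hfc hfe using hF
  have hsum : ∑ m, f m = N := by
    have h1 : Nat.card A = ∏ m : MaximalSpectrum A, Nat.card (A ⧸ m.asIdeal) := by
      rw [Nat.card_congr e.toEquiv, Nat.card_pi]
    rw [hcard, Finset.prod_congr rfl (fun m _ => hfc m), Finset.prod_pow_eq_pow_sum] at h1
    exact (Nat.pow_right_injective hp.two_le h1).symm
  let τ : Fin (Fintype.card (MaximalSpectrum A)) ≃ MaximalSpectrum A :=
    (Fintype.equivFin (MaximalSpectrum A)).symm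
  have ht : Fintype.card (MaximalSpectrum A) ≤ N := by
    calc Fintype.card (MaximalSpectrum A) = ∑ _m : MaximalSpectrum A, 1 := by simp
      _ ≤ ∑ m, f m := Finset.sum_le_sum fun m _ => Nat.one_le_iff_ne_zero.mpr (hf0 m)
      _ = N := hsum
  have hfN : ∀ m, f m ≤ N := by
    intro m
    rw [← hsum]
    exact Finset.single_le_sum (fun m _ => Nat.zero_le (f m)) (Finset.mem_univ m)
  refine ⟨⟨⟨Fintype.card (MaximalSpectrum A), Nat.lt_succ_of_le ht⟩,
    fun i => ⟨f (τ i), Nat.lt_succ_of_le (hfN _)⟩⟩, ?_⟩
  have e1 : (∀ m : MaximalSpectrum A, A ⧸ m.asIdeal) ≃+*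
      (∀ m : MaximalSpectrum A, GaloisField p (f m)) :=
    RingEquiv.piCongrRight fun m => (hfe m).some
  have e2 : (∀ m : MaximalSpectrum A, GaloisField p (f m)) ≃+*
      (∀ i : Fin (Fintype.card (MaximalSpectrum A)), GaloisField p (f (τ i))) :=
    (RingEquiv.piCongrLeft (fun m : MaximalSpectrum A => GaloisField p (f m)) τ).symm
  exact ⟨(e.toRingEquiv.trans e1).trans e2⟩

lemma reduced (p : ℕ) [Fact p.Prime] (g : Polynomial (ZMod p)) (hs : g.Separable) :
    IsReduced (AdjoinRoot g) := by
  have h1 : Squarefree g := hs.squarefree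
  have h0 : g ≠ 0 := hs.ne_zero
  have h2 : IsRadical g := (isRadical_iff_squarefree_of_ne_zero h0).2 h1
  have h3 : (Ideal.span {g}).IsRadical := isRadical_iff_span_singleton.1 h2
  exact (Ideal.isRadical_iff_quotient_reduced _).1 h3

lemma adj (n p : ℕ) [Fact p.Prime] (g : Polynomial (ZMod p)) (hg : g.Monic) (hs : g.Separable)
    (hn : g.natDegree = n) :
    ∃ τ : Ty n, Nonempty (AdjoinRoot g ≃+* (∀ i, GaloisField p (τ.2 i : ℕ))) := by
  have h1 := reduced p g hs
  have : Module.Finite (ZMod p) (AdjoinRoot g) := hg.finite_adjoinRoot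
  have : Finite (AdjoinRoot g) := Module.finite_of_finite (ZMod p)
  have hc : Nat.card (AdjoinRoot g) = p ^ n := by
    have := Module.natCard_eq_pow_finrank (K := ZMod p) (V := AdjoinRoot g)
    rw [this, Nat.card_zmod, (AdjoinRoot.powerBasis' hg).finrank, AdjoinRoot.powerBasis'_dim, hn]
  rcases Nat.eq_zero_or_pos n with h0 | h0
  · -- the zero ring
    subst h0
    rw [pow_zero] at hc
    have hsub : Subsingleton (AdjoinRoot g) := (Nat.card_eq_one_iff_unique.1 hc).1
    refine ⟨⟨0, fun i => 0⟩, ⟨?_⟩⟩
    refine { toFun := fun _ => 0, invFun := fun _ => 0, left_inv := ?_, right_inv := ?_,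
             map_mul' := ?_, map_add' := ?_ }
    · intro x; exact Subsingleton.elim _ _
    · intro x; funext i; exact i.elim0
    · intro x y; funext i; exact i.elim0
    · intro x y; funext i; exact i.elim0
  · have hnt : Nontrivial (AdjoinRoot g) := by
      rw [← Finite.one_lt_card_iff_nontrivial, hc]
      exact Nat.one_lt_pow h0.ne' (Fact.out : p.Prime).one_lt
    have : CharP (AdjoinRoot g) p := charP_of_injective_algebraMap
      (algebraMap (ZMod p) (AdjoinRoot g)).injective p
    exact structure_iso p n hc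

end FFT

open FFT in
theorem finite_types (n : ℕ) : ∃ T : ℕ, ∀ (p : ℕ) [Fact p.Prime],
    ∃ ι : Polynomial (ZMod p) → Fin T, ∀ g g' : Polynomial (ZMod p), g.Monic → g'.Monic →
      g.Separable → g'.Separable → g.natDegree = n → g'.natDegree = n → ι g = ι g' →
      Nonempty (AdjoinRoot g ≃+* AdjoinRoot g') := by
  classical
  refine ⟨Fintype.card (FFT.Ty n), ?_⟩
  intro p hp
  refine ⟨fun g => Fintype.equivFin (FFT.Ty n)
    (if h : g.Monic ∧ g.Separable ∧ g.natDegree = n then
      (FFT.adj n p g h.1 h.2.1 h.2.2).choose else ⟨0, fun i => 0⟩), ?_⟩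
  intro g g' hg hg' hs hs' hn hn' h
  have h1 := (Fintype.equivFin (FFT.Ty n)).injective h
  rw [dif_pos ⟨hg, hs, hn⟩, dif_pos ⟨hg', hs', hn'⟩] at h1
  have h2 := (FFT.adj n p g hg hs hn).choose_spec
  have h3 := (FFT.adj n p g' hg' hs' hn').choose_spec
  rw [h1] at h2
  obtain ⟨e2⟩ := h2
  obtain ⟨e3⟩ := h3
  exact ⟨e2.trans e3.symm⟩

end Pool.Agent.SNO
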