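import Mathlib
import Pool.Agent.SNO.Defs
import Pool.Agent.SNO.Basic

set_option autoImplicit false

/-!
# Module HNS

Hensel: `(ℤ/p^B)[T]/(g)` is determined by its reduction modulo `p` if `g` mod `p` is separable.
Proof. `R = ℤ/p^B`, `A = AdjoinRoot g`, `A' = AdjoinRoot g'`. The reduction maps `A → Ā = AdjoinRoot ḡ`,
`A' → Ā'` are surjective with kernel `p A`, `p A'` (nilpotent). Let `ψ : Ā ≃+* Ā'` (it is a
`ZMod p`-algebra map automatically), `θ` the root in `A`, choose `y ∈ A'` lifting `ψ(θ̄)`. Then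
`g(y) ∈ pA'` is nilpotent and `g'(y)` (derivative) is a unit, because its image in `Ā'` is the image
under `ψ` of `ḡ'(θ̄)`, a unit as `ḡ` is separable (`a ḡ + b ḡ' = 1`), and an element that is a unit
modulo a nilpotent ideal is a unit. `Polynomial.existsUnique_nilpotent_sub_and_aeval_eq_zero` gives
`r ∈ A'` with `g(r) = 0`, `r - y` nilpotent; nilpotents of `A'` lie in `p A'` because
`Ā'` is reduced (`ḡ'` separable), so `r ≡ y mod p`. `AdjoinRoot.liftAlgHom` : `f : A → A'`, `θ ↦ r`,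
reduces to `ψ` mod `p`, so it is surjective mod `p`, hence surjective (Nakayama for the nilpotent `p`:
`A' = f(A) + pA'`, iterate). Both are finite free of rank `deg g = deg g'` over the finite ring `R`,
so they have the same cardinality and `f` is bijective. (If the degree is 0 both rings are zero.)
-/

namespace Pool.Agent.SNO

open NumberField Module MvPolynomial

namespace HNS

open Polynomial in
/-- the kernel of the reduction `ℤ/p^B → ℤ/p` -/
lemma castHom_ker (p B : ℕ) (hp : p.Prime) (hB : B ≠ 0) (x : ZMod (p ^ B))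
    (hx : ZMod.castHom (dvd_pow_self p hB) (ZMod p) x = 0) : ∃ y, x = (p : ZMod (p ^ B)) * y := by
  have : NeZero p := ⟨hp.ne_zero⟩
  have : NeZero (p ^ B) := ⟨pow_ne_zero _ hp.ne_zero⟩
  rw [← ZMod.natCast_zmod_val x, map_natCast, ZMod.natCast_eq_zero_iff] at hx
  obtain ⟨k, hk⟩ := hx
  refine ⟨(k : ZMod (p ^ B)), ?_⟩
  rw [← Nat.cast_mul, ← hk, ZMod.natCast_zmod_val]

open Polynomial in
/-- the reduction of polynomials -/
lemma poly_ker (p B : ℕ) (hp : p.Prime) (hB : B ≠ 0) (P : Polynomial (ZMod (p ^ B)))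
    (hP : P.map (ZMod.castHom (dvd_pow_self p hB) (ZMod p)) = 0) :
    ∃ Q : Polynomial (ZMod (p ^ B)), P = Polynomial.C (p : ZMod (p ^ B)) * Q := by
  have h : ∀ c ∈ Set.range P.coeff, ∃ y, c = (p : ZMod (p ^ B)) * y := by
    rintro _ ⟨i, rfl⟩
    refine castHom_ker p B hp hB _ ?_
    rw [← Polynomial.coeff_map, hP, Polynomial.coeff_zero]
  have h2 : Polynomial.C (p : ZMod (p ^ B)) ∣ P := by
    rw [Polynomial.C_dvd_iff_dvd_coeff]
    intro i
    obtain ⟨y, hy⟩ := h (P.coeff i) ⟨i, rfl⟩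
    exact ⟨y, hy⟩
  exact h2

/-- the reduction map -/
noncomputable def red (p B : ℕ) (hB : B ≠ 0) (g : Polynomial (ZMod (p ^ B))) :
    AdjoinRoot g →+*
      AdjoinRoot (g.map (ZMod.castHom (dvd_pow_self p hB) (ZMod p))) :=
  AdjoinRoot.map (ZMod.castHom (dvd_pow_self p hB) (ZMod p)) g _ dvd_rfl

lemma red_mk (p B : ℕ) (hB : B ≠ 0) (g : Polynomial (ZMod (p ^ B)))
    (P : Polynomial (ZMod (p ^ B))) :
    red p B hB g (AdjoinRoot.mk g P) = AdjoinRoot.mk _
      (P.map (ZMod.castHom (dvd_pow_self p hB) (ZMod p))) := by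
  have h : (red p B hB g).comp (AdjoinRoot.mk g) =
      (AdjoinRoot.mk (g.map (ZMod.castHom (dvd_pow_self p hB) (ZMod p)))).comp
        (Polynomial.mapRingHom (ZMod.castHom (dvd_pow_self p hB) (ZMod p))) := by
    apply Polynomial.ringHom_ext'
    · apply RingHom.ext_zmod
    · simp [red]
  exact RingHom.congr_fun h P

lemma red_surj (p B : ℕ) (hB : B ≠ 0) (g : Polynomial (ZMod (p ^ B))) :
    Function.Surjective (red p B hB g) := by
  intro a
  obtain ⟨P, rfl⟩ := AdjoinRoot.mk_surjective a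
  obtain ⟨Q, rfl⟩ := Polynomial.map_surjective _
    (ZMod.castHom_surjective (dvd_pow_self p hB)) P
  exact ⟨AdjoinRoot.mk g Q, red_mk p B hB g Q⟩

lemma red_ker (p B : ℕ) (hp : p.Prime) (hB : B ≠ 0) (g : Polynomial (ZMod (p ^ B)))
    (a : AdjoinRoot g) (ha : red p B hB g a = 0) : ∃ b : AdjoinRoot g, a = (p : AdjoinRoot g) * b := by
  obtain ⟨P, rfl⟩ := AdjoinRoot.mk_surjective a
  rw [red_mk, AdjoinRoot.mk_eq_zero] at ha
  obtain ⟨Q, hQ⟩ := ha
  obtain ⟨Q, rfl⟩ := Polynomial.map_surjective _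
    (ZMod.castHom_surjective (dvd_pow_self p hB)) Q
  rw [← Polynomial.map_mul, ← sub_eq_zero, ← Polynomial.map_sub] at hQ
  obtain ⟨S, hS⟩ := poly_ker p B hp hB _ hQ
  refine ⟨AdjoinRoot.mk g S, ?_⟩
  have h : AdjoinRoot.mk g (P - g * Q) = AdjoinRoot.mk g (Polynomial.C (p : ZMod (p ^ B)) * S) := by
    rw [hS]
  rw [map_sub, map_mul, map_mul, AdjoinRoot.mk_self, zero_mul, sub_zero] at h
  rw [h]
  simp

lemma p_pow (p B : ℕ) (g : Polynomial (ZMod (p ^ B))) : (p : AdjoinRoot g) ^ B = 0 := by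
  have h : ((p : ZMod (p ^ B)) ^ B) = 0 := by
    rw [← Nat.cast_pow, ZMod.natCast_self]
  have h2 := congrArg (algebraMap (ZMod (p ^ B)) (AdjoinRoot g)) h
  rwa [map_pow, map_natCast, map_zero] at h2

lemma red_nil (p B : ℕ) (hp : p.Prime) (hB : B ≠ 0) (g : Polynomial (ZMod (p ^ B)))
    (a : AdjoinRoot g) (ha : red p B hB g a = 0) : IsNilpotent a := by
  obtain ⟨b, rfl⟩ := red_ker p B hp hB g a ha
  exact ⟨B, by rw [mul_pow, p_pow, zero_mul]⟩

lemma reduced (p : ℕ) [Fact p.Prime] (g : Polynomial (ZMod p)) (hs : g.Separable) :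
    IsReduced (AdjoinRoot g) := by
  have h1 : Squarefree g := hs.squarefree
  have h0 : g ≠ 0 := hs.ne_zero
  have h2 : IsRadical g := (isRadical_iff_squarefree_of_ne_zero h0).2 h1
  have h3 : (Ideal.span {g}).IsRadical := isRadical_iff_span_singleton.1 h2
  exact (Ideal.isRadical_iff_quotient_reduced _).1 h3

end HNS

open HNS in
theorem hensel_iso (p B : ℕ) (hp : p.Prime) (hB : B ≠ 0) (g g' : Polynomial (ZMod (p ^ B)))
    (hg : g.Monic) (hg' : g'.Monic)
    (hs : (g.map (ZMod.castHom (dvd_pow_self p hB) (ZMod p))).Separable)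
    (hs' : (g'.map (ZMod.castHom (dvd_pow_self p hB) (ZMod p))).Separable)
    (hd : g.natDegree = g'.natDegree)
    (iso : Nonempty (AdjoinRoot (g.map (ZMod.castHom (dvd_pow_self p hB) (ZMod p))) ≃+*
      AdjoinRoot (g'.map (ZMod.castHom (dvd_pow_self p hB) (ZMod p))))) :
    Nonempty (AdjoinRoot g ≃ₐ[ZMod (p ^ B)] AdjoinRoot g') := by
  classical
  have : Fact p.Prime := ⟨hp⟩
  have : NeZero (p ^ B) := ⟨pow_ne_zero _ hp.ne_zero⟩
  obtain ⟨ψ⟩ := iso
  have hred' := HNS.reduced p _ hs'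
  obtain ⟨y, hy⟩ := red_surj p B hB g' (ψ (AdjoinRoot.root _))
  -- value of polynomials at y
  have hval : ∀ P : Polynomial (ZMod (p ^ B)), red p B hB g' (Polynomial.aeval y P) =
      ψ (AdjoinRoot.mk _ (P.map (ZMod.castHom (dvd_pow_self p hB) (ZMod p)))) := by
    intro P
    have h : (red p B hB g').comp (Polynomial.aeval y : _ →ₐ[ZMod (p ^ B)] AdjoinRoot g').toRingHom =
        (ψ.toRingHom.comp (AdjoinRoot.mk (g.map (ZMod.castHom (dvd_pow_self p hB) (ZMod p))))).comp
          (Polynomial.mapRingHom (ZMod.castHom (dvd_pow_self p hB) (ZMod p))) := by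
      apply Polynomial.ringHom_ext'
      · apply RingHom.ext_zmod
      · simp [hy]
    exact RingHom.congr_fun h P
  have h1 : IsNilpotent (Polynomial.aeval y g) := by
    apply red_nil p B hp hB
    rw [hval, AdjoinRoot.mk_self, map_zero]
  have h2 : IsUnit (Polynomial.aeval y (Polynomial.derivative g)) := by
    have h3 : IsUnit (AdjoinRoot.mk (g.map (ZMod.castHom (dvd_pow_self p hB) (ZMod p)))
        ((Polynomial.derivative g).map (ZMod.castHom (dvd_pow_self p hB) (ZMod p)))) := by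
      obtain ⟨a, b, hab⟩ := hs
      have h4 := congrArg (AdjoinRoot.mk (g.map (ZMod.castHom (dvd_pow_self p hB) (ZMod p)))) hab
      rw [map_add, map_mul, map_mul, AdjoinRoot.mk_self, mul_zero, zero_add, map_one,
        Polynomial.derivative_map] at h4
      exact IsUnit.of_mul_eq_one _ (by rw [mul_comm]; exact h4)
    obtain ⟨c, hc⟩ := red_surj p B hB g' (ψ (h3.unit⁻¹ : Units _))
    have h5 : IsNilpotent (Polynomial.aeval y (Polynomial.derivative g) * c - 1) := by
      apply red_nil p B hp hB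
      rw [map_sub, map_mul, hc, hval, map_one, ← map_mul]
      have : (AdjoinRoot.mk (g.map (ZMod.castHom (dvd_pow_self p hB) (ZMod p)))
        ((Polynomial.derivative g).map (ZMod.castHom (dvd_pow_self p hB) (ZMod p)))) *
          (h3.unit⁻¹ : Units _) = 1 := by
        simp
      rw [this, map_one, sub_self]
    have h6 : IsUnit (Polynomial.aeval y (Polynomial.derivative g) * c) := by
      have := h5.isUnit_add_one
      rwa [sub_add_cancel] at this
    exact isUnit_of_mul_isUnit_left h6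
  obtain ⟨r, ⟨hr1, hr2⟩, -⟩ := Polynomial.existsUnique_nilpotent_sub_and_aeval_eq_zero h1 h2
  have hr : red p B hB g' r = ψ (AdjoinRoot.root _) := by
    rw [← hy]
    have h3 : IsNilpotent (red p B hB g' (y - r)) := hr1.map _
    have h4 := h3.eq_zero
    rw [map_sub, sub_eq_zero] at h4
    exact h4.symm
  let f : AdjoinRoot g →ₐ[ZMod (p ^ B)] AdjoinRoot g' := AdjoinRoot.liftAlgHom g
    (Algebra.ofId _ _) r (by simpa [Polynomial.aeval_def] using hr2)
  have hf : ∀ a, red p B hB g' (f a) = ψ (red p B hB g a) := by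
    intro a
    have h : (red p B hB g').comp f.toRingHom = ψ.toRingHom.comp (red p B hB g) := by
      apply AdjoinRoot.ringHom_ext
      · apply RingHom.ext_zmod
      · simp only [red, RingHom.comp_apply] at hr ⊢
        simpa [f] using hr
    exact RingHom.congr_fun h a
  have hs1 : ∀ a' : AdjoinRoot g', ∃ a b, a' = f a + (p : AdjoinRoot g') * b := by
    intro a'
    obtain ⟨a, ha⟩ := red_surj p B hB g (ψ.symm (red p B hB g' a'))
    obtain ⟨b, hb⟩ := red_ker p B hp hB g' (a' - f a) (by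
      rw [map_sub, hf, ha, RingEquiv.apply_symm_apply, sub_self])
    exact ⟨a, b, by rw [← hb]; ring⟩
  have hs2 : ∀ (k : ℕ) (a' : AdjoinRoot g'), ∃ a b, a' = f a + (p : AdjoinRoot g') ^ k * b := by
    intro k
    induction k with
    | zero => intro a'; exact ⟨0, a', by simp⟩
    | succ k ih =>
      intro a'
      obtain ⟨a, b, h⟩ := ih a'
      obtain ⟨a2, b2, h2⟩ := hs1 b
      refine ⟨a + (p : AdjoinRoot g) ^ k * a2, b2, ?_⟩
      rw [h, h2, map_add, map_mul, map_pow, map_natCast]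
      ring
  have hsurj : Function.Surjective f := by
    intro a'
    obtain ⟨a, b, h⟩ := hs2 B a'
    refine ⟨a, ?_⟩
    rw [h, p_pow, zero_mul, add_zero]
  let e : AdjoinRoot g' ≃ₗ[ZMod (p ^ B)] AdjoinRoot g :=
    (AdjoinRoot.powerBasis' hg').basis.equiv (AdjoinRoot.powerBasis' hg).basis
      (finCongr (by simp [hd]))
  have : Module.Finite (ZMod (p ^ B)) (AdjoinRoot g) := hg.finite_adjoinRoot
  have : Finite (AdjoinRoot g) := Module.finite_of_finite (ZMod (p ^ B))
  have hinj : Function.Injective (e ∘ f) :=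
    Finite.injective_iff_surjective.2 (e.surjective.comp hsurj)
  exact ⟨AlgEquiv.ofBijective f ⟨hinj.of_comp, hsurj⟩⟩

end Pool.Agent.SNO
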