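import Mathlib
import Pool.Agent.SNO.Defs
import Pool.Agent.SNO.Basic
import Pool.Agent.SNO.HNS
import Pool.Agent.SNO.FFT

set_option autoImplicit false

/-!
# Module TYP

Proof. `T` from `finite_types n`, `ι` for this `p`. For each `τ : Fin T` such that there is a monic
`g` of degree `n` over `ℤ/p^B` with separable reduction `ḡ` and `ι ḡ = τ`, choose one, `g_τ`; `G` = the set
of the chosen ones (image of a finset, card `≤ T`). For `g` given, `g' = g_τ` with `τ = ι ḡ`:
`finite_types` gives the isomorphism of the reductions, `hensel_iso` lifts it. (`natDegree` of the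
reduction equals `n` by monicity.)
-/

namespace Pool.Agent.SNO

open NumberField Module MvPolynomial

theorem types (n : ℕ) : ∃ T : ℕ, ∀ p B : ℕ, p.Prime → ∀ hB : B ≠ 0,
    ∃ G : Finset (Polynomial (ZMod (p ^ B))), G.card ≤ T ∧ (∀ g ∈ G, g.Monic ∧ g.natDegree = n) ∧
      ∀ g : Polynomial (ZMod (p ^ B)), g.Monic → g.natDegree = n →
        (g.map (ZMod.castHom (dvd_pow_self p hB) (ZMod p))).Separable →
        ∃ g' ∈ G, Nonempty (AdjoinRoot g ≃ₐ[ZMod (p ^ B)] AdjoinRoot g') := by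
  classical
  obtain ⟨T, hT⟩ := finite_types n
  refine ⟨T, ?_⟩
  intro p B hp hB
  haveI : Fact p.Prime := ⟨hp⟩
  obtain ⟨ι, hι⟩ := hT p
  set φ := ZMod.castHom (dvd_pow_self p hB) (ZMod p) with hφ
  let Q : Fin T → Polynomial (ZMod (p ^ B)) → Prop := fun τ g =>
    g.Monic ∧ g.natDegree = n ∧ (g.map φ).Separable ∧ ι (g.map φ) = τ
  let S : Finset (Fin T) := Finset.univ.filter fun τ => ∃ g, Q τ g
  let F : Fin T → Polynomial (ZMod (p ^ B)) := fun τ =>
    if h : ∃ g, Q τ g then h.choose else 0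
  have hF : ∀ τ, (∃ g, Q τ g) → Q τ (F τ) := by
    intro τ h
    have : F τ = h.choose := dif_pos h
    rw [this]
    exact h.choose_spec
  refine ⟨S.image F, ?_, ?_, ?_⟩
  · refine (Finset.card_image_le).trans ?_
    refine (Finset.card_le_univ S).trans ?_
    simp
  · intro g hg
    obtain ⟨τ, hτ, rfl⟩ := Finset.mem_image.1 hg
    have h := hF τ (Finset.mem_filter.1 hτ).2
    exact ⟨h.1, h.2.1⟩
  · intro g hg hn hs
    have hex : ∃ g', Q (ι (g.map φ)) g' := ⟨g, hg, hn, hs, rfl⟩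
    have h := hF _ hex
    refine ⟨F (ι (g.map φ)), Finset.mem_image.2 ⟨_, Finset.mem_filter.2 ⟨Finset.mem_univ _, hex⟩,
      rfl⟩, ?_⟩
    haveI : Nontrivial (ZMod p) := inferInstance
    refine hensel_iso p B hp hB g _ hg h.1 hs h.2.2.1 (hn.trans h.2.1.symm) ?_
    refine hι _ _ (hg.map _) (h.1.map _) hs h.2.2.1 ?_ ?_ h.2.2.2.symm
    · rw [hg.natDegree_map]; exact hn
    · rw [h.1.natDegree_map]; exact h.2.1

end Pool.Agent.SNO
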