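import Mathlib
import Pool.Agent.SNO.Defs
import Pool.Agent.SNO.Basic
import Pool.Agent.SNO.CRA
import Pool.Agent.SNO.CRB
import Pool.Agent.SNO.TYP
import Pool.Agent.UpLog.PR

set_option autoImplicit false

/-!
# Module COR

The core counting theorem.
Proof. `M, B` from `class_card`. Given `c₁, C₁`: `C₂` from `class_card` for `C₁`; `D` and then `C', c'` from
`cover` for `c₁' = max c₁ (∑ w j)`, `C₁`; `T_n` from `types n`; `h₀, C''` from
`Pool.Agent.UpLog.primes (m+1) m c' ... C'`. For `Y ≥ 1` put `Y' = max Y (C₂ + 1)` (the hypotheses on `T`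
hold for `Y'`; `Y' ≤ (|C₂| + 2) Y`). For `z ∈ T`: `D₁ ≤ C' Y'^(c')`, so some `p` in the finite set `P`
(card `≤ h₀`, `Y'^(m+1) ≤ p^m`, `p ≤ C'' Y'^((m+1)/m)`) does not divide `D₁`; with `G_p` from `types`
there are `g ∈ G_p`, `Ψ`, and for the basis `β_g` (from `AdjoinRoot.powerBasis'`, reindexed to `Fin n`)
the flag `h` with entries `≤ D`. So `T` is the union over `p ∈ P`, `g ∈ G_p`, `h` (at most
`(D+1)^(card I * card σ * n)` of them) of the sets of `class_card`, hence finite and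
`card T ≤ h₀ T_n (D+1)^(..) M n (max p)^(∑ v i)` and `p^(∑ v) ≤ (C'' Y'^(1+1/m))^(∑ v)`. (Take `B` also
`≥ 1`; `cover` is applied with this `B`.)
-/

namespace Pool.Agent.SNO

open NumberField Module MvPolynomial

namespace COR

/-- counting a finite union -/
lemma bound_union {ι α : Type*} (s : Finset ι) (k : ℕ) (hk : s.card ≤ k) (T : Set α)
    (S : ι → Set α) (hT : ∀ z ∈ T, ∃ i ∈ s, z ∈ S i) (N : ℝ) (hN : 0 ≤ N)
    (h : ∀ i ∈ s, (S i).Finite ∧ ((S i).ncard : ℝ) ≤ N) :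
    T.Finite ∧ (T.ncard : ℝ) ≤ k * N := by
  classical
  have key : ∀ t : Finset ι, t ⊆ s → (⋃ i ∈ t, S i).Finite ∧
      ((⋃ i ∈ t, S i).ncard : ℝ) ≤ t.card * N := by
    intro t
    induction t using Finset.induction_on with
    | empty => intro _; simp
    | insert a t ha ih =>
      intro hts
      obtain ⟨h1, h2⟩ := ih ((Finset.subset_insert a t).trans hts)
      obtain ⟨h3, h4⟩ := h a (hts (Finset.mem_insert_self a t))
      rw [Finset.set_biUnion_insert, Finset.card_insert_of_notMem ha]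
      refine ⟨h3.union h1, ?_⟩
      have h5 : ((S a ∪ ⋃ i ∈ t, S i).ncard : ℝ) ≤ (S a).ncard + (⋃ i ∈ t, S i).ncard := by
        exact_mod_cast Set.ncard_union_le _ _
      push_cast
      linarith
  obtain ⟨h1, h2⟩ := key s (Finset.Subset.refl s)
  have hsub : T ⊆ ⋃ i ∈ s, S i := by
    intro z hz
    obtain ⟨i, hi, hzi⟩ := hT z hz
    simp only [Set.mem_iUnion, exists_prop]
    exact ⟨i, hi, hzi⟩
  refine ⟨h1.subset hsub, ?_⟩
  have h3 : (T.ncard : ℝ) ≤ (⋃ i ∈ s, S i).ncard := by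
    exact_mod_cast Set.ncard_le_ncard hsub h1
  have h4 : (s.card : ℝ) ≤ k := by exact_mod_cast hk
  have h5 : (s.card : ℝ) * N ≤ k * N := mul_le_mul_of_nonneg_right h4 hN
  linarith

end COR

theorem core {σ I : Type} [Fintype σ] [Fintype I] (n c₀ m : ℕ) (hn : 1 ≤ n) (hm : 1 ≤ m)
    (w : σ → ℕ) (hw : ∀ j, 1 ≤ w j) (v : I → ℕ) (hv : ∀ i, 1 ≤ v i) (eqv : I ≃ σ × Fin n) :
    ∃ B : ℕ, 1 ≤ B ∧ ∀ (c₁ : ℕ) (C₁ : ℝ), 1 ≤ C₁ → ∃ C : ℝ, 0 < C ∧ ∀ Y : ℝ, 1 ≤ Y →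
      ∀ T : Set (σ → AlgebraicClosure ℚ),
        (∀ z ∈ T, ∃ (L : IntermediateField ℚ (AlgebraicClosure ℚ)) (_ : NumberField L)
          (x : σ → 𝓞 L) (e : I → σ → 𝓞 L) (j₀ : σ),
          (∀ j, z j = (((x j : 𝓞 L) : L) : AlgebraicClosure ℚ)) ∧ finrank ℚ L = n ∧
          IntermediateField.adjoin ℚ {((x j₀ : 𝓞 L) : L)} = ⊤ ∧
          (∀ j, house ((x j : 𝓞 L) : L) ≤ C₁ * Y ^ w j) ∧
          (∀ i j, house ((e i j : 𝓞 L) : L) ≤ C₁ * Y ^ c₁) ∧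
          ∀ b, 1 ≤ b → b ≤ B → MGood (tra ℚ L) w v (b - 1 + c₀) b
            (fun j => ((x j : 𝓞 L) : L)) (fun i j => ((e i j : 𝓞 L) : L))) →
        T.Finite ∧ (T.ncard : ℝ) ≤ C * Y ^ ((1 + 1 / (m : ℝ)) * ((∑ i, v i : ℕ) : ℝ)) := by
  classical
  obtain ⟨M, B, hB1, hvB, hclass⟩ := class_card (σ := σ) (I := I) n c₀ m hn hm w hw v hv eqv
  have hB : B ≠ 0 := by omega
  refine ⟨B, hB1, ?_⟩
  obtain ⟨D, hcover⟩ := cover (σ := σ) (I := I) n c₀ B hn hB w hw v hv eqv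
  intro c₁ C₁ hC₁
  obtain ⟨C₂, hC₂⟩ := hclass C₁ hC₁
  obtain ⟨C', c', hC', hcov⟩ := hcover (max c₁ (∑ j, w j)) C₁ hC₁
  obtain ⟨Tn, hTn⟩ := types n
  obtain ⟨h₀, C'', hC'', hprimes⟩ := Pool.Agent.UpLog.primes (m + 1) m c' hm (by omega) C'
  obtain ⟨Hs, hHs⟩ : ∃ Hs : Finset (I → σ → Fin n → ℕ), Hs = Fintype.piFinset fun _ =>
    Fintype.piFinset fun _ => Fintype.piFinset fun _ => Finset.range (D + 1) := ⟨_, rfl⟩
  have hHmem : ∀ h : I → σ → Fin n → ℕ, (∀ i j l, h i j l ≤ D) → h ∈ Hs := by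
    intro h hh
    rw [hHs]
    simp only [Fintype.mem_piFinset, Finset.mem_range]
    exact fun i j l => Nat.lt_succ_of_le (hh i j l)
  obtain ⟨V, hV⟩ : ∃ V : ℕ, V = ∑ i, v i := ⟨_, rfl⟩
  obtain ⟨α, hα⟩ : ∃ α : ℝ, α = (1 + 1 / (m : ℝ)) * (V : ℝ) := ⟨_, rfl⟩
  have hm0 : (0 : ℝ) < m := by exact_mod_cast hm
  have hα0 : 0 ≤ α := by rw [hα]; positivity
  refine ⟨h₀ * (Tn * (Hs.card * (M * n * (C'' ^ V * (|C₂| + 2) ^ α)))) + 1, by positivity, ?_⟩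
  intro Y hY T hT
  rw [← hV, ← hα]
  have hY0 : (0 : ℝ) < Y := by linarith
  obtain ⟨Y', hY'⟩ : ∃ Y' : ℝ, Y' = max Y (C₂ + 1) := ⟨_, rfl⟩
  have hYY' : Y ≤ Y' := by rw [hY']; exact le_max_left _ _
  have hY'1 : 1 ≤ Y' := hY.trans hYY'
  have hY'0 : (0 : ℝ) < Y' := by linarith
  have hY'2 : C₂ < Y' := by
    have : C₂ + 1 ≤ Y' := by rw [hY']; exact le_max_right _ _
    linarith
  have hY'3 : Y' ≤ (|C₂| + 2) * Y := by
    rw [hY']
    have h1 := abs_nonneg C₂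
    have h2 := le_abs_self C₂
    refine max_le ?_ ?_
    · nlinarith
    · nlinarith
  obtain ⟨P, hPcard, hP, hPI⟩ := hprimes Y' hY'1
  have hhouse : ∀ (a b : ℕ), a ≤ b → C₁ * Y ^ a ≤ C₁ * Y' ^ b := by
    intro a b hab
    refine mul_le_mul_of_nonneg_left ?_ (by linarith)
    exact (pow_le_pow_left₀ hY0.le hYY' a).trans (pow_le_pow_right₀ hY'1 hab)
  -- the bound for a single class
  obtain ⟨N, hN⟩ : ∃ N : ℝ, N = M * n * (C'' ^ V * Y' ^ α) := ⟨_, rfl⟩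
  have hN0 : 0 ≤ N := by rw [hN]; positivity
  have hpN : ∀ p ∈ P, ((M * n * p ^ V : ℕ) : ℝ) ≤ N := by
    intro p hp
    obtain ⟨_, _, h3⟩ := hP p hp
    rw [hN]
    push_cast
    refine mul_le_mul_of_nonneg_left ?_ (by positivity)
    calc (p : ℝ) ^ V ≤ (C'' * Y' ^ (((m + 1 : ℕ) : ℝ) / m)) ^ V :=
          pow_le_pow_left₀ (by positivity) h3 V
      _ = C'' ^ V * Y' ^ α := by
          rw [mul_pow]
          congr 1
          rw [← Real.rpow_natCast, ← Real.rpow_mul hY'0.le, hα]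
          congr 1
          push_cast
          field_simp
  have hmain : T.Finite ∧ (T.ncard : ℝ) ≤ h₀ * (Tn * (Hs.card * N)) := by
    refine COR.bound_union P h₀ hPcard T (fun p => {z | z ∈ T ∧
      ∀ G : Set (Polynomial (ZMod (p ^ B))),
        (∀ g : Polynomial (ZMod (p ^ B)), g.Monic → g.natDegree = n →
          (g.map (ZMod.castHom (dvd_pow_self p hB) (ZMod p))).Separable →
          ∃ g' ∈ G, Nonempty (AdjoinRoot g ≃ₐ[ZMod (p ^ B)] AdjoinRoot g')) →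
        ∃ g ∈ G, ∃ (L : IntermediateField ℚ (AlgebraicClosure ℚ)) (_ : NumberField L)
          (x : σ → 𝓞 L) (Ψ : 𝓞 L →+* AdjoinRoot g),
          (∀ j, z j = (((x j : 𝓞 L) : L) : AlgebraicClosure ℚ)) ∧ finrank ℚ L = n ∧
          (∀ j, house ((x j : 𝓞 L) : L) ≤ C₁ * Y' ^ w j) ∧
          (∀ u, tra (ZMod (p ^ B)) (AdjoinRoot g) (Ψ u) =
            ((Algebra.trace ℤ (𝓞 L) u : ℤ) : ZMod (p ^ B))) ∧
          ∀ β : Basis (Fin n) (ZMod (p ^ B)) (AdjoinRoot g),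
            ∃ h : I → σ → Fin n → ℕ, (∀ i j l, h i j l ≤ D) ∧
              (∀ [DecidableEq I], IsUnit (Matrix.det (Matrix.of fun ι κ : I =>
                ((h ι (eqv κ).1 (eqv κ).2 : ℕ) : ZMod (p ^ B))))) ∧
              ∀ b, 1 ≤ b → b ≤ B → MGood (tra (ZMod (p ^ B)) (AdjoinRoot g)) w v (b - 1 + c₀) b
                (fun j => Ψ (x j)) (fun i j => ∑ l, (h i j l) • β l)}) ?_ _ (by positivity) ?_
    · intro z hz
      obtain ⟨L, hL, x, e, j₀, hz1, hz2, hz3, hz4, hz5, hz6⟩ := hT z hz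
      obtain ⟨D₁, hD₁, hD₁', hD₁p⟩ := hcov Y' hY'1 L x e j₀ hz2 hz3
        (fun j => (hz4 j).trans (hhouse _ _ ((Finset.single_le_sum (f := fun j => w j)
          (fun _ _ => Nat.zero_le _) (Finset.mem_univ j)).trans (le_max_right _ _))))
        (fun i j => (hz5 i j).trans (hhouse _ _ (le_max_left _ _))) hz6
      obtain ⟨p, hp, hpD⟩ := hPI D₁ hD₁ hD₁'
      refine ⟨p, hp, hz, fun G hG => ?_⟩
      obtain ⟨g, hg, Ψ, hΨ1, hΨ2⟩ := hD₁p p (hP p hp).1 hpD G hG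
      exact ⟨g, hg, L, hL, x, Ψ, hz1, hz2, fun j => (hz4 j).trans (hhouse _ _ le_rfl), hΨ1, hΨ2⟩
    · intro p hp
      obtain ⟨hpp, hpY, _⟩ := hP p hp
      obtain ⟨G, hGcard, hG1, hG2⟩ := hTn p B hpp hB
      refine COR.bound_union G Tn hGcard _ (fun g => {z | z ∈ T ∧
        ∃ (L : IntermediateField ℚ (AlgebraicClosure ℚ)) (_ : NumberField L)
          (x : σ → 𝓞 L) (Ψ : 𝓞 L →+* AdjoinRoot g),
          (∀ j, z j = (((x j : 𝓞 L) : L) : AlgebraicClosure ℚ)) ∧ finrank ℚ L = n ∧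
          (∀ j, house ((x j : 𝓞 L) : L) ≤ C₁ * Y' ^ w j) ∧
          (∀ u, tra (ZMod (p ^ B)) (AdjoinRoot g) (Ψ u) =
            ((Algebra.trace ℤ (𝓞 L) u : ℤ) : ZMod (p ^ B))) ∧
          ∀ β : Basis (Fin n) (ZMod (p ^ B)) (AdjoinRoot g),
            ∃ h : I → σ → Fin n → ℕ, (∀ i j l, h i j l ≤ D) ∧
              (∀ [DecidableEq I], IsUnit (Matrix.det (Matrix.of fun ι κ : I =>
                ((h ι (eqv κ).1 (eqv κ).2 : ℕ) : ZMod (p ^ B))))) ∧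
              ∀ b, 1 ≤ b → b ≤ B → MGood (tra (ZMod (p ^ B)) (AdjoinRoot g)) w v (b - 1 + c₀) b
                (fun j => Ψ (x j)) (fun i j => ∑ l, (h i j l) • β l)}) ?_ _ (by positivity) ?_
      · rintro z ⟨hz, hzG⟩
        obtain ⟨g, hg, hrest⟩ := hzG (G : Set (Polynomial (ZMod (p ^ B)))) (by
          intro g' h1 h2 h3
          obtain ⟨g'', h4, h5⟩ := hG2 g' h1 h2 h3
          exact ⟨g'', h4, h5⟩)
        exact ⟨g, hg, hz, hrest⟩
      · intro g hg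
        obtain ⟨hg1, hg2⟩ := hG1 g hg
        obtain ⟨β⟩ : Nonempty (Basis (Fin n) (ZMod (p ^ B)) (AdjoinRoot g)) :=
          ⟨(AdjoinRoot.powerBasis' hg1).basis.reindex
            (finCongr ((AdjoinRoot.powerBasis'_dim hg1).trans hg2))⟩
        refine COR.bound_union Hs Hs.card le_rfl _ (fun h => {z | z ∈ T ∧
          (∀ [DecidableEq I], IsUnit (Matrix.det (Matrix.of fun ι κ : I =>
                ((h ι (eqv κ).1 (eqv κ).2 : ℕ) : ZMod (p ^ B))))) ∧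
          ∃ (L : IntermediateField ℚ (AlgebraicClosure ℚ)) (_ : NumberField L)
          (x : σ → 𝓞 L) (Ψ : 𝓞 L →+* AdjoinRoot g),
          (∀ j, z j = (((x j : 𝓞 L) : L) : AlgebraicClosure ℚ)) ∧ finrank ℚ L = n ∧
          (∀ j, house ((x j : 𝓞 L) : L) ≤ C₁ * Y' ^ w j) ∧
          (∀ u, tra (ZMod (p ^ B)) (AdjoinRoot g) (Ψ u) =
            ((Algebra.trace ℤ (𝓞 L) u : ℤ) : ZMod (p ^ B))) ∧
              ∀ b, 1 ≤ b → b ≤ B → MGood (tra (ZMod (p ^ B)) (AdjoinRoot g)) w v (b - 1 + c₀) b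
                (fun j => Ψ (x j)) (fun i j => ∑ l, (h i j l) • β l)}) ?_ _ hN0 ?_
        · rintro z ⟨hz, L, hL, x, Ψ, h1, h2, h3, h4, h5⟩
          obtain ⟨h, hh1, hh2, hh3⟩ := h5 β
          exact ⟨h, hHmem h hh1, hz, hh2, L, hL, x, Ψ, h1, h2, h3, h4, hh3⟩
        · intro h _
          by_cases hh : ∀ [DecidableEq I], IsUnit (Matrix.det (Matrix.of fun ι κ : I =>
                ((h ι (eqv κ).1 (eqv κ).2 : ℕ) : ZMod (p ^ B))))
          · obtain ⟨hf1, hf2⟩ := hC₂ Y' hY'1 hY'2 p hpp hpY g hg1 β h hh _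
              (fun z (hz : z ∈ {z | z ∈ T ∧
          (∀ [DecidableEq I], IsUnit (Matrix.det (Matrix.of fun ι κ : I =>
                ((h ι (eqv κ).1 (eqv κ).2 : ℕ) : ZMod (p ^ B))))) ∧
          ∃ (L : IntermediateField ℚ (AlgebraicClosure ℚ)) (_ : NumberField L)
          (x : σ → 𝓞 L) (Ψ : 𝓞 L →+* AdjoinRoot g),
          (∀ j, z j = (((x j : 𝓞 L) : L) : AlgebraicClosure ℚ)) ∧ finrank ℚ L = n ∧
          (∀ j, house ((x j : 𝓞 L) : L) ≤ C₁ * Y' ^ w j) ∧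
          (∀ u, tra (ZMod (p ^ B)) (AdjoinRoot g) (Ψ u) =
            ((Algebra.trace ℤ (𝓞 L) u : ℤ) : ZMod (p ^ B))) ∧
              ∀ b, 1 ≤ b → b ≤ B → MGood (tra (ZMod (p ^ B)) (AdjoinRoot g)) w v (b - 1 + c₀) b
                (fun j => Ψ (x j)) (fun i j => ∑ l, (h i j l) • β l)}) => hz.2.2)
            refine ⟨hf1, le_trans ?_ (hpN p hp)⟩
            rw [hV]
            exact_mod_cast hf2
          · refine ⟨?_, ?_⟩
            · refine Set.finite_empty.subset ?_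
              rintro z ⟨_, h1, _⟩
              exact hh h1
            · have hempty : {z | z ∈ T ∧
          (∀ [DecidableEq I], IsUnit (Matrix.det (Matrix.of fun ι κ : I =>
                ((h ι (eqv κ).1 (eqv κ).2 : ℕ) : ZMod (p ^ B))))) ∧
          ∃ (L : IntermediateField ℚ (AlgebraicClosure ℚ)) (_ : NumberField L)
          (x : σ → 𝓞 L) (Ψ : 𝓞 L →+* AdjoinRoot g),
          (∀ j, z j = (((x j : 𝓞 L) : L) : AlgebraicClosure ℚ)) ∧ finrank ℚ L = n ∧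
          (∀ j, house ((x j : 𝓞 L) : L) ≤ C₁ * Y' ^ w j) ∧
          (∀ u, tra (ZMod (p ^ B)) (AdjoinRoot g) (Ψ u) =
            ((Algebra.trace ℤ (𝓞 L) u : ℤ) : ZMod (p ^ B))) ∧
              ∀ b, 1 ≤ b → b ≤ B → MGood (tra (ZMod (p ^ B)) (AdjoinRoot g)) w v (b - 1 + c₀) b
                (fun j => Ψ (x j)) (fun i j => ∑ l, (h i j l) • β l)} = ∅ :=
                Set.eq_empty_of_subset_empty (by
                  rintro z ⟨_, h1, _⟩
                  exact hh h1)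
              rw [hempty, Set.ncard_empty]
              exact_mod_cast hN0
  refine ⟨hmain.1, hmain.2.trans ?_⟩
  have hYα : Y' ^ α ≤ (|C₂| + 2) ^ α * Y ^ α := by
    rw [← Real.mul_rpow (by positivity) hY0.le]
    exact Real.rpow_le_rpow hY'0.le hY'3 hα0
  have hYα1 : 0 ≤ Y ^ α := by positivity
  have h1 : N ≤ M * n * (C'' ^ V * (|C₂| + 2) ^ α) * Y ^ α := by
    rw [hN]
    calc (M : ℝ) * n * (C'' ^ V * Y' ^ α) ≤ M * n * (C'' ^ V * ((|C₂| + 2) ^ α * Y ^ α)) := by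
          gcongr
      _ = _ := by ring
  calc (h₀ : ℝ) * (Tn * (Hs.card * N))
      ≤ h₀ * (Tn * (Hs.card * (M * n * (C'' ^ V * (|C₂| + 2) ^ α) * Y ^ α))) := by gcongr
    _ = h₀ * (Tn * (Hs.card * (M * n * (C'' ^ V * (|C₂| + 2) ^ α)))) * Y ^ α := by ring
    _ ≤ (h₀ * (Tn * (Hs.card * (M * n * (C'' ^ V * (|C₂| + 2) ^ α)))) + 1) * Y ^ α := by
        refine mul_le_mul_of_nonneg_right ?_ hYα1
        linarith

end Pool.Agent.SNO
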