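import Mathlib
import Pool.Agent.SNO.Defs
import Pool.Agent.SNO.Basic

set_option autoImplicit false

/-!
# Module NUM

`sum_vv`: split the sum over `Option (Fin ρ) × Fin n` (`Fintype.sum_prod_type`, `Fintype.sum_option`,
`Finset.sum_range`). `exponent_bound`: write `n = q G + r`, `G = 2^ρ`, `r < G`: the sum is
`G q (q+1)/2 + r (q+1)` and `s ≥ q` if `r = 0`, `s ≥ q + 1` if `r > 0`. (Or by strong induction on
`n` with step `G`, or: pair `i` with... ; for fixed `s` induct on `n ≤ s G`.) Another way: for each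
residue `r` the sum over `i ≡ r` is `s_r (s_r + 1)/2 ≤ s_r (s + 1)/2`.
`exponent_limit`: the left side is `(1 + 1/m) (K/(2(n-d)) + 2 ρ (1 + 1/m))` and tends to
`K/(2(n-d)) + 2ρ` as `m → ∞`; choose `m` with `(K/(2(n-d)) + 6ρ + 1) / m ≤ ε`.
-/

namespace Pool.Agent.SNO

open NumberField Module MvPolynomial

theorem sum_vv (n ρ : ℕ) (w : Option (Fin ρ) → ℕ) :
    ∑ i, vv n ρ w i = w none * (∑ i ∈ Finset.range n, (i / 2 ^ ρ + 1)) +
      n * ∑ j, 2 * w (some j) := by
  rw [Fintype.sum_prod_type, Fintype.sum_option]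
  congr 1
  · simp only [vv]
    rw [← Finset.mul_sum, Finset.sum_range (fun i => i / 2 ^ ρ + 1)]
  · simp only [vv]
    rw [Finset.mul_sum]
    refine Finset.sum_congr rfl fun j _ => ?_
    simp

private lemma exponent_step (G n : ℕ) :
    ∑ i ∈ Finset.range (G + n), (i / G + 1) =
      ∑ i ∈ Finset.range G, (i / G + 1) + ∑ i ∈ Finset.range n, ((i + G) / G + 1) := by
  rw [Finset.sum_range_add]
  congr 1
  refine Finset.sum_congr rfl fun i _ => ?_
  rw [add_comm G i]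

private lemma exponent_aux (G : ℕ) (hG : 1 ≤ G) : ∀ s n : ℕ, n ≤ s * G →
    2 * ∑ i ∈ Finset.range n, (i / G + 1) ≤ n * (s + 1) := by
  intro s
  induction s with
  | zero => intro n hn; simp at hn; subst hn; simp
  | succ s ih =>
    intro n hn
    by_cases h : n ≤ G
    · have h1 : ∀ i ∈ Finset.range n, i / G + 1 = 1 := by
        intro i hi
        rw [Finset.mem_range] at hi
        rw [Nat.div_eq_of_lt (by omega)]
      rw [Finset.sum_congr rfl h1]
      simp
      nlinarith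
    · obtain ⟨k, rfl⟩ : ∃ k, n = G + k := ⟨n - G, by omega⟩
      have hk : k ≤ s * G := by
        have : (s + 1) * G = s * G + G := by ring
        omega
      have h2 := ih k hk
      rw [exponent_step]
      have h1 : ∀ i ∈ Finset.range G, i / G + 1 = 1 := by
        intro i hi
        rw [Finset.mem_range] at hi
        rw [Nat.div_eq_of_lt (by omega)]
      rw [Finset.sum_congr rfl h1]
      have h3 : ∀ i ∈ Finset.range k, (i + G) / G + 1 = (i / G + 1) + 1 := by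
        intro i _
        rw [Nat.add_div_right _ (by omega)]
      rw [Finset.sum_congr rfl h3, Finset.sum_add_distrib]
      simp only [Finset.sum_const, Finset.card_range, smul_eq_mul, mul_one]
      nlinarith

theorem exponent_bound (n ρ s : ℕ) (hs : n ≤ s * 2 ^ ρ) :
    2 * ∑ i ∈ Finset.range n, (i / 2 ^ ρ + 1) ≤ n * (s + 1) :=
  exponent_aux (2 ^ ρ) Nat.one_le_two_pow s n hs

theorem exponent_limit (n ρ d K : ℕ) (hn : 1 ≤ n) (hdn : d < n) (ε : ℝ) (hε : 0 < ε) :
    ∃ m : ℕ, 1 ≤ m ∧ (1 + 1 / (m : ℝ)) * (((n * m) * K + n * (ρ * (2 * (2 * (n - d) * (m + 1)))) :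
        ℕ) : ℝ) * (1 / (2 * n * ((n : ℝ) - d) * m)) ≤
      (K : ℝ) / (2 * ((n : ℝ) - d)) + 2 * ρ + ε := by
  have hnd : (0 : ℝ) < (n : ℝ) - d := by
    have : (d : ℝ) < n := by exact_mod_cast hdn
    linarith
  have hn0 : (0 : ℝ) < n := by exact_mod_cast hn
  set A : ℝ := (K : ℝ) / (2 * ((n : ℝ) - d)) with hA
  have hA0 : 0 ≤ A := by positivity
  obtain ⟨m, hm⟩ := exists_nat_gt ((A + 6 * ρ + 1) / ε)
  have hm0 : (0 : ℝ) < m := lt_of_le_of_lt (by positivity) hm
  have hm1 : 1 ≤ m := by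
    have : 0 < m := by exact_mod_cast hm0
    omega
  refine ⟨m, hm1, ?_⟩
  have hm1' : (1 : ℝ) ≤ m := by exact_mod_cast hm1
  have hcast : (((n * m) * K + n * (ρ * (2 * (2 * (n - d) * (m + 1)))) : ℕ) : ℝ) =
      n * m * K + n * (ρ * (2 * (2 * ((n : ℝ) - d) * (m + 1)))) := by
    push_cast [Nat.cast_sub hdn.le]
    ring
  rw [hcast]
  have key : (1 + 1 / (m : ℝ)) * (n * m * K + n * (ρ * (2 * (2 * ((n : ℝ) - d) * (m + 1))))) *
      (1 / (2 * n * ((n : ℝ) - d) * m)) = (1 + 1 / (m : ℝ)) * (A + 2 * ρ * (1 + 1 / (m : ℝ))) := by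
    rw [hA]
    field_simp
  rw [key]
  have hx : (1 / (m : ℝ)) * (A + 6 * ρ + 1) ≤ ε := by
    rw [div_lt_iff₀ hε] at hm
    rw [one_div, inv_mul_le_iff₀ hm0]
    linarith
  have hx1 : 1 / (m : ℝ) ≤ 1 := by
    rw [div_le_one hm0]; exact hm1'
  have hx0 : 0 < 1 / (m : ℝ) := by positivity
  set x : ℝ := 1 / (m : ℝ)
  have hρ : (0 : ℝ) ≤ ρ := Nat.cast_nonneg _
  nlinarith [mul_nonneg hρ (mul_nonneg hx0.le (sub_nonneg.2 hx1))]

end Pool.Agent.SNO
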