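import Mathlib
import Pool.Agent.SNO.Defs
import Pool.Agent.SNO.Basic
import Pool.Agent.SNO.COR
import Pool.Agent.SNO.CNT
import Pool.Agent.SNO.NUM

set_option autoImplicit false

/-!
# Module FIN

The final theorem.
Proof. `K = ∑_{i<n} (i / 2^ρ + 1)`. `m` from `exponent_limit n ρ d K` (for `ε`); `w none = n * m`,
`w (some j) = 2 * (n - d) * (m + 1)`, `q = 2 n (n - d) m`, `Y = X^(1/q)`: `X^(1/(2(n-d))) = Y^(w none)`,
`X^((1+1/m)/n) = Y^(w (some j))`. `v = vv n ρ w` (all `≥ 1`), `I = Option (Fin ρ) × Fin n`,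
`eqv = Equiv.refl _`. `c₀` from `tuples`, `B` from `core`, then `C, c` from `tuples` for this `B`, then the
constant of `core` for `c₁ = 2 (n-d)(m+1)`, `C₁ = C`. `T` = the set of all tuples
`z : Option (Fin ρ) → AlgebraicClosure ℚ` coming from the tuples of the fields `L` of the family;
`j₀ = some 0` (`ρ ≥ 1`). `core`: `T` finite, `card T ≤ C' Y^((1+1/m) ∑ v) = C' X^(...)`, with `sum_vv`. Each
field `L` contributes at least `c X^(ρ/2)` tuples, and a tuple determines `L = ℚ(z (some 0))`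
(disjoint sets), so the family is finite and `N c X^(ρ/2) ≤ card T`. See the end of
`Pool/Agent/UpLog/FA.lean` for the same assembly (fields as subfields of the closure, double counting).
-/

namespace Pool.Agent.SNO

open NumberField Module MvPolynomial

namespace FIN

/-- the point of the algebraic closure given by a tuple of integers -/
noncomputable def pts (L : IntermediateField ℚ (AlgebraicClosure ℚ)) {σ : Type} (x : σ → 𝓞 L) :
    σ → AlgebraicClosure ℚ := fun j => (((x j : 𝓞 L) : L) : AlgebraicClosure ℚ)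

theorem pts_injective (L : IntermediateField ℚ (AlgebraicClosure ℚ)) {σ : Type} :
    Function.Injective (pts L (σ := σ)) := by
  intro x y h
  funext j
  have := congrFun h j
  simp only [pts] at this
  exact RingOfIntegers.ext (Subtype.ext this)

/-- a generator of the field determines it -/
theorem adjoin_eq (L : IntermediateField ℚ (AlgebraicClosure ℚ)) {σ : Type} (x : σ → 𝓞 L) (j : σ)
    (h : IntermediateField.adjoin ℚ {((x j : 𝓞 L) : L)} = ⊤) :
    IntermediateField.adjoin ℚ {pts L x j} = L := by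
  have h1 := congrArg IntermediateField.lift h
  exact (IntermediateField.lift_adjoin_simple ℚ L ((x j : 𝓞 L) : L)).symm.trans
    (h1.trans (IntermediateField.lift_top ℚ L))

lemma one_le_vv (n ρ : ℕ) (w : Option (Fin ρ) → ℕ) (hw : ∀ j, 1 ≤ w j)
    (i : Option (Fin ρ) × Fin n) : 1 ≤ vv n ρ w i := by
  rcases i with ⟨_ | j, i⟩
  · exact Nat.succ_le_of_lt (Nat.mul_pos (hw none) (Nat.succ_pos _))
  · exact Nat.succ_le_of_lt (Nat.mul_pos (by norm_num) (hw (some j)))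

end FIN

theorem final (n ρ d s : ℕ) (hρ : 1 ≤ ρ) (hd : 1 ≤ d) (hdn : d < n) (hs : n ≤ s * 2 ^ ρ) (ε : ℝ)
    (hε : 0 < ε) :
    ∃ C : ℝ, 0 < C ∧ ∀ X : ℝ, 1 ≤ X →
      {L : IntermediateField ℚ (AlgebraicClosure ℚ) | finrank ℚ L = n ∧
        (∀ F : IntermediateField ℚ L, finrank ℚ F ≤ d ∨ s ≤ finrank ℚ F) ∧
        ∃ h : NumberField L, ((|@NumberField.discr L _ h| : ℤ) : ℝ) ≤ X}.Finite ∧
      ((Set.ncard {L : IntermediateField ℚ (AlgebraicClosure ℚ) | finrank ℚ L = n ∧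
        (∀ F : IntermediateField ℚ L, finrank ℚ F ≤ d ∨ s ≤ finrank ℚ F) ∧
        ∃ h : NumberField L, ((|@NumberField.discr L _ h| : ℤ) : ℝ) ≤ X} : ℕ) : ℝ) ≤
        C * X ^ (((∑ i ∈ Finset.range n, (i / 2 ^ ρ + 1) : ℕ) : ℝ) / (2 * ((n : ℝ) - d)) +
          3 / 2 * ρ + ε) := by
  classical
  have hn : 1 ≤ n := by omega
  set K : ℕ := ∑ i ∈ Finset.range n, (i / 2 ^ ρ + 1) with hK
  obtain ⟨m, hm1, hmε⟩ := exponent_limit n ρ d K hn hdn ε hε
  have hm0 : (0 : ℝ) < m := by exact_mod_cast hm1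
  have hn0 : (0 : ℝ) < n := by exact_mod_cast hn
  have hnd0 : (0 : ℝ) < (n : ℝ) - d := by
    have : (d : ℝ) < n := by exact_mod_cast hdn
    linarith
  set c₁ : ℕ := 2 * (n - d) * (m + 1) with hc₁
  have hc₁pos : 1 ≤ c₁ := by
    rw [hc₁]
    exact Nat.succ_le_of_lt (Nat.mul_pos (Nat.mul_pos (by norm_num) (by omega)) (Nat.succ_pos m))
  let w : Option (Fin ρ) → ℕ := fun j => j.elim (n * m) (fun _ => c₁)
  have hwn : w none = n * m := rfl
  have hws : ∀ j : Fin ρ, w (some j) = c₁ := fun j => rfl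
  have hw : ∀ j, 1 ≤ w j := by
    intro j
    cases j with
    | none => exact Nat.succ_le_of_lt (Nat.mul_pos hn hm1)
    | some j => exact hc₁pos
  obtain ⟨c₀, hTC⟩ := tuples n ρ d s m hd hdn hs hm1 w hw
  obtain ⟨B, hB1, hcore⟩ := core n c₀ m hn hm1 w hw (vv n ρ w) (FIN.one_le_vv n ρ w hw)
    (Equiv.refl (Option (Fin ρ) × Fin n))
  obtain ⟨Ct, ct, hCt, hct, hTC⟩ := hTC B
  obtain ⟨C, hC0, hC⟩ := hcore c₁ Ct hCt
  refine ⟨C / ct, by positivity, fun X hX => ?_⟩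
  have hX0 : (0 : ℝ) < X := by linarith
  set e : ℝ := 1 / (2 * n * ((n : ℝ) - d) * m) with he
  have he0 : 0 ≤ e := by positivity
  set Y : ℝ := X ^ e with hYdef
  have hY1 : 1 ≤ Y := Real.one_le_rpow hX he0
  have hYn : X ^ (1 / (2 * ((n : ℝ) - d))) = Y ^ w none := by
    rw [hYdef, hwn, ← Real.rpow_natCast, ← Real.rpow_mul hX0.le]
    congr 1
    rw [he]
    push_cast
    field_simp
  have hYs : X ^ ((1 + 1 / (m : ℝ)) / n) = Y ^ c₁ := by
    rw [hYdef, ← Real.rpow_natCast, ← Real.rpow_mul hX0.le]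
    congr 1
    rw [he, hc₁]
    push_cast [Nat.cast_sub hdn.le]
    field_simp
  set Ls : Set (IntermediateField ℚ (AlgebraicClosure ℚ)) :=
    {L : IntermediateField ℚ (AlgebraicClosure ℚ) | finrank ℚ L = n ∧
        (∀ F : IntermediateField ℚ L, finrank ℚ F ≤ d ∨ s ≤ finrank ℚ F) ∧
        ∃ h : NumberField L, ((|@NumberField.discr L _ h| : ℤ) : ℝ) ≤ X} with hLs
  let j₀ : Option (Fin ρ) := some ⟨0, hρ⟩
  set T : Set (Option (Fin ρ) → AlgebraicClosure ℚ) :=
    {z | ∃ (L : IntermediateField ℚ (AlgebraicClosure ℚ)) (_ : NumberField L)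
      (x : Option (Fin ρ) → 𝓞 L), finrank ℚ L = n ∧
      (∀ F : IntermediateField ℚ L, finrank ℚ F ≤ d ∨ s ≤ finrank ℚ F) ∧
      ((|discr L| : ℤ) : ℝ) ≤ X ∧ FIN.pts L x = z ∧
      house ((x none : 𝓞 L) : L) ≤ Ct * X ^ (1 / (2 * ((n : ℝ) - d))) ∧
      (∀ j, house ((x (some j) : 𝓞 L) : L) ≤ Ct * X ^ ((1 + 1 / (m : ℝ)) / n)) ∧
      (∀ j : Fin ρ, IntermediateField.adjoin ℚ {((x (some j) : 𝓞 L) : L)} = ⊤) ∧
      ∃ e : Option (Fin ρ) × Fin n → Option (Fin ρ) → 𝓞 L,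
        (∀ ι j, house ((e ι j : 𝓞 L) : L) ≤ Ct * X ^ ((1 + 1 / (m : ℝ)) / n)) ∧
        ∀ b, 1 ≤ b → b ≤ B → MGood (tra ℚ L) w (vv n ρ w) (b - 1 + c₀) b
          (fun j => ((x j : 𝓞 L) : L)) (fun ι j => ((e ι j : 𝓞 L) : L))} with hTdef
  obtain ⟨hTfin, hTle⟩ := hC Y hY1 T (by
    rintro z ⟨L, h, x, hL, hF, hdX, rfl, hx0, hxs, hgen, e', he', hg⟩
    refine ⟨L, h, x, e', j₀, fun j => rfl, hL, hgen _, ?_, ?_, hg⟩
    · intro j
      cases j with
      | none => rw [← hYn]; exact hx0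
      | some j => rw [hws, ← hYs]; exact hxs j
    · intro i j
      rw [← hYs]
      exact he' i j)
  set g : (Option (Fin ρ) → AlgebraicClosure ℚ) → IntermediateField ℚ (AlgebraicClosure ℚ) :=
    fun z => IntermediateField.adjoin ℚ {z j₀} with hg
  set T' : Finset (Option (Fin ρ) → AlgebraicClosure ℚ) := hTfin.toFinset with hT'
  have hX2 : (0 : ℝ) < X ^ ((ρ : ℝ) / 2) := by positivity
  -- every field has many points
  have hcount : ∀ L ∈ Ls, ct * X ^ ((ρ : ℝ) / 2) ≤ ((T'.filter fun z => g z = L).card : ℝ) := by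
    intro L hL
    obtain ⟨hLn, hF, h, hdX⟩ := hL
    have hd' : (|(discr L : ℤ)| : ℝ) ≤ X := by
      rw [← Int.cast_abs]; exact hdX
    refine (hTC L hLn hF X hX hd').2.trans ?_
    rw [← Set.ncard_coe_finset]
    rw [← Set.ncard_image_of_injective _ (FIN.pts_injective L (σ := Option (Fin ρ)))]
    refine Nat.cast_le.2 (Set.ncard_le_ncard ?_ (Finset.finite_toSet _))
    rintro _ ⟨x, hx, rfl⟩
    rw [Finset.coe_filter]
    refine ⟨?_, ?_⟩
    · rw [hT', Set.Finite.mem_toFinset]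
      exact ⟨L, h, x, hLn, hF, hdX, rfl, hx.1, hx.2.1, hx.2.2.1, hx.2.2.2⟩
    · exact FIN.adjoin_eq L x j₀ (hx.2.2.1 _)
  have hLfin : Ls.Finite := by
    refine (hTfin.image g).subset ?_
    intro L hL
    have h1 := hcount L hL
    have h2 : 0 < (T'.filter fun z => g z = L).card := by
      have : (0 : ℝ) < ((T'.filter fun z => g z = L).card : ℝ) := lt_of_lt_of_le (by positivity) h1
      exact_mod_cast this
    obtain ⟨z, hz⟩ := Finset.card_pos.1 h2
    rw [Finset.mem_filter] at hz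
    exact ⟨z, hTfin.mem_toFinset.1 hz.1, hz.2⟩
  refine ⟨hLfin, ?_⟩
  have hsum : ((Ls.ncard : ℕ) : ℝ) * (ct * X ^ ((ρ : ℝ) / 2)) ≤ (T.ncard : ℝ) := by
    rw [Set.ncard_eq_toFinset_card Ls hLfin, Set.ncard_eq_toFinset_card T hTfin]
    calc ((hLfin.toFinset.card : ℕ) : ℝ) * (ct * X ^ ((ρ : ℝ) / 2))
        = ∑ L ∈ hLfin.toFinset, ct * X ^ ((ρ : ℝ) / 2) := by
          rw [Finset.sum_const, nsmul_eq_mul]
      _ ≤ ∑ L ∈ hLfin.toFinset, ((T'.filter fun z => g z = L).card : ℝ) :=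
          Finset.sum_le_sum fun L hL => hcount L (hLfin.mem_toFinset.1 hL)
      _ = (T'.card : ℝ) := by
          rw [Finset.card_eq_sum_card_fiberwise (f := g) (t := hLfin.toFinset)]
          · push_cast
            rfl
          · intro z hz
            rw [Finset.mem_coe, hT', hTfin.mem_toFinset] at hz
            obtain ⟨L, h, x, hL, hF, hdX, rfl, hx0, hxs, hgen, hgood⟩ := hz
            rw [Finset.mem_coe, hLfin.mem_toFinset]
            have : g (FIN.pts L x) = L := FIN.adjoin_eq L x j₀ (hgen _)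
            rw [this]
            exact ⟨hL, hF, h, hdX⟩
  have hexp : e * ((1 + 1 / (m : ℝ)) * ((∑ i, vv n ρ w i : ℕ) : ℝ)) ≤
      (K : ℝ) / (2 * ((n : ℝ) - d)) + 2 * ρ + ε := by
    have h1 : ∑ i, vv n ρ w i = (n * m) * K + n * (ρ * (2 * (2 * (n - d) * (m + 1)))) := by
      rw [sum_vv, hwn, ← hK]
      simp only [hws, hc₁, Finset.sum_const, Finset.card_univ, Fintype.card_fin, smul_eq_mul]
    rw [h1]
    refine le_trans (le_of_eq ?_) hmε
    rw [he]
    ring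
  have hfinal : ((Ls.ncard : ℕ) : ℝ) * (ct * X ^ ((ρ : ℝ) / 2)) ≤
      C * X ^ ((K : ℝ) / (2 * ((n : ℝ) - d)) + 3 / 2 * ρ + ε) * X ^ ((ρ : ℝ) / 2) := by
    refine hsum.trans (hTle.trans ?_)
    rw [mul_assoc C]
    refine mul_le_mul_of_nonneg_left ?_ hC0.le
    rw [← Real.rpow_add hX0, hYdef, ← Real.rpow_mul hX0.le]
    apply Real.rpow_le_rpow_of_exponent_le hX
    refine hexp.trans (le_of_eq ?_)
    ring
  have h9 : ((Ls.ncard : ℕ) : ℝ) * ct ≤
      C * X ^ ((K : ℝ) / (2 * ((n : ℝ) - d)) + 3 / 2 * ρ + ε) := by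
    refine le_of_mul_le_mul_right ?_ hX2
    linarith [hfinal]
  rw [div_mul_eq_mul_div, le_div_iff₀ hct]
  exact h9

end Pool.Agent.SNO
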