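import Mathlib
import Pool.Agent.SNO.Defs
import Pool.Agent.SNO.Basic
import Pool.Agent.helper22.Final

set_option autoImplicit false

/-!
# Module XSA

Upper bound for the number of integers of bounded size in a subfield: the integers of `F` of house at
most `R` form a part of a lattice in a real space of dimension at most `d`, nonzero integers have
house at least one, so a packing argument (`Pool.Agent.helper22.doubling`) gives `(1 + 4 R) ^ d`.
-/

namespace Pool.Agent.SNO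

open NumberField Module MvPolynomial

theorem sub_count (n d : ℕ) : ∃ C : ℝ, 0 < C ∧ ∀ (L : Type) [Field L] [NumberField L],
    finrank ℚ L = n → ∀ F : IntermediateField ℚ L, finrank ℚ F ≤ d → ∀ R : ℝ, 1 ≤ R →
      {x : 𝓞 L | house ((x : 𝓞 L) : L) ≤ R ∧ ((x : 𝓞 L) : L) ∈ F}.Finite ∧
      ({x : 𝓞 L | house ((x : 𝓞 L) : L) ≤ R ∧ ((x : 𝓞 L) : L) ∈ F}.ncard : ℝ) ≤ C * R ^ d := by
  refine ⟨5 ^ d, by positivity, ?_⟩
  intro L _ _ _ F hF R hR
  have hR0 : 0 ≤ R := by linarith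
  have hfinR : {x : 𝓞 L | house ((x : 𝓞 L) : L) ≤ R ∧ ((x : 𝓞 L) : L) ∈ F}.Finite :=
    (helper22.finite_house_le L R).subset fun x hx => hx.1
  refine ⟨hfinR, ?_⟩
  let V : Submodule ℚ L := Subalgebra.toSubmodule F.toSubalgebra
  have hVF : ∀ x : L, x ∈ V ↔ x ∈ F := fun x => Iff.rfl
  have hVd : finrank ℚ V ≤ d := hF
  let f : 𝓞 L →+ ((L →+* ℂ) → ℂ) :=
    ((canonicalEmbedding L).comp (algebraMap (𝓞 L) L)).toAddMonoidHom
  have hf : ∀ x : 𝓞 L, ‖f x‖ = house (x : L) := fun x => rfl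
  let Λ : AddSubgroup (𝓞 L) := V.toAddSubgroup.comap (algebraMap (𝓞 L) L).toAddMonoidHom
  have hΛ : ∀ x : 𝓞 L, x ∈ Λ ↔ (x : L) ∈ F := fun x => Iff.rfl
  have hset : ∀ s : ℝ, {g | g ∈ Λ ∧ ‖f g‖ ≤ s} =
      {x : 𝓞 L | house ((x : 𝓞 L) : L) ≤ s ∧ ((x : 𝓞 L) : L) ∈ F} := by
    intro s
    ext x
    simp only [Set.mem_ofPred_eq, hf, hΛ]
    exact and_comm
  have hfin' : {x : 𝓞 L | house ((x : 𝓞 L) : L) ≤ 1 / 2 ∧ ((x : 𝓞 L) : L) ∈ F}.Finite :=
    (helper22.finite_house_le L (1 / 2)).subset fun x hx => hx.1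
  have hone : {x : 𝓞 L | house ((x : 𝓞 L) : L) ≤ 1 / 2 ∧ ((x : 𝓞 L) : L) ∈ F}.ncard = 1 := by
    rw [Set.ncard_eq_one]
    refine ⟨0, ?_⟩
    ext x
    simp only [Set.mem_ofPred_eq, Set.mem_singleton_iff]
    constructor
    · rintro ⟨h, _⟩
      by_contra hne
      have h1 : (x : L) ≠ 0 := by
        intro h0
        apply hne
        exact RingOfIntegers.coe_injective (by simpa using h0)
      have h2 : house (x : L) ≤ 1 / 2 := h
      have h3 : (1 : ℝ) ≤ house (x : L) := one_le_house_of_isIntegral x.2 h1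
      linarith
    · rintro rfl
      have : house ((0 : 𝓞 L) : L) = 0 := by simp [house]
      rw [this]
      refine ⟨by norm_num, ?_⟩
      simp
  have h := helper22.doubling (Submodule.span ℝ ((canonicalEmbedding L) '' (V : Set L))) f Λ
    (fun g hg => Submodule.subset_span ⟨(g : L), (hΛ g).1 hg, rfl⟩) (R := R) (t := 1 / 2)
    (by norm_num) hR0 (by rw [hset]; exact hfinR) (by rw [hset]; exact hfin')
  rw [hset, hset, hone] at h
  have e1 : finrank ℝ (Submodule.span ℝ ((canonicalEmbedding L) '' (V : Set L))) ≤ d :=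
    (helper22.finrank_span_canonical_le L V).trans hVd
  have e2 : (1 + 2 * R / (1 / 2)) = 1 + 4 * R := by ring
  rw [e2] at h
  calc ({x : 𝓞 L | house ((x : 𝓞 L) : L) ≤ R ∧ ((x : 𝓞 L) : L) ∈ F}.ncard : ℝ)
      ≤ (1 + 4 * R) ^ finrank ℝ (Submodule.span ℝ ((canonicalEmbedding L) '' (V : Set L))) *
        ((1 : ℕ) : ℝ) := h
    _ ≤ (1 + 4 * R) ^ d := by
        rw [Nat.cast_one, mul_one]
        exact pow_le_pow_right₀ (by linarith) e1
    _ ≤ (5 * R) ^ d := pow_le_pow_left₀ (by linarith) (by linarith) d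
    _ = 5 ^ d * R ^ d := mul_pow _ _ _

end Pool.Agent.SNO
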